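import Mathlib
import Pool.Agent.H3.TatePole.Ext

/-!
# Job RS-30: sums over the primes of `k` of degree one as sums over `p`

* `fib_finite`: `absNorm v.asIdeal = p` implies that `v` lies over `(p)`: inject into `primesOverFinset (span {p}) (𝓞 k)`, whose
  cardinality is at most `finrank ℚ k` (`Ideal.card_primesOverFinset_le_finrank`, see `fiber_card` in
  `Pool/Agent/H3/TatePole/Ext.lean`; `Ideal.absNorm_mem`).
* `fib_sq_sum`: Cauchy-Schwarz in the fibre: `fib U p ^ 2 ≤ finrank * ∑_{v | p} U v ^ 2`, then sum over `p`: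
  `∑_p ∑_{v : absNorm v = p} U v ^ 2 p^(-t) ≤ ∑_v U v ^ 2 (nrm v)^(-t) = wsum (U²) t` (the `v` of prime norm form a subset; `tsum` over
  the sigma type, `Equiv.sigmaFiberEquiv`, everything nonnegative).
* `fib_sum`: `wsum (U X) t = ∑_{v : prime norm} U v X v nrm^(-t) + ∑_{other v}`; the other `v` satisfy
  `nrm v ≥ p^2`, i.e. their sum is bounded by `D' ∑ nrm (below ℚ v) ^ (-2)` (`absNorm_ge_sq`, `bounded_higher_degree ℚ k`; note that
  `nrm (below ℚ v)` is a prime, or use directly `absNorm v = p ^ f`, `f ≥ 2`); for `v` of prime norm `X v = w (absNorm v)` up to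
  finitely many `v` (bounded contribution), and `∑_{v : prime norm} U v w (absNorm v) nrm^(-t) = ∑_p fib U p w p p^(-t)` exactly
  (sum over fibres, absolutely convergent).
-/

open NumberField IsDedekindDomain Filter Topology Polynomial

namespace Pool.Agent.H18.RS

open Pool.Agent.H3.TatePole

variable {k : Type*} [Field k] [NumberField k]

/-- the sum of `U` over the primes of norm `p` -/
noncomputable def fib (U : HeightOneSpectrum (𝓞 k) → ℝ) (p : ℕ) : ℝ :=
  ∑' v : {v : HeightOneSpectrum (𝓞 k) // Ideal.absNorm v.asIdeal = p}, U v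

/-- the primes containing `p` -/
theorem over_finite (p : ℕ) (hp : p.Prime) :
    Finite {v : HeightOneSpectrum (𝓞 k) // (p : 𝓞 k) ∈ v.asIdeal} ∧
    Nat.card {v : HeightOneSpectrum (𝓞 k) // (p : 𝓞 k) ∈ v.asIdeal} ≤
      Module.finrank ℚ k := by
  classical
  have hp' : Prime (p : ℤ) := Nat.prime_iff_prime_int.1 hp
  have hne : (Ideal.span {(p : ℤ)} : Ideal ℤ) ≠ ⊥ := by
    rw [Ne, Ideal.span_singleton_eq_bot]
    exact_mod_cast hp.ne_zero
  haveI hprime : (Ideal.span {(p : ℤ)} : Ideal ℤ).IsPrime :=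
    (Ideal.span_singleton_prime (by exact_mod_cast hp.ne_zero)).2 hp'
  haveI hmax : (Ideal.span {(p : ℤ)} : Ideal ℤ).IsMaximal := hprime.isMaximal hne
  have hlies : ∀ v : HeightOneSpectrum (𝓞 k), (p : 𝓞 k) ∈ v.asIdeal →
      v.asIdeal.LiesOver (Ideal.span {(p : ℤ)}) := by
    intro v hv
    refine ⟨hmax.eq_of_le ?_ ?_⟩
    · intro h
      exact v.isPrime.ne_top (Ideal.comap_eq_top_iff.1 h)
    · rw [Ideal.span_singleton_le_iff_mem]
      change algebraMap ℤ (𝓞 k) (p : ℤ) ∈ v.asIdeal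
      simpa using hv
  let f : {v : HeightOneSpectrum (𝓞 k) // (p : 𝓞 k) ∈ v.asIdeal} →
      (IsDedekindDomain.primesOverFinset (Ideal.span {(p : ℤ)}) (𝓞 k)) := fun P =>
    ⟨P.1.asIdeal, (IsDedekindDomain.mem_primesOverFinset_iff hne _).mpr
      ⟨P.1.isPrime, hlies P.1 P.2⟩⟩
  have hf : Function.Injective f := by
    intro P Q h
    apply Subtype.ext
    apply HeightOneSpectrum.ext
    exact congrArg Subtype.val h
  refine ⟨Finite.of_injective f hf, ?_⟩
  refine (Nat.card_le_card_of_injective f hf).trans ?_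
  rw [Nat.card_eq_fintype_card, Fintype.card_coe]
  exact Ideal.card_primesOverFinset_le_finrank (𝓞 k) ℚ k hne

theorem fib_mem {p : ℕ} (v : {v : HeightOneSpectrum (𝓞 k) // Ideal.absNorm v.asIdeal = p}) :
    (p : 𝓞 k) ∈ (v : HeightOneSpectrum (𝓞 k)).asIdeal := by
  have := Ideal.absNorm_mem (v : HeightOneSpectrum (𝓞 k)).asIdeal
  rwa [v.2] at this

theorem fib_finite (p : ℕ) (hp : p.Prime) :
    Finite {v : HeightOneSpectrum (𝓞 k) // Ideal.absNorm v.asIdeal = p} ∧
    Nat.card {v : HeightOneSpectrum (𝓞 k) // Ideal.absNorm v.asIdeal = p} ≤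
      Module.finrank ℚ k := by
  obtain ⟨h1, h2⟩ := over_finite (k := k) p hp
  let f : {v : HeightOneSpectrum (𝓞 k) // Ideal.absNorm v.asIdeal = p} →
      {v : HeightOneSpectrum (𝓞 k) // (p : 𝓞 k) ∈ v.asIdeal} := fun v => ⟨v.1, fib_mem v⟩
  have hf : Function.Injective f := by
    intro P Q h
    exact Subtype.ext (congrArg (fun x => x.1) h)
  exact ⟨Finite.of_injective f hf, (Nat.card_le_card_of_injective f hf).trans h2⟩

/-- the sum over the primes of `k` of prime norm as a sum over `p` -/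
theorem hasSum_fib {F : HeightOneSpectrum (𝓞 k) → ℝ} (hF : Summable F) :
    HasSum (fun p : Nat.Primes =>
      ∑' v : {v : HeightOneSpectrum (𝓞 k) // Ideal.absNorm v.asIdeal = p}, F v)
      (∑' v, open scoped Classical in if (Ideal.absNorm v.asIdeal).Prime then F v else 0) := by
  classical
  let j : (Σ p : Nat.Primes, {v : HeightOneSpectrum (𝓞 k) // Ideal.absNorm v.asIdeal = p}) →
      HeightOneSpectrum (𝓞 k) := fun x => x.2.1
  have hj : Function.Injective j := by
    rintro ⟨p, v, hv⟩ ⟨q, w, hw⟩ h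
    change v = w at h
    subst h
    have hpq : p = q := by
      apply Subtype.ext
      exact hv.symm.trans hw
    subst hpq
    rfl
  have h1 : Summable (F ∘ j) := hF.comp_injective hj
  have h2 : ∑' x, (F ∘ j) x =
      ∑' v, if (Ideal.absNorm v.asIdeal).Prime then F v else 0 := by
    rw [← hj.tsum_eq (f := fun v => if (Ideal.absNorm v.asIdeal).Prime then F v else 0)]
    · refine tsum_congr fun x => ?_
      have : (Ideal.absNorm (j x).asIdeal).Prime := by
        change (Ideal.absNorm x.2.1.asIdeal).Prime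
        rw [x.2.2]
        exact x.1.2
      rw [if_pos this]
      rfl
    · intro v hv
      have hv' : (Ideal.absNorm v.asIdeal).Prime := by
        by_contra hc
        simp [hc] at hv
      exact ⟨⟨⟨_, hv'⟩, ⟨v, rfl⟩⟩, rfl⟩
  rw [← h2]
  refine HasSum.sigma h1.hasSum (fun p => ?_)
  exact (h1.sigma_factor p).hasSum

theorem fib_sq_sum {U : HeightOneSpectrum (𝓞 k) → ℝ} (hU : Bdd U) {t : ℝ} (ht : 1 < t) :
    Summable (fun p : Nat.Primes => fib U p ^ 2 * (p : ℝ) ^ (-t)) ∧
    ∑' p : Nat.Primes, fib U p ^ 2 * (p : ℝ) ^ (-t) ≤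
      Module.finrank ℚ k * wsum (fun v => U v ^ 2) t := by
  classical
  have hU2 : Bdd (fun v => U v ^ 2) := by simpa [sq] using hU.mul hU
  have hF := hU2.summable ht
  have h1 := hasSum_fib hF
  have hle : ∀ p : Nat.Primes, fib U p ^ 2 * (p : ℝ) ^ (-t) ≤
      (Module.finrank ℚ k : ℝ) *
        ∑' v : {v : HeightOneSpectrum (𝓞 k) // Ideal.absNorm v.asIdeal = p},
          U v ^ 2 * nrm (v : HeightOneSpectrum (𝓞 k)) ^ (-t) := by
    intro p
    obtain ⟨hfin, hcard⟩ := fib_finite (k := k) p p.2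
    cases nonempty_fintype {v : HeightOneSpectrum (𝓞 k) // Ideal.absNorm v.asIdeal = p}
    unfold fib
    rw [tsum_fintype, tsum_fintype]
    have e1 : ∀ v : {v : HeightOneSpectrum (𝓞 k) // Ideal.absNorm v.asIdeal = p},
        U v ^ 2 * nrm (v : HeightOneSpectrum (𝓞 k)) ^ (-t) = U v ^ 2 * (p : ℝ) ^ (-t) := by
      intro v
      unfold nrm
      rw [v.2]
    rw [Finset.sum_congr rfl (fun v _ => e1 v), ← Finset.sum_mul, ← mul_assoc]
    refine mul_le_mul_of_nonneg_right ?_ (Real.rpow_nonneg (Nat.cast_nonneg _) _)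
    refine (sq_sum_le_card_mul_sum_sq).trans ?_
    refine mul_le_mul_of_nonneg_right ?_ (Finset.sum_nonneg fun _ _ => sq_nonneg _)
    rw [Nat.card_eq_fintype_card] at hcard
    exact_mod_cast hcard
  have hsum : Summable (fun p : Nat.Primes => fib U p ^ 2 * (p : ℝ) ^ (-t)) := by
    refine Summable.of_nonneg_of_le (fun p => ?_) hle (h1.summable.mul_left _)
    exact mul_nonneg (sq_nonneg _) (Real.rpow_nonneg (Nat.cast_nonneg _) _)
  refine ⟨hsum, ?_⟩
  refine (hsum.tsum_le_tsum hle (h1.summable.mul_left _)).trans ?_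
  rw [tsum_mul_left, h1.tsum_eq]
  refine mul_le_mul_of_nonneg_left ?_ (Nat.cast_nonneg _)
  have hnn : ∀ v : HeightOneSpectrum (𝓞 k), 0 ≤ U v ^ 2 * nrm v ^ (-t) := fun v =>
    mul_nonneg (sq_nonneg _) (Real.rpow_nonneg (nrm_pos v).le _)
  have hle2 : ∀ v : HeightOneSpectrum (𝓞 k),
      (if (Ideal.absNorm v.asIdeal).Prime then U v ^ 2 * nrm v ^ (-t) else 0) ≤
        U v ^ 2 * nrm v ^ (-t) := by
    intro v
    split_ifs
    · exact le_rfl
    · exact hnn v
  unfold wsum
  refine Summable.tsum_le_tsum hle2 ?_ hF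
  refine Summable.of_nonneg_of_le (fun v => ?_) hle2 hF
  split_ifs
  · exact hnn v
  · exact le_rfl

/-- a prime number in a prime -/
theorem exists_pr (v : HeightOneSpectrum (𝓞 k)) :
    ∃ p : Nat.Primes, ((p : ℕ) : 𝓞 k) ∈ v.asIdeal ∧
      (¬ (Ideal.absNorm v.asIdeal).Prime → ((p : ℕ) : ℝ) ^ 2 ≤ nrm v) := by
  haveI : v.asIdeal.IsMaximal := v.isMaximal
  obtain ⟨p, n, hn, hmem, hp, hpow⟩ := Ideal.exists_prime_and_absNorm_eq_pow v.asIdeal
  refine ⟨⟨p, hp⟩, hmem, fun h => ?_⟩
  have hn1 : n ≠ 1 := by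
    rintro rfl
    rw [pow_one] at hpow
    exact h (hpow ▸ hp)
  unfold nrm
  rw [hpow]
  push_cast
  exact pow_le_pow_right₀ (by exact_mod_cast hp.one_lt.le) (by omega)

/-- the sum over the primes of `k`, arranged by the prime number below -/
theorem summable_over {g : Nat.Primes → ℝ} (hg0 : ∀ p, 0 ≤ g p) (hg : Summable g) :
    Summable (fun x : (Σ p : Nat.Primes,
      {v : HeightOneSpectrum (𝓞 k) // ((p : ℕ) : 𝓞 k) ∈ v.asIdeal}) => g x.1) := by
  rw [summable_sigma_of_nonneg (fun x => hg0 x.1)]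
  constructor
  · intro p
    have := (over_finite (k := k) p p.2).1
    exact Summable.of_finite
  · have hle : ∀ p : Nat.Primes,
        ∑' _y : {v : HeightOneSpectrum (𝓞 k) // ((p : ℕ) : 𝓞 k) ∈ v.asIdeal}, g p ≤
          (Module.finrank ℚ k : ℝ) * g p := by
      intro p
      obtain ⟨hfin, hcard⟩ := over_finite (k := k) p p.2
      rw [tsum_const, nsmul_eq_mul]
      refine mul_le_mul_of_nonneg_right ?_ (hg0 p)
      exact_mod_cast hcard
    exact Summable.of_nonneg_of_le (fun p => tsum_nonneg fun _ => hg0 p) hle (hg.mul_left _)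

/-- `∑_v p(v)^(-2)` converges -/
theorem exists_pr_summable : ∃ pr : HeightOneSpectrum (𝓞 k) → Nat.Primes,
    (∀ v, ¬ (Ideal.absNorm v.asIdeal).Prime → ((pr v : ℕ) : ℝ) ^ 2 ≤ nrm v) ∧
    Summable (fun v => ((pr v : ℕ) : ℝ) ^ (-2 : ℝ)) := by
  classical
  choose pr hpr using fun v : HeightOneSpectrum (𝓞 k) => exists_pr v
  refine ⟨pr, fun v => (hpr v).2, ?_⟩
  let g : Nat.Primes → ℝ := fun p => ((p : ℕ) : ℝ) ^ (-2 : ℝ)
  have hg0 : ∀ p, 0 ≤ g p := fun p => Real.rpow_nonneg (Nat.cast_nonneg _) _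
  have hg : Summable g := Nat.Primes.summable_rpow.2 (by norm_num)
  change Summable (fun v => g (pr v))
  clear_value g
  have hi : Function.Injective (fun v : HeightOneSpectrum (𝓞 k) =>
      (⟨pr v, ⟨v, (hpr v).1⟩⟩ : (Σ p : Nat.Primes,
        {v : HeightOneSpectrum (𝓞 k) // ((p : ℕ) : 𝓞 k) ∈ v.asIdeal}))) := by
    intro v w h
    exact congrArg (fun x : (Σ p : Nat.Primes,
        {v : HeightOneSpectrum (𝓞 k) // ((p : ℕ) : 𝓞 k) ∈ v.asIdeal}) => x.2.1) h
  exact (summable_over (k := k) hg0 hg).comp_injective hi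

theorem fib_sum {U X : HeightOneSpectrum (𝓞 k) → ℝ} {w : ℕ → ℝ} {D : ℝ} (hU : Bdd U) (hX : Bdd X)
    (hw : ∀ p : ℕ, p.Prime → |w p| ≤ D)
    (hfin : {v : HeightOneSpectrum (𝓞 k) | (Ideal.absNorm v.asIdeal).Prime ∧
      X v ≠ w (Ideal.absNorm v.asIdeal)}.Finite) :
    ∃ C : ℝ, ∀ t : ℝ, 1 < t →
      |wsum (fun v => U v * X v) t - ∑' p : Nat.Primes, fib U p * w p * (p : ℝ) ^ (-t)| ≤ C := by
  classical
  obtain ⟨pr, hpr, hprs⟩ := exists_pr_summable (k := k)
  obtain ⟨A, hA⟩ := hU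
  obtain ⟨B, hB⟩ := hX
  have hD0 : 0 ≤ D := (abs_nonneg _).trans (hw 2 Nat.prime_two)
  let V : HeightOneSpectrum (𝓞 k) → ℝ := fun v =>
    if (Ideal.absNorm v.asIdeal).Prime then w (Ideal.absNorm v.asIdeal) else 0
  have hV : ∀ v, |V v| ≤ D := by
    intro v
    simp only [V]
    split_ifs with h
    · exact hw _ h
    · rw [abs_zero]; exact hD0
  have hUb : Bdd U := ⟨A, hA⟩
  have hXb : Bdd X := ⟨B, hB⟩
  have hVb : Bdd V := ⟨D, hV⟩
  -- the sum over `p`
  have e0 : ∀ t : ℝ, 1 < t → ∑' p : Nat.Primes, fib U p * w p * (p : ℝ) ^ (-t) =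
      wsum (fun v => U v * V v) t := by
    intro t ht
    have hs := (hUb.mul hVb).summable ht
    have h1 := (hasSum_fib hs).tsum_eq
    have h2 : ∀ p : Nat.Primes,
        ∑' v : {v : HeightOneSpectrum (𝓞 k) // Ideal.absNorm v.asIdeal = p},
          U v * V v * nrm (v : HeightOneSpectrum (𝓞 k)) ^ (-t) =
        fib U p * w p * (p : ℝ) ^ (-t) := by
      intro p
      have e1 : ∀ v : {v : HeightOneSpectrum (𝓞 k) // Ideal.absNorm v.asIdeal = p},
          U v * V v * nrm (v : HeightOneSpectrum (𝓞 k)) ^ (-t) =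
            U v * (w p * (p : ℝ) ^ (-t)) := by
        intro v
        have e2 : V v = w p := by
          simp only [V]
          rw [v.2, if_pos p.2]
        unfold nrm
        rw [e2, v.2]
        ring
      rw [tsum_congr e1, tsum_mul_right]
      unfold fib
      ring
    rw [← tsum_congr h2, h1]
    unfold wsum
    refine tsum_congr fun v => ?_
    split_ifs with h
    · rfl
    · simp [V, h]
  -- the majorant
  let C0 : ℝ := A * (B + D)
  let M : HeightOneSpectrum (𝓞 k) → ℝ := fun v =>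
    |C0| * ((pr v : ℕ) : ℝ) ^ (-2 : ℝ) + if v ∈ hfin.toFinset then |C0| else 0
  have hMsum : Summable M := by
    refine Summable.add (hprs.mul_left _) ?_
    exact summable_of_ne_finset_zero (s := hfin.toFinset) (fun P hP => by simp [hP])
  refine ⟨∑' v, M v, fun t ht => ?_⟩
  rw [e0 t ht]
  have s1 := (hUb.mul hXb).summable ht
  have s2 := (hUb.mul hVb).summable ht
  have e1 : wsum (fun v => U v * X v) t - wsum (fun v => U v * V v) t =
      ∑' v, U v * (X v - V v) * nrm v ^ (-t) := by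
    unfold wsum
    rw [← s1.tsum_sub s2]
    exact tsum_congr fun v => by ring
  have e2 : Summable (fun v : HeightOneSpectrum (𝓞 k) => U v * (X v - V v) * nrm v ^ (-t)) :=
    (s1.sub s2).congr fun v => by ring
  have hbound : ∀ v, ‖U v * (X v - V v) * nrm v ^ (-t)‖ ≤ M v := by
    intro v
    have hpp : 0 ≤ |C0| * ((pr v : ℕ) : ℝ) ^ (-2 : ℝ) :=
      mul_nonneg (abs_nonneg _) (Real.rpow_nonneg (Nat.cast_nonneg _) _)
    have h3 : |U v * (X v - V v)| ≤ |C0| := by
      have h4 : |X v - V v| ≤ B + D := by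
        have := abs_sub (X v) (V v)
        linarith [hB v, hV v]
      rw [abs_mul]
      exact (mul_le_mul (hA v) h4 (abs_nonneg _) ((abs_nonneg _).trans (hA v))).trans
        (le_abs_self _)
    have hle1 : nrm v ^ (-t) ≤ 1 :=
      Real.rpow_le_one_of_one_le_of_nonpos (by linarith [two_le_nrm v]) (by linarith)
    rw [norm_mul, Real.norm_eq_abs, Real.norm_of_nonneg (Real.rpow_nonneg (nrm_pos v).le _)]
    by_cases hP : (Ideal.absNorm v.asIdeal).Prime
    · by_cases hP2 : X v = w (Ideal.absNorm v.asIdeal)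
      · have : V v = X v := by simp only [V, hP, if_true, hP2]
        rw [this, sub_self, mul_zero, abs_zero, zero_mul]
        simp only [M]
        have := abs_nonneg C0
        split_ifs <;> linarith
      · have hmem : v ∈ hfin.toFinset := by simp [hP, hP2]
        simp only [M, hmem, if_true]
        have h4 : |U v * (X v - V v)| * nrm v ^ (-t) ≤ |C0| * 1 :=
          mul_le_mul h3 hle1 (Real.rpow_nonneg (nrm_pos _).le _) (abs_nonneg _)
        linarith
    · have h5 := hpr v hP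
      have hpos : (0 : ℝ) < ((pr v : ℕ) : ℝ) := by exact_mod_cast (pr v).2.pos
      have h6 : nrm v ^ (-t) ≤ ((pr v : ℕ) : ℝ) ^ (-2 : ℝ) := by
        calc nrm v ^ (-t) ≤ nrm v ^ (-1 : ℝ) :=
              Real.rpow_le_rpow_of_exponent_le (by linarith [two_le_nrm v]) (by linarith)
          _ ≤ (((pr v : ℕ) : ℝ) ^ 2) ^ (-1 : ℝ) := by
              apply Real.rpow_le_rpow_of_nonpos _ h5 (by norm_num)
              exact pow_pos hpos 2
          _ = ((pr v : ℕ) : ℝ) ^ (-2 : ℝ) := by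
              rw [← Real.rpow_natCast, ← Real.rpow_mul hpos.le]
              norm_num
      have h7 : |U v * (X v - V v)| * nrm v ^ (-t) ≤ |C0| * ((pr v : ℕ) : ℝ) ^ (-2 : ℝ) :=
        mul_le_mul h3 h6 (Real.rpow_nonneg (nrm_pos _).le _) (abs_nonneg _)
      simp only [M]
      have := abs_nonneg C0
      split_ifs <;> linarith
  rw [e1, ← Real.norm_eq_abs]
  calc ‖∑' v, U v * (X v - V v) * nrm v ^ (-t)‖
      ≤ ∑' v, ‖U v * (X v - V v) * nrm v ^ (-t)‖ := norm_tsum_le_tsum_norm e2.norm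
    _ ≤ ∑' v, M v := e2.norm.tsum_le_tsum hbound hMsum

end Pool.Agent.H18.RS
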