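import Mathlib

/-!
# Rankin-Selberg: notation
-/

open UpperHalfPlane MeasureTheory CongruenceSubgroup
open scoped MatrixGroups Modular

namespace Pool.Agent.H18.RS

noncomputable section

/-- `|c z + d| ^ 2` -/
def nsq (z : ℍ) (v : ℤ × ℤ) : ℝ := ((v.1 : ℝ) * z.re + v.2) ^ 2 + ((v.1 : ℝ) * z.im) ^ 2

/-- the weight `(y / |c z + d| ^ 2) ^ σ`; it is `0` at `(c, d) = (0, 0)` when `σ ≠ 0` -/
def wt (z : ℍ) (σ : ℝ) (v : ℤ × ℤ) : ℝ := (z.im / nsq z v) ^ σ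

/-- the strip `0 ≤ Re z < 1` -/
def strip : Set ℍ := {z | 0 ≤ z.re ∧ z.re < 1}

/-- the bottom row of a matrix mod `M` -/
def row (M : ℕ) (γ : SL(2, ℤ)) : ZMod M × ZMod M := ((γ 1 0 : ZMod M), (γ 1 1 : ZMod M))

/-- the value of `Φ` at `γ • z` for a `γ` with bottom row `r` mod `M` (and `0` if there is none) -/
def rowFun (M : ℕ) (Φ : ℍ → ℂ) (r : ZMod M × ZMod M) (z : ℍ) : ℂ :=
  open scoped Classical in
  if h : ∃ γ : SL(2, ℤ), row M γ = r then Φ (h.choose • z) else 0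

/-- a pair of integers mod `M` -/
def red (M : ℕ) (v : ℤ × ℤ) : ZMod M × ZMod M := ((v.1 : ZMod M), (v.2 : ZMod M))

/-- the restricted zeta value `∑ e ^ (-2σ)` over `e` prime to `M` -/
def zM (M : ℕ) (σ : ℝ) : ℝ := ∑' e : ℕ, if e.Coprime M then (e : ℝ) ^ (-(2 * σ)) else 0

/-- `e(n z) = exp (2 π i n z)` -/
def ee (n : ℕ) (z : ℍ) : ℂ := Complex.exp (2 * Real.pi * Complex.I * n * z)

/-- the point `q z` -/
def mulPt (q : ℕ) (hq : 0 < q) (z : ℍ) : ℍ :=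
  ⟨(q : ℂ) * z, by
    have h : (0 : ℝ) < q := Nat.cast_pos.mpr hq
    simpa using mul_pos h z.im_pos⟩

/-- What is used of an eigenform: the expansion, the transformation law of weight `2` under
`Γ₀(N)`, the boundedness of `y |f|` and the decay at the cusps. -/
structure Datum (N : ℕ) (f : ℍ → ℂ) (a : ℕ → ℝ) : Prop where
  cont : Continuous f
  expansion : ∀ z : ℍ, HasSum (fun n : ℕ => (a n : ℂ) * ee n z) (f z)
  zero : a 0 = 0
  modular : ∀ γ ∈ Gamma0 N, ∀ z : ℍ, f (γ • z) = ((γ 1 0 : ℂ) * z + (γ 1 1 : ℂ)) ^ 2 * f z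
  bound : ∃ C : ℝ, ∀ z : ℍ, z.im * ‖f z‖ ≤ C
  decay : ∃ C : ℝ, ∀ γ : SL(2, ℤ), ∀ z ∈ 𝒟, (γ • z).im * ‖f (γ • z)‖ * z.im ^ 4 ≤ C

/-- the Hecke relations of level `N` -/
structure Hecke (N : ℕ) (a : ℕ → ℝ) : Prop where
  zero : a 0 = 0
  one : a 1 = 1
  rel : ∀ p : ℕ, p.Prime → ∀ n : ℕ,
    a p * a n = a (p * n) + if p ∣ N then 0 else if p ∣ n then p * a (n / p) else 0

end

end Pool.Agent.H18.RS
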