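import Mathlib
import Pool.Agent.H18.RS.Basic

/-!
# Decay of a cusp form at all cusps (job RS-02)
-/

open Filter Topology Asymptotics Matrix.SpecialLinearGroup Matrix.GeneralLinearGroup
open UpperHalfPlane hiding I
open Matrix hiding mul_smul
open MeasureTheory CongruenceSubgroup
open scoped Modular MatrixGroups ComplexConjugate ModularForm
open ConjAct Pointwise

namespace Pool.Agent.H18.RS

lemma exp_le_rpow {a : ℝ} (ha : 0 < a) :
    (fun τ : ℍ => Real.exp (-a * τ.im)) =O[atImInfty] fun τ : ℍ => τ.im ^ (-8 : ℝ) := by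
  refine IsBigO.comp_tendsto (f := fun t : ℝ ↦ Real.exp (-a * t))
     (g := fun t : ℝ ↦ t ^ (-8 : ℝ)) ?_ tendsto_comap
  exact (isLittleO_exp_neg_mul_rpow_atTop ha (-8)).isBigO

lemma decay_one {Γ : Subgroup (GL (Fin 2) ℝ)} [Γ.IsArithmetic] (f : CuspForm Γ 2)
    (g : SL(2, ℤ)) :
    ∃ F : ℝ, ∀ z ∈ 𝒟, ‖petersson 2 f f (g • z)‖ ≤ F * z.im ^ (-8 : ℝ) := by
  have : ((toConjAct (g : GL (Fin 2) ℝ)⁻¹) • Γ).IsArithmetic := by
    simpa [(show Rat.castHom ℝ = algebraMap ℚ ℝ by rfl), map_inv, map_mapGL]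
      using! Subgroup.IsArithmetic.conj Γ (mapGL ℚ g)⁻¹
  obtain ⟨a, ha, hb⟩ := (CuspFormClass.zero_at_infty <| CuspForm.translate f g).petersson_exp_decay_left 2
    ((toConjAct (g : GL (Fin 2) ℝ)⁻¹) • Γ) (CuspForm.translate f g)
  have hb' := hb.trans (exp_le_rpow ha)
  have h1 : ∀ z : ℍ, petersson 2 f f (g • z) =
      petersson 2 (CuspForm.translate f g) (CuspForm.translate f g) z := by
    intro z
    rw [← petersson_slash_SL]
    rfl
  obtain ⟨F, hF⟩ := ModularGroup.exists_bound_fundamental_domain_of_isBigO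
    (f := fun z => petersson 2 (CuspForm.translate f g) (CuspForm.translate f g) z)
    (by fun_prop) hb'
  exact ⟨F, fun z hz => by rw [h1]; exact hF z hz⟩

theorem decay_of_cuspForm {N : ℕ} (hN : 0 < N)
    (f : CuspForm (Gamma0 N : Subgroup (GL (Fin 2) ℝ)) 2) :
    ∃ C : ℝ, ∀ γ : SL(2, ℤ), ∀ z ∈ 𝒟, (γ • z).im * ‖f (γ • z)‖ * z.im ^ 4 ≤ C := by
  have : NeZero N := ⟨hN.ne'⟩
  have hfin : Finite (SL(2, ℤ) ⧸ Gamma0 N) := Subgroup.finite_quotient_of_finiteIndex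
  cases nonempty_fintype (SL(2, ℤ) ⧸ Gamma0 N)
  have h1 : ∀ c : SL(2, ℤ) ⧸ Gamma0 N, ∃ F : ℝ, ∀ z ∈ 𝒟,
      ‖petersson 2 f f ((Quotient.out c)⁻¹ • z)‖ ≤ F * z.im ^ (-8 : ℝ) :=
    fun c => decay_one f _
  choose F hF using h1
  refine ⟨Real.sqrt (∑ c, |F c|), fun γ z hz => ?_⟩
  -- the representative
  set c : SL(2, ℤ) ⧸ Gamma0 N := QuotientGroup.mk γ⁻¹ with hc
  have h2 : (Quotient.out c)⁻¹ * γ⁻¹ ∈ Gamma0 N := by
    rw [← QuotientGroup.eq]
    exact QuotientGroup.out_eq' c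
  have h3 : ‖petersson 2 f f (γ • z)‖ ≤ F c * z.im ^ (-8 : ℝ) := by
    have h4 := hF c z hz
    have h5 : (Quotient.out c)⁻¹ • z = ((Quotient.out c)⁻¹ * γ⁻¹) • (γ • z) := by
      rw [← mul_smul, inv_mul_cancel_right]
    rw [h5] at h4
    have h6 : ‖petersson 2 f f (((Quotient.out c)⁻¹ * γ⁻¹) • (γ • z))‖ =
        ‖petersson 2 f f (γ • z)‖ := by
      exact SlashInvariantFormClass.norm_petersson_smul
        (g := mapGL ℝ ((Quotient.out c)⁻¹ * γ⁻¹)) (Subgroup.mem_map_of_mem _ h2)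
    rw [h6] at h4
    exact h4
  have hy := z.im_pos
  have hgy := (γ • z).im_pos
  have h7 : ‖petersson 2 f f (γ • z)‖ = ((γ • z).im * ‖f (γ • z)‖) ^ 2 := by
    unfold petersson
    rw [norm_mul, norm_mul, Complex.norm_conj, norm_zpow, Complex.norm_real,
      Real.norm_of_nonneg hgy.le]
    norm_cast
    ring
  rw [h7] at h3
  have h8 : F c ≤ ∑ c, |F c| :=
    (le_abs_self _).trans (Finset.single_le_sum (f := fun c => |F c|)
      (fun _ _ => abs_nonneg _) (Finset.mem_univ c))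
  apply Real.le_sqrt_of_sq_le
  have h9 : z.im ^ (-8 : ℝ) * (z.im ^ 4) ^ 2 = 1 := by
    rw [← pow_mul, ← Real.rpow_natCast, ← Real.rpow_add hy]
    norm_num
  calc ((γ • z).im * ‖f (γ • z)‖ * z.im ^ 4) ^ 2
      = ((γ • z).im * ‖f (γ • z)‖) ^ 2 * (z.im ^ 4) ^ 2 := by ring
    _ ≤ (F c * z.im ^ (-8 : ℝ)) * (z.im ^ 4) ^ 2 :=
        mul_le_mul_of_nonneg_right h3 (by positivity)
    _ = F c := by rw [mul_assoc, h9, mul_one]
    _ ≤ ∑ c, |F c| := h8

end Pool.Agent.H18.RS
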