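import Mathlib

/-!
# Job RS-06: the local Rankin-Selberg identity

All series converge absolutely by Cauchy-Schwarz (`|α_k β_k| x^k ≤ (α_k² + β_k²) x^k / 2`); for `x = 0` the
claim is `1 * 1 = 1`; for `x > 0` also the shifted series converge (`α_{k+1}² x^k` is `x⁻¹ α_{k+1}² x^{k+1}`).
Put `L = ∑ α_k β_k x^k`, `U = ∑ α_{k+1} β_k x^k`, `V = ∑ α_k β_{k+1} x^k`, `W = ∑ α_{k+1} β_{k+1} x^k`.
From `tsum_eq_zero_add` and the recurrences:
`L = 1 + x W`, `U = a + x (a W - c V)`, `V = b + x (b W - d U)`, `W = a b + x (a b W - a d U - b c V + c d L)`.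
So `U = a L - c x V`, `V = b L - d x U`; eliminate: `(1 - c d x²) U = (a - b c x) L`,
`(1 - c d x²) V = (b - a d x) L`, and `(L - 1)(1 - c d x²) = ...` gives `L * locP = (1 - c d x²)` after
cancelling nothing (multiply `L - 1 = a b x L - a d x² U - b c x² V + c d x² L` by `1 - c d x²`):
`L * locP a b c d x = 1 - c d x²` (`linear_combination`).
-/

open UpperHalfPlane MeasureTheory CongruenceSubgroup
open scoped MatrixGroups Modular ComplexConjugate

namespace Pool.Agent.H18.RS

/-- the denominator of the local factor -/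
noncomputable def locP (a b c d x : ℝ) : ℝ :=
  1 - a * b * x + (a ^ 2 * d + b ^ 2 * c - 2 * c * d) * x ^ 2 - a * b * c * d * x ^ 3 +
    c ^ 2 * d ^ 2 * x ^ 4

theorem sum_mul_of_sq {u v : ℕ → ℝ} {x : ℝ} (hx : 0 ≤ x)
    (hu : Summable fun k => u k ^ 2 * x ^ k) (hv : Summable fun k => v k ^ 2 * x ^ k) :
    Summable fun k => u k * v k * x ^ k := by
  refine Summable.of_norm_bounded (hu.add hv) fun k => ?_
  have h0 : 0 ≤ x ^ k := pow_nonneg hx k
  rw [norm_mul, norm_mul, Real.norm_eq_abs, Real.norm_eq_abs, Real.norm_eq_abs, abs_of_nonneg h0,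
    ← add_mul]
  refine mul_le_mul_of_nonneg_right ?_ h0
  nlinarith [sq_nonneg (|u k| - |v k|), sq_abs (u k), sq_abs (v k), sq_nonneg (u k),
    sq_nonneg (v k)]

theorem sum_shift_sq {u : ℕ → ℝ} {x : ℝ} (hx : 0 < x) (hu : Summable fun k => u k ^ 2 * x ^ k) :
    Summable fun k => u (k + 1) ^ 2 * x ^ k := by
  have h := ((summable_nat_add_iff 1).2 hu).mul_right x⁻¹
  refine h.congr fun k => ?_
  have hx' : x ≠ 0 := hx.ne'
  field_simp
  ring

theorem local_identity {α β : ℕ → ℝ} {a b c d x : ℝ} (hα0 : α 0 = 1) (hα1 : α 1 = a)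
    (hα : ∀ k, α (k + 2) = a * α (k + 1) - c * α k) (hβ0 : β 0 = 1) (hβ1 : β 1 = b)
    (hβ : ∀ k, β (k + 2) = b * β (k + 1) - d * β k) (hx : 0 ≤ x)
    (hsα : Summable fun k => α k ^ 2 * x ^ k) (hsβ : Summable fun k => β k ^ 2 * x ^ k) :
    Summable (fun k => α k * β k * x ^ k) ∧
      (∑' k, α k * β k * x ^ k) * locP a b c d x = 1 - c * d * x ^ 2 := by
  have hsL := sum_mul_of_sq hx hsα hsβ
  refine ⟨hsL, ?_⟩
  rcases hx.eq_or_lt with h | h
  · subst h
    have : ∑' k, α k * β k * (0 : ℝ) ^ k = 1 := by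
      rw [tsum_eq_single 0 (fun k hk => by simp [hk])]
      simp [hα0, hβ0]
    rw [this, locP]
    ring
  · have hsα' := sum_shift_sq h hsα
    have hsβ' := sum_shift_sq h hsβ
    have hsU := sum_mul_of_sq hx hsα' hsβ
    have hsV := sum_mul_of_sq hx hsα hsβ'
    have hsW := sum_mul_of_sq hx hsα' hsβ'
    have e1 : ∑' k, α k * β k * x ^ k = 1 + x * ∑' k, α (k + 1) * β (k + 1) * x ^ k := by
      rw [hsL.tsum_eq_zero_add, ← tsum_mul_left, hα0, hβ0]
      congr 1
      · simp
      · exact tsum_congr fun k => by ring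
    have e2 : ∑' k, α (k + 1) * β k * x ^ k = a + x * (a * ∑' k, α (k + 1) * β (k + 1) * x ^ k -
        c * ∑' k, α k * β (k + 1) * x ^ k) := by
      rw [hsU.tsum_eq_zero_add, ← tsum_mul_left, ← tsum_mul_left,
        ← (hsW.mul_left a).tsum_sub (hsV.mul_left c), ← tsum_mul_left]
      congr 1
      · simp [hα1, hβ0]
      · exact tsum_congr fun k => by rw [hα]; ring
    have e3 : ∑' k, α k * β (k + 1) * x ^ k = b + x * (b * ∑' k, α (k + 1) * β (k + 1) * x ^ k -
        d * ∑' k, α (k + 1) * β k * x ^ k) := by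
      rw [hsV.tsum_eq_zero_add, ← tsum_mul_left, ← tsum_mul_left,
        ← (hsW.mul_left b).tsum_sub (hsU.mul_left d), ← tsum_mul_left]
      congr 1
      · simp [hα0, hβ1]
      · exact tsum_congr fun k => by rw [hβ]; ring
    have e4 : ∑' k, α (k + 1) * β (k + 1) * x ^ k = a * b +
        x * (a * b * ∑' k, α (k + 1) * β (k + 1) * x ^ k -
        a * d * ∑' k, α (k + 1) * β k * x ^ k - (b * c * ∑' k, α k * β (k + 1) * x ^ k -
        c * d * ∑' k, α k * β k * x ^ k)) := by
      have hR : a * b * ∑' k, α (k + 1) * β (k + 1) * x ^ k -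
          a * d * ∑' k, α (k + 1) * β k * x ^ k - (b * c * ∑' k, α k * β (k + 1) * x ^ k -
          c * d * ∑' k, α k * β k * x ^ k) = ∑' k, α (k + 2) * β (k + 2) * x ^ k := by
        rw [← tsum_mul_left, ← tsum_mul_left, ← tsum_mul_left,
          ← tsum_mul_left, ← (hsW.mul_left _).tsum_sub (hsU.mul_left _),
          ← (hsV.mul_left _).tsum_sub (hsL.mul_left _),
          ← ((hsW.mul_left _).sub (hsU.mul_left _)).tsum_sub ((hsV.mul_left _).sub (hsL.mul_left _))]
        exact tsum_congr fun k => by rw [hα, hβ]; ring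
      rw [hR, hsW.tsum_eq_zero_add, ← tsum_mul_left]
      congr 1
      · simp [hα1, hβ1]
      · exact tsum_congr fun k => by ring
    generalize ∑' k, α k * β k * x ^ k = L at *
    generalize ∑' k, α (k + 1) * β k * x ^ k = U at *
    generalize ∑' k, α k * β (k + 1) * x ^ k = V at *
    generalize ∑' k, α (k + 1) * β (k + 1) * x ^ k = W at *
    have hU : U = a * L - c * x * V := by rw [e2, e1]; ring
    have hV : V = b * L - d * x * U := by rw [e3, e1]; ring
    have hU' : U * (1 - c * d * x ^ 2) = (a - b * c * x) * L := by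
      linear_combination hU - c * x * hV
    have hV' : V * (1 - c * d * x ^ 2) = (b - a * d * x) * L := by
      linear_combination hV - d * x * hU
    have hE : L - 1 = a * b * x * L - a * d * x ^ 2 * U - b * c * x ^ 2 * V + c * d * x ^ 2 * L := by
      linear_combination e1 + x * e4 - a * b * x * e1
    rw [locP]
    linear_combination (1 - c * d * x ^ 2) * hE - a * d * x ^ 2 * hU' - b * c * x ^ 2 * hV'

end Pool.Agent.H18.RS
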