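import Mathlib
import Pool.Agent.H18.RS.LocalId

/-!
# Job RS-07: lower bounds for the local factors

Let `P = locP a b c d`. For `0 ≤ x < p⁻²` the series converges and `L(x) P(x) = 1 - c d x² ≥ 1 - p² x² ≥ 3/4 > 0`
(`p² x² = (x p²) x ≤ x < p⁻² ≤ 1/4`), so `P` has no zero on `[0, x]`; `P(0) = 1`; by the intermediate value
theorem `P(x) > 0` (`intermediate_value_Icc'`; `P` is a polynomial, `continuity`/`fun_prop`).
* `local_lower`: `P(x) ≤ K := 1 + |a b| + |a² d + b² c - 2 c d| + |a b c d| + c² d²` for `0 ≤ x ≤ 1`, so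
  `L(x) = (1 - c d x²) / P(x) ≥ (3/4) / K`.
* `local_exp` (`c = d = p`): `P(x) ≤ 1 - a b x + 11 / p² ≤ exp (-a b x + 11 / p²)` because
  `(a² + b²) p ≤ 8 p²`, `|a b| ≤ 4 p`, `x ≤ p⁻²`: `(a² p + b² p - 2 p²) x² ≤ 6 p² x² ≤ 6 / p²`,
  `|a b| p² x³ ≤ 4 p³ x³ ≤ 4 / p³ ≤ 2 / p²`, `p⁴ x⁴ ≤ 1 / p⁴ ≤ 1 / p²`; and
  `1 - p² x² ≥ 1 - p⁻² ≥ exp (-2 / p²)` (for `0 ≤ t ≤ 1/2`: `exp (-2 t) ≤ 1 - t`). So `L = (1 - p² x²) / P ≥
  exp (-2 / p²) exp (a b x - 11 / p²)`.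
-/

open UpperHalfPlane MeasureTheory CongruenceSubgroup
open scoped MatrixGroups Modular ComplexConjugate

namespace Pool.Agent.H18.RS

theorem cdx_le {c d p x : ℝ} (hp : 2 ≤ p) (_hc : 0 ≤ c) (hcp : c ≤ p) (hd : 0 ≤ d) (hdp : d ≤ p)
    (hx : 0 ≤ x) (hxp : x * p ^ 2 < 1) : c * d * x ^ 2 ≤ 1 / 4 := by
  have hp4 : 4 ≤ p ^ 2 := by nlinarith
  have hx4 : x ≤ 1 / 4 := by nlinarith
  have h1 : c * d ≤ p * p := mul_le_mul hcp hdp hd (by linarith)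
  have h2 : c * d * x ^ 2 ≤ p * p * x ^ 2 := mul_le_mul_of_nonneg_right h1 (sq_nonneg x)
  have h3 : p * p * x ^ 2 = (x * p ^ 2) * x := by ring
  have h4 : (x * p ^ 2) * x ≤ 1 * x := mul_le_mul_of_nonneg_right hxp.le hx
  linarith

theorem locP_pos {α β : ℕ → ℝ} {a b c d p : ℝ} (hp : 2 ≤ p) (hc : 0 ≤ c) (hcp : c ≤ p)
    (hd : 0 ≤ d) (hdp : d ≤ p) (hα0 : α 0 = 1) (hα1 : α 1 = a)
    (hα : ∀ k, α (k + 2) = a * α (k + 1) - c * α k) (hβ0 : β 0 = 1) (hβ1 : β 1 = b)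
    (hβ : ∀ k, β (k + 2) = b * β (k + 1) - d * β k)
    (hsα : ∀ x : ℝ, 0 ≤ x → x * p ^ 2 < 1 → Summable fun k => α k ^ 2 * x ^ k)
    (hsβ : ∀ x : ℝ, 0 ≤ x → x * p ^ 2 < 1 → Summable fun k => β k ^ 2 * x ^ k)
    (x : ℝ) (hx : 0 ≤ x) (hxp : x * p ^ 2 < 1) : 0 < locP a b c d x := by
  by_contra hneg
  push Not at hneg
  have hcont : ContinuousOn (fun y => locP a b c d y) (Set.Icc 0 x) := by
    unfold locP
    fun_prop
  have h0 : locP a b c d 0 = 1 := by simp [locP]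
  have hmem : (0 : ℝ) ∈ Set.Icc (locP a b c d x) (locP a b c d 0) := by
    rw [h0]
    exact ⟨hneg, zero_le_one⟩
  obtain ⟨y, hy, hy0⟩ := intermediate_value_Icc' hx hcont hmem
  have hyp : y * p ^ 2 < 1 :=
    lt_of_le_of_lt (mul_le_mul_of_nonneg_right hy.2 (sq_nonneg p)) hxp
  have hid := (local_identity hα0 hα1 hα hβ0 hβ1 hβ hy.1 (hsα y hy.1 hyp) (hsβ y hy.1 hyp)).2
  have hy0' : locP a b c d y = 0 := hy0
  rw [hy0', mul_zero] at hid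
  have := cdx_le hp hc hcp hd hdp hy.1 hyp
  linarith

theorem local_lower {α β : ℕ → ℝ} {a b c d p : ℝ} (hp : 2 ≤ p) (hc : 0 ≤ c) (hcp : c ≤ p)
    (hd : 0 ≤ d) (hdp : d ≤ p) (hα0 : α 0 = 1) (hα1 : α 1 = a)
    (hα : ∀ k, α (k + 2) = a * α (k + 1) - c * α k) (hβ0 : β 0 = 1) (hβ1 : β 1 = b)
    (hβ : ∀ k, β (k + 2) = b * β (k + 1) - d * β k)
    (hsα : ∀ x : ℝ, 0 ≤ x → x * p ^ 2 < 1 → Summable fun k => α k ^ 2 * x ^ k)
    (hsβ : ∀ x : ℝ, 0 ≤ x → x * p ^ 2 < 1 → Summable fun k => β k ^ 2 * x ^ k) :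
    ∃ c₀ : ℝ, 0 < c₀ ∧ ∀ x : ℝ, 0 ≤ x → x * p ^ 2 < 1 → c₀ ≤ ∑' k, α k * β k * x ^ k := by
  have hK : 0 < 1 + |a * b| + |a ^ 2 * d + b ^ 2 * c - 2 * c * d| + |a * b * c * d| +
      c ^ 2 * d ^ 2 := by positivity
  refine ⟨3 / 4 / (1 + |a * b| + |a ^ 2 * d + b ^ 2 * c - 2 * c * d| + |a * b * c * d| +
      c ^ 2 * d ^ 2), by positivity, fun x hx hxp => ?_⟩
  have hid := (local_identity hα0 hα1 hα hβ0 hβ1 hβ hx (hsα x hx hxp) (hsβ x hx hxp)).2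
  have hP := locP_pos hp hc hcp hd hdp hα0 hα1 hα hβ0 hβ1 hβ hsα hsβ x hx hxp
  have hcd := cdx_le hp hc hcp hd hdp hx hxp
  have hx1 : x ≤ 1 := by nlinarith
  have hx2 : x ^ 2 ≤ 1 := pow_le_one₀ hx hx1
  have hx3 : x ^ 3 ≤ 1 := pow_le_one₀ hx hx1
  have hx4 : x ^ 4 ≤ 1 := pow_le_one₀ hx hx1
  have hPK : locP a b c d x ≤ 1 + |a * b| + |a ^ 2 * d + b ^ 2 * c - 2 * c * d| +
      |a * b * c * d| + c ^ 2 * d ^ 2 := by
    unfold locP
    have h1 : -(a * b * x) ≤ |a * b| := by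
      have : -(a * b) * x ≤ |a * b| * x := mul_le_mul_of_nonneg_right (neg_le_abs _) hx
      nlinarith [abs_nonneg (a * b)]
    have h2 : (a ^ 2 * d + b ^ 2 * c - 2 * c * d) * x ^ 2 ≤
        |a ^ 2 * d + b ^ 2 * c - 2 * c * d| := by
      have := mul_le_mul_of_nonneg_right (le_abs_self (a ^ 2 * d + b ^ 2 * c - 2 * c * d))
        (pow_nonneg hx 2)
      nlinarith [abs_nonneg (a ^ 2 * d + b ^ 2 * c - 2 * c * d)]
    have h3 : -(a * b * c * d * x ^ 3) ≤ |a * b * c * d| := by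
      have := mul_le_mul_of_nonneg_right (neg_le_abs (a * b * c * d)) (pow_nonneg hx 3)
      nlinarith [abs_nonneg (a * b * c * d)]
    have h4 : c ^ 2 * d ^ 2 * x ^ 4 ≤ c ^ 2 * d ^ 2 := by
      nlinarith [mul_nonneg (sq_nonneg c) (sq_nonneg d)]
    linarith
  have hL : 0 < ∑' k, α k * β k * x ^ k := by
    by_contra hneg
    push Not at hneg
    have := mul_nonpos_of_nonpos_of_nonneg hneg hP.le
    linarith
  rw [div_le_iff₀ hK]
  have := mul_le_mul_of_nonneg_left hPK hL.le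
  linarith

theorem local_exp {α β : ℕ → ℝ} {a b p : ℝ} (hp : 2 ≤ p) (ha : a ^ 2 ≤ 4 * p) (hb : b ^ 2 ≤ 4 * p)
    (hα0 : α 0 = 1) (hα1 : α 1 = a)
    (hα : ∀ k, α (k + 2) = a * α (k + 1) - p * α k) (hβ0 : β 0 = 1) (hβ1 : β 1 = b)
    (hβ : ∀ k, β (k + 2) = b * β (k + 1) - p * β k)
    (hsα : ∀ x : ℝ, 0 ≤ x → x * p ^ 2 < 1 → Summable fun k => α k ^ 2 * x ^ k)
    (hsβ : ∀ x : ℝ, 0 ≤ x → x * p ^ 2 < 1 → Summable fun k => β k ^ 2 * x ^ k) :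
    ∀ x : ℝ, 0 ≤ x → x * p ^ 2 < 1 →
      Real.exp (a * b * x - 13 / p ^ 2) ≤ ∑' k, α k * β k * x ^ k := by
  intro x hx hxp
  have hp0 : 0 < p := by linarith
  have hid := (local_identity hα0 hα1 hα hβ0 hβ1 hβ hx (hsα x hx hxp) (hsβ x hx hxp)).2
  have hP := locP_pos hp hp0.le le_rfl hp0.le le_rfl hα0 hα1 hα hβ0 hβ1 hβ hsα hsβ x hx hxp
  obtain ⟨y, hy⟩ : ∃ y, y = x * p ^ 2 := ⟨_, rfl⟩
  obtain ⟨t, ht⟩ : ∃ t, t = 1 / p ^ 2 := ⟨_, rfl⟩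
  have hp4 : 4 ≤ p ^ 2 := by nlinarith
  have ht0 : 0 < t := by rw [ht]; positivity
  have htp : t * p ^ 2 = 1 := by rw [ht]; field_simp
  have ht4 : t ≤ 1 / 4 := by
    rw [ht]
    exact one_div_le_one_div_of_le (by norm_num) hp4
  have hxy : x = y * t := by rw [hy]; linear_combination -x * htp
  have hy0 : 0 ≤ y := by rw [hy]; positivity
  have hy1 : y < 1 := by rw [hy]; exact hxp
  have hy2 : y ^ 2 ≤ 1 := pow_le_one₀ hy0 hy1.le
  have hy3 : y ^ 3 ≤ 1 := pow_le_one₀ hy0 hy1.le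
  have hy4 : y ^ 4 ≤ 1 := pow_le_one₀ hy0 hy1.le
  have hpx : p ^ 2 * x ^ 2 ≤ t := by
    have : p ^ 2 * x ^ 2 = y ^ 2 * t := by rw [hxy]; linear_combination y ^ 2 * t * htp
    rw [this]
    nlinarith
  have hpx0 : 0 ≤ p ^ 2 * x ^ 2 := by positivity
  have hab : |a * b| ≤ 4 * p := by
    refine abs_le_of_sq_le_sq ?_ (by linarith)
    have : (a * b) ^ 2 = a ^ 2 * b ^ 2 := by ring
    rw [this]
    nlinarith [sq_nonneg a, sq_nonneg b]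
  have hPle : locP a b p p x ≤ 1 - a * b * x + 11 * t := by
    unfold locP
    have h1 : (a ^ 2 * p + b ^ 2 * p - 2 * p * p) * x ^ 2 ≤ 6 * t := by
      have h : a ^ 2 * p + b ^ 2 * p - 2 * p * p ≤ 6 * p ^ 2 := by nlinarith
      have := mul_le_mul_of_nonneg_right h (sq_nonneg x)
      nlinarith
    have h2 : -(a * b * p * p * x ^ 3) ≤ 4 * t := by
      have h3 : -(a * b) ≤ 4 * p := (neg_le_abs _).trans hab
      have hx4 : x ≤ 1 / 4 := by nlinarith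
      have hpx1 : p * x ≤ 1 := by
        nlinarith
      have h4 : -(a * b * p * p * x ^ 3) = -(a * b) * (p ^ 2 * x ^ 2 * x) := by ring
      rw [h4]
      have h5 : -(a * b) * (p ^ 2 * x ^ 2 * x) ≤ 4 * p * (p ^ 2 * x ^ 2 * x) :=
        mul_le_mul_of_nonneg_right h3 (by positivity)
      have h6 : 4 * p * (p ^ 2 * x ^ 2 * x) = 4 * (p ^ 2 * x ^ 2) * (p * x) := by ring
      rw [h6] at h5
      have h7 : 4 * (p ^ 2 * x ^ 2) * (p * x) ≤ 4 * (p ^ 2 * x ^ 2) * 1 :=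
        mul_le_mul_of_nonneg_left hpx1 (by positivity)
      linarith
    have h3 : p ^ 2 * p ^ 2 * x ^ 4 ≤ t := by
      have : p ^ 2 * p ^ 2 * x ^ 4 = (p ^ 2 * x ^ 2) * (p ^ 2 * x ^ 2) := by ring
      rw [this]
      nlinarith
    linarith
  have hPexp : locP a b p p x ≤ Real.exp (-(a * b * x) + 11 * t) := by
    refine hPle.trans ?_
    have := Real.add_one_le_exp (-(a * b * x) + 11 * t)
    linarith
  have hexp2 : Real.exp (-(2 * t)) ≤ 1 - t := by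
    rw [Real.exp_neg]
    have h1 : 1 + 2 * t ≤ Real.exp (2 * t) := by
      have := Real.add_one_le_exp (2 * t)
      linarith
    have h2 : (Real.exp (2 * t))⁻¹ ≤ (1 + 2 * t)⁻¹ := inv_anti₀ (by positivity) h1
    refine h2.trans ?_
    rw [inv_le_iff_one_le_mul₀ (by positivity)]
    nlinarith
  have hLP : Real.exp (-(2 * t)) ≤ (∑' k, α k * β k * x ^ k) * locP a b p p x := by
    rw [hid]
    have : p * p * x ^ 2 = p ^ 2 * x ^ 2 := by ring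
    rw [this]
    linarith
  have hL : 0 < ∑' k, α k * β k * x ^ k := by
    by_contra hneg
    push Not at hneg
    have h1 := mul_nonpos_of_nonpos_of_nonneg hneg hP.le
    have h2 := Real.exp_pos (-(2 * t))
    linarith
  have h8 : Real.exp (-(2 * t)) ≤
      (∑' k, α k * β k * x ^ k) * Real.exp (-(a * b * x) + 11 * t) :=
    hLP.trans (mul_le_mul_of_nonneg_left hPexp hL.le)
  have h9 : Real.exp (a * b * x - 13 / p ^ 2) =
      Real.exp (-(2 * t)) * Real.exp (-(-(a * b * x) + 11 * t)) := by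
    rw [← Real.exp_add]
    congr 1
    rw [ht]
    ring
  rw [h9, Real.exp_neg (-(a * b * x) + 11 * t), ← div_eq_mul_inv,
    div_le_iff₀ (Real.exp_pos _)]
  exact h8

end Pool.Agent.H18.RS
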