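import Mathlib
import Pool.Agent.H18.RS.Basic

/-!
# Job RS-08: Hecke relations imply multiplicativity

`Hecke.pow`: `h.rel p hp (p ^ (k + 1))`: `p ∣ p ^ (k+1)`, `p ^ (k+1) / p = p ^ k`, `p * p ^ (k+1) = p ^ (k+2)`.
`Hecke.mul`: first `a (p ^ k * m) = a (p ^ k) * a m` for `p ∤ m` by two-step induction on `k` (`h.rel p hp m` for
`k = 1`; `h.rel p hp (p ^ (k+1) * m)` and `Hecke.pow` for the step); then induction on the first factor with
`Nat.recOnPosPrimePosCoprime` (or strong induction splitting off a prime power with `Nat.recOnPrimeCoprime`);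
`m = 0` forces `n = 1` (coprime) and `a 0 = 0`.
-/

open UpperHalfPlane MeasureTheory CongruenceSubgroup
open scoped MatrixGroups Modular ComplexConjugate

namespace Pool.Agent.H18.RS

theorem Hecke.pow {N : ℕ} {a : ℕ → ℝ} (h : Hecke N a) {p : ℕ} (hp : p.Prime) (k : ℕ) :
    a (p ^ (k + 2)) = a p * a (p ^ (k + 1)) - (if p ∣ N then 0 else (p : ℝ)) * a (p ^ k) := by
  have h1 := h.rel p hp (p ^ (k + 1))
  have h2 : p ∣ p ^ (k + 1) := dvd_pow_self p (Nat.succ_ne_zero k)
  have h3 : p ^ (k + 1) / p = p ^ k := by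
    rw [pow_succ]
    exact Nat.mul_div_cancel _ hp.pos
  have h4 : p * p ^ (k + 1) = p ^ (k + 2) := by ring
  rw [h3, h4, if_pos h2] at h1
  split_ifs at h1 ⊢ <;> linarith

theorem Hecke.pow_mul {N : ℕ} {a : ℕ → ℝ} (h : Hecke N a) {p : ℕ} (hp : p.Prime) {m : ℕ}
    (hm : ¬ p ∣ m) (k : ℕ) : a (p ^ k * m) = a (p ^ k) * a m := by
  induction k using Nat.twoStepInduction with
  | zero => simp [h.one]
  | one =>
    have h1 := h.rel p hp m
    rw [if_neg hm, ite_self, add_zero] at h1
    rw [pow_one, h1]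
  | more k ih0 ih1 =>
    have h1 := h.rel p hp (p ^ (k + 1) * m)
    have h2 : p ∣ p ^ (k + 1) * m := (dvd_pow_self p (Nat.succ_ne_zero k)).mul_right m
    have h3 : p ^ (k + 1) * m / p = p ^ k * m := by
      rw [pow_succ, mul_right_comm]
      exact Nat.mul_div_cancel _ hp.pos
    have h4 : p * (p ^ (k + 1) * m) = p ^ (k + 2) * m := by ring
    rw [h3, h4, if_pos h2] at h1
    have h5 := h.pow hp k
    rw [ih1, ih0] at h1
    rw [h5]
    split_ifs at h1 ⊢ <;> linarith

theorem Hecke.mul {N : ℕ} {a : ℕ → ℝ} (h : Hecke N a) {m n : ℕ} (hmn : m.Coprime n) :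
    a (m * n) = a m * a n := by
  induction m using Nat.recOnPosPrimePosCoprime generalizing n with
  | prime_pow p k hp hk =>
    have hpn : ¬ p ∣ n := by
      intro hd
      have := Nat.Coprime.coprime_dvd_left (dvd_pow_self p hk.ne') hmn
      exact (hp.coprime_iff_not_dvd.1 this) hd
    exact h.pow_mul hp hpn k
  | zero =>
    have : n = 1 := by simpa using hmn
    subst this
    simp [h.one]
  | one => simp [h.one]
  | coprime u v hu hv huv ihu ihv =>
    have h1 : u.Coprime n := Nat.Coprime.coprime_dvd_left (dvd_mul_right u v) hmn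
    have h2 : v.Coprime n := Nat.Coprime.coprime_dvd_left (dvd_mul_left v u) hmn
    rw [mul_assoc, ihu (Nat.Coprime.mul_right huv h1), ihv h2, ihu huv]
    ring

end Pool.Agent.H18.RS
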