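import Mathlib
import Pool.Agent.H18.RS.LocalPos
import Pool.Agent.H18.RS.Mult

/-!
# Job RS-09: lower bound for the Euler product

`A(s) = ∑ a n b n n^(-s)` is absolutely convergent (`|a b| ≤ (a² + b²)/2`), its coefficients times `n^(-s)` are
multiplicative (`Hecke.mul`, value `1` at `1`, `0` at `0`), so `EulerProduct.eulerProduct_hasProd` gives
`HasProd (fun p : Nat.Primes => ∑' k, a (p^k) b (p^k) (p^k)^(-s)) (A s)`. For each `p` the series is that of
`local_lower` with `α k = a (p ^ k)`, `β k = b (p ^ k)`, `c, d = if p ∣ N then 0 else p`, `x = p^(-s)`, `x p² < 1`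
(`Hecke.pow`; the summability hypotheses for all `x < p⁻²`: for `x > 0` write `x = p^(-s')` with `s' > 2` and
compose `hsa s'` with the injection `k ↦ p ^ k`; `x = 0` is trivial).
Lower bound of the factor at `p`: `exp (a p b p p^(-s) - e p)`, with `e p = 13 / p²` for all but finitely many `p`
(`local_exp`) and `e p = |a p b p| - log c_p` for the other primes (`local_lower`). Compare the two products.
-/

open UpperHalfPlane MeasureTheory CongruenceSubgroup
open scoped MatrixGroups Modular ComplexConjugate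

namespace Pool.Agent.H18.RS

theorem sum_local {a : ℕ → ℝ}
    (hsa : ∀ s : ℝ, 2 < s → Summable fun n : ℕ => a n ^ 2 * (n : ℝ) ^ (-s)) {p : ℕ}
    (hp : p.Prime) (x : ℝ) (hx : 0 ≤ x) (hxp : x * (p : ℝ) ^ 2 < 1) :
    Summable fun k : ℕ => a (p ^ k) ^ 2 * x ^ k := by
  have hp2 : (2 : ℝ) ≤ p := by exact_mod_cast hp.two_le
  have hp0 : (0 : ℝ) < p := by linarith
  rcases hx.eq_or_lt with h | h
  · subst h
    refine summable_of_hasFiniteSupport ((Set.finite_singleton 0).subset ?_)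
    intro k hk
    by_contra hne
    have : k ≠ 0 := hne
    exact hk (by simp [this])
  · have hlogp : 0 < Real.log p := Real.log_pos (by linarith)
    set s' : ℝ := -Real.log x / Real.log p with hs'
    have hps : (p : ℝ) ^ (-s') = x := by
      rw [Real.rpow_def_of_pos hp0, hs']
      rw [show Real.log (p : ℝ) * -(-Real.log x / Real.log p) = Real.log x by
        field_simp]
      exact Real.exp_log h
    have h2 : 2 < s' := by
      rw [hs', lt_div_iff₀ hlogp]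
      have h3 : Real.log (x * (p : ℝ) ^ 2) < 0 := Real.log_neg (by positivity) hxp
      rw [Real.log_mul h.ne' (by positivity), Real.log_pow] at h3
      push_cast at h3
      linarith
    have hinj : Function.Injective fun k : ℕ => p ^ k := Nat.pow_right_injective hp.two_le
    refine ((hsa s' h2).comp_injective hinj).congr ?_
    intro k
    simp only [Function.comp_apply]
    congr 1
    rw [← hps]
    push_cast
    rw [← Real.rpow_natCast, ← Real.rpow_natCast, ← Real.rpow_mul hp0.le, ← Real.rpow_mul hp0.le]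
    ring_nf

theorem sum_ab {a b : ℕ → ℝ}
    (hsa : ∀ s : ℝ, 2 < s → Summable fun n : ℕ => a n ^ 2 * (n : ℝ) ^ (-s))
    (hsb : ∀ s : ℝ, 2 < s → Summable fun n : ℕ => b n ^ 2 * (n : ℝ) ^ (-s)) {s : ℝ} (hs : 2 < s) :
    Summable fun n : ℕ => ‖a n * b n * (n : ℝ) ^ (-s)‖ := by
  refine Summable.of_nonneg_of_le (fun _ => norm_nonneg _) (fun n => ?_) ((hsa s hs).add (hsb s hs))
  have h0 : (0 : ℝ) ≤ (n : ℝ) ^ (-s) := by positivity
  rw [norm_mul, norm_mul, Real.norm_eq_abs, Real.norm_eq_abs, Real.norm_eq_abs, abs_of_nonneg h0,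
    ← add_mul]
  refine mul_le_mul_of_nonneg_right ?_ h0
  nlinarith [sq_nonneg (|a n| - |b n|), sq_abs (a n), sq_abs (b n), sq_nonneg (a n),
    sq_nonneg (b n)]

theorem hasProd_le_of {f g : Nat.Primes → ℝ} {A B : ℝ} (hf : HasProd f A) (hg : HasProd g B)
    (h0 : ∀ p, 0 ≤ f p) (h : ∀ p, f p ≤ g p) : A ≤ B :=
  le_of_tendsto_of_tendsto' hf hg fun _ => Finset.prod_le_prod (fun p _ => h0 p) fun p _ => h p

theorem euler_lower {N₁ N₂ : ℕ} (hN₁ : 0 < N₁) (hN₂ : 0 < N₂) {a b : ℕ → ℝ} (ha : Hecke N₁ a)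
    (hb : Hecke N₂ b)
    (hsa : ∀ s : ℝ, 2 < s → Summable fun n : ℕ => a n ^ 2 * (n : ℝ) ^ (-s))
    (hsb : ∀ s : ℝ, 2 < s → Summable fun n : ℕ => b n ^ 2 * (n : ℝ) ^ (-s))
    (hWa : {p : ℕ | p.Prime ∧ ¬ a p ^ 2 ≤ 4 * p}.Finite)
    (hWb : {p : ℕ | p.Prime ∧ ¬ b p ^ 2 ≤ 4 * p}.Finite) :
    ∃ C : ℝ, 0 < C ∧ ∀ s : ℝ, 2 < s → s ≤ 3 →
      Real.exp (∑' p : Nat.Primes, a p * b p * (p : ℝ) ^ (-s)) ≤
        C * ∑' n : ℕ, a n * b n * (n : ℝ) ^ (-s) := by
  classical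
  -- the exponents `e p`
  have key : ∀ p : Nat.Primes, ∃ e : ℝ,
      ((p : ℕ) ∉ ({p : ℕ | p ∣ N₁ * N₂} ∪ {p : ℕ | p.Prime ∧ ¬ a p ^ 2 ≤ 4 * p} ∪
        {p : ℕ | p.Prime ∧ ¬ b p ^ 2 ≤ 4 * p} : Set ℕ) → e = 13 / (p : ℝ) ^ 2) ∧
      ∀ s : ℝ, 2 < s → Real.exp (a p * b p * (p : ℝ) ^ (-s) - e) ≤
        ∑' k : ℕ, a (p ^ k) * b (p ^ k) * (((p : ℕ) ^ k : ℕ) : ℝ) ^ (-s) := by
    intro p
    have hp : (p : ℕ).Prime := p.2
    have hp2 : (2 : ℝ) ≤ (p : ℕ) := by exact_mod_cast hp.two_le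
    have hp0 : (0 : ℝ) < (p : ℕ) := by linarith
    have hx : ∀ s : ℝ, 2 < s → 0 ≤ ((p : ℕ) : ℝ) ^ (-s) ∧
        ((p : ℕ) : ℝ) ^ (-s) * ((p : ℕ) : ℝ) ^ 2 < 1 := by
      intro s hs
      refine ⟨by positivity, ?_⟩
      rw [← Real.rpow_natCast, ← Real.rpow_add hp0]
      exact Real.rpow_lt_one_of_one_lt_of_neg (by linarith) (by push_cast; linarith)
    have hconv : ∀ s : ℝ, ∑' k : ℕ, a (p ^ k) * b (p ^ k) * (((p : ℕ) ^ k : ℕ) : ℝ) ^ (-s) =
        ∑' k : ℕ, a (p ^ k) * b (p ^ k) * (((p : ℕ) : ℝ) ^ (-s)) ^ k := by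
      intro s
      refine tsum_congr fun k => ?_
      congr 1
      push_cast
      rw [← Real.rpow_natCast, ← Real.rpow_natCast, ← Real.rpow_mul hp0.le,
        ← Real.rpow_mul hp0.le]
      ring_nf
    have ha0 : a ((p : ℕ) ^ 0) = 1 := by simp [ha.one]
    have hb0 : b ((p : ℕ) ^ 0) = 1 := by simp [hb.one]
    have ha1 : a ((p : ℕ) ^ 1) = a p := by simp
    have hb1 : b ((p : ℕ) ^ 1) = b p := by simp
    by_cases hmem : (p : ℕ) ∈ ({p : ℕ | p ∣ N₁ * N₂} ∪ {p : ℕ | p.Prime ∧ ¬ a p ^ 2 ≤ 4 * p} ∪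
        {p : ℕ | p.Prime ∧ ¬ b p ^ 2 ≤ 4 * p} : Set ℕ)
    · obtain ⟨c₀, hc₀, hlow⟩ := local_lower (α := fun k => a ((p : ℕ) ^ k))
        (β := fun k => b ((p : ℕ) ^ k)) (a := a p) (b := b p)
        (c := if (p : ℕ) ∣ N₁ then 0 else ((p : ℕ) : ℝ))
        (d := if (p : ℕ) ∣ N₂ then 0 else ((p : ℕ) : ℝ)) (p := ((p : ℕ) : ℝ)) hp2
        (by split_ifs <;> linarith) (by split_ifs <;> linarith)
        (by split_ifs <;> linarith) (by split_ifs <;> linarith)
        ha0 ha1 (fun k => ha.pow hp k) hb0 hb1 (fun k => hb.pow hp k)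
        (fun x hx hxp => sum_local hsa hp x hx hxp) (fun x hx hxp => sum_local hsb hp x hx hxp)
      refine ⟨|a p * b p| - Real.log c₀, fun h => absurd hmem h, fun s hs => ?_⟩
      rw [hconv s]
      refine le_trans ?_ (hlow _ (hx s hs).1 (hx s hs).2)
      have h1 : ((p : ℕ) : ℝ) ^ (-s) ≤ 1 :=
        Real.rpow_le_one_of_one_le_of_nonpos (by linarith) (by linarith)
      have h2 : a p * b p * ((p : ℕ) : ℝ) ^ (-s) ≤ |a p * b p| := by
        calc a p * b p * ((p : ℕ) : ℝ) ^ (-s) ≤ |a p * b p| * ((p : ℕ) : ℝ) ^ (-s) :=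
              mul_le_mul_of_nonneg_right (le_abs_self _) (hx s hs).1
          _ ≤ |a p * b p| * 1 := mul_le_mul_of_nonneg_left h1 (abs_nonneg _)
          _ = _ := mul_one _
      calc Real.exp (a p * b p * ((p : ℕ) : ℝ) ^ (-s) - (|a p * b p| - Real.log c₀))
          ≤ Real.exp (Real.log c₀) := Real.exp_le_exp.2 (by linarith)
        _ = c₀ := Real.exp_log hc₀
    · simp only [Set.mem_union, Set.mem_ofPred_eq, not_or, not_and, not_not] at hmem
      obtain ⟨⟨hN, hA⟩, hB⟩ := hmem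
      have hn1 : ¬ (p : ℕ) ∣ N₁ := fun h => hN (h.mul_right _)
      have hn2 : ¬ (p : ℕ) ∣ N₂ := fun h => hN (h.mul_left _)
      refine ⟨13 / ((p : ℕ) : ℝ) ^ 2, fun _ => rfl, fun s hs => ?_⟩
      rw [hconv s]
      refine local_exp (α := fun k => a ((p : ℕ) ^ k)) (β := fun k => b ((p : ℕ) ^ k)) hp2
        (hA hp) (hB hp) ha0 ha1 (fun k => ?_) hb0 hb1 (fun k => ?_)
        (fun x hx hxp => sum_local hsa hp x hx hxp) (fun x hx hxp => sum_local hsb hp x hx hxp)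
        _ (hx s hs).1 (hx s hs).2
      · have := ha.pow hp k
        rwa [if_neg hn1] at this
      · have := hb.pow hp k
        rwa [if_neg hn2] at this
  choose e he1 he2 using key
  have hfin : ({p : ℕ | p ∣ N₁ * N₂} ∪ {p : ℕ | p.Prime ∧ ¬ a p ^ 2 ≤ 4 * p} ∪
      {p : ℕ | p.Prime ∧ ¬ b p ^ 2 ≤ 4 * p} : Set ℕ).Finite := by
    refine (Set.Finite.union ?_ hWa).union hWb
    exact (Set.finite_Iic (N₁ * N₂)).subset fun n hn => Nat.le_of_dvd (Nat.mul_pos hN₁ hN₂) hn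
  have hsum13 : Summable fun p : Nat.Primes => 13 / ((p : ℕ) : ℝ) ^ 2 := by
    have h1 : Summable fun n : ℕ => 13 / (n : ℝ) ^ 2 := by
      have := (Real.summable_one_div_nat_pow.2 (le_refl 2)).mul_left 13
      refine this.congr fun n => ?_
      rw [mul_one_div]
    exact h1.comp_injective Nat.Primes.coe_nat_injective
  have hesum : Summable e := by
    refine hsum13.congr_cofinite ?_
    have : {p : Nat.Primes | (p : ℕ) ∈ ({p : ℕ | p ∣ N₁ * N₂} ∪
        {p : ℕ | p.Prime ∧ ¬ a p ^ 2 ≤ 4 * p} ∪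
        {p : ℕ | p.Prime ∧ ¬ b p ^ 2 ≤ 4 * p} : Set ℕ)}.Finite :=
      hfin.preimage Nat.Primes.coe_nat_injective.injOn
    filter_upwards [this.compl_mem_cofinite] with p hp
    exact (he1 p hp).symm
  refine ⟨Real.exp (∑' p, e p), Real.exp_pos _, fun s hs _ => ?_⟩
  have hnorm := sum_ab hsa hsb hs
  have hprod := EulerProduct.eulerProduct_hasProd (f := fun n : ℕ => a n * b n * (n : ℝ) ^ (-s))
    (by simp [ha.one, hb.one])
    (by
      intro m n hmn
      rw [ha.mul hmn, hb.mul hmn]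
      push_cast
      rw [Real.mul_rpow (by positivity) (by positivity)]
      ring) hnorm (by simp [ha.zero])
  have hu : Summable fun p : Nat.Primes => a p * b p * ((p : ℕ) : ℝ) ^ (-s) :=
    hnorm.of_norm.comp_injective Nat.Primes.coe_nat_injective
  have hexp := (hu.sub hesum).hasSum.rexp
  have hle := hasProd_le_of hexp hprod (fun p => (Real.exp_pos _).le) (fun p => he2 p s hs)
  rw [hu.tsum_sub hesum, sub_eq_add_neg, Real.exp_add, Real.exp_neg] at hle
  have hpos := Real.exp_pos (∑' p, e p)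
  rw [← div_eq_mul_inv, div_le_iff₀ hpos] at hle
  linarith

end Pool.Agent.H18.RS
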