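import Mathlib
import Pool.Agent.H1.Tate.Defs

/-!
# Modular elliptic curves `y ^ 2 = h(x)` over `ℚ`, and the notation of the Rankin-Selberg part
-/

open UpperHalfPlane MeasureTheory CongruenceSubgroup Polynomial
open scoped MatrixGroups Modular

namespace Pool.Agent.H18.RS

noncomputable section

/-- The trace `a_p` of the Frobenius at the prime `p` on the elliptic curve `E : y ^ 2 = h(x)`:
`p + 1 - #E(𝔽_p)`, that is `p` minus the number of affine points of the reduction of `h` mod `p`. -/
def ap (h : ℤ[X]) (p : ℕ) : ℤ :=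
  p - Nat.card {z : ZMod p × ZMod p // z.2 ^ 2 = (h.map (Int.castRingHom (ZMod p))).eval z.1}

/-- `f` is a cusp form of weight `2` for `Γ₀(N)` with real `q`-expansion coefficients `a n`,
`a 1 = 1`, and an eigenform of all Hecke operators: the operator at the prime `p` maps `∑ a n q ^ n`
to `∑ a (p n) q ^ n`, plus `p ∑ a (n / p) q ^ n` (sum over the multiples `n` of `p`) when
`p` does not divide `N`. -/
structure IsEigenform (N : ℕ) (f : CuspForm (Gamma0 N : Subgroup (GL (Fin 2) ℝ)) 2) (a : ℕ → ℝ) :
    Prop where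
  coeff : ∀ n : ℕ, (qExpansion 1 f).coeff n = (a n : ℂ)
  one : a 1 = 1
  hecke : ∀ p : ℕ, p.Prime → ∃ lam : ℝ, ∀ n : ℕ,
    lam * a n = a (p * n) + if p ∣ N then 0 else if p ∣ n then p * a (n / p) else 0

/-- The elliptic curve `y ^ 2 = h(x)` over `ℚ` is modular: its `a_p` agree, for all but finitely many
primes `p`, with the coefficients of a normalised cusp form of weight `2` for some `Γ₀(N)`, which is
an eigenform of all Hecke operators and has real coefficients. -/
def IsModular (h : ℤ[X]) : Prop :=
  ∃ (N : ℕ) (_ : 0 < N) (f : CuspForm (Gamma0 N : Subgroup (GL (Fin 2) ℝ)) 2) (a : ℕ → ℝ),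
    IsEigenform N f a ∧ {p : ℕ | p.Prime ∧ a p ≠ ap h p}.Finite

end

end Pool.Agent.H18.RS
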