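import Mathlib
import Pool.Agent.H18.RS.Defs
import Pool.Agent.H18.RS.Basic

/-!
# Job RS-01: an eigenform as a function: expansion, Hecke relations, transformation law, bound

`hΓ : (1 : ℝ) ∈ (Gamma0 N : Subgroup (GL (Fin 2) ℝ)).strictPeriods` (see `CongruenceSubgroup.strictPeriods_Gamma0`
or `strictWidthInfty_Gamma0` in Mathlib `ArithmeticSubgroups/Cusps/CongruenceSubgroups`).
* continuity: `ModularFormClass.holo f` / `CuspFormClass.holo`, `MDifferentiable.continuous`.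
* expansion: `ModularFormClass.hasSum_qExpansion` (terms `coeff n • 𝕢 1 z ^ n`, with
  `𝕢 1 z = exp (2 π i z / 1)`), and `h.coeff`.
* `a 0 = 0`: `CuspFormClass.qExpansion_coeff_zero`, `h.coeff 0`.
* Hecke relations: in `h.hecke p hp` put `n = 1`: `lam * a 1 = a (p * 1) + (p ∤ 1 so 0)`, so `lam = a p`.
* transformation law: `SlashInvariantForm.slash_action_eqn'` / `slash_action_eqn_SL''` (`f (γ • z) = denom ^ 2 * f z`).
* bound: `CuspFormClass.exists_bound f : ∃ C, ∀ τ, ‖f τ‖ ≤ C / τ.im ^ (2 / 2 : ℝ)` (needs the instance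
  `IsArithmetic`, from `[NeZero N]`).
-/

open UpperHalfPlane MeasureTheory CongruenceSubgroup
open scoped MatrixGroups Modular ComplexConjugate

namespace Pool.Agent.H18.RS

theorem expand_mem (N : ℕ) :
    (1 : ℝ) ∈ (Gamma0 N : Subgroup (GL (Fin 2) ℝ)).strictPeriods := by
  rw [strictPeriods_Gamma0]
  exact AddSubgroup.mem_zmultiples 1

theorem basic_of_eigenform {N : ℕ} (hN : 0 < N)
    {f : CuspForm (Gamma0 N : Subgroup (GL (Fin 2) ℝ)) 2} {a : ℕ → ℝ} (h : IsEigenform N f a) :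
    Continuous f ∧ (∀ z : ℍ, HasSum (fun n : ℕ => (a n : ℂ) * ee n z) (f z)) ∧ Hecke N a ∧
    (∀ γ ∈ Gamma0 N, ∀ z : ℍ, f (γ • z) = ((γ 1 0 : ℂ) * z + (γ 1 1 : ℂ)) ^ 2 * f z) ∧
    (∃ C : ℝ, ∀ z : ℍ, z.im * ‖f z‖ ≤ C) := by
  have hNZ : NeZero N := ⟨hN.ne'⟩
  have hΓ := expand_mem N
  have hcusp : Fact (IsCusp OnePoint.infty (Gamma0 N : Subgroup (GL (Fin 2) ℝ))) :=
    ⟨Subgroup.isCusp_of_mem_strictPeriods one_pos hΓ⟩
  refine ⟨(ModularFormClass.holo f).continuous, ?_, ⟨?_, h.one, ?_⟩, ?_, ?_⟩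
  · intro z
    have h1 := ModularForm.hasSum_qExpansion f one_pos hΓ z
    have h2 : (fun m : ℕ => (qExpansion 1 f).coeff m * Function.Periodic.qParam 1 z ^ m) =
        fun n : ℕ => (a n : ℂ) * ee n z := by
      funext n
      rw [h.coeff n, Function.Periodic.qParam, ← Complex.exp_nat_mul, ee]
      congr 2
      push_cast
      ring
    rw [← h2]
    exact h1
  · have h1 := CuspFormClass.qExpansion_coeff_zero f one_pos hΓ
    rw [h.coeff 0] at h1
    exact_mod_cast h1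
  · intro p hp n
    obtain ⟨lam, hlam⟩ := h.hecke p hp
    have h1 := hlam 1
    have hp1 : ¬ p ∣ 1 := fun h => hp.one_lt.ne' (Nat.dvd_one.1 h)
    rw [if_neg hp1, ite_self, add_zero, h.one, mul_one, mul_one] at h1
    rw [← h1]
    exact hlam n
  · intro γ hγ z
    have h1 := SlashInvariantForm.slash_action_eqn_SL'' f hγ z
    rw [h1, ModularGroup.denom_apply]
    norm_cast
  · obtain ⟨C, hC⟩ := CuspFormClass.exists_bound f
    refine ⟨C, fun z => ?_⟩
    have h1 := hC z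
    have h2 : (((2 : ℤ) : ℝ) / 2 : ℝ) = 1 := by norm_num
    rw [h2, Real.rpow_one, le_div_iff₀ z.im_pos] at h1
    rw [mul_comm]
    exact h1

end Pool.Agent.H18.RS
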