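import Mathlib
import Pool.Agent.H18.RS.Basic

/-!
# Job RS-21: the fundamental domain has finite volume

`𝒟 ⊆ {|re z| ≤ 1/2, im z ≥ √3/2}` and `∫_{√3/2}^∞ dy / y² < ∞` (`UpperHalfPlane.volume_eq_lintegral`, Fubini in `ℂ` via
`Complex.volume_preserving_equiv_real_prod`). `z.im ^ (-2) ≤ 2` on `𝒟`, so the first claim follows from the second.
-/

open UpperHalfPlane MeasureTheory CongruenceSubgroup
open scoped MatrixGroups Modular ComplexConjugate

namespace Pool.Agent.H18.RS

theorem tail_finite : ∫⁻ y : ℝ in Set.Ioi (1 / 2), (((1 / ‖y‖₊) ^ 2 : NNReal) : ENNReal) < ⊤ := by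
  have h := (integrableOn_Ioi_rpow_of_lt (by norm_num : (-2 : ℝ) < -1)
    (by norm_num : (0 : ℝ) < 1 / 2)).2
  rw [hasFiniteIntegral_iff_enorm] at h
  refine lt_of_le_of_lt (le_of_eq ?_) h
  refine setLIntegral_congr_fun measurableSet_Ioi fun y hy => ?_
  have hy0 : (0 : ℝ) < y := lt_trans (by norm_num) (Set.mem_Ioi.mp hy)
  simp only [enorm_eq_nnnorm]
  congr 1
  apply NNReal.eq
  rw [coe_nnnorm, Real.norm_of_nonneg (by positivity), Real.rpow_neg hy0.le, Real.rpow_two]
  simp

theorem fd_subset : ((↑) '' 𝒟 : Set ℂ) ⊆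
    Complex.measurableEquivRealProd ⁻¹' (Set.Icc (-(1 / 2)) (1 / 2) ×ˢ Set.Ioi (1 / 2)) := by
  rintro _ ⟨z, hz, rfl⟩
  have h := ModularGroup.three_le_four_mul_im_sq_of_mem_fd hz
  have h0 := z.im_pos
  have h1 : |z.re| ≤ 1 / 2 := hz.2
  rw [Set.mem_preimage, Complex.measurableEquivRealProd_apply]
  refine ⟨abs_le.mp h1, ?_⟩
  change 1 / 2 < z.im
  nlinarith

theorem volume_fd : volume (𝒟 : Set ℍ) < ⊤ := by
  rw [volume_eq_lintegral]
  refine lt_of_le_of_lt (lintegral_mono_set fd_subset) ?_
  have e := Complex.volume_preserving_equiv_real_prod.setLIntegral_comp_preimage_emb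
    Complex.measurableEquivRealProd.measurableEmbedding
    (fun p : ℝ × ℝ => (((1 / ‖p.2‖₊) ^ 2 : NNReal) : ENNReal))
    (Set.Icc (-(1 / 2)) (1 / 2) ×ˢ Set.Ioi (1 / 2))
  simp only [Complex.measurableEquivRealProd_apply] at e
  rw [e, Measure.volume_eq_prod, ← Measure.prod_restrict, lintegral_prod]
  · simp only [lintegral_const]
    refine ENNReal.mul_lt_top tail_finite ?_
    rw [Measure.restrict_apply MeasurableSet.univ, Set.univ_inter, Real.volume_Icc]
    exact ENNReal.ofReal_lt_top
  · refine Measurable.aemeasurable ?_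
    fun_prop

theorem integrable_fd : IntegrableOn (fun z : ℍ => z.im ^ (-2 : ℤ)) 𝒟 := by
  have hm : MeasurableSet (𝒟 : Set ℍ) := by
    have h1 : Continuous fun z : ℍ => Complex.normSq (z : ℂ) :=
      Complex.continuous_normSq.comp UpperHalfPlane.continuous_coe
    have h2 : Continuous fun z : ℍ => |z.re| := UpperHalfPlane.continuous_re.abs
    exact (measurableSet_le measurable_const h1.measurable).inter
      (measurableSet_le h2.measurable measurable_const)
  refine Measure.integrableOn_of_bounded (M := 2) volume_fd.ne ?_ ?_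
  · refine Continuous.aestronglyMeasurable ?_
    exact UpperHalfPlane.continuous_im.zpow₀ _ fun z => Or.inl z.im_pos.ne'
  · refine ae_restrict_of_forall_mem hm fun z hz => ?_
    have h := ModularGroup.three_le_four_mul_im_sq_of_mem_fd hz
    have h0 := z.im_pos
    rw [Real.norm_of_nonneg (zpow_nonneg h0.le _), zpow_neg, zpow_ofNat]
    rw [inv_le_comm₀ (by positivity) (by norm_num)]
    linarith

end Pool.Agent.H18.RS
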