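import Mathlib
import Pool.Agent.H18.RS.Basic

/-!
# Job RS-15: from coprime pairs to all pairs

`∑_{e ≥ 1} ∑_{v coprime} φ (red (e v)) wt z σ (e v) = ∑_{v ≠ 0} φ (red v) wt z σ v` because
`(e, v) ↦ e v` is a bijection from `{e ≥ 1} × {coprime pairs}` to the nonzero pairs (inverse: `e = Int.gcd v.1 v.2`,
`v / e`); `wt z σ (e v) = e ^ (-2σ) wt z σ v` (`nsq z (e v) = e² nsq z v`); `φ (red (e v)) = φ (red v)` for `e` prime to `M`
(`hu`), and `φ (red (e v)) = 0` otherwise (`h0`: `gcd (e v) = e`), so the left side is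
`zM M σ * ∑_{v coprime} φ (red v) wt z σ v`. The pair `0`: `nsq = 0`, `wt = 0 ^ σ = 0`. All families are summable
(`φ` takes finitely many values as `M ≠ 0`, so is bounded). `one_le_zM`: the term `e = 1` (the sum converges as `2σ > 1`).
-/

open UpperHalfPlane MeasureTheory CongruenceSubgroup
open scoped MatrixGroups Modular ComplexConjugate

namespace Pool.Agent.H18.RS

theorem summable_zM {M : ℕ} {σ : ℝ} (hσ : 1 < σ) :
    Summable fun e : ℕ => if e.Coprime M then (e : ℝ) ^ (-(2 * σ)) else 0 := by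
  have h : Summable fun e : ℕ => (e : ℝ) ^ (-(2 * σ)) :=
    Real.summable_nat_rpow.mpr (by linarith)
  refine Summable.of_nonneg_of_le (fun e => ?_) (fun e => ?_) h
  · split_ifs
    · positivity
    · exact le_rfl
  · split_ifs
    · exact le_rfl
    · positivity

theorem wt_smul (z : ℍ) {σ : ℝ} {e : ℕ} (v : ℤ × ℤ) :
    wt z σ ((e : ℤ) * v.1, (e : ℤ) * v.2) = (e : ℝ) ^ (-(2 * σ)) * wt z σ v := by
  unfold wt
  have h1 : nsq z ((e : ℤ) * v.1, (e : ℤ) * v.2) = (e : ℝ) ^ 2 * nsq z v := by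
    unfold nsq
    push_cast
    ring
  have h2 : 0 ≤ nsq z v := by
    unfold nsq
    positivity
  have h3 : z.im / ((e : ℝ) ^ 2 * nsq z v) = ((e : ℝ) ^ 2)⁻¹ * (z.im / nsq z v) := by
    rw [div_eq_mul_inv, mul_inv, div_eq_mul_inv]
    ring
  rw [h1, h3, Real.mul_rpow (by positivity) (div_nonneg z.im_pos.le h2)]
  congr 1
  rw [← Real.rpow_natCast, ← Real.rpow_neg (by positivity), ← Real.rpow_mul (by positivity)]
  congr 1
  push_cast
  ring

open scoped Classical in
theorem gcd_sum {M : ℕ} (hM : 1 < M) {φ : ZMod M × ZMod M → ℂ}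
    (h0 : ∀ v : ℤ × ℤ, ¬ (Int.gcd v.1 v.2).Coprime M → φ (red M v) = 0)
    (hu : ∀ e : ℕ, e.Coprime M → ∀ v : ℤ × ℤ, φ (red M (e * v.1, e * v.2)) = φ (red M v))
    {z : ℍ} {σ : ℝ} (hσ : 1 < σ) (hs : Summable (wt z σ)) :
    (zM M σ : ℂ) * ∑' v : ℤ × ℤ, (if IsCoprime v.1 v.2 then φ (red M v) * (wt z σ v : ℂ) else 0) =
      ∑' v : ℤ × ℤ, φ (red M v) * (wt z σ v : ℂ) := by
  have : NeZero M := ⟨by omega⟩
  have hwt : ∀ v, 0 ≤ wt z σ v := fun v => by
    unfold wt
    apply Real.rpow_nonneg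
    apply div_nonneg z.im_pos.le
    unfold nsq
    positivity
  -- bound for `φ`
  obtain ⟨C, hC⟩ : ∃ C : ℝ, ∀ r, ‖φ r‖ ≤ C := by
    refine ⟨∑ r, ‖φ r‖, fun r => ?_⟩
    exact Finset.single_le_sum (f := fun r => ‖φ r‖) (fun _ _ => norm_nonneg _) (Finset.mem_univ r)
  have hC0 : 0 ≤ C := (norm_nonneg _).trans (hC 0)
  set G : ℤ × ℤ → ℂ := fun v => φ (red M v) * (wt z σ v : ℂ) with hG
  set F : ℤ × ℤ → ℂ := fun v => if IsCoprime v.1 v.2 then G v else 0 with hF
  set u : ℕ → ℂ := fun e => ((if e.Coprime M then (e : ℝ) ^ (-(2 * σ)) else 0 : ℝ) : ℂ) with hu'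
  have hGn : ∀ v, ‖G v‖ ≤ C * wt z σ v := by
    intro v
    rw [hG]
    simp only
    rw [norm_mul, Complex.norm_real, Real.norm_of_nonneg (hwt v)]
    exact mul_le_mul_of_nonneg_right (hC _) (hwt v)
  have hFs : Summable fun v => ‖F v‖ := by
    refine Summable.of_nonneg_of_le (fun v => norm_nonneg _) (fun v => ?_) (hs.mul_left C)
    rw [hF]
    simp only
    split_ifs
    · exact hGn v
    · rw [norm_zero]
      exact mul_nonneg hC0 (hwt v)
  have hus : Summable fun e => ‖u e‖ := by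
    have := summable_zM (M := M) hσ
    refine this.congr fun e => ?_
    rw [hu']
    simp only
    rw [Complex.norm_real, Real.norm_of_nonneg]
    split_ifs
    · positivity
    · exact le_rfl
  have hz : (zM M σ : ℂ) = ∑' e, u e := by
    unfold zM
    rw [Complex.ofReal_tsum]
  rw [hz]
  change (∑' e, u e) * ∑' v, F v = ∑' v, G v
  rw [tsum_mul_tsum_of_summable_norm hus hFs]
  -- the set of pairs
  let S : Set (ℕ × (ℤ × ℤ)) := {p | 0 < p.1 ∧ IsCoprime p.2.1 p.2.2}
  let i : S → ℤ × ℤ := fun p => ((p.1.1 : ℤ) * p.1.2.1, (p.1.1 : ℤ) * p.1.2.2)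
  have hgcd : ∀ p : S, Int.gcd (i p).1 (i p).2 = p.1.1 := by
    intro p
    have h2 : Int.gcd p.1.2.1 p.1.2.2 = 1 := Int.isCoprime_iff_gcd_eq_one.mp p.2.2
    change Int.gcd ((p.1.1 : ℤ) * p.1.2.1) ((p.1.1 : ℤ) * p.1.2.2) = p.1.1
    rw [Int.gcd_mul_left, h2, mul_one, Int.natAbs_natCast]
  have hinj : Function.Injective i := by
    intro p p' h
    have he : p.1.1 = p'.1.1 := by rw [← hgcd p, ← hgcd p', h]
    have hpos : (p.1.1 : ℤ) ≠ 0 := by
      have := p.2.1
      exact_mod_cast this.ne'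
    have h1 : (p.1.1 : ℤ) * p.1.2.1 = (p'.1.1 : ℤ) * p'.1.2.1 := congrArg Prod.fst h
    have h2 : (p.1.1 : ℤ) * p.1.2.2 = (p'.1.1 : ℤ) * p'.1.2.2 := congrArg Prod.snd h
    rw [← he] at h1 h2
    apply Subtype.ext
    apply Prod.ext he
    exact Prod.ext (mul_left_cancel₀ hpos h1) (mul_left_cancel₀ hpos h2)
  have hsupp : Function.support G ⊆ Set.range i := by
    intro v hv
    have hv0 : v ≠ 0 := by
      rintro rfl
      apply hv
      rw [hG]
      simp only
      have : wt z σ 0 = 0 := by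
        unfold wt nsq
        simp
        rw [Real.zero_rpow (by linarith)]
      rw [this]
      simp
    have hgpos : 0 < Int.gcd v.1 v.2 := by
      rw [Int.gcd_pos_iff]
      by_contra hcon
      push Not at hcon
      exact hv0 (Prod.ext hcon.1 hcon.2)
    refine ⟨⟨(Int.gcd v.1 v.2, (v.1 / Int.gcd v.1 v.2, v.2 / Int.gcd v.1 v.2)), hgpos, ?_⟩, ?_⟩
    · change IsCoprime (v.1 / (Int.gcd v.1 v.2 : ℤ)) (v.2 / (Int.gcd v.1 v.2 : ℤ))
      rw [Int.isCoprime_iff_gcd_eq_one]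
      exact Int.gcd_ediv_gcd_ediv_gcd hgpos
    · change ((Int.gcd v.1 v.2 : ℤ) * (v.1 / (Int.gcd v.1 v.2 : ℤ)),
        (Int.gcd v.1 v.2 : ℤ) * (v.2 / (Int.gcd v.1 v.2 : ℤ))) = v
      rw [Int.mul_ediv_cancel' (Int.gcd_dvd_left _ _), Int.mul_ediv_cancel' (Int.gcd_dvd_right _ _)]
  rw [← hinj.tsum_eq hsupp]
  -- the left side
  have hsub : Function.support (fun p : ℕ × (ℤ × ℤ) => u p.1 * F p.2) ⊆ S := by
    intro p hp
    constructor
    · rw [Nat.pos_iff_ne_zero]
      intro h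
      apply hp
      have : u p.1 = 0 := by
        rw [hu', h]
        simp only
        rw [if_neg]
        · simp
        · rw [Nat.coprime_zero_left]
          omega
      simp only
      rw [this, zero_mul]
    · by_contra hcon
      apply hp
      have : F p.2 = 0 := by
        rw [hF]
        simp only
        rw [if_neg hcon]
      simp only
      rw [this, mul_zero]
  rw [← tsum_subtype_eq_of_support_subset hsub]
  apply tsum_congr
  intro p
  have hF1 : F p.1.2 = G p.1.2 := by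
    rw [hF]
    simp only
    rw [if_pos p.2.2]
  rw [hF1]
  by_cases hc : (p.1.1).Coprime M
  · have hu1 : u p.1.1 = (((p.1.1 : ℝ) ^ (-(2 * σ)) : ℝ) : ℂ) := by
      rw [hu']
      simp only
      rw [if_pos hc]
    rw [hu1, hG]
    simp only
    change _ = φ (red M ((p.1.1 : ℤ) * p.1.2.1, (p.1.1 : ℤ) * p.1.2.2)) *
      (wt z σ ((p.1.1 : ℤ) * p.1.2.1, (p.1.1 : ℤ) * p.1.2.2) : ℂ)
    rw [hu _ hc, wt_smul]
    push_cast
    ring
  · have hu1 : u p.1.1 = 0 := by
      rw [hu']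
      simp only
      rw [if_neg hc]
      simp
    have hG1 : G (i p) = 0 := by
      rw [hG]
      simp only
      rw [h0 (i p) (by rw [hgcd p]; exact hc), zero_mul]
    rw [hu1, hG1, zero_mul]

theorem one_le_zM {M : ℕ} {σ : ℝ} (hσ : 1 < σ) : 1 ≤ zM M σ := by
  have hs := summable_zM (M := M) hσ
  have h := hs.le_tsum 1 (fun e _ => by
    split_ifs
    · positivity
    · exact le_rfl)
  unfold zM
  refine le_trans (le_of_eq ?_) h
  rw [if_pos (Nat.coprime_one_left M)]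
  simp

end Pool.Agent.H18.RS
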