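import Mathlib

/-!
# Job RS-17: `∑ c ^ (1 - 2σ)` over a residue class

The `c ≥ 1` with `c ≡ r` mod `M` are `c_j = c_0 + j M`, `j ≥ 0`, `1 ≤ c_0 ≤ M` (`c_0 = r.val` or `M` if `r = 0`). With
`x_j = c_j^(1-2σ)`, `m_j = ((j+1) M)^(1-2σ)`: `m_j ≤ x_j` and `x_{j+1} ≤ m_j` (`j M < c_j ≤ (j+1) M`), so
`0 ≤ ∑ (x_j - m_j) = x_0 + ∑ (x_{j+1} - m_j) ≤ x_0 ≤ 1` (both series converge as `2σ - 1 > 1`:
`Real.summable_one_div_nat_rpow`). `arith_bound`: `∑_{j ≥ 0} ((j+1) M)^(1-2σ) ≤ ∑ (j+1)^(1-2σ) ≤ 1 + 1/(2σ-2)` (integral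
test, or `(σ' - 1) ζ(σ') ≤ σ'`; search Mathlib for `tsum_one_div_nat_rpow`/`ZetaAsymp`, or telescoping:
`(j+1)^(-(2σ-1)) ≤ (j^(-(2σ-2)) - (j+1)^(-(2σ-2)))/(2σ-2)`), times `σ - 1`: `≤ σ - 1 + 1/2 ≤ σ`.
-/

open UpperHalfPlane MeasureTheory CongruenceSubgroup
open scoped MatrixGroups Modular ComplexConjugate

namespace Pool.Agent.H18.RS

theorem class_nat {M : ℕ} (hM : 0 < M) (r : ZMod M) : ∃ c₀ : ℕ, 1 ≤ c₀ ∧ c₀ ≤ M ∧
    ((c₀ : ℕ) : ZMod M) = r := by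
  have : NeZero M := ⟨hM.ne'⟩
  by_cases h : r = 0
  · exact ⟨M, hM, le_rfl, by simp [h]⟩
  · refine ⟨r.val, ?_, (ZMod.val_lt r).le, ZMod.natCast_zmod_val r⟩
    rw [Nat.one_le_iff_ne_zero]
    intro h0
    exact h ((ZMod.val_eq_zero r).mp h0)

theorem class_tsum_nat {M : ℕ} (hM : 0 < M) (r : ZMod M) {c₀ : ℕ} (h1 : 1 ≤ c₀) (h2 : c₀ ≤ M)
    (h3 : ((c₀ : ℕ) : ZMod M) = r) (g : ℕ → ℝ) :
    (Summable (fun j : ℕ => g (c₀ + j * M)) →
      Summable (fun c : ℕ => if (c : ZMod M) = r ∧ c ≠ 0 then g c else 0)) ∧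
    ∑' c : ℕ, (if (c : ZMod M) = r ∧ c ≠ 0 then g c else 0) = ∑' j : ℕ, g (c₀ + j * M) := by
  have hinj : Function.Injective (fun j : ℕ => c₀ + j * M) := by
    intro a b h
    exact Nat.eq_of_mul_eq_mul_right hM (by simpa using h : a * M = b * M)
  have hsup : Function.support (fun c : ℕ => if (c : ZMod M) = r ∧ c ≠ 0 then g c else 0) ⊆
      Set.range (fun j : ℕ => c₀ + j * M) := by
    intro c hc
    have hc' : (c : ZMod M) = r ∧ c ≠ 0 := by
      by_contra hne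
      exact hc (if_neg hne)
    have hmod : c₀ ≡ c [MOD M] := by
      rw [← ZMod.natCast_eq_natCast_iff, h3, hc'.1]
    have hle : c₀ ≤ c := by
      by_contra hlt
      push Not at hlt
      have hd : M ∣ c₀ - c := (Nat.modEq_iff_dvd' hlt.le).mp hmod.symm
      have := Nat.le_of_dvd (by omega) hd
      have := hc'.2
      omega
    obtain ⟨j, hj⟩ := (Nat.modEq_iff_dvd' hle).mp hmod
    refine ⟨j, ?_⟩
    change c₀ + j * M = c
    rw [mul_comm j M, ← hj]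
    omega
  have hval : ∀ j : ℕ, (if ((c₀ + j * M : ℕ) : ZMod M) = r ∧ c₀ + j * M ≠ 0 then
      g (c₀ + j * M) else 0) = g (c₀ + j * M) := by
    intro j
    rw [if_pos]
    refine ⟨?_, by omega⟩
    push_cast
    rw [h3]; simp
  constructor
  · intro hs
    rw [← hinj.summable_iff (f := fun c : ℕ => if (c : ZMod M) = r ∧ c ≠ 0 then g c else 0)]
    · refine hs.congr fun j => ?_
      exact (hval j).symm
    · intro c hc
      by_contra hne
      exact hc (hsup hne)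
  · rw [← hinj.tsum_eq hsup]
    exact tsum_congr hval

theorem m_summable {M : ℕ} {σ : ℝ} (hσ : 1 < σ) :
    Summable (fun j : ℕ => (((j : ℝ) + 1) * M) ^ (1 - 2 * σ)) := by
  have h1 : Summable (fun n : ℕ => (n : ℝ) ^ (1 - 2 * σ)) :=
    Real.summable_nat_rpow.mpr (by linarith)
  have h2 := (summable_nat_add_iff 1).mpr h1
  refine (h2.mul_right ((M : ℝ) ^ (1 - 2 * σ))).congr fun j => ?_
  rw [Real.mul_rpow (by positivity) (by positivity)]
  push_cast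
  ring

theorem arith_prog {M : ℕ} (hM : 0 < M) {σ : ℝ} (hσ : 1 < σ) (r : ZMod M) :
    Summable (fun c : ℕ => if (c : ZMod M) = r ∧ c ≠ 0 then (c : ℝ) ^ (1 - 2 * σ) else 0) ∧
    |∑' c : ℕ, (if (c : ZMod M) = r ∧ c ≠ 0 then (c : ℝ) ^ (1 - 2 * σ) else 0) -
      ∑' j : ℕ, (((j : ℝ) + 1) * M) ^ (1 - 2 * σ)| ≤ 1 := by
  obtain ⟨c₀, h1, h2, h3⟩ := class_nat hM r
  obtain ⟨hs, ht⟩ := class_tsum_nat hM r h1 h2 h3 (fun c => (c : ℝ) ^ (1 - 2 * σ))
  have hm := m_summable (M := M) hσ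
  have hM0 : (0 : ℝ) < M := by exact_mod_cast hM
  have hc1 : (1 : ℝ) ≤ c₀ := by exact_mod_cast h1
  have hc2 : (c₀ : ℝ) ≤ M := by exact_mod_cast h2
  set x : ℕ → ℝ := fun j => ((c₀ + j * M : ℕ) : ℝ) ^ (1 - 2 * σ) with hx
  have hle1 : ∀ j : ℕ, (((j : ℝ) + 1) * M) ^ (1 - 2 * σ) ≤ x j := by
    intro j
    simp only [hx]
    refine Real.rpow_le_rpow_of_nonpos ?_ ?_ (by linarith)
    · push_cast; positivity
    · push_cast; nlinarith
  have hle2 : ∀ j : ℕ, x (j + 1) ≤ (((j : ℝ) + 1) * M) ^ (1 - 2 * σ) := by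
    intro j
    simp only [hx]
    refine Real.rpow_le_rpow_of_nonpos ?_ ?_ (by linarith)
    · positivity
    · push_cast; nlinarith
  have hx0 : x 0 ≤ 1 := by
    simp only [hx]
    rw [show c₀ + 0 * M = c₀ by ring]
    exact Real.rpow_le_one_of_one_le_of_nonpos hc1 (by linarith)
  have hxn : ∀ j, 0 ≤ x j := fun j => by simp only [hx]; positivity
  have hxs1 : Summable (fun j => x (j + 1)) :=
    Summable.of_nonneg_of_le (fun j => hxn _) hle2 hm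
  have hxs : Summable x := (summable_nat_add_iff 1).mp hxs1
  refine ⟨hs hxs, ?_⟩
  rw [ht]
  have e := hxs.tsum_eq_zero_add
  have i1 : ∑' j : ℕ, (((j : ℝ) + 1) * M) ^ (1 - 2 * σ) ≤ ∑' j, x j := hm.tsum_le_tsum hle1 hxs
  have i2 : ∑' j, x (j + 1) ≤ ∑' j : ℕ, (((j : ℝ) + 1) * M) ^ (1 - 2 * σ) :=
    hxs1.tsum_le_tsum hle2 hm
  change |∑' j, x j - _| ≤ 1
  rw [abs_le]
  constructor <;> linarith

theorem step_ineq {s x : ℝ} (hs : 0 < s) (hx : 1 ≤ x) :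
    s * (x + 1) ^ (-(s + 1)) ≤ x ^ (-s) - (x + 1) ^ (-s) := by
  have hx0 : 0 < x := by linarith
  have h1 : Real.log (x / (x + 1)) ≤ x / (x + 1) - 1 := Real.log_le_sub_one_of_pos (by positivity)
  have h2 : x / (x + 1) - 1 = -(1 / (x + 1)) := by field_simp; ring
  have h3 : (x / (x + 1)) ^ (-s) = Real.exp (Real.log (x / (x + 1)) * (-s)) :=
    Real.rpow_def_of_pos (by positivity) _
  have h4 := Real.add_one_le_exp (Real.log (x / (x + 1)) * (-s))
  have h5 : 1 + s / (x + 1) ≤ (x / (x + 1)) ^ (-s) := by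
    rw [h3]
    refine le_trans ?_ h4
    rw [h2] at h1
    have : s * (1 / (x + 1)) ≤ s * (-Real.log (x / (x + 1))) :=
      mul_le_mul_of_nonneg_left (by linarith) hs.le
    rw [mul_one_div] at this
    linarith
  have h6 : x ^ (-s) = (x + 1) ^ (-s) * (x / (x + 1)) ^ (-s) := by
    rw [← Real.mul_rpow (by positivity) (by positivity)]
    congr 1
    field_simp
  have h7 : (x + 1) ^ (-(s + 1)) = (x + 1) ^ (-s) * (1 / (x + 1)) := by
    rw [neg_add, Real.rpow_add (by positivity), Real.rpow_neg_one, one_div]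
  rw [h6, h7]
  have h8 : 0 < (x + 1) ^ (-s) := by positivity
  calc s * ((x + 1) ^ (-s) * (1 / (x + 1))) = (x + 1) ^ (-s) * (s / (x + 1)) := by ring
    _ ≤ (x + 1) ^ (-s) * ((x / (x + 1)) ^ (-s) - 1) :=
        mul_le_mul_of_nonneg_left (by linarith) h8.le
    _ = _ := by ring

theorem arith_bound {M : ℕ} (hM : 0 < M) {σ : ℝ} (hσ : 1 < σ) :
    0 ≤ ∑' j : ℕ, (((j : ℝ) + 1) * M) ^ (1 - 2 * σ) ∧
    (σ - 1) * ∑' j : ℕ, (((j : ℝ) + 1) * M) ^ (1 - 2 * σ) ≤ σ := by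
  refine ⟨tsum_nonneg fun j => by positivity, ?_⟩
  have hM0 : (1 : ℝ) ≤ M := by exact_mod_cast hM
  set s : ℝ := 2 * σ - 2 with hs
  have hs0 : 0 < s := by linarith
  have hpart : ∀ n : ℕ, s * ∑ j ∈ Finset.range (n + 1), (((j : ℝ) + 1) * M) ^ (1 - 2 * σ) ≤
      s + 1 - ((n : ℝ) + 1) ^ (-s) := by
    intro n
    induction n with
    | zero =>
      simp only [zero_add, Finset.sum_range_one, Nat.cast_zero, one_mul, Real.one_rpow]
      have : (M : ℝ) ^ (1 - 2 * σ) ≤ 1 := Real.rpow_le_one_of_one_le_of_nonpos hM0 (by linarith)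
      nlinarith
    | succ n ih =>
      rw [Finset.sum_range_succ, mul_add]
      have h1 := step_ineq hs0 (x := (n : ℝ) + 1) (by linarith [(Nat.cast_nonneg n : (0:ℝ) ≤ n)])
      have h2 : ((((n + 1 : ℕ) : ℝ) + 1) * M) ^ (1 - 2 * σ) ≤ ((n : ℝ) + 1 + 1) ^ (-(s + 1)) := by
        have e : 1 - 2 * σ = -(s + 1) := by rw [hs]; ring
        rw [e]
        refine Real.rpow_le_rpow_of_nonpos (by positivity) ?_ (by linarith)
        push_cast
        exact le_mul_of_one_le_right (by positivity) hM0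
      have h3 := mul_le_mul_of_nonneg_left h2 hs0.le
      push_cast at h3 ⊢
      linarith
  have hpart' : ∀ n : ℕ, ∑ j ∈ Finset.range n, (((j : ℝ) + 1) * M) ^ (1 - 2 * σ) ≤
      (s + 1) / s := by
    intro n
    rw [le_div_iff₀ hs0]
    have h1 : ∑ j ∈ Finset.range n, (((j : ℝ) + 1) * M) ^ (1 - 2 * σ) ≤
        ∑ j ∈ Finset.range (n + 1), (((j : ℝ) + 1) * M) ^ (1 - 2 * σ) := by
      rw [Finset.sum_range_succ]
      have : 0 ≤ (((n : ℝ) + 1) * M) ^ (1 - 2 * σ) := by positivity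
      linarith
    have h2 := hpart n
    have h3 : 0 ≤ ((n : ℝ) + 1) ^ (-s) := by positivity
    nlinarith
  have h := (m_summable (M := M) hσ).tsum_le_of_sum_range_le hpart'
  have h2 : (σ - 1) * ∑' j : ℕ, (((j : ℝ) + 1) * M) ^ (1 - 2 * σ) ≤ (σ - 1) * ((s + 1) / s) :=
    mul_le_mul_of_nonneg_left h (by linarith)
  refine h2.trans ?_
  have e : (σ - 1) * ((s + 1) / s) = (s + 1) / 2 := by
    have : σ - 1 = s / 2 := by rw [hs]; ring
    rw [this]; field_simp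
  rw [e]
  linarith

end Pool.Agent.H18.RS
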