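import Mathlib

/-!
# Job RS-16: a sum over an arithmetic progression against the integral

`f u = (u ^ 2 + A ^ 2) ^ (-σ)`, `|f' u| = 2σ|u| (u² + A²)^(-σ-1) ≤ 4 (u² + A²)^(-σ-1/2)`. For every `x`:
`|f x - (1/M) ∫_x^{x+M} f| ≤ ∫_x^{x+M} |f'|` (as `f x - f u = -∫_x^u f'`). Sum over `x = θ + n M`, `n ∈ ℤ` (the intervals
`(x, x+M]` tile `ℝ`: `integral_iUnion`/`MeasureTheory.integral_tsum`/`hasSum_integral_iUnion`, or
`intervalIntegral` with `iUnion_Ioc_add_zsmul`): error `≤ ∫_ℝ |f'| ≤ 4 A^(-2σ) ∫ (1 + u²)^(-σ-1/2) ≤ 4 π A^(-2σ)`, and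
`∫_ℝ f = A^(1-2σ) KK σ` (substitution `u = A v`: `integral_comp_mul_left`/`Measure.integral_comp_mul_left`).
Alternative without derivatives: `f` is monotone on `(-∞, 0]` and antitone on `[0, ∞)`, so error `≤ 2 f 0`.
`KK_bound`: `(1 + u²)^(-σ) ≤ (1 + u²)⁻¹` and `integral_univ_inv_one_add_sq = π`.
-/

open UpperHalfPlane MeasureTheory CongruenceSubgroup
open scoped MatrixGroups Modular ComplexConjugate

namespace Pool.Agent.H18.RS

/-- `∫ (1 + u ^ 2) ^ (-σ)` -/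
noncomputable def KK (σ : ℝ) : ℝ := ∫ u : ℝ, (1 + u ^ 2) ^ (-σ)

theorem hh_le {σ : ℝ} (hσ : 1 ≤ σ) (u : ℝ) : (1 + u ^ 2) ^ (-σ) ≤ (1 + u ^ 2)⁻¹ := by
  have h1 : (1 : ℝ) ≤ 1 + u ^ 2 := by nlinarith [sq_nonneg u]
  calc (1 + u ^ 2) ^ (-σ) ≤ (1 + u ^ 2) ^ (-1 : ℝ) :=
        Real.rpow_le_rpow_of_exponent_le h1 (by linarith)
    _ = (1 + u ^ 2)⁻¹ := Real.rpow_neg_one _

theorem hh_continuous (σ : ℝ) : Continuous (fun u : ℝ => (1 + u ^ 2) ^ (-σ)) := by
  refine Continuous.rpow_const (by fun_prop) fun u => Or.inl ?_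
  positivity

theorem hh_integrable {σ : ℝ} (hσ : 1 ≤ σ) : Integrable (fun u : ℝ => (1 + u ^ 2) ^ (-σ)) := by
  refine integrable_inv_one_add_sq.mono' (hh_continuous σ).aestronglyMeasurable ?_
  refine Filter.Eventually.of_forall fun u => ?_
  rw [Real.norm_of_nonneg (by positivity)]
  exact hh_le hσ u

theorem KK_bound : ∃ C : ℝ, ∀ σ : ℝ, 1 ≤ σ → 0 ≤ KK σ ∧ KK σ ≤ C := by
  refine ⟨Real.pi, fun σ hσ => ⟨?_, ?_⟩⟩
  · exact integral_nonneg fun u => by positivity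
  · rw [← integral_univ_inv_one_add_sq]
    exact integral_mono (hh_integrable hσ) integrable_inv_one_add_sq (hh_le hσ)

/-- a sum against the integral -/
theorem sum_vs_int {F F' G : ℝ → ℝ} (hF : ∀ t, HasDerivAt F (F' t) t) (hF' : Continuous F')
    (hG : Continuous G) (hle : ∀ t, |F' t| ≤ G t) (hFi : Integrable F) (hGi : Integrable G)
    (y : ℝ) : Summable (fun n : ℤ => F (y + n)) ∧ |∑' n : ℤ, F (y + n) - ∫ t, F t| ≤ ∫ t, G t := by
  have hI := hFi.hasSum_intervalIntegral y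
  have hJ := hGi.hasSum_intervalIntegral y
  have hFc : Continuous F := continuous_iff_continuousAt.mpr fun t => (hF t).continuousAt
  have hG0 : ∀ t, 0 ≤ G t := fun t => (abs_nonneg _).trans (hle t)
  have key : ∀ n : ℤ, ‖F (y + n) - ∫ x in (y + n)..(y + n + 1), F x‖ ≤
      ∫ x in (y + n)..(y + n + 1), G x := by
    intro n
    set a : ℝ := y + n with ha
    have e : F a - ∫ x in a..(a + 1), F x = ∫ x in a..(a + 1), (F a - F x) := by
      rw [intervalIntegral.integral_sub (intervalIntegrable_const) (hFc.intervalIntegrable _ _)]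
      simp
    rw [e]
    have hpt : ∀ x ∈ Set.uIoc a (a + 1), ‖F a - F x‖ ≤ ∫ x in a..(a + 1), G x := by
      intro x hx
      rw [Set.uIoc_of_le (by linarith)] at hx
      have e2 : F x - F a = ∫ t in a..x, F' t :=
        (intervalIntegral.integral_eq_sub_of_hasDerivAt (fun t _ => hF t)
          (hF'.intervalIntegrable _ _)).symm
      rw [norm_sub_rev, e2]
      calc ‖∫ t in a..x, F' t‖ ≤ ∫ t in a..x, G t := by
            refine intervalIntegral.norm_integral_le_of_norm_le hx.1.le ?_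
              (hG.intervalIntegrable _ _)
            exact Filter.Eventually.of_forall fun t _ => hle t
        _ ≤ ∫ t in a..(a + 1), G t := by
            refine intervalIntegral.integral_mono_interval le_rfl hx.1.le hx.2 ?_
              (hG.intervalIntegrable _ _)
            exact Filter.Eventually.of_forall fun t => hG0 t
    have := intervalIntegral.norm_integral_le_of_norm_le_const hpt
    simpa using this
  have hd : Summable (fun n : ℤ => F (y + n) - ∫ x in (y + n)..(y + n + 1), F x) :=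
    Summable.of_norm_bounded hJ.summable key
  have hs : Summable (fun n : ℤ => F (y + n)) := by
    have := hd.add hI.summable
    simpa using this
  refine ⟨hs, ?_⟩
  rw [← hI.tsum_eq, ← Summable.tsum_sub hs hI.summable, ← Real.norm_eq_abs]
  exact tsum_of_norm_bounded hJ key

theorem sum_int {M : ℕ} (hM : 0 < M) : ∃ C : ℝ, ∀ σ : ℝ, 1 ≤ σ → σ ≤ 2 → ∀ A : ℝ, 1 / 2 ≤ A →
    ∀ θ : ℝ, Summable (fun n : ℤ => ((θ + n * M) ^ 2 + A ^ 2) ^ (-σ)) ∧
      |∑' n : ℤ, ((θ + n * M) ^ 2 + A ^ 2) ^ (-σ) - A ^ (1 - 2 * σ) * KK σ / M| ≤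
        C * A ^ (-(2 * σ)) := by
  refine ⟨4 * Real.pi, ?_⟩
  intro σ hσ hσ2 A hA θ
  have hA0 : 0 < A := by linarith
  have hM0 : (0 : ℝ) < M := by exact_mod_cast hM
  set a : ℝ := M / A with ha
  have ha0 : 0 < a := by positivity
  have hb0 : 0 < A ^ (-(2 * σ)) := by positivity
  have hFa : ∀ n : ℤ, ((θ + n * M) ^ 2 + A ^ 2) ^ (-σ) =
      A ^ (-(2 * σ)) * (1 + (a * (θ / M + n)) ^ 2) ^ (-σ) := by
    intro n
    have e : (θ + n * M) ^ 2 + A ^ 2 = A ^ 2 * (1 + (a * (θ / M + n)) ^ 2) := by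
      rw [ha]; field_simp; ring
    rw [e, Real.mul_rpow (by positivity) (by positivity)]
    congr 1
    rw [← Real.rpow_natCast, ← Real.rpow_mul hA0.le]
    congr 1
    push_cast; ring
  simp only [hFa]
  have hderiv : ∀ t : ℝ, HasDerivAt (fun t : ℝ => A ^ (-(2 * σ)) * (1 + (a * t) ^ 2) ^ (-σ))
      (A ^ (-(2 * σ)) * ((2 * (a * t) * a) * (-σ) * (1 + (a * t) ^ 2) ^ (-σ - 1))) t := by
    intro t
    have h1 : HasDerivAt (fun t : ℝ => 1 + (a * t) ^ 2) (2 * (a * t) * a) t := by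
      have := (((hasDerivAt_id' t).const_mul a).pow 2).const_add 1
      refine this.congr_deriv ?_
      push_cast
      ring
    exact (h1.rpow_const (Or.inl (by positivity))).const_mul _
  have hc1 : Continuous (fun t : ℝ => A ^ (-(2 * σ)) * ((2 * (a * t) * a) * (-σ) *
      (1 + (a * t) ^ 2) ^ (-σ - 1))) := by
    refine Continuous.mul continuous_const (Continuous.mul (by fun_prop) ?_)
    refine Continuous.rpow_const (by fun_prop) fun u => Or.inl ?_
    positivity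
  have hc2 : Continuous (fun t : ℝ => A ^ (-(2 * σ)) * (4 * a * (1 + (a * t) ^ 2)⁻¹)) := by
    refine Continuous.mul continuous_const (Continuous.mul continuous_const ?_)
    refine Continuous.inv₀ (by fun_prop) fun u => ?_
    positivity
  have hc3 : ∀ t : ℝ, |A ^ (-(2 * σ)) * ((2 * (a * t) * a) * (-σ) * (1 + (a * t) ^ 2) ^ (-σ - 1))| ≤
      A ^ (-(2 * σ)) * (4 * a * (1 + (a * t) ^ 2)⁻¹) := by
    intro t
    rw [abs_mul, abs_of_pos hb0]
    refine mul_le_mul_of_nonneg_left ?_ hb0.le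
    set u : ℝ := a * t with hu
    have h1 : (1 : ℝ) ≤ 1 + u ^ 2 := by nlinarith [sq_nonneg u]
    have h2 : (1 + u ^ 2) ^ (-σ - 1) ≤ (1 + u ^ 2)⁻¹ * (1 + u ^ 2)⁻¹ := by
      calc (1 + u ^ 2) ^ (-σ - 1) ≤ (1 + u ^ 2) ^ (-2 : ℝ) :=
            Real.rpow_le_rpow_of_exponent_le h1 (by linarith)
        _ = _ := by
            rw [Real.rpow_neg (by positivity), Real.rpow_two, ← mul_inv, sq]
    have h3 : |u| * (1 + u ^ 2)⁻¹ ≤ 1 := by
      rw [← div_eq_mul_inv, div_le_one (by positivity)]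
      rcases abs_cases u with ⟨h, _⟩ | ⟨h, _⟩ <;> nlinarith [sq_nonneg (u - 1), sq_nonneg (u + 1)]
    have h4 : 0 ≤ (1 + u ^ 2) ^ (-σ - 1) := by positivity
    have h5 : 0 < (1 + u ^ 2)⁻¹ := by positivity
    have e : |2 * u * a * -σ * (1 + u ^ 2) ^ (-σ - 1)| =
        2 * a * σ * (|u| * (1 + u ^ 2) ^ (-σ - 1)) := by
      rw [abs_mul, abs_mul, abs_mul, abs_mul, abs_neg, abs_of_nonneg h4, abs_of_pos ha0,
        abs_of_pos (by linarith : (0:ℝ) < σ), abs_of_pos (by norm_num : (0:ℝ) < 2)]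
      ring
    rw [e]
    have h6 : |u| * (1 + u ^ 2) ^ (-σ - 1) ≤ (1 + u ^ 2)⁻¹ := by
      calc |u| * (1 + u ^ 2) ^ (-σ - 1) ≤ |u| * ((1 + u ^ 2)⁻¹ * (1 + u ^ 2)⁻¹) :=
            mul_le_mul_of_nonneg_left h2 (abs_nonneg u)
        _ = (|u| * (1 + u ^ 2)⁻¹) * (1 + u ^ 2)⁻¹ := by ring
        _ ≤ 1 * (1 + u ^ 2)⁻¹ := mul_le_mul_of_nonneg_right h3 h5.le
        _ = _ := one_mul _
    calc 2 * a * σ * (|u| * (1 + u ^ 2) ^ (-σ - 1)) ≤ 2 * a * σ * (1 + u ^ 2)⁻¹ :=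
          mul_le_mul_of_nonneg_left h6 (by positivity)
      _ ≤ 2 * a * 2 * (1 + u ^ 2)⁻¹ := by gcongr
      _ = 4 * a * (1 + u ^ 2)⁻¹ := by ring
  have hc4 : Integrable (fun t : ℝ => A ^ (-(2 * σ)) * (1 + (a * t) ^ 2) ^ (-σ)) := by
    exact ((hh_integrable hσ).comp_mul_left' ha0.ne').const_mul _
  have hc5 : Integrable (fun t : ℝ => A ^ (-(2 * σ)) * (4 * a * (1 + (a * t) ^ 2)⁻¹)) := by
    exact ((integrable_inv_one_add_sq.comp_mul_left' ha0.ne').const_mul _).const_mul _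
  obtain ⟨s, b⟩ := sum_vs_int hderiv hc1 hc2 hc3 hc4 hc5 (θ / M)
  refine ⟨s, ?_⟩
  have e1 : ∫ t : ℝ, A ^ (-(2 * σ)) * (1 + (a * t) ^ 2) ^ (-σ) = A ^ (1 - 2 * σ) * KK σ / M := by
    rw [integral_const_mul, Measure.integral_comp_mul_left (fun u : ℝ => (1 + u ^ 2) ^ (-σ)) a]
    rw [abs_of_pos (by positivity), smul_eq_mul]
    change A ^ (-(2 * σ)) * (a⁻¹ * KK σ) = _
    have : A ^ (1 - 2 * σ) = A ^ (-(2 * σ)) * A := by
      rw [sub_eq_add_neg, Real.rpow_add hA0, Real.rpow_one, mul_comm]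
    rw [this, ha]
    field_simp
  have e2 : ∫ t : ℝ, A ^ (-(2 * σ)) * (4 * a * (1 + (a * t) ^ 2)⁻¹) =
      4 * Real.pi * A ^ (-(2 * σ)) := by
    rw [integral_const_mul, integral_const_mul,
      Measure.integral_comp_mul_left (fun u : ℝ => (1 + u ^ 2)⁻¹) a,
      integral_univ_inv_one_add_sq, abs_of_pos (by positivity), smul_eq_mul]
    field_simp
  rw [e1, e2] at b
  exact b

end Pool.Agent.H18.RS
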