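import Mathlib
import Pool.Agent.H18.RS.Basic

/-!
# Job RS-18: the weights are summable

`nsq z v = ‖c z + d‖²`, and `‖c z + d‖ ≥ r * max |c| |d|` with `r > 0` (Mathlib `EisensteinSeries.r`,
`EisensteinSeries.summand_bound`, `EisensteinSeries.summable_norm_...`, `summable_one_div_norm_rpow` in
`NumberTheory/ModularForms/EisensteinSeries/Summable.lean`), so `wt z σ v ≤ (z.im / r²)^σ * max(|c|,|d|)^(-2σ)` and
`∑ ‖v‖^(-2σ)` over `ℤ²` converges for `2σ > 2`.
-/

open UpperHalfPlane MeasureTheory CongruenceSubgroup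
open scoped MatrixGroups Modular ComplexConjugate

namespace Pool.Agent.H18.RS

theorem nsq_eq (z : ℍ) (v : ℤ × ℤ) : nsq z v = ‖(v.1 : ℂ) * z + v.2‖ ^ 2 := by
  rw [← Complex.normSq_eq_norm_sq, Complex.normSq_apply]
  simp only [nsq, Complex.add_re, Complex.mul_re, Complex.intCast_re, Complex.intCast_im,
    Complex.add_im, Complex.mul_im, UpperHalfPlane.coe_re, UpperHalfPlane.coe_im, zero_mul,
    sub_zero, add_zero]
  ring

theorem nsq_nonneg_w18 (z : ℍ) (v : ℤ × ℤ) : 0 ≤ nsq z v := by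
  unfold nsq; positivity

theorem wt_nonneg (z : ℍ) (σ : ℝ) (v : ℤ × ℤ) : 0 ≤ wt z σ v := by
  unfold wt
  exact Real.rpow_nonneg (div_nonneg z.im_pos.le (nsq_nonneg_w18 z v)) _

theorem wt_eq_w18 (z : ℍ) (σ : ℝ) (v : ℤ × ℤ) :
    wt z σ v = z.im ^ σ * ‖(v.1 : ℂ) * z + v.2‖ ^ (-(2 * σ)) := by
  unfold wt
  rw [nsq_eq, Real.div_rpow z.im_pos.le (by positivity), Real.rpow_neg (norm_nonneg _),
    div_eq_mul_inv, ← Real.rpow_natCast, ← Real.rpow_mul (norm_nonneg _)]
  norm_num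

theorem wt_summable (z : ℍ) {σ : ℝ} (hσ : 1 < σ) : Summable (wt z σ) := by
  have h1 := EisensteinSeries.summable_one_div_norm_rpow (k := 2 * σ) (by linarith)
  have h2 := (h1.mul_left (z.im ^ σ * EisensteinSeries.r z ^ (-(2 * σ))))
  have h3 : Summable (fun x : Fin 2 → ℤ => wt z σ (x 0, x 1)) := by
    refine Summable.of_nonneg_of_le (fun x => wt_nonneg _ _ _) (fun x => ?_) h2
    rw [wt_eq_w18, mul_assoc]
    exact mul_le_mul_of_nonneg_left
      (EisensteinSeries.summand_bound z (by linarith : 0 ≤ 2 * σ) x)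
      (Real.rpow_nonneg z.im_pos.le _)
  have h4 := (finTwoArrowEquiv ℤ).symm.summable_iff.mpr h3
  refine h4.congr fun v => ?_
  simp [finTwoArrowEquiv]

end Pool.Agent.H18.RS
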