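import Mathlib
import Pool.Agent.H18.RS.WtSum
import Pool.Agent.H18.RS.SumInt
import Pool.Agent.H18.RS.Arith

/-!
# Job RS-19: the lattice sums

`y = z.im ≥ √3/2` on `𝒟` (`ModularGroup.three_le_four_mul_im_sq_of_mem_fd`), `x = z.re`, `y^σ` etc. Split the sum
over `v = (c, d)` with `red M v = r = (r₁, r₂)` by `c` (`Summable.tsum_prod`, all terms nonnegative, `wt_summable`).
* `c = 0` (only if `r₁ = 0`): `0 ≤ ∑_{d ≡ r₂, d ≠ 0} (y / d²)^σ ≤ y^σ ∑_{d ≠ 0} |d|^(-2) ≤ C y^2`.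
* `c ≠ 0`, `A = |c| y ≥ 1/2`: the `d ≡ r₂` are `d = ρ + n M`, and
  `∑_d wt = y^σ ∑_n ((c x + ρ + n M)² + A²)^(-σ) = y^σ (A^(1-2σ) KK σ / M + O(A^(-2σ)))` by `sum_int`.
  The errors sum to `O(y^σ ∑_{c ≠ 0} (|c| y)^(-2σ)) = O(1)`. The main terms sum to
  `y^(1-σ) (KK σ / M) ∑_{c ≡ r₁, c ≠ 0} |c|^(1-2σ)`, and by `arith_prog` for `r₁` (`c > 0`) and `-r₁` (`c < 0`)
  this is `y^(1-σ) (KK σ / M) (2 Σ_M + O(1))`, `Σ_M = ∑_j ((j+1) M)^(1-2σ)`.
* `|y^(1-σ) - 1| ≤ C (σ-1) y` for `1 < σ ≤ 2`, `y ≥ √3/2` (`y^(1-σ) = exp (-(σ-1) log y)`, `|log y| ≤ y + 1`, `y^(1-σ) ≤ 2`), and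
  `(σ-1) Σ_M ≤ σ ≤ 2` (`arith_bound`). So `κ σ = 2 (KK σ / M) Σ_M`. Finally `1, y ≤ 2 y²`.
-/

open UpperHalfPlane MeasureTheory CongruenceSubgroup
open scoped MatrixGroups Modular ComplexConjugate

namespace Pool.Agent.H18.RS

theorem class_tsum {M : ℕ} (hM : 0 < M) (r : ZMod M) (g : ℤ → ℝ) :
    ∑' d : ℤ, (if (d : ZMod M) = r then g d else 0) = ∑' n : ℤ, g (r.val + n * M) := by
  have : NeZero M := ⟨hM.ne'⟩
  have hM' : (M : ℤ) ≠ 0 := by exact_mod_cast hM.ne'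
  have hinj : Function.Injective (fun n : ℤ => (r.val : ℤ) + n * M) := by
    intro a b h
    exact mul_right_cancel₀ hM' (by simpa using h : a * (M:ℤ) = b * M)
  have hsup : Function.support (fun d : ℤ => if (d : ZMod M) = r then g d else 0) ⊆
      Set.range (fun n : ℤ => (r.val : ℤ) + n * M) := by
    intro d hd
    have hd' : (d : ZMod M) = r := by
      by_contra hne
      exact hd (if_neg hne)
    have h1 : ((d - (r.val : ℤ) : ℤ) : ZMod M) = 0 := by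
      push_cast
      rw [hd', ZMod.natCast_zmod_val, sub_self]
    rw [ZMod.intCast_zmod_eq_zero_iff_dvd] at h1
    obtain ⟨n, hn⟩ := h1
    refine ⟨n, ?_⟩
    change (r.val : ℤ) + n * M = d
    linarith [mul_comm (M : ℤ) n]
  rw [← hinj.tsum_eq hsup]
  refine tsum_congr fun n => ?_
  have : (((r.val : ℤ) + n * M : ℤ) : ZMod M) = r := by
    push_cast
    simp
  simp only [this, if_true]

theorem im_ge {z : ℍ} (hz : z ∈ 𝒟) : (4 / 5 : ℝ) ≤ z.im := by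
  have h := ModularGroup.three_le_four_mul_im_sq_of_mem_fd hz
  have h0 := z.im_pos
  nlinarith

theorem im_rpow_le {y σ : ℝ} (hy : 4 / 5 ≤ y) (h3 : 3 ≤ 4 * y ^ 2) (hσ : 1 < σ) (hσ2 : σ ≤ 2) :
    y ^ σ ≤ 4 / 3 * y ^ 2 := by
  rcases le_total 1 y with h | h
  · have h1 : y ^ σ ≤ y ^ (2 : ℝ) := Real.rpow_le_rpow_of_exponent_le h hσ2
    rw [Real.rpow_two] at h1
    nlinarith
  · have h1 : y ^ σ ≤ 1 := Real.rpow_le_one (by linarith) h (by linarith)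
    linarith

theorem c_zero {M : ℕ} : ∃ C : ℝ, 0 ≤ C ∧ ∀ σ : ℝ, 1 < σ → σ ≤ 2 → ∀ z ∈ 𝒟, ∀ r : ZMod M,
    |∑' d : ℤ, (if (d : ZMod M) = r then wt z σ (0, d) else 0)| ≤ C * z.im ^ 2 := by
  have hs : Summable (fun d : ℤ => 1 / (d : ℝ) ^ 2) := by
    have := Real.summable_one_div_int_pow.mpr (one_lt_two)
    exact this
  refine ⟨4 / 3 * ∑' d : ℤ, 1 / (d : ℝ) ^ 2, ?_, ?_⟩
  · have : 0 ≤ ∑' d : ℤ, 1 / (d : ℝ) ^ 2 := tsum_nonneg fun d => by positivity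
    positivity
  intro σ hσ hσ2 z hz r
  have hy := im_ge hz
  have h3 := ModularGroup.three_le_four_mul_im_sq_of_mem_fd hz
  have hy0 := z.im_pos
  have hyσ := im_rpow_le hy h3 hσ hσ2
  have hle : ∀ d : ℤ, ‖(if (d : ZMod M) = r then wt z σ (0, d) else 0)‖ ≤
      4 / 3 * z.im ^ 2 * (1 / (d : ℝ) ^ 2) := by
    intro d
    split_ifs with h
    · rw [Real.norm_of_nonneg (wt_nonneg z σ _)]
      unfold wt nsq
      simp only [Int.cast_zero, zero_mul, zero_add]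
      rcases eq_or_ne d 0 with rfl | hd
      · simp [Real.zero_rpow (by linarith : σ ≠ 0)]
      · have hd2 : (1 : ℝ) ≤ (d : ℝ) ^ 2 := by
          have : (1 : ℤ) ≤ d ^ 2 := by
            have := sq_nonneg d
            rcases lt_or_gt_of_ne hd with h | h <;> nlinarith
          exact_mod_cast this
        have e0 : ((0 : ℝ) ^ 2) = 0 := by norm_num
        rw [e0, add_zero, Real.div_rpow hy0.le (by positivity), mul_one_div]
        have hd3 : (d : ℝ) ^ 2 ≤ ((d : ℝ) ^ 2) ^ σ := by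
          calc (d : ℝ) ^ 2 = ((d : ℝ) ^ 2) ^ (1 : ℝ) := (Real.rpow_one _).symm
            _ ≤ _ := Real.rpow_le_rpow_of_exponent_le hd2 hσ.le
        exact div_le_div₀ (by positivity) hyσ (by positivity) hd3
    · rw [norm_zero]; positivity
  have hS := hs.mul_left (4 / 3 * z.im ^ 2)
  have := tsum_of_norm_bounded hS.hasSum hle
  rw [Real.norm_eq_abs] at this
  refine this.trans (le_of_eq ?_)
  rw [tsum_mul_left]
  ring

theorem c_ne {M : ℕ} (hM : 0 < M) : ∃ C : ℝ, 0 ≤ C ∧ ∀ σ : ℝ, 1 < σ → σ ≤ 2 → ∀ z ∈ 𝒟,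
    ∀ r : ZMod M, ∀ c : ℤ, c ≠ 0 →
    |∑' d : ℤ, (if (d : ZMod M) = r then wt z σ (c, d) else 0) -
      z.im ^ (1 - σ) * (KK σ / M) * |(c : ℝ)| ^ (1 - 2 * σ)| ≤ C * |(c : ℝ)| ^ (-(2 * σ)) := by
  obtain ⟨C, hC⟩ := sum_int hM
  refine ⟨2 * |C|, by positivity, ?_⟩
  intro σ hσ hσ2 z hz r c hc
  have hy := im_ge hz
  have hy0 := z.im_pos
  have hc1 : (1 : ℝ) ≤ |(c : ℝ)| := by
    have : (1 : ℤ) ≤ |c| := Int.one_le_abs hc
    exact_mod_cast this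
  have hc0 : (0 : ℝ) < |(c : ℝ)| := by linarith
  set A : ℝ := |(c : ℝ)| * z.im with hA
  have hA0 : 0 < A := by positivity
  have hA1 : 1 / 2 ≤ A := by nlinarith
  rw [class_tsum hM r (fun d => wt z σ (c, d))]
  have hterm : ∀ n : ℤ, wt z σ (c, (r.val : ℤ) + n * M) =
      z.im ^ σ * ((((c : ℝ) * z.re + r.val) + n * M) ^ 2 + A ^ 2) ^ (-σ) := by
    intro n
    unfold wt nsq
    have e : ((c : ℝ) * z.re + (((r.val : ℤ) + n * M : ℤ) : ℝ)) ^ 2 + ((c : ℝ) * z.im) ^ 2 =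
        (((c : ℝ) * z.re + r.val) + n * M) ^ 2 + A ^ 2 := by
      rw [hA, mul_pow, mul_pow, sq_abs]
      push_cast
      ring
    simp only [e]
    rw [Real.div_rpow hy0.le (by positivity), Real.rpow_neg (by positivity), div_eq_mul_inv]
  simp only [hterm]
  rw [tsum_mul_left]
  obtain ⟨-, h2⟩ := hC σ hσ.le hσ2 A hA1 ((c : ℝ) * z.re + r.val)
  have e1 : z.im ^ (1 - σ) * (KK σ / M) * |(c : ℝ)| ^ (1 - 2 * σ) =
      z.im ^ σ * (A ^ (1 - 2 * σ) * KK σ / M) := by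
    rw [hA, Real.mul_rpow hc0.le hy0.le]
    have : z.im ^ (1 - σ) = z.im ^ σ * z.im ^ (1 - 2 * σ) := by
      rw [← Real.rpow_add hy0]; congr 1; ring
    rw [this]; ring
  rw [e1, ← mul_sub, abs_mul, abs_of_nonneg (by positivity : (0:ℝ) ≤ z.im ^ σ)]
  have h3 : z.im ^ σ * A ^ (-(2 * σ)) = z.im ^ (-σ) * |(c : ℝ)| ^ (-(2 * σ)) := by
    rw [hA, Real.mul_rpow hc0.le hy0.le]
    have : z.im ^ (-σ) = z.im ^ σ * z.im ^ (-(2 * σ)) := by
      rw [← Real.rpow_add hy0]; congr 1; ring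
    rw [this]; ring
  have h4 : z.im ^ (-σ) ≤ 2 := by
    have h5 : z.im ^ (-σ) ≤ (4 / 5 : ℝ) ^ (-σ) :=
      Real.rpow_le_rpow_of_nonpos (by norm_num) hy (by linarith)
    have h6 : (4 / 5 : ℝ) ^ (-σ) ≤ (4 / 5 : ℝ) ^ (-2 : ℝ) :=
      Real.rpow_le_rpow_of_exponent_ge (by norm_num) (by norm_num) (by linarith)
    have h7 : (4 / 5 : ℝ) ^ (-2 : ℝ) ≤ 2 := by
      rw [Real.rpow_neg (by norm_num)]
      norm_num
    linarith
  calc z.im ^ σ * |∑' n : ℤ, ((((c : ℝ) * z.re + r.val) + n * M) ^ 2 + A ^ 2) ^ (-σ) -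
        A ^ (1 - 2 * σ) * KK σ / M| ≤ z.im ^ σ * (C * A ^ (-(2 * σ))) :=
        mul_le_mul_of_nonneg_left h2 (by positivity)
    _ ≤ z.im ^ σ * (|C| * A ^ (-(2 * σ))) := by
        gcongr; exact le_abs_self C
    _ = |C| * (z.im ^ (-σ) * |(c : ℝ)| ^ (-(2 * σ))) := by rw [← h3]; ring
    _ ≤ |C| * (2 * |(c : ℝ)| ^ (-(2 * σ))) := by gcongr
    _ = 2 * |C| * |(c : ℝ)| ^ (-(2 * σ)) := by ring

/-- the sum over `c ≠ 0` in a class -/
theorem c_sum {M : ℕ} (hM : 0 < M) {σ : ℝ} (hσ : 1 < σ) (r : ZMod M) :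
    Summable (fun c : ℤ => if (c : ZMod M) = r ∧ c ≠ 0 then |(c : ℝ)| ^ (1 - 2 * σ) else 0) ∧
    |∑' c : ℤ, (if (c : ZMod M) = r ∧ c ≠ 0 then |(c : ℝ)| ^ (1 - 2 * σ) else 0) -
      2 * ∑' j : ℕ, (((j : ℝ) + 1) * M) ^ (1 - 2 * σ)| ≤ 2 := by
  obtain ⟨s1, b1⟩ := arith_prog hM hσ r
  obtain ⟨s2, b2⟩ := arith_prog hM hσ (-r)
  have H := HasSum.of_nat_of_neg
    (f := fun c : ℤ => if (c : ZMod M) = r ∧ c ≠ 0 then |(c : ℝ)| ^ (1 - 2 * σ) else 0)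
    (g := ∑' c : ℕ, (if (c : ZMod M) = r ∧ c ≠ 0 then (c : ℝ) ^ (1 - 2 * σ) else 0))
    (g' := ∑' c : ℕ, (if (c : ZMod M) = -r ∧ c ≠ 0 then (c : ℝ) ^ (1 - 2 * σ) else 0)) ?_ ?_
  · refine ⟨H.summable, ?_⟩
    rw [H.tsum_eq]
    simp only [ne_eq, not_true_eq_false, and_false, if_false, sub_zero]
    rw [abs_le] at b1 b2 ⊢
    simp only [ne_eq] at b1 b2
    constructor <;> linarith [b1.1, b1.2, b2.1, b2.2]
  · have e : ∀ c : ℕ, (if (((c : ℕ) : ℤ) : ZMod M) = r ∧ ((c : ℕ) : ℤ) ≠ 0 then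
        |(((c : ℕ) : ℤ) : ℝ)| ^ (1 - 2 * σ) else 0) =
        (if (c : ZMod M) = r ∧ c ≠ 0 then (c : ℝ) ^ (1 - 2 * σ) else 0) := by
      intro c
      simp
    simp only [e]
    exact s1.hasSum
  · have e : ∀ c : ℕ, (if ((-((c : ℕ) : ℤ) : ℤ) : ZMod M) = r ∧ -((c : ℕ) : ℤ) ≠ 0 then
        |((-((c : ℕ) : ℤ) : ℤ) : ℝ)| ^ (1 - 2 * σ) else 0) =
        (if (c : ZMod M) = -r ∧ c ≠ 0 then (c : ℝ) ^ (1 - 2 * σ) else 0) := by
      intro c
      have : ((-(c : ℤ) : ℤ) : ZMod M) = r ↔ (c : ZMod M) = -r := by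
        push_cast
        constructor
        · intro h; rw [← h, neg_neg]
        · intro h; rw [h, neg_neg]
      simp only [this]
      simp
    simp only [e]
    exact s2.hasSum

theorem rpow_sub_one_bound {y σ : ℝ} (hy : 4 / 5 ≤ y) (hσ : 1 < σ) (hσ2 : σ ≤ 2) :
    |y ^ (1 - σ) - 1| ≤ 2 * (σ - 1) * y := by
  have hy0 : 0 < y := by linarith
  have hl1 : Real.log y ≤ y - 1 := Real.log_le_sub_one_of_pos hy0
  have hl2 : -Real.log y ≤ 1 / 4 := by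
    have := Real.log_le_sub_one_of_pos (inv_pos.mpr hy0)
    rw [Real.log_inv] at this
    have h2 : y⁻¹ ≤ 5 / 4 := by
      rw [inv_le_comm₀ hy0 (by norm_num)]; norm_num; linarith
    linarith
  have e : y ^ (1 - σ) = Real.exp (Real.log y * (1 - σ)) := Real.rpow_def_of_pos hy0 _
  rw [e]
  rcases le_total 0 (Real.log y) with h | h
  · have h1 : Real.exp (Real.log y * (1 - σ)) ≤ 1 := by
      apply Real.exp_le_one_iff.mpr
      nlinarith
    have h2 := Real.add_one_le_exp (Real.log y * (1 - σ))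
    rw [abs_of_nonpos (by linarith)]
    nlinarith
  · have hab : |Real.log y * (1 - σ)| ≤ 1 := by
      rw [abs_le]
      constructor <;> nlinarith
    have h1 := Real.abs_exp_sub_one_le hab
    refine h1.trans ?_
    rw [abs_of_nonneg (by nlinarith)]
    nlinarith

theorem lattice_sum {M : ℕ} (hM : 0 < M) : ∃ κ : ℝ → ℝ, ∃ C : ℝ, ∀ σ : ℝ, 1 < σ → σ ≤ 2 →
    ∀ z ∈ 𝒟, ∀ r : ZMod M × ZMod M,
      |∑' v : ℤ × ℤ, (if red M v = r then wt z σ v else 0) - κ σ| ≤ C * z.im ^ 2 := by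
  obtain ⟨C₁, hC₁, h0⟩ := c_zero (M := M)
  obtain ⟨C₂, hC₂, hne⟩ := c_ne hM
  obtain ⟨C₃, h3⟩ := KK_bound
  have hs2 : Summable (fun c : ℤ => 1 / (c : ℝ) ^ 2) := by
    have := Real.summable_one_div_int_pow.mpr (one_lt_two)
    exact this
  set Z : ℝ := ∑' c : ℤ, 1 / (c : ℝ) ^ 2 with hZ
  have hZ0 : 0 ≤ Z := tsum_nonneg fun d => by positivity
  refine ⟨fun σ => 2 * (KK σ / M) * ∑' j : ℕ, (((j : ℝ) + 1) * M) ^ (1 - 2 * σ),
    C₁ + 2 * C₂ * Z + C₃ * 40, ?_⟩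
  intro σ hσ hσ2 z hz r
  have hy := im_ge hz
  have hy0 := z.im_pos
  have hd3 := ModularGroup.three_le_four_mul_im_sq_of_mem_fd hz
  have hM1 : (1 : ℝ) ≤ M := by exact_mod_cast hM
  obtain ⟨hK0, hK1⟩ := h3 σ hσ.le
  have hKM0 : 0 ≤ KK σ / M := by positivity
  have hKM1 : KK σ / M ≤ C₃ := (div_le_self hK0 hM1).trans hK1
  set F : ℤ × ℤ → ℝ := fun v => if red M v = r then wt z σ v else 0 with hF
  have hFs : Summable F := by
    refine Summable.of_nonneg_of_le (fun v => ?_) (fun v => ?_) (wt_summable z hσ)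
    · simp only [hF]; split_ifs; exacts [wt_nonneg _ _ _, le_rfl]
    · simp only [hF]; split_ifs; exacts [le_rfl, wt_nonneg _ _ _]
  set S : ℤ → ℝ := fun c => ∑' d : ℤ, F (c, d) with hS
  have hSs : Summable S := hFs.prod
  have hsum : ∑' v : ℤ × ℤ, F v = ∑' c, S c := hFs.tsum_prod
  obtain ⟨hGs, hGb⟩ := c_sum hM hσ r.1
  set G : ℤ → ℝ := fun c => if (c : ZMod M) = r.1 ∧ c ≠ 0 then |(c : ℝ)| ^ (1 - 2 * σ) else 0 with hG
  set K : ℝ := z.im ^ (1 - σ) * (KK σ / M) with hK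
  have hSc : ∀ c : ℤ, (c : ZMod M) = r.1 →
      S c = ∑' d : ℤ, (if (d : ZMod M) = r.2 then wt z σ (c, d) else 0) := by
    intro c hc
    simp only [hS, hF]
    refine tsum_congr fun d => ?_
    have : red M (c, d) = r ↔ (d : ZMod M) = r.2 := by
      unfold red
      rw [Prod.ext_iff]
      exact ⟨fun h => h.2, fun h => ⟨hc, h⟩⟩
    simp only [this]
  have hSc0 : ∀ c : ℤ, (c : ZMod M) ≠ r.1 → S c = 0 := by
    intro c hc
    simp only [hS, hF]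
    have : ∀ d : ℤ, ¬ red M (c, d) = r := by
      intro d h
      exact hc (congrArg Prod.fst h)
    simp [this]
  have hbound : ∀ c : ℤ, ‖S c - K * G c‖ ≤
      (if c = 0 then C₁ * z.im ^ 2 else 0) + C₂ * (1 / (c : ℝ) ^ 2) := by
    intro c
    rw [Real.norm_eq_abs]
    rcases eq_or_ne c 0 with rfl | hc
    · have hG0 : G 0 = 0 := by simp [hG]
      rw [hG0, mul_zero, sub_zero, if_pos rfl]
      have hr : 0 ≤ C₂ * (1 / ((0 : ℤ) : ℝ) ^ 2) := by positivity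
      by_cases h : ((0 : ℤ) : ZMod M) = r.1
      · rw [hSc 0 h]
        have := h0 σ hσ hσ2 z hz r.2
        linarith
      · rw [hSc0 0 h, abs_zero]
        positivity
    · rw [if_neg hc, zero_add]
      by_cases h : (c : ZMod M) = r.1
      · rw [hSc c h]
        have hGc : G c = |(c : ℝ)| ^ (1 - 2 * σ) := by simp only [hG]; rw [if_pos ⟨h, hc⟩]
        rw [hGc]
        refine (hne σ hσ hσ2 z hz r.2 c hc).trans ?_
        refine mul_le_mul_of_nonneg_left ?_ hC₂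
        have hc1 : (1 : ℝ) ≤ |(c : ℝ)| := by
          have : (1 : ℤ) ≤ |c| := Int.one_le_abs hc
          exact_mod_cast this
        calc |(c : ℝ)| ^ (-(2 * σ)) ≤ |(c : ℝ)| ^ (-2 : ℝ) :=
              Real.rpow_le_rpow_of_exponent_le hc1 (by linarith)
          _ = 1 / (c : ℝ) ^ 2 := by
              rw [Real.rpow_neg (by positivity), Real.rpow_two, sq_abs, one_div]
      · have hGc : G c = 0 := by simp only [hG]; rw [if_neg (fun h' => h h'.1)]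
        rw [hSc0 c h, hGc]
        simp only [mul_zero, sub_zero, abs_zero]
        positivity
  have hEs : HasSum (fun c : ℤ => (if c = 0 then C₁ * z.im ^ 2 else 0) + C₂ * (1 / (c : ℝ) ^ 2))
      (C₁ * z.im ^ 2 + C₂ * Z) :=
    (hasSum_ite_eq 0 _).add (hs2.hasSum.mul_left C₂)
  have hfirst : |∑' c, S c - K * ∑' c, G c| ≤ C₁ * z.im ^ 2 + C₂ * Z := by
    have h := tsum_of_norm_bounded hEs hbound
    rw [Real.norm_eq_abs, Summable.tsum_sub hSs (hGs.mul_left K), tsum_mul_left] at h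
    exact h
  set TM : ℝ := ∑' j : ℕ, (((j : ℝ) + 1) * M) ^ (1 - 2 * σ) with hTM
  obtain ⟨hA0, hA1⟩ := arith_bound hM hσ
  have hyb := rpow_sub_one_bound hy hσ hσ2
  have hy2 : z.im ≤ 5 / 4 * z.im ^ 2 := by nlinarith
  have hy1 : z.im ^ (1 - σ) ≤ 1 + 2 * z.im := by
    have := (abs_le.mp hyb).2
    nlinarith
  have hypos : 0 ≤ z.im ^ (1 - σ) := by positivity
  have hsecond : |K * ∑' c, G c - 2 * (KK σ / M) * TM| ≤ C₃ * (40 * z.im ^ 2) := by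
    have e : K * ∑' c, G c - 2 * (KK σ / M) * TM = (KK σ / M) *
        (z.im ^ (1 - σ) * (∑' c, G c - 2 * TM) + 2 * ((z.im ^ (1 - σ) - 1) * TM)) := by
      rw [hK]; ring
    rw [e, abs_mul, abs_of_nonneg hKM0]
    refine mul_le_mul hKM1 ?_ (abs_nonneg _) (hKM0.trans hKM1)
    refine (abs_add_le _ _).trans ?_
    rw [abs_mul, abs_mul, abs_mul, abs_of_nonneg hypos, abs_of_nonneg hA0,
      abs_of_pos (by norm_num : (0 : ℝ) < 2)]
    have t1 : z.im ^ (1 - σ) * |∑' c, G c - 2 * TM| ≤ (1 + 2 * z.im) * 2 :=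
      mul_le_mul hy1 hGb (abs_nonneg _) (by linarith)
    have t2 : |z.im ^ (1 - σ) - 1| * TM ≤ 4 * z.im := by
      calc |z.im ^ (1 - σ) - 1| * TM ≤ (2 * (σ - 1) * z.im) * TM :=
            mul_le_mul_of_nonneg_right hyb hA0
        _ = 2 * z.im * ((σ - 1) * TM) := by ring
        _ ≤ 2 * z.im * σ := mul_le_mul_of_nonneg_left hA1 (by positivity)
        _ ≤ 2 * z.im * 2 := mul_le_mul_of_nonneg_left hσ2 (by positivity)
        _ = 4 * z.im := by ring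
    nlinarith
  have : |∑' c, S c - 2 * (KK σ / M) * TM| ≤
      |∑' c, S c - K * ∑' c, G c| + |K * ∑' c, G c - 2 * (KK σ / M) * TM| := abs_sub_le _ _ _
  rw [hsum]
  refine this.trans ((add_le_add hfirst hsecond).trans ?_)
  nlinarith [mul_nonneg hC₂ hZ0, mul_nonneg (mul_nonneg hC₂ hZ0) (sq_nonneg z.im)]

end Pool.Agent.H18.RS
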