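import Mathlib
import Pool.Agent.H18.RS.Basic

/-!
# Job RS-13: the functions `rowFun M Φ r`

* `rowFun_eq`: `h : ∃ γ', row M γ' = row M γ`, `δ = h.choose` has the same row mod `M` as `γ`; then
  `δ γ⁻¹ ∈ Gamma1 M` (`Gamma1_mem`; with `γ⁻¹ = [[γ11, -γ01], [-γ10, γ00]]` (`Matrix.SpecialLinearGroup.SL2_inv_expl`)
  the bottom row of `δ γ⁻¹` is `(γ10 γ11 - γ11 γ10, -γ10 γ01 + γ11 γ00) = (0, 1)` mod `M`, the upper left entry is
  then `1` mod `M` by the determinant), and `Φ (δ • z) = Φ ((δ γ⁻¹) • (γ • z)) = Φ (γ • z)`.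
* `rowFun_zero`: if `row M γ = red M v` and a prime `ℓ` divides `gcd (v.1, v.2)` and `M`, then `ℓ` divides both
  entries of the bottom row of `γ`, against `det = 1`. (For `M = 0`: `gcd ≠ 1` and the row is `v` itself.)
* `rowFun_unit`: if `row M γ = red M v` choose `a c` with `a e - M c = 1` (Bezout) and
  `δ = [[a, 1], [M c, e]] ∈ Gamma0 M`: `row M (δ γ) = red M (e v)`, so both sides are equal to `Φ (γ • z)` by
  `rowFun_eq` (`Gamma1_in_Gamma0`). Conversely if `row M γ = red M (e v)` take `e'` with `e e' = 1` mod `M`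
  (`e'.Coprime M`) and the same construction. If neither has a matrix both are `0`.
-/

open UpperHalfPlane MeasureTheory CongruenceSubgroup
open scoped MatrixGroups Modular ComplexConjugate

namespace Pool.Agent.H18.RS

theorem mem_gamma1_of_row {M : ℕ} {γ δ : SL(2, ℤ)} (h : row M δ = row M γ) :
    δ * γ⁻¹ ∈ Gamma1 M := by
  have h1 : (δ 1 0 : ZMod M) = (γ 1 0 : ZMod M) := congrArg Prod.fst h
  have h2 : (δ 1 1 : ZMod M) = (γ 1 1 : ZMod M) := congrArg Prod.snd h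
  have hdδ : (δ 0 0 : ZMod M) * (δ 1 1 : ZMod M) - (δ 0 1 : ZMod M) * (δ 1 0 : ZMod M) = 1 := by
    have := Matrix.SpecialLinearGroup.det_coe δ
    rw [Matrix.det_fin_two] at this
    exact_mod_cast congrArg (Int.cast : ℤ → ZMod M) this
  have hdγ : (γ 0 0 : ZMod M) * (γ 1 1 : ZMod M) - (γ 0 1 : ZMod M) * (γ 1 0 : ZMod M) = 1 := by
    have := Matrix.SpecialLinearGroup.det_coe γ
    rw [Matrix.det_fin_two] at this
    exact_mod_cast congrArg (Int.cast : ℤ → ZMod M) this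
  rw [Gamma1_mem]
  have e00 : (δ * γ⁻¹) 0 0 = δ 0 0 * γ 1 1 - δ 0 1 * γ 1 0 := by
    rw [Matrix.SpecialLinearGroup.coe_mul, Matrix.SpecialLinearGroup.SL2_inv_expl]
    simp [Matrix.mul_apply, Fin.sum_univ_two]
    ring
  have e10 : (δ * γ⁻¹) 1 0 = δ 1 0 * γ 1 1 - δ 1 1 * γ 1 0 := by
    rw [Matrix.SpecialLinearGroup.coe_mul, Matrix.SpecialLinearGroup.SL2_inv_expl]
    simp [Matrix.mul_apply, Fin.sum_univ_two]
    ring
  have e11 : (δ * γ⁻¹) 1 1 = δ 1 1 * γ 0 0 - δ 1 0 * γ 0 1 := by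
    rw [Matrix.SpecialLinearGroup.coe_mul, Matrix.SpecialLinearGroup.SL2_inv_expl]
    simp [Matrix.mul_apply, Fin.sum_univ_two]
    ring
  rw [e00, e10, e11]
  push_cast
  refine ⟨?_, ?_, ?_⟩
  · rw [← h1, ← h2]; exact hdδ
  · rw [h1, h2]; linear_combination hdγ
  · rw [h1, h2]; ring

theorem rowFun_eq {M : ℕ} {Φ : ℍ → ℂ} (hΦ : ∀ γ ∈ Gamma1 M, ∀ z, Φ (γ • z) = Φ z) (γ : SL(2, ℤ))
    (z : ℍ) : rowFun M Φ (row M γ) z = Φ (γ • z) := by
  unfold rowFun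
  have h : ∃ γ' : SL(2, ℤ), row M γ' = row M γ := ⟨γ, rfl⟩
  rw [dif_pos h]
  have hmem := mem_gamma1_of_row h.choose_spec
  have e : h.choose • z = (h.choose * γ⁻¹) • (γ • z) := by
    rw [mul_smul, inv_smul_smul]
  rw [e, hΦ _ hmem]

theorem rowFun_zero {M : ℕ} {Φ : ℍ → ℂ} (z : ℍ) (v : ℤ × ℤ) (hv : ¬ (Int.gcd v.1 v.2).Coprime M) :
    rowFun M Φ (red M v) z = 0 := by
  unfold rowFun
  rw [dif_neg]
  rintro ⟨γ, hγ⟩
  obtain ⟨l, hl, hl1, hl2⟩ := Nat.Prime.not_coprime_iff_dvd.mp hv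
  have h1 : (γ 1 0 : ZMod M) = (v.1 : ZMod M) := congrArg Prod.fst hγ
  have h2 : (γ 1 1 : ZMod M) = (v.2 : ZMod M) := congrArg Prod.snd hγ
  rw [ZMod.intCast_eq_intCast_iff_dvd_sub] at h1 h2
  have hM : (l : ℤ) ∣ (M : ℤ) := Int.natCast_dvd_natCast.mpr hl2
  have hg : (l : ℤ) ∣ (Int.gcd v.1 v.2 : ℤ) := Int.natCast_dvd_natCast.mpr hl1
  have hv1 : (l : ℤ) ∣ v.1 := hg.trans (Int.gcd_dvd_left _ _)
  have hv2 : (l : ℤ) ∣ v.2 := hg.trans (Int.gcd_dvd_right _ _)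
  have g1 : (l : ℤ) ∣ γ 1 0 := by
    have := dvd_sub hv1 (hM.trans h1)
    simpa using this
  have g2 : (l : ℤ) ∣ γ 1 1 := by
    have := dvd_sub hv2 (hM.trans h2)
    simpa using this
  have hd : γ 0 0 * γ 1 1 - γ 0 1 * γ 1 0 = 1 := by
    have := Matrix.SpecialLinearGroup.det_coe γ
    rwa [Matrix.det_fin_two] at this
  have h3 : (l : ℤ) ∣ 1 := by
    rw [← hd]
    exact dvd_sub (Dvd.dvd.mul_left g2 _) (Dvd.dvd.mul_left g1 _)
  have h4 : l ∣ 1 := by exact_mod_cast h3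
  exact hl.one_lt.ne' (Nat.dvd_one.mp h4)

theorem row_unit {M : ℕ} {e : ℤ} (he : IsCoprime e (M : ℤ)) (γ : SL(2, ℤ)) :
    ∃ δ ∈ Gamma0 M, row M (δ * γ) =
      ((e : ZMod M) * (γ 1 0 : ZMod M), (e : ZMod M) * (γ 1 1 : ZMod M)) := by
  obtain ⟨a, c, hac⟩ := he
  have hdet : Matrix.det !![a, 1; -(c * M), e] = 1 := by
    rw [Matrix.det_fin_two_of]
    linear_combination hac
  refine ⟨⟨!![a, 1; -(c * M), e], hdet⟩, ?_, ?_⟩
  · rw [Gamma0_mem]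
    simp
  · unfold row
    ext
    · rw [Matrix.SpecialLinearGroup.coe_mul]
      simp [Matrix.mul_apply, Fin.sum_univ_two]
    · rw [Matrix.SpecialLinearGroup.coe_mul]
      simp [Matrix.mul_apply, Fin.sum_univ_two]

theorem rowFun_unit_aux {M : ℕ} {Φ : ℍ → ℂ} (hΦ : ∀ γ ∈ Gamma0 M, ∀ z, Φ (γ • z) = Φ z) (z : ℍ)
    {e : ℤ} (he : IsCoprime e (M : ℤ)) (γ : SL(2, ℤ)) :
    rowFun M Φ ((e : ZMod M) * (γ 1 0 : ZMod M), (e : ZMod M) * (γ 1 1 : ZMod M)) z =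
      rowFun M Φ (row M γ) z := by
  have hΦ1 : ∀ γ ∈ Gamma1 M, ∀ z, Φ (γ • z) = Φ z := fun γ hγ z =>
    hΦ γ (Gamma1_in_Gamma0 M hγ) z
  obtain ⟨δ, hδ, hrow⟩ := row_unit he γ
  rw [← hrow, rowFun_eq hΦ1, rowFun_eq hΦ1, mul_smul, hΦ δ hδ]

theorem rowFun_unit {M : ℕ} {Φ : ℍ → ℂ} (hΦ : ∀ γ ∈ Gamma0 M, ∀ z, Φ (γ • z) = Φ z) (z : ℍ)
    (e : ℕ) (he : e.Coprime M) (v : ℤ × ℤ) :
    rowFun M Φ (red M (e * v.1, e * v.2)) z = rowFun M Φ (red M v) z := by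
  have hco : IsCoprime (e : ℤ) (M : ℤ) := Nat.isCoprime_iff_coprime.mpr he
  have hred : red M ((e : ℤ) * v.1, (e : ℤ) * v.2) =
      (((e : ℤ) : ZMod M) * (v.1 : ZMod M), ((e : ℤ) : ZMod M) * (v.2 : ZMod M)) := by
    unfold red
    push_cast
    rfl
  by_cases h1 : ∃ γ : SL(2, ℤ), row M γ = red M v
  · obtain ⟨γ, hγ⟩ := h1
    have e1 : (γ 1 0 : ZMod M) = (v.1 : ZMod M) := congrArg Prod.fst hγ
    have e2 : (γ 1 1 : ZMod M) = (v.2 : ZMod M) := congrArg Prod.snd hγ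
    rw [hred, ← hγ, ← e1, ← e2]
    exact rowFun_unit_aux hΦ z hco γ
  · by_cases h2 : ∃ γ : SL(2, ℤ), row M γ = red M ((e : ℤ) * v.1, (e : ℤ) * v.2)
    · exfalso
      obtain ⟨γ, hγ⟩ := h2
      obtain ⟨a, c, hac⟩ := hco
      have hco' : IsCoprime a (M : ℤ) := ⟨e, c, by linear_combination hac⟩
      obtain ⟨δ, hδ, hrow⟩ := row_unit hco' γ
      apply h1
      refine ⟨δ * γ, ?_⟩
      rw [hrow]
      rw [hred] at hγ
      have e1 : (γ 1 0 : ZMod M) = ((e : ℤ) : ZMod M) * (v.1 : ZMod M) := congrArg Prod.fst hγ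
      have e2 : (γ 1 1 : ZMod M) = ((e : ℤ) : ZMod M) * (v.2 : ZMod M) := congrArg Prod.snd hγ
      have hae : ((a : ℤ) : ZMod M) * ((e : ℤ) : ZMod M) = 1 := by
        have := congrArg (Int.cast : ℤ → ZMod M) hac
        push_cast at this
        simpa using this
      rw [e1, e2]
      unfold red
      ext
      · simp only
        rw [← mul_assoc, hae, one_mul]
      · simp only
        rw [← mul_assoc, hae, one_mul]
    · unfold rowFun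
      rw [dif_neg h1, dif_neg h2]

end Pool.Agent.H18.RS
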