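import Mathlib
import Pool.Agent.H18.RS.RowFun

/-!
# Job RS-14: the sum over `SL(2, ℤ)` as a sum over bottom rows

Let `F w = Φ w * w.im ^ σ`; `T = [[1, 1], [0, 1]] ∈ Gamma1 M`, so `F (T ^ n • w) = F w`.
For every coprime `v = (c, d)` choose `γ_v : SL(2, ℤ)` with bottom row `v` (`ModularGroup.bottom_row_surj`) and put
`g_v = T ^ (-⌊(γ_v • z).re⌋) * γ_v`: bottom row `v` and `g_v • z ∈ strip` (`re_T_zpow_smul`, `Int.fract`). The map
`v ↦ g_v` from `{v // IsCoprime v.1 v.2}` is injective, and every `γ` with `γ • z ∈ strip` is `g_v`, `v` its bottom row: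
two matrices with the same bottom row differ by a `T ^ n` on the left, and `n = 0` because both points have real part in
`[0, 1)`. So `Function.Injective.tsum_eq` (support of the indicator inside the range) gives
`∑' γ, strip.indicator F (γ • z) = ∑' v : {v // coprime}, F (g_v • z)`, and `F (g_v • z) = rowFun M Φ (red M v) z * wt z σ v`
(`rowFun_eq`; `(γ • z).im = z.im / normSq (denom γ z)` (`ModularGroup.im_smul_eq_div_normSq`), `normSq (c z + d) = nsq z v`).
Finally `∑'` over the subtype is the `∑'` of the `if` (`tsum_subtype`, `Set.indicator`). No summability is needed.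
-/

open UpperHalfPlane MeasureTheory CongruenceSubgroup
open scoped MatrixGroups Modular ComplexConjugate

namespace Pool.Agent.H18.RS

theorem im_smul_eq (γ : SL(2, ℤ)) (z : ℍ) : (γ • z).im = z.im / nsq z (γ 1 0, γ 1 1) := by
  rw [ModularGroup.im_smul_eq_div_normSq]
  congr 1
  unfold nsq
  rw [ModularGroup.denom_apply, Complex.normSq_apply]
  simp
  ring

theorem exists_row (z : ℍ) (v : ℤ × ℤ) (hv : IsCoprime v.1 v.2) :
    ∃ g : SL(2, ℤ), g 1 0 = v.1 ∧ g 1 1 = v.2 ∧ g • z ∈ strip := by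
  obtain ⟨γ, -, hγ⟩ := ModularGroup.bottom_row_surj (R := ℤ) (a := ![v.1, v.2]) (by simpa using hv)
  have h0 : γ 1 0 = v.1 := by
    have := congrFun hγ 0
    simpa using this
  have h1 : γ 1 1 = v.2 := by
    have := congrFun hγ 1
    simpa using this
  refine ⟨ModularGroup.T ^ (-⌊(γ • z).re⌋) * γ, ?_, ?_, ?_⟩
  · rw [← h0]
    exact congrFun (ModularGroup.T_pow_mul_apply_one _ _) 0
  · rw [← h1]
    exact congrFun (ModularGroup.T_pow_mul_apply_one _ _) 1
  · unfold strip
    simp only [Set.mem_ofPred_eq]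
    rw [mul_smul, ModularGroup.re_T_zpow_smul]
    push_cast
    constructor
    · have := Int.floor_le (γ • z).re
      linarith
    · have := Int.lt_floor_add_one (γ • z).re
      linarith

theorem eq_of_row {g γ : SL(2, ℤ)} {z : ℍ} (h0 : g 1 0 = γ 1 0) (h1 : g 1 1 = γ 1 1)
    (hg : g • z ∈ strip) (hγ : γ • z ∈ strip) : g = γ := by
  have hdg : g 0 0 * g 1 1 - g 0 1 * g 1 0 = 1 := by
    have := Matrix.SpecialLinearGroup.det_coe g
    rwa [Matrix.det_fin_two] at this
  have hdγ : γ 0 0 * γ 1 1 - γ 0 1 * γ 1 0 = 1 := by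
    have := Matrix.SpecialLinearGroup.det_coe γ
    rwa [Matrix.det_fin_two] at this
  -- `g = T ^ n * γ`
  have key : ∃ n : ℤ, g = ModularGroup.T ^ n * γ := by
    refine ⟨g 0 1 * γ 0 0 - g 0 0 * γ 0 1, ?_⟩
    ext i j
    fin_cases i <;> fin_cases j
    · simp [Matrix.SpecialLinearGroup.coe_mul, ModularGroup.coe_T_zpow, Matrix.mul_apply,
        Fin.sum_univ_two]
      rw [h0, h1] at hdg
      linear_combination (-g 0 0) * hdγ + γ 0 0 * hdg
    · simp [Matrix.SpecialLinearGroup.coe_mul, ModularGroup.coe_T_zpow, Matrix.mul_apply,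
        Fin.sum_univ_two]
      rw [h0, h1] at hdg
      linear_combination (-g 0 1) * hdγ + γ 0 1 * hdg
    · have := congrFun (ModularGroup.T_pow_mul_apply_one (g 0 1 * γ 0 0 - g 0 0 * γ 0 1) γ) 0
      exact h0.trans this.symm
    · have := congrFun (ModularGroup.T_pow_mul_apply_one (g 0 1 * γ 0 0 - g 0 0 * γ 0 1) γ) 1
      exact h1.trans this.symm
  obtain ⟨n, hn⟩ := key
  have hn0 : n = 0 := by
    rw [hn, mul_smul] at hg
    unfold strip at hg hγ
    simp only [Set.mem_ofPred_eq] at hg hγ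
    rw [ModularGroup.re_T_zpow_smul] at hg
    have a1 : (n : ℝ) < 1 := by linarith [hg.2, hγ.1]
    have a2 : (-1 : ℝ) < n := by linarith [hg.1, hγ.2]
    have b1 : n < 1 := by exact_mod_cast a1
    have b2 : -1 < n := by exact_mod_cast a2
    omega
  rw [hn, hn0, zpow_zero, one_mul]

open scoped Classical in
theorem row_sum {M : ℕ} {Φ : ℍ → ℂ} (hΦ : ∀ γ ∈ Gamma1 M, ∀ z, Φ (γ • z) = Φ z) (σ : ℝ) (z : ℍ) :
    ∑' γ : SL(2, ℤ), strip.indicator (fun w => Φ w * ((w.im ^ σ : ℝ) : ℂ)) (γ • z) =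
      ∑' v : ℤ × ℤ, if IsCoprime v.1 v.2 then rowFun M Φ (red M v) z * (wt z σ v : ℂ) else 0 := by
  let S : Set (ℤ × ℤ) := {v | IsCoprime v.1 v.2}
  have hex : ∀ v : S, ∃ g : SL(2, ℤ), g 1 0 = v.1.1 ∧ g 1 1 = v.1.2 ∧ g • z ∈ strip :=
    fun v => exists_row z v.1 v.2
  choose G hG0 hG1 hG using hex
  have hinj : Function.Injective G := by
    intro v w hvw
    apply Subtype.ext
    apply Prod.ext
    · rw [← hG0 v, ← hG0 w, hvw]
    · rw [← hG1 v, ← hG1 w, hvw]
  set f : SL(2, ℤ) → ℂ := fun γ => strip.indicator (fun w => Φ w * ((w.im ^ σ : ℝ) : ℂ)) (γ • z)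
    with hf
  have hsupp : Function.support f ⊆ Set.range G := by
    intro γ hγ
    have hmem : γ • z ∈ strip := by
      by_contra hcon
      apply hγ
      rw [hf]
      simp only
      rw [Set.indicator_of_notMem hcon]
    have hcop : IsCoprime (γ 1 0) (γ 1 1) := ModularGroup.bottom_row_coprime γ
    refine ⟨⟨(γ 1 0, γ 1 1), hcop⟩, ?_⟩
    exact eq_of_row (hG0 _) (hG1 _) (hG _) hmem
  rw [← hinj.tsum_eq hsupp]
  have hval : ∀ v : S, f (G v) = rowFun M Φ (red M v.1) z * (wt z σ v.1 : ℂ) := by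
    intro v
    have hrow : row M (G v) = red M v.1 := by
      unfold row red
      rw [hG0, hG1]
    have him : (G v • z).im = z.im / nsq z v.1 := by
      rw [im_smul_eq, hG0, hG1]
    rw [hf]
    simp only
    rw [Set.indicator_of_mem (hG v), ← hrow, rowFun_eq hΦ, him]
    rfl
  have : ∑' v : S, f (G v) = ∑' v : S, rowFun M Φ (red M v.1) z * (wt z σ v.1 : ℂ) :=
    tsum_congr hval
  rw [this, tsum_subtype S (fun v => rowFun M Φ (red M v) z * (wt z σ v : ℂ))]
  apply tsum_congr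
  intro v
  rw [Set.indicator_apply]
  rfl

end Pool.Agent.H18.RS
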