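import Mathlib
import Pool.Agent.H18.RS.Basic

/-!
# Job RS-20: integrals over the strip in coordinates

The measure on `ℍ` is `(volume.comap coe).withDensity (1 / im²)` (Mathlib `Analysis/Complex/UpperHalfPlane/Measure`,
`UpperHalfPlane.volume_def`, `measurableEmbedding_coe`). So
`∫ z in strip, F z = ∫ w : ℂ in {0 ≤ re < 1, 0 < im}, F w / im² ` (`integral_withDensity_eq_integral_smul`,
`MeasurableEmbedding.setIntegral_map`/`integral_comap`), then `Complex.volume_preserving_equiv_real_prod` and Fubini
(`setIntegral_prod`, `integral_prod_symm`; `Ico 0 1` against `Ioc 0 1` is `integral_Ico_eq_integral_Ioo` etc.).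
`integrable_strip`: the same with `lintegral`: `∫⁻ z in strip, ‖H z‖ₑ ≤ ∫⁻ z in strip, G z.im = ∫⁻ y in Ioi 0, G y / y² < ∞`.
-/

open UpperHalfPlane MeasureTheory CongruenceSubgroup
open scoped MatrixGroups Modular ComplexConjugate

namespace Pool.Agent.H18.RS

/-- the strip in coordinates -/
def spBox : Set (ℝ × ℝ) := Set.Ico 0 1 ×ˢ Set.Ioi 0

theorem sp_meas_box : MeasurableSet spBox := measurableSet_Ico.prod measurableSet_Ioi

theorem sp_meas_strip : MeasurableSet strip := by
  unfold strip
  exact (measurableSet_le measurable_const UpperHalfPlane.continuous_re.measurable).inter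
    (measurableSet_lt UpperHalfPlane.continuous_re.measurable measurable_const)

/-- the coordinates -/
def spPr (z : ℍ) : ℝ × ℝ := (z.re, z.im)

theorem sp_pr_eq : spPr = fun z : ℍ => Complex.measurableEquivRealProd (z : ℂ) := by
  funext z
  rw [Complex.measurableEquivRealProd_apply]
  rfl

theorem sp_pr_emb : MeasurableEmbedding spPr := by
  rw [sp_pr_eq]
  exact Complex.measurableEquivRealProd.measurableEmbedding.comp measurableEmbedding_coe

theorem sp_range_coe : Set.range UpperHalfPlane.coe =
    Complex.measurableEquivRealProd ⁻¹' {p : ℝ × ℝ | 0 < p.2} := by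
  ext w
  rw [Set.mem_preimage, Complex.measurableEquivRealProd_apply]
  constructor
  · rintro ⟨z, rfl⟩
    exact z.im_pos
  · intro h
    exact ⟨⟨w, h⟩, rfl⟩

theorem sp_pr_pres : MeasurePreserving spPr (volume.comap UpperHalfPlane.coe)
    (volume.restrict {p : ℝ × ℝ | 0 < p.2}) := by
  rw [sp_pr_eq]
  have h1 : MeasurePreserving UpperHalfPlane.coe (volume.comap UpperHalfPlane.coe)
      (volume.restrict (.range UpperHalfPlane.coe)) :=
    ⟨measurable_coe, by rw [measurableEmbedding_coe.map_comap]⟩
  have h2 := Complex.volume_preserving_equiv_real_prod.restrict_preimage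
    (s := {p : ℝ × ℝ | 0 < p.2}) (measurableSet_lt measurable_const measurable_snd)
  rw [← sp_range_coe] at h2
  exact h2.comp h1

theorem sp_pre_box : spPr ⁻¹' spBox = strip := by
  ext z
  unfold spPr spBox strip
  simp only [Set.mem_preimage, Set.mem_prod, Set.mem_Ico, Set.mem_Ioi]
  exact ⟨fun h => h.1, fun h => ⟨h, z.im_pos⟩⟩

theorem sp_restr_box : ((volume : Measure (ℝ × ℝ)).restrict {p : ℝ × ℝ | 0 < p.2}).restrict spBox =
    (volume.restrict (Set.Ico (0 : ℝ) 1)).prod (volume.restrict (Set.Ioi (0 : ℝ))) := by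
  rw [Measure.prod_restrict, Measure.restrict_restrict sp_meas_box]
  congr 1
  refine Set.inter_eq_left.mpr fun p hp => ?_
  exact hp.2

theorem sp_meas_wt : Measurable fun z : ℍ => ((1 / NNReal.mk z.im z.im_pos.le : NNReal) ^ 2) := by
  refine Measurable.pow_const (Measurable.div measurable_const ?_) _
  exact UpperHalfPlane.continuous_im.measurable.subtype_mk

theorem sp_wt_smul (z : ℍ) (c : ℂ) : ((1 / NNReal.mk z.im z.im_pos.le : NNReal) ^ 2) • c =
    c / ((z.im ^ 2 : ℝ) : ℂ) := by
  rw [NNReal.smul_def, Complex.real_smul]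
  push_cast
  rw [div_pow, one_pow, one_div, mul_comm, div_eq_mul_inv]

theorem integral_strip {F : ℂ → ℂ} (hF : IntegrableOn (fun z : ℍ => F z) strip) :
    ∫ z in strip, F (z : ℂ) =
      ∫ y in Set.Ioi (0 : ℝ), (∫ x in (0 : ℝ)..1, F (x + y * Complex.I)) / ((y ^ 2 : ℝ) : ℂ) := by
  have hcoe : ∀ z : ℍ, (z : ℂ) = ((spPr z).1 : ℂ) + ((spPr z).2 : ℂ) * Complex.I := by
    intro z
    unfold spPr
    exact (Complex.re_add_im (z : ℂ)).symm
  set g : ℝ × ℝ → ℂ := fun p => F (p.1 + p.2 * Complex.I) / ((p.2 ^ 2 : ℝ) : ℂ) with hg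
  have hgz : ∀ z : ℍ, ((1 / NNReal.mk z.im z.im_pos.le : NNReal) ^ 2) • F (z : ℂ) = g (spPr z) := by
    intro z
    rw [sp_wt_smul, hg]
    simp only
    rw [← hcoe z]
    rfl
  have hgi : Integrable g ((volume.restrict (Set.Ico (0 : ℝ) 1)).prod
      (volume.restrict (Set.Ioi (0 : ℝ)))) := by
    rw [← sp_restr_box]
    have h1 : IntegrableOn (g ∘ spPr) (spPr ⁻¹' spBox) (volume.comap UpperHalfPlane.coe) := by
      rw [sp_pre_box]
      unfold IntegrableOn at hF ⊢
      rw [volume_def, restrict_withDensity sp_meas_strip,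
        integrable_withDensity_iff_integrable_smul sp_meas_wt] at hF
      simp only [hgz] at hF
      exact hF
    exact (sp_pr_pres.integrableOn_comp_preimage sp_pr_emb).mp h1
  have h1 : ∫ z in strip, F (z : ℂ) = ∫ z in strip, g (spPr z) ∂(volume.comap UpperHalfPlane.coe) := by
    rw [volume_def, setIntegral_withDensity_eq_setIntegral_smul sp_meas_wt _ sp_meas_strip]
    simp only [hgz]
  rw [h1, ← sp_pre_box, sp_pr_pres.setIntegral_preimage_emb sp_pr_emb, sp_restr_box, integral_prod_symm g hgi]
  refine integral_congr_ae (Filter.Eventually.of_forall fun y => ?_)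
  simp only [hg]
  rw [integral_div, intervalIntegral.integral_of_le zero_le_one, integral_Ico_eq_integral_Ioc]

theorem integrable_strip {G : ℝ → ℝ} (hG : IntegrableOn (fun y => G y / y ^ 2) (Set.Ioi 0))
    {H : ℍ → ℂ} (hH : AEStronglyMeasurable H (volume.restrict strip))
    (hle : ∀ z ∈ strip, ‖H z‖ ≤ G z.im) : IntegrableOn H strip := by
  have h1 : IntegrableOn (fun z : ℍ => G z.im) strip := by
    unfold IntegrableOn
    rw [volume_def, restrict_withDensity sp_meas_strip,
      integrable_withDensity_iff_integrable_smul sp_meas_wt]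
    have e : (fun z : ℍ => ((1 / NNReal.mk z.im z.im_pos.le : NNReal) ^ 2) • G z.im) =
        (fun p : ℝ × ℝ => G p.2 / p.2 ^ 2) ∘ spPr := by
      funext z
      rw [NNReal.smul_def]
      push_cast
      rw [div_pow, one_pow, smul_eq_mul, one_div, mul_comm]
      rfl
    rw [e]
    have h2 := sp_pr_pres.integrableOn_comp_preimage sp_pr_emb (f := fun p : ℝ × ℝ => G p.2 / p.2 ^ 2)
      (s := spBox)
    rw [sp_pre_box] at h2
    refine h2.mpr ?_
    unfold IntegrableOn
    rw [sp_restr_box]
    exact hG.comp_snd _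
  refine Integrable.mono' h1 hH ?_
  exact ae_restrict_of_forall_mem sp_meas_strip hle

end Pool.Agent.H18.RS
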