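import Mathlib
import Pool.Agent.H18.RS.Basic

/-!
# Job RS-11: the translates of the fundamental domain tile the half plane

`E = 𝒟 \ 𝒟ᵒ` is a null set: its image in `ℂ` lies in the lines `re = ±1/2` and the circle `‖z‖ = 1`
(`ModularGroup.coe_fd`, `coe_fdo`, `volume_eq_lintegral`). The measure is invariant under `SL(2, ℤ)`, `SL(2, ℤ)` is
countable, so for a.e. `z` no `γ • z` is in `E`. For such `z` take `γ₀` with `γ₀ • z ∈ 𝒟`
(`ModularGroup.exists_smul_mem_fd`), so `γ₀ • z ∈ 𝒟ᵒ`; if `γ • z ∈ 𝒟` then `γ γ₀⁻¹ = ±1` by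
`ModularGroup.eq_one_or_neg_one_of_mem_fdo_mem_fd`; and `-γ₀ • z = γ₀ • z`.
-/

open UpperHalfPlane MeasureTheory CongruenceSubgroup
open scoped MatrixGroups Modular ComplexConjugate

namespace Pool.Agent.H18.RS

namespace TilingAux

theorem null_re (c : ℝ) : volume {w : ℂ | w.re = c} = 0 := by
  have h := Complex.volume_preserving_equiv_real_prod
  have e : {w : ℂ | w.re = c} = Complex.measurableEquivRealProd ⁻¹' ({c} ×ˢ Set.univ) := by
    ext w
    simp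
  rw [e, h.measure_preimage ((measurableSet_singleton c).prod MeasurableSet.univ).nullMeasurableSet,
    Measure.volume_eq_prod, Measure.prod_prod]
  simp

theorem null_boundary : volume (𝒟 \ 𝒟ᵒ : Set ℍ) = 0 := by
  rw [volume_eq_lintegral]
  refine setLIntegral_measure_zero _ _ ?_
  have hsub : ((↑) '' (𝒟 \ 𝒟ᵒ : Set ℍ) : Set ℂ) ⊆
      ({w : ℂ | w.re = 1 / 2} ∪ {w : ℂ | w.re = -(1 / 2)}) ∪ Metric.sphere (0 : ℂ) 1 := by
    rintro _ ⟨z, ⟨hz, hz'⟩, rfl⟩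
    have h1 : (z : ℂ) ∈ ((↑) '' (𝒟 : Set ℍ) : Set ℂ) := ⟨z, hz, rfl⟩
    have h2 : (z : ℂ) ∉ ((↑) '' (𝒟ᵒ : Set ℍ) : Set ℂ) := by
      rintro ⟨w, hw, hwz⟩
      exact hz' (by rwa [UpperHalfPlane.ext hwz] at hw)
    rw [ModularGroup.coe_fd] at h1
    rw [ModularGroup.coe_fdo] at h2
    obtain ⟨h3, h4, h5⟩ := h1
    by_cases hn : ‖(z : ℂ)‖ = 1
    · right
      simpa using hn
    · left
      have h6 : |(z : ℂ).re| = 1 / 2 := by
        by_contra h7
        exact h2 ⟨h3, lt_of_le_of_ne h4 (Ne.symm hn), lt_of_le_of_ne h5 h7⟩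
      rcases (abs_eq (by norm_num)).1 h6 with h8 | h8
      · left; exact h8
      · right; exact h8
  refine measure_mono_null hsub ?_
  rw [measure_union_null_iff, measure_union_null_iff]
  exact ⟨⟨null_re _, null_re _⟩, Measure.addHaar_sphere _ _ _⟩

theorem countable_sl : Countable SL(2, ℤ) := by
  have : Countable (Matrix (Fin 2) (Fin 2) ℤ) := inferInstanceAs (Countable (Fin 2 → Fin 2 → ℤ))
  exact Function.Injective.countable (f := fun g : SL(2, ℤ) => (g : Matrix (Fin 2) (Fin 2) ℤ))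
    Subtype.val_injective

theorem mp_sl (γ : SL(2, ℤ)) :
    MeasurePreserving (fun z : ℍ => γ • z) (volume : Measure ℍ) volume :=
  measurePreserving_smul (γ : GL (Fin 2) ℝ) (volume : Measure ℍ)

end TilingAux

open TilingAux in
theorem tiling : ∀ᵐ z : ℍ, ∃ γ₀ : SL(2, ℤ), {γ : SL(2, ℤ) | γ • z ∈ 𝒟} = {γ₀, -γ₀} := by
  have := countable_sl
  have h0 : ∀ᵐ z : ℍ, z ∉ (𝒟 \ 𝒟ᵒ : Set ℍ) := by
    exact measure_eq_zero_iff_ae_notMem.1 null_boundary
  have h1 : ∀ᵐ z : ℍ, ∀ γ : SL(2, ℤ), γ • z ∉ (𝒟 \ 𝒟ᵒ : Set ℍ) := by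
    rw [ae_all_iff]
    intro γ
    exact (mp_sl γ).quasiMeasurePreserving.ae h0
  filter_upwards [h1] with z hz
  obtain ⟨γ₀, hγ₀⟩ := ModularGroup.exists_smul_mem_fd z
  have h2 : γ₀ • z ∈ (𝒟ᵒ : Set ℍ) := by
    by_contra h
    exact hz γ₀ ⟨hγ₀, h⟩
  refine ⟨γ₀, ?_⟩
  ext γ
  constructor
  · intro hγ
    have h3 : (γ * γ₀⁻¹) • (γ₀ • z) ∈ (𝒟 : Set ℍ) := by
      rw [← mul_smul]
      simpa using hγ
    rcases ModularGroup.eq_one_or_neg_one_of_mem_fdo_mem_fd h2 h3 with h4 | h4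
    · left
      exact mul_inv_eq_one.1 h4
    · right
      rw [mul_inv_eq_iff_eq_mul] at h4
      rw [Set.mem_singleton_iff, h4]
      simp
  · intro hγ
    rcases hγ with h4 | h4
    · rw [h4]; exact hγ₀
    · rw [Set.mem_singleton_iff] at h4
      rw [h4]
      change -γ₀ • z ∈ (𝒟 : Set ℍ)
      rw [ModularGroup.SL_neg_smul]
      exact hγ₀

end Pool.Agent.H18.RS
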