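import Mathlib
import Pool.Agent.H18.RS.Tiling

/-!
# Job RS-12: unfolding

`∫ z in 𝒟, ∑' γ, H (γ • z) = ∑' γ, ∫ z in 𝒟, H (γ • z)` (`integral_tsum`) and the sum over `γ` of the images of the
restriction to `𝒟` of the measure is twice the measure (`tiling`).
-/

open UpperHalfPlane MeasureTheory CongruenceSubgroup
open scoped MatrixGroups Modular ComplexConjugate ENNReal

namespace Pool.Agent.H18.RS

theorem neg_ne_self (γ : SL(2, ℤ)) : γ ≠ -γ := by
  intro h'
  have h1 := γ.det_coe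
  rw [Matrix.det_fin_two] at h1
  have h2 : ∀ i j, (γ i j : ℤ) = 0 := by
    intro i j
    have := congrArg (fun g : SL(2, ℤ) => (g i j : ℤ)) h'
    simp only [Matrix.SpecialLinearGroup.coe_neg, Matrix.neg_apply] at this
    omega
  rw [h2 0 0, h2 0 1] at h1
  simp at h1

namespace UnfoldAux

theorem mp_sl (γ : SL(2, ℤ)) :
    MeasurePreserving (fun z : ℍ => γ • z) (volume : Measure ℍ) volume :=
  measurePreserving_smul (γ : GL (Fin 2) ℝ) (volume : Measure ℍ)

theorem meas_sl (γ : SL(2, ℤ)) : Measurable (fun z : ℍ => γ • z) := (mp_sl γ).measurable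

theorem countable_sl : Countable SL(2, ℤ) := by
  have : Countable (Matrix (Fin 2) (Fin 2) ℤ) := inferInstanceAs (Countable (Fin 2 → Fin 2 → ℤ))
  exact Function.Injective.countable (f := fun g : SL(2, ℤ) => (g : Matrix (Fin 2) (Fin 2) ℤ))
    Subtype.val_injective

theorem measurableSet_fd : MeasurableSet (𝒟 : Set ℍ) := by
  have h : IsClosed (𝒟 : Set ℍ) := by
    have e : (𝒟 : Set ℍ) = {z : ℍ | 1 ≤ Complex.normSq (z : ℂ) ∧ |z.re| ≤ (1 : ℝ) / 2} := rfl
    rw [e, Set.ofPred_and]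
    refine IsClosed.inter (isClosed_le continuous_const ?_) (isClosed_le ?_ continuous_const)
    · exact Complex.continuous_normSq.comp UpperHalfPlane.continuous_coe
    · exact UpperHalfPlane.continuous_re.abs
  exact h.measurableSet

theorem tsum_fd {z : ℍ} {γ₀ : SL(2, ℤ)} (h : {γ : SL(2, ℤ) | γ • z ∈ 𝒟} = {γ₀, -γ₀}) :
    ∑' γ : SL(2, ℤ), (𝒟 : Set ℍ).indicator (1 : ℍ → ℝ≥0∞) (γ • z) = 2 := by
  classical
  have hne : γ₀ ≠ -γ₀ := neg_ne_self γ₀
  have h1 : ∀ γ : SL(2, ℤ), (𝒟 : Set ℍ).indicator (1 : ℍ → ℝ≥0∞) (γ • z) =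
      if γ ∈ ({γ₀, -γ₀} : Finset SL(2, ℤ)) then 1 else 0 := by
    intro γ
    have : γ • z ∈ (𝒟 : Set ℍ) ↔ γ ∈ ({γ₀, -γ₀} : Finset SL(2, ℤ)) := by
      have h3 : γ ∈ {γ : SL(2, ℤ) | γ • z ∈ 𝒟} ↔ γ ∈ ({γ₀, -γ₀} : Set SL(2, ℤ)) := by rw [h]
      simpa using h3
    by_cases hh : γ • z ∈ (𝒟 : Set ℍ)
    · rw [Set.indicator_of_mem hh, if_pos (this.1 hh)]; rfl
    · rw [Set.indicator_of_notMem hh, if_neg (fun h' => hh (this.2 h'))]
  rw [tsum_congr h1, tsum_eq_sum (s := ({γ₀, -γ₀} : Finset SL(2, ℤ)))]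
  · rw [Finset.sum_congr rfl (fun x hx => if_pos hx)]
    simp [Finset.card_pair hne]
  · intro b hb
    rw [if_neg hb]

/-- the sum of the images of `𝒟` -/
noncomputable def nu : Measure ℍ :=
  Measure.sum fun γ : SL(2, ℤ) => ((volume : Measure ℍ).restrict 𝒟).map (fun z => γ • z)

theorem nu_eq : nu = (2 : ℝ≥0∞) • (volume : Measure ℍ) := by
  have := countable_sl
  ext S hS
  unfold nu
  rw [Measure.sum_apply _ hS, Measure.smul_apply, smul_eq_mul]
  have h1 : ∀ γ : SL(2, ℤ), (((volume : Measure ℍ).restrict 𝒟).map (fun z => γ • z)) S =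
      ∫⁻ z in S, (𝒟 : Set ℍ).indicator (1 : ℍ → ℝ≥0∞) (γ⁻¹ • z) := by
    intro γ
    rw [Measure.map_apply (meas_sl _) hS, Measure.restrict_apply ((meas_sl _) hS),
      ← lintegral_indicator hS,
      ← (mp_sl γ).lintegral_comp (f := S.indicator
        fun z => (𝒟 : Set ℍ).indicator (1 : ℍ → ℝ≥0∞) (γ⁻¹ • z)),
      ← lintegral_indicator_one ((meas_sl _ hS).inter measurableSet_fd)]
    · refine lintegral_congr fun z => ?_
      by_cases h1 : γ • z ∈ S
      · rw [Set.indicator_of_mem h1, inv_smul_smul]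
        by_cases h2 : z ∈ (𝒟 : Set ℍ)
        · rw [Set.indicator_of_mem h2, Set.indicator_of_mem (by exact ⟨h1, h2⟩)]
        · rw [Set.indicator_of_notMem h2, Set.indicator_of_notMem (fun h => h2 h.2)]
      · rw [Set.indicator_of_notMem h1, Set.indicator_of_notMem (fun h => h1 h.1)]
    · exact ((measurable_one.indicator measurableSet_fd).comp (meas_sl _)).indicator hS
  rw [tsum_congr h1, ← lintegral_tsum]
  · have h2 : ∫⁻ z in S, ∑' γ : SL(2, ℤ), (𝒟 : Set ℍ).indicator (1 : ℍ → ℝ≥0∞) (γ⁻¹ • z) =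
        ∫⁻ z in S, 2 := by
      refine lintegral_congr_ae ?_
      filter_upwards [ae_restrict_of_ae tiling] with z hz
      obtain ⟨γ₀, h⟩ := hz
      rw [← tsum_fd h]
      exact (Equiv.inv SL(2, ℤ)).tsum_eq
        (fun γ => (𝒟 : Set ℍ).indicator (1 : ℍ → ℝ≥0∞) (γ • z))
    rw [h2, lintegral_const, Measure.restrict_apply_univ]
  · intro r
    exact ((measurable_one.indicator measurableSet_fd).comp (meas_sl _)).aemeasurable

end UnfoldAux

open UnfoldAux in
theorem unfold {H : ℍ → ℂ} (hH : Integrable H) :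
    ∫ z in 𝒟, ∑' γ : SL(2, ℤ), H (γ • z) = 2 * ∫ z, H z := by
  have := countable_sl
  have hnu : Integrable H nu := by
    rw [nu_eq]
    exact hH.smul_measure (by simp)
  have hmeas : ∀ γ : SL(2, ℤ), AEStronglyMeasurable (fun z : ℍ => H (γ • z)) volume := fun γ =>
    hH.1.comp_measurePreserving (mp_sl γ)
  have hmeas2 : ∀ γ : SL(2, ℤ), AEStronglyMeasurable H
      (((volume : Measure ℍ).restrict 𝒟).map (fun z => γ • z)) := fun γ =>
    hnu.1.mono_measure (Measure.le_sum _ γ)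
  rw [integral_tsum]
  · have h1 : ∀ γ : SL(2, ℤ), ∫ z in 𝒟, H (γ • z) =
        ∫ z, H z ∂(((volume : Measure ℍ).restrict 𝒟).map (fun z => γ • z)) := by
      intro γ
      rw [integral_map (meas_sl γ).aemeasurable (hmeas2 γ)]
    rw [tsum_congr h1, ← integral_sum_measure hnu]
    change ∫ z, H z ∂nu = _
    rw [nu_eq, integral_smul_measure]
    simp
  · exact fun γ => (hmeas γ).restrict
  · have h1 : ∀ γ : SL(2, ℤ), ∫⁻ z in 𝒟, ‖H (γ • z)‖ₑ =
        ∫⁻ z, ‖H z‖ₑ ∂(((volume : Measure ℍ).restrict 𝒟).map (fun z => γ • z)) := by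
      intro γ
      rw [lintegral_map' (hmeas2 γ).enorm (meas_sl γ).aemeasurable]
    rw [tsum_congr h1, ← lintegral_sum_measure]
    exact hnu.2.ne

end Pool.Agent.H18.RS
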