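import Mathlib
import Pool.Agent.H18.RS.Unfold
import Pool.Agent.H18.RS.Rows
import Pool.Agent.H18.RS.Gcd
import Pool.Agent.H18.RS.Lattice
import Pool.Agent.H18.RS.Strip
import Pool.Agent.H18.RS.Fd

/-!
# Job RS-22: the Rankin-Selberg integral of a function of mean zero is bounded

`H = strip.indicator (fun w => Φ w * w.im ^ σ)` is integrable: `Φ` is bounded (every `w` is `γ • z`, `z ∈ 𝒟`,
`z.im ≥ √3/2`), and `‖Φ w‖ ≤ C (w.im)^(-4)` for `w.im ≥ 1` (`T^n • w ∈ 𝒟` for some `n`); `integrable_strip` with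
`G y = C min 1 (y^(-4)) y^σ`. Then
`2 zM ∫_strip Φ y^σ = zM ∫_𝒟 ∑'_γ H (γ • z)` (`unfold`) `= ∫_𝒟 ∑'_{v : ℤ × ℤ} rowFun M Φ (red M v) z * wt z σ v` (`row_sum`, `gcd_sum`
with `φ = fun r => rowFun M Φ r z`, `rowFun_zero`, `rowFun_unit`) `= ∫_𝒟 ∑_r rowFun M Φ r z * G_r(z)`, with
`G_r(z) = ∑' v, if red M v = r then wt z σ v else 0` (finite sum over `r`, `tsum` over `v` splits, all summable).
By `lattice_sum` `‖∑_r rowFun r z * G_r(z) - κ(σ) ∑_r rowFun r z‖ ≤ C y² ∑_r ‖rowFun r z‖ ≤ C' y^(-2)` on `𝒟`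
(`hb`; each `rowFun r` is `Φ (δ • z)` or `0`), and `∫_𝒟 ∑_r rowFun r = 0` (`h0`), so
`‖2 zM ∫_strip Φ y^σ‖ ≤ C' ∫_𝒟 y^(-2)` (`integrable_fd`; the function `∑_r rowFun r` is continuous and bounded, hence
integrable on `𝒟`, `volume_fd`); `zM ≥ 1` (`one_le_zM`).
-/

open UpperHalfPlane MeasureTheory CongruenceSubgroup
open scoped MatrixGroups Modular ComplexConjugate

namespace Pool.Agent.H18.RS

theorem meas_strip : MeasurableSet strip := by
  unfold strip
  exact (measurableSet_le measurable_const UpperHalfPlane.continuous_re.measurable).inter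
    (measurableSet_lt UpperHalfPlane.continuous_re.measurable measurable_const)

theorem meas_fd : MeasurableSet (𝒟 : Set ℍ) := by
  have h1 : Continuous fun z : ℍ => Complex.normSq (z : ℂ) :=
    Complex.continuous_normSq.comp UpperHalfPlane.continuous_coe
  have h2 : Continuous fun z : ℍ => |z.re| := UpperHalfPlane.continuous_re.abs
  exact (measurableSet_le measurable_const h1.measurable).inter
    (measurableSet_le h2.measurable measurable_const)

theorem exists_T {w : ℍ} (hw : 1 ≤ w.im) : ∃ γ : SL(2, ℤ), ∃ z ∈ 𝒟, γ • z = w ∧ z.im = w.im := by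
  refine ⟨(ModularGroup.T ^ (-round w.re))⁻¹, ModularGroup.T ^ (-round w.re) • w, ?_, ?_, ?_⟩
  · refine ⟨?_, ?_⟩
    · rw [Complex.normSq_apply]
      have : ((ModularGroup.T ^ (-round w.re) • w : ℍ) : ℂ).im = w.im := by
        have := ModularGroup.im_T_zpow_smul w (-round w.re)
        simpa using this
      rw [this]
      nlinarith [mul_self_nonneg ((ModularGroup.T ^ (-round w.re) • w : ℍ) : ℂ).re]
    · rw [ModularGroup.re_T_zpow_smul]
      have := abs_sub_round w.re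
      push_cast
      rw [← sub_eq_add_neg]
      exact this
  · rw [inv_smul_smul]
  · exact ModularGroup.im_T_zpow_smul w (-round w.re)

theorem rowFun_cases (M : ℕ) (Φ : ℍ → ℂ) (r : ZMod M × ZMod M) :
    (∃ δ : SL(2, ℤ), ∀ z, rowFun M Φ r z = Φ (δ • z)) ∨ ∀ z, rowFun M Φ r z = 0 := by
  classical
  by_cases h : ∃ γ : SL(2, ℤ), row M γ = r
  · left
    refine ⟨h.choose, fun z => ?_⟩
    unfold rowFun
    rw [dif_pos h]
  · right
    intro z
    unfold rowFun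
    rw [dif_neg h]

theorem continuous_sl_smul (δ : SL(2, ℤ)) : Continuous fun z : ℍ => δ • z := by
  change Continuous fun z : ℍ => (δ : GL (Fin 2) ℝ) • z
  exact continuous_const_smul (δ : GL (Fin 2) ℝ)

theorem rowFun_continuous (M : ℕ) {Φ : ℍ → ℂ} (hcont : Continuous Φ) (r : ZMod M × ZMod M) :
    Continuous fun z => rowFun M Φ r z := by
  rcases rowFun_cases M Φ r with ⟨δ, hδ⟩ | h
  · simp only [hδ]
    exact hcont.comp (continuous_sl_smul δ)
  · simp only [h]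
    exact continuous_const

theorem rowFun_bound {M : ℕ} {Φ : ℍ → ℂ} {C : ℝ} (hC : 0 ≤ C)
    (hb : ∀ γ : SL(2, ℤ), ∀ z ∈ 𝒟, ‖Φ (γ • z)‖ * z.im ^ 4 ≤ C) (r : ZMod M × ZMod M)
    {z : ℍ} (hz : z ∈ 𝒟) : ‖rowFun M Φ r z‖ * z.im ^ 4 ≤ C := by
  rcases rowFun_cases M Φ r with ⟨δ, hδ⟩ | h
  · rw [hδ]; exact hb δ z hz
  · rw [h, norm_zero, zero_mul]; exact hC

theorem im4_ge {z : ℍ} (hz : z ∈ 𝒟) : (1 / 3 : ℝ) ≤ z.im ^ 4 := by
  have h := ModularGroup.three_le_four_mul_im_sq_of_mem_fd hz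
  nlinarith [sq_nonneg (z.im ^ 2)]

theorem le_three_mul {z : ℍ} (hz : z ∈ 𝒟) {a C : ℝ} (ha : 0 ≤ a) (h : a * z.im ^ 4 ≤ C) :
    a ≤ 3 * C := by
  have := im4_ge hz
  nlinarith

theorem phi_bound {Φ : ℍ → ℂ} {C : ℝ}
    (hb : ∀ γ : SL(2, ℤ), ∀ z ∈ 𝒟, ‖Φ (γ • z)‖ * z.im ^ 4 ≤ C) (w : ℍ) : ‖Φ w‖ ≤ 3 * C := by
  obtain ⟨γ, hγ⟩ := ModularGroup.exists_smul_mem_fd w
  have := hb γ⁻¹ (γ • w) hγ
  rw [inv_smul_smul] at this
  exact le_three_mul hγ (norm_nonneg _) this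

theorem phi_decay {Φ : ℍ → ℂ} {C : ℝ}
    (hb : ∀ γ : SL(2, ℤ), ∀ z ∈ 𝒟, ‖Φ (γ • z)‖ * z.im ^ 4 ≤ C) {w : ℍ} (hw : 1 ≤ w.im) :
    ‖Φ w‖ * w.im ^ 4 ≤ C := by
  obtain ⟨γ, z, hz, h1, h2⟩ := exists_T hw
  have := hb γ z hz
  rwa [h1, h2] at this

theorem strip_integrable {Φ : ℍ → ℂ} (hcont : Continuous Φ) {C : ℝ}
    (hb : ∀ γ : SL(2, ℤ), ∀ z ∈ 𝒟, ‖Φ (γ • z)‖ * z.im ^ 4 ≤ C) {σ : ℝ} (hσ : 1 < σ)
    (hσ2 : σ ≤ 2) : IntegrableOn (fun w => Φ w * ((w.im ^ σ : ℝ) : ℂ)) strip := by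
  refine integrable_strip (G := fun y => if y ≤ 1 then 3 * C * y ^ σ else C * y ^ (σ - 4)) ?_ ?_ ?_
  · rw [← Set.Ioc_union_Ioi_eq_Ioi (zero_le_one' ℝ)]
    refine IntegrableOn.union ?_ ?_
    · have h1 : IntegrableOn (fun y : ℝ => 3 * C * y ^ (σ - 2)) (Set.Ioc 0 1) := by
        have := (intervalIntegral.intervalIntegrable_rpow' (a := 0) (b := 1)
          (r := σ - 2) (by linarith)).const_mul (3 * C)
        rwa [intervalIntegrable_iff_integrableOn_Ioc_of_le zero_le_one] at this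
      refine h1.congr_fun (fun y hy => ?_) measurableSet_Ioc
      simp only [if_pos hy.2]
      rw [Real.rpow_sub hy.1, Real.rpow_two, mul_div_assoc]
    · have h1 : IntegrableOn (fun y : ℝ => C * y ^ (σ - 6)) (Set.Ioi 1) :=
        (integrableOn_Ioi_rpow_of_lt (by linarith) zero_lt_one).const_mul C
      refine h1.congr_fun (fun y hy => ?_) measurableSet_Ioi
      have hy1 : (1 : ℝ) < y := hy
      have hy0 : 0 < y := by linarith
      simp only [if_neg (not_le.mpr hy1)]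
      rw [mul_div_assoc, ← Real.rpow_two, ← Real.rpow_sub hy0]
      congr 2
      ring
  · refine Continuous.aestronglyMeasurable ?_
    refine hcont.mul (Complex.continuous_ofReal.comp ?_)
    exact UpperHalfPlane.continuous_im.rpow_const fun z => Or.inl z.im_pos.ne'
  · intro z _
    rw [norm_mul, Complex.norm_real, Real.norm_of_nonneg (by positivity)]
    have h0 := z.im_pos
    split_ifs with h
    · exact mul_le_mul_of_nonneg_right (phi_bound hb z) (by positivity)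
    · have h1 : 1 ≤ z.im := (not_le.mp h).le
      have h2 := phi_decay hb h1
      have h3 : z.im ^ σ = z.im ^ 4 * z.im ^ (σ - 4) := by
        have : z.im ^ 4 = z.im ^ (4 : ℝ) := by
          rw [← Real.rpow_natCast]; norm_num
        rw [this, ← Real.rpow_add h0]; congr 1; ring
      rw [h3, ← mul_assoc]
      exact mul_le_mul_of_nonneg_right h2 (by positivity)

open scoped Classical in
theorem split_red {M : ℕ} [NeZero M] (φ : ZMod M × ZMod M → ℂ) {z : ℍ} {σ : ℝ} (hσ : 1 < σ) :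
    ∑' v : ℤ × ℤ, φ (red M v) * (wt z σ v : ℂ) =
      ∑ r : ZMod M × ZMod M, φ r *
        ((∑' v : ℤ × ℤ, (if red M v = r then wt z σ v else 0) : ℝ) : ℂ) := by
  have hs : ∀ r : ZMod M × ZMod M,
      Summable fun v : ℤ × ℤ => (if red M v = r then wt z σ v else 0 : ℝ) := by
    intro r
    refine Summable.of_nonneg_of_le (fun v => ?_) (fun v => ?_) (wt_summable z hσ)
    · split_ifs; exacts [wt_nonneg _ _ _, le_rfl]
    · split_ifs; exacts [le_rfl, wt_nonneg _ _ _]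
  have h1 : ∀ v : ℤ × ℤ, φ (red M v) * (wt z σ v : ℂ) =
      ∑ r : ZMod M × ZMod M, φ r * ((if red M v = r then wt z σ v else 0 : ℝ) : ℂ) := by
    intro v
    rw [Finset.sum_eq_single (red M v)]
    · rw [if_pos rfl]
    · intro r _ hr
      rw [if_neg (Ne.symm hr)]
      simp
    · intro h; exact absurd (Finset.mem_univ _) h
  simp only [h1]
  rw [Summable.tsum_finsetSum]
  · refine Finset.sum_congr rfl fun r _ => ?_
    rw [tsum_mul_left, Complex.ofReal_tsum]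
  · intro r _
    exact ((Complex.hasSum_ofReal.mpr (hs r).hasSum).summable).mul_left _

theorem rs_bounded {M : ℕ} [NeZero M] (hM : 1 < M) {Φ : ℍ → ℂ} (hcont : Continuous Φ)
    (hinv : ∀ γ ∈ Gamma0 M, ∀ z, Φ (γ • z) = Φ z)
    (hb : ∃ C : ℝ, ∀ γ : SL(2, ℤ), ∀ z ∈ 𝒟, ‖Φ (γ • z)‖ * z.im ^ 4 ≤ C)
    (h0 : ∫ z in 𝒟, ∑ r : ZMod M × ZMod M, rowFun M Φ r z = 0) :
    ∃ C : ℝ, ∀ σ : ℝ, 1 < σ → σ ≤ 2 → ‖∫ z in strip, Φ z * ((z.im ^ σ : ℝ) : ℂ)‖ ≤ C := by
  classical
  obtain ⟨C₀, hC₀⟩ := hb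
  set C : ℝ := max C₀ 0 with hCdef
  have hC : 0 ≤ C := le_max_right _ _
  have hb : ∀ γ : SL(2, ℤ), ∀ z ∈ 𝒟, ‖Φ (γ • z)‖ * z.im ^ 4 ≤ C :=
    fun γ z hz => (hC₀ γ z hz).trans (le_max_left _ _)
  have hinv1 : ∀ γ ∈ Gamma1 M, ∀ z, Φ (γ • z) = Φ z := fun γ hγ z =>
    hinv γ (Gamma1_in_Gamma0 M hγ) z
  obtain ⟨κ, C₃, hκ⟩ := lattice_sum (M := M) (by omega)
  set K : ℝ := (Fintype.card (ZMod M × ZMod M)) * (C * |C₃|) with hK
  refine ⟨K * ∫ z in 𝒟, z.im ^ (-2 : ℤ), ?_⟩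
  intro σ hσ hσ2
  set F : ℍ → ℂ := fun w => Φ w * ((w.im ^ σ : ℝ) : ℂ) with hF
  have hFi : IntegrableOn F strip := strip_integrable hcont hb hσ hσ2
  have hH : Integrable (strip.indicator F) := (integrable_indicator_iff meas_strip).mpr hFi
  have hu := unfold hH
  rw [integral_indicator meas_strip] at hu
  set A : ℍ → ℂ := fun z => ∑ r : ZMod M × ZMod M, rowFun M Φ r z *
        ((∑' v : ℤ × ℤ, (if red M v = r then wt z σ v else 0) : ℝ) : ℂ) with hA
  set B : ℍ → ℂ := fun z => ∑ r : ZMod M × ZMod M, rowFun M Φ r z with hB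
  have hrow : ∀ z : ℍ, (zM M σ : ℂ) * ∑' γ : SL(2, ℤ), strip.indicator F (γ • z) = A z := by
    intro z
    rw [hF, row_sum hinv1 σ z, gcd_sum (φ := fun r => rowFun M Φ r z) hM
      (fun v hv => rowFun_zero z v hv) (fun e he v => rowFun_unit hinv z e he v) hσ
      (wt_summable z hσ)]
    exact split_red (fun r => rowFun M Φ r z) hσ
  have hmain : (zM M σ : ℂ) * (2 * ∫ z in strip, F z) = ∫ z in 𝒟, A z := by
    rw [← hu, ← integral_const_mul]
    exact integral_congr_ae (Filter.Eventually.of_forall fun z => hrow z)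
  have hdiff : ∀ z ∈ 𝒟, ‖A z - κ σ * B z‖ ≤ K * z.im ^ (-2 : ℤ) := by
    intro z hz
    have hz0 := z.im_pos
    have e : A z - κ σ * B z = ∑ r : ZMod M × ZMod M, rowFun M Φ r z *
        (((∑' v : ℤ × ℤ, (if red M v = r then wt z σ v else 0) - κ σ : ℝ)) : ℂ) := by
      rw [hA, hB]
      simp only [Finset.mul_sum]
      rw [← Finset.sum_sub_distrib]
      refine Finset.sum_congr rfl fun r _ => ?_
      push_cast
      ring
    rw [e]
    refine (norm_sum_le _ _).trans ?_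
    have h1 : ∀ r ∈ (Finset.univ : Finset (ZMod M × ZMod M)), ‖rowFun M Φ r z *
        (((∑' v : ℤ × ℤ, (if red M v = r then wt z σ v else 0) - κ σ : ℝ)) : ℂ)‖ ≤
        C * |C₃| * z.im ^ (-2 : ℤ) := by
      intro r _
      rw [norm_mul, Complex.norm_real, Real.norm_eq_abs]
      have h2 := (hκ σ hσ hσ2 z hz r).trans
        (mul_le_mul_of_nonneg_right (le_abs_self C₃) (sq_nonneg z.im))
      have h3 := rowFun_bound hC hb r hz
      have h4 : z.im ^ (-2 : ℤ) = z.im ^ 2 / z.im ^ 4 := by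
        rw [zpow_neg, zpow_ofNat]
        field_simp
      rw [h4]
      calc ‖rowFun M Φ r z‖ * |∑' v : ℤ × ℤ, (if red M v = r then wt z σ v else 0) - κ σ| ≤
            (C / z.im ^ 4) * (|C₃| * z.im ^ 2) := by
            refine mul_le_mul ?_ h2 (abs_nonneg _) (by positivity)
            rw [le_div_iff₀ (by positivity)]
            exact h3
        _ = C * |C₃| * (z.im ^ 2 / z.im ^ 4) := by ring
    refine (Finset.sum_le_card_nsmul _ _ _ h1).trans (le_of_eq ?_)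
    rw [nsmul_eq_mul, Finset.card_univ, hK]
    ring
  have hBc : Continuous B := by
    rw [hB]
    exact continuous_finsetSum _ fun r _ => rowFun_continuous M hcont r
  have hBi : IntegrableOn B 𝒟 := by
    refine Measure.integrableOn_of_bounded (M := (Fintype.card (ZMod M × ZMod M)) * (3 * C))
      volume_fd.ne hBc.aestronglyMeasurable ?_
    refine ae_restrict_of_forall_mem meas_fd fun z hz => ?_
    refine (norm_sum_le _ _).trans ?_
    refine (Finset.sum_le_card_nsmul _ _ (3 * C) fun r _ =>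
      le_three_mul hz (norm_nonneg _) (rowFun_bound hC hb r hz)).trans (le_of_eq ?_)
    rw [nsmul_eq_mul, Finset.card_univ]
  have hbound : ‖∫ z in 𝒟, A z‖ ≤ K * ∫ z in 𝒟, z.im ^ (-2 : ℤ) := by
    by_cases hAi : IntegrableOn A 𝒟
    · have e : ∫ z in 𝒟, A z = ∫ z in 𝒟, (A z - κ σ * B z) := by
        rw [integral_sub hAi (hBi.const_mul _), integral_const_mul, h0, mul_zero, sub_zero]
      rw [e, ← integral_const_mul]
      exact norm_integral_le_of_norm_le (integrable_fd.const_mul K)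
        (ae_restrict_of_forall_mem meas_fd hdiff)
    · rw [integral_undef hAi, norm_zero]
      have : 0 ≤ ∫ z in 𝒟, z.im ^ (-2 : ℤ) :=
        integral_nonneg fun z => zpow_nonneg z.im_pos.le _
      positivity
  rw [← hmain, norm_mul, norm_mul, Complex.norm_real, Real.norm_eq_abs] at hbound
  have hz1 : 1 ≤ zM M σ := one_le_zM hσ
  rw [abs_of_nonneg (by linarith)] at hbound
  have h2 : ‖(2 : ℂ)‖ = 2 := by simp
  rw [h2] at hbound
  have hn := norm_nonneg (∫ z in strip, F z)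
  nlinarith

end Pool.Agent.H18.RS
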