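import Mathlib
import Pool.Agent.H18.RS.Tiling
import Pool.Agent.H18.RS.RowFun
import Pool.Agent.H18.RS.Fd

/-!
# Job RS-25: the two mean values agree

For every primitive `r` (i.e. in the range of `row M`) let `δ_r : SL(2, ℤ)` be a matrix with `row M δ_r = r`;
`R = Set.range (row M)` is finite. `rowFun M Φ r z = Φ (δ_r • z)` for `r ∈ R` (`rowFun_eq`) and `0` otherwise. So
`∫_𝒟 ∑_r rowFun M Φ r = ∑_{r ∈ R} ∫ 1_𝒟(z) Φ(δ_r z) = ∫ h Φ`, `h z = ∑_{r ∈ R} 1_𝒟(δ_r⁻¹ z)` (the measure is invariant).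
`(γ, r) ↦ δ_r⁻¹ γ` is a bijection `Γ₁(M) × R → SL(2, ℤ)` (inverse `g ↦ (δ_r g, r)`, `r = row M g⁻¹`), so
`∑_{γ ∈ Γ₁(M)} h (γ z) = ∑_{g} 1_𝒟 (g z) = 2` for a.e. `z` (`tiling`).
The law of `Φ` under `h dz`: for an invariant set `S`, `∫_S h₁ = ∫_S h₂` when both functions tile.
-/

open UpperHalfPlane MeasureTheory CongruenceSubgroup
open scoped MatrixGroups Modular ComplexConjugate ENNReal

namespace Pool.Agent.H18.RS

namespace MeanEqAux

theorem mp_gl (g : GL (Fin 2) ℝ) :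
    MeasurePreserving (fun z : ℍ => g • z) (volume : Measure ℍ) volume :=
  measurePreserving_smul g (volume : Measure ℍ)

theorem mp_sl (γ : SL(2, ℤ)) :
    MeasurePreserving (fun z : ℍ => γ • z) (volume : Measure ℍ) volume :=
  mp_gl (γ : GL (Fin 2) ℝ)

theorem meas_sl (γ : SL(2, ℤ)) : Measurable (fun z : ℍ => γ • z) := (mp_sl γ).measurable

instance : Countable SL(2, ℤ) := by
  have : Countable (Matrix (Fin 2) (Fin 2) ℤ) := inferInstanceAs (Countable (Fin 2 → Fin 2 → ℤ))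
  exact Function.Injective.countable (f := fun g : SL(2, ℤ) => (g : Matrix (Fin 2) (Fin 2) ℤ))
    Subtype.val_injective

theorem soft {Γ : Subgroup SL(2, ℤ)} {S : Set ℍ} (hS : MeasurableSet S)
    (hinv : ∀ γ ∈ Γ, ∀ z : ℍ, γ • z ∈ S ↔ z ∈ S)
    {h₁ h₂ : ℍ → ℝ≥0∞} (m1 : Measurable h₁) (m2 : Measurable h₂)
    (t1 : ∀ᵐ z : ℍ, ∑' γ : Γ, h₁ ((γ : SL(2, ℤ)) • z) = 2)
    (t2 : ∀ᵐ z : ℍ, ∑' γ : Γ, h₂ ((γ : SL(2, ℤ)) • z) = 2) :
    ∫⁻ z in S, h₁ z = ∫⁻ z in S, h₂ z := by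
  have key : ∀ γ : Γ, ∫⁻ z in S, h₁ z * h₂ ((γ : SL(2, ℤ)) • z) =
      ∫⁻ z in S, h₁ (((γ⁻¹ : Γ) : SL(2, ℤ)) • z) * h₂ z := by
    intro γ
    rw [← lintegral_indicator hS, ← lintegral_indicator hS,
      ← (mp_sl (γ : SL(2, ℤ))).lintegral_comp
        (f := S.indicator fun z => h₁ (((γ⁻¹ : Γ) : SL(2, ℤ)) • z) * h₂ z)]
    · refine lintegral_congr fun z => ?_
      by_cases hz : z ∈ S
      · rw [Set.indicator_of_mem hz, Set.indicator_of_mem ((hinv _ γ.2 z).2 hz)]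
        congr 2
        rw [Subgroup.coe_inv, inv_smul_smul]
      · rw [Set.indicator_of_notMem hz, Set.indicator_of_notMem (fun h => hz ((hinv _ γ.2 z).1 h))]
    · exact ((m1.comp (meas_sl _)).mul m2).indicator hS
  have e1 : ∫⁻ z in S, h₁ z * 2 = ∑' γ : Γ, ∫⁻ z in S, h₁ z * h₂ ((γ : SL(2, ℤ)) • z) := by
    rw [← lintegral_tsum]
    · refine lintegral_congr_ae ?_
      filter_upwards [ae_restrict_of_ae t2] with z hz
      rw [ENNReal.tsum_mul_left, hz]
    · intro γ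
      exact (m1.mul (m2.comp (meas_sl _))).aemeasurable
  have e2 : ∫⁻ z in S, h₂ z * 2 = ∑' γ : Γ, ∫⁻ z in S, h₁ ((γ : SL(2, ℤ)) • z) * h₂ z := by
    rw [← lintegral_tsum]
    · refine lintegral_congr_ae ?_
      filter_upwards [ae_restrict_of_ae t1] with z hz
      rw [ENNReal.tsum_mul_right, hz, mul_comm]
    · intro γ
      exact ((m1.comp (meas_sl _)).mul m2).aemeasurable
  have e3 : ∫⁻ z in S, h₁ z * 2 = ∫⁻ z in S, h₂ z * 2 := by
    rw [e1, e2]
    rw [← (Equiv.inv Γ).tsum_eq (fun γ : Γ => ∫⁻ z in S, h₁ ((γ : SL(2, ℤ)) • z) * h₂ z)]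
    exact tsum_congr key
  rw [lintegral_mul_const _ m1, lintegral_mul_const _ m2] at e3
  exact (ENNReal.mul_left_inj (by simp) (by simp)).1 e3

theorem row_mul {M : ℕ} {γ : SL(2, ℤ)} (h : γ ∈ Gamma1 M) (δ : SL(2, ℤ)) :
    row M (γ * δ) = row M δ := by
  obtain ⟨-, h2, h3⟩ := (Gamma1_mem M γ).1 h
  unfold row
  rw [Matrix.SpecialLinearGroup.coe_mul, Matrix.mul_apply, Matrix.mul_apply]
  simp only [Fin.sum_univ_two]
  push_cast
  rw [h2, h3]
  simp

theorem mem_of_row {M : ℕ} {a b : SL(2, ℤ)} (h : row M a = row M b) : a * b⁻¹ ∈ Gamma1 M := by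
  unfold row at h
  rw [Prod.mk.injEq] at h
  obtain ⟨h0, h1⟩ := h
  have hd : (b 0 0 : ℤ) * b 1 1 - b 0 1 * b 1 0 = 1 := by
    have := b.det_coe
    rw [Matrix.det_fin_two] at this
    exact this
  have ha : (a 0 0 : ℤ) * a 1 1 - a 0 1 * a 1 0 = 1 := by
    have := a.det_coe
    rw [Matrix.det_fin_two] at this
    exact this
  have hd' := congrArg (Int.cast : ℤ → ZMod M) hd
  have ha' := congrArg (Int.cast : ℤ → ZMod M) ha
  push_cast at hd' ha'
  rw [Gamma1_mem, Matrix.SpecialLinearGroup.SL2_inv_expl]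
  rw [Matrix.SpecialLinearGroup.coe_mul, Matrix.mul_apply, Matrix.mul_apply, Matrix.mul_apply]
  simp only [Fin.sum_univ_two, Matrix.cons_val', Matrix.cons_val_zero,
    Matrix.cons_val_one, Matrix.cons_val_fin_one]
  push_cast
  refine ⟨?_, ?_, ?_⟩
  · rw [← h0, ← h1]; linear_combination ha'
  · rw [h0, h1]; linear_combination hd'
  · rw [h0, h1]; ring

open scoped Classical in
/-- a matrix with the given row -/
noncomputable def del (M : ℕ) (r : ZMod M × ZMod M) : SL(2, ℤ) :=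
  if h : ∃ γ : SL(2, ℤ), row M γ = r then h.choose else 1

open scoped Classical in
theorem row_del {M : ℕ} {r : ZMod M × ZMod M} (h : ∃ γ : SL(2, ℤ), row M γ = r) :
    row M (del M r) = r := by
  unfold del
  rw [dif_pos h]
  exact h.choose_spec

open scoped Classical in
theorem rowFun_del {M : ℕ} {Φ : ℍ → ℂ} {r : ZMod M × ZMod M}
    (h : ∃ γ : SL(2, ℤ), row M γ = r) (z : ℍ) : rowFun M Φ r z = Φ (del M r • z) := by
  unfold rowFun del
  rw [dif_pos h, dif_pos h]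

theorem bij (M : ℕ) : Function.Bijective
    (fun x : Gamma1 M × {r : ZMod M × ZMod M // ∃ γ : SL(2, ℤ), row M γ = r} =>
      (del M x.2.1)⁻¹ * (x.1 : SL(2, ℤ))) := by
  constructor
  · rintro ⟨γ, r, hr⟩ ⟨γ', r', hr'⟩ h
    simp only at h
    have h2 : ((γ : SL(2, ℤ)))⁻¹ * del M r = ((γ' : SL(2, ℤ)))⁻¹ * del M r' := by
      have := congrArg (fun x => x⁻¹) h
      simpa using this
    have h3 : row M (((γ : SL(2, ℤ)))⁻¹ * del M r) = r := by
      rw [row_mul ((Gamma1 M).inv_mem γ.2), row_del hr]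
    have h4 : row M (((γ' : SL(2, ℤ)))⁻¹ * del M r') = r' := by
      rw [row_mul ((Gamma1 M).inv_mem γ'.2), row_del hr']
    have h5 : r = r' := by rw [← h3, ← h4, h2]
    subst h5
    have h6 : (γ : SL(2, ℤ)) = γ' := by
      exact mul_left_cancel h
    have h7 : γ = γ' := Subtype.ext h6
    subst h7
    rfl
  · intro g
    refine ⟨⟨⟨del M (row M g⁻¹) * g, ?_⟩, row M g⁻¹, ⟨g⁻¹, rfl⟩⟩, ?_⟩
    · have := mem_of_row (M := M) (a := del M (row M g⁻¹)) (b := g⁻¹) (row_del ⟨g⁻¹, rfl⟩)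
      simpa using this
    · simp

theorem tsum_fd {z : ℍ} {γ₀ : SL(2, ℤ)} (h : {γ : SL(2, ℤ) | γ • z ∈ 𝒟} = {γ₀, -γ₀}) :
    ∑' γ : SL(2, ℤ), (𝒟 : Set ℍ).indicator (1 : ℍ → ℝ≥0∞) (γ • z) = 2 := by
  classical
  have hne : γ₀ ≠ -γ₀ := by
    intro h'
    have h1 := γ₀.det_coe
    rw [Matrix.det_fin_two] at h1
    have h2 : ∀ i j, (γ₀ i j : ℤ) = 0 := by
      intro i j
      have := congrArg (fun g : SL(2, ℤ) => (g i j : ℤ)) h'
      simp only [Matrix.SpecialLinearGroup.coe_neg, Matrix.neg_apply] at this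
      omega
    rw [h2 0 0, h2 0 1] at h1
    simp at h1
  have h1 : ∀ γ : SL(2, ℤ), (𝒟 : Set ℍ).indicator (1 : ℍ → ℝ≥0∞) (γ • z) =
      if γ ∈ ({γ₀, -γ₀} : Finset SL(2, ℤ)) then 1 else 0 := by
    intro γ
    have : γ • z ∈ (𝒟 : Set ℍ) ↔ γ ∈ ({γ₀, -γ₀} : Finset SL(2, ℤ)) := by
      have h3 : γ ∈ {γ : SL(2, ℤ) | γ • z ∈ 𝒟} ↔ γ ∈ ({γ₀, -γ₀} : Set SL(2, ℤ)) := by rw [h]
      simpa using h3
    by_cases hh : γ • z ∈ (𝒟 : Set ℍ)
    · rw [Set.indicator_of_mem hh, if_pos (this.1 hh)]; rfl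
    · rw [Set.indicator_of_notMem hh, if_neg (fun h' => hh (this.2 h'))]
  rw [tsum_congr h1, tsum_eq_sum (s := ({γ₀, -γ₀} : Finset SL(2, ℤ)))]
  · rw [Finset.sum_congr rfl (fun x hx => if_pos hx)]
    simp [Finset.card_pair hne]
  · intro b hb
    rw [if_neg hb]

/-- the function `h` -/
noncomputable def hh (M : ℕ) [NeZero M] (z : ℍ) : ℝ≥0∞ :=
  ∑' r : {r : ZMod M × ZMod M // ∃ γ : SL(2, ℤ), row M γ = r},
    (𝒟 : Set ℍ).indicator (1 : ℍ → ℝ≥0∞) ((del M r.1)⁻¹ • z)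

theorem measurableSet_fd : MeasurableSet (𝒟 : Set ℍ) := by
  have h : IsClosed (𝒟 : Set ℍ) := by
    have e : (𝒟 : Set ℍ) = {z : ℍ | 1 ≤ Complex.normSq (z : ℂ) ∧ |z.re| ≤ (1 : ℝ) / 2} := rfl
    rw [e, Set.ofPred_and]
    refine IsClosed.inter (isClosed_le continuous_const ?_) (isClosed_le ?_ continuous_const)
    · exact Complex.continuous_normSq.comp UpperHalfPlane.continuous_coe
    · exact UpperHalfPlane.continuous_re.abs
  exact h.measurableSet

theorem measurable_hh (M : ℕ) [NeZero M] : Measurable (hh M) := by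
  unfold hh
  refine Measurable.tsum fun r => ?_
  exact (measurable_one.indicator measurableSet_fd).comp (meas_sl _)

theorem tile (M : ℕ) [NeZero M] :
    ∀ᵐ z : ℍ, ∑' γ : Gamma1 M, hh M ((γ : SL(2, ℤ)) • z) = 2 := by
  filter_upwards [tiling] with z hz
  obtain ⟨γ₀, h⟩ := hz
  rw [← tsum_fd h, ← (Equiv.ofBijective _ (bij M)).tsum_eq, ENNReal.tsum_prod']
  refine tsum_congr fun γ => ?_
  unfold hh
  refine tsum_congr fun r => ?_
  simp only [Equiv.ofBijective_apply]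
  rw [mul_smul]

/-- the measure `h dz` -/
noncomputable def mu (M : ℕ) [NeZero M] : Measure ℍ :=
  Measure.sum fun r : {r : ZMod M × ZMod M // ∃ γ : SL(2, ℤ), row M γ = r} =>
    ((volume : Measure ℍ).restrict 𝒟).map (fun z => del M r.1 • z)

theorem mu_apply (M : ℕ) [NeZero M] {S : Set ℍ} (hS : MeasurableSet S) :
    mu M S = ∫⁻ z in S, hh M z := by
  unfold mu hh
  rw [Measure.sum_apply _ hS, lintegral_tsum]
  · refine tsum_congr fun r => ?_
    rw [Measure.map_apply (meas_sl _) hS, Measure.restrict_apply ((meas_sl _) hS),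
      ← lintegral_indicator hS,
      ← (mp_sl (del M r.1)).lintegral_comp (f := S.indicator
        fun z => (𝒟 : Set ℍ).indicator (1 : ℍ → ℝ≥0∞) ((del M r.1)⁻¹ • z)),
      ← lintegral_indicator_one ((meas_sl _ hS).inter measurableSet_fd)]
    · refine lintegral_congr fun z => ?_
      by_cases h1 : del M r.1 • z ∈ S
      · rw [Set.indicator_of_mem h1, inv_smul_smul]
        by_cases h2 : z ∈ (𝒟 : Set ℍ)
        · rw [Set.indicator_of_mem h2, Set.indicator_of_mem (by exact ⟨h1, h2⟩)]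
        · rw [Set.indicator_of_notMem h2, Set.indicator_of_notMem (fun h => h2 h.2)]
      · rw [Set.indicator_of_notMem h1, Set.indicator_of_notMem (fun h => h1 h.1)]
    · exact ((measurable_one.indicator measurableSet_fd).comp (meas_sl _)).indicator hS
  · intro r
    exact ((measurable_one.indicator measurableSet_fd).comp (meas_sl _)).aemeasurable

theorem integral_rowFun {M : ℕ} [NeZero M] {Φ : ℍ → ℂ} (hc : Continuous Φ)
    (hb : ∃ C : ℝ, ∀ z, ‖Φ z‖ ≤ C) :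
    ∫ z in 𝒟, ∑ r : ZMod M × ZMod M, rowFun M Φ r z = ∫ z, Φ z ∂(mu M) := by
  classical
  obtain ⟨C, hC⟩ := hb
  have hint : ∀ γ : SL(2, ℤ), IntegrableOn (fun z => Φ (γ • z)) (𝒟 : Set ℍ) := by
    intro γ
    refine Measure.integrableOn_of_bounded (M := C) volume_fd.ne ?_ ?_
    · exact ((hc.measurable.comp (meas_sl γ)).aestronglyMeasurable)
    · exact Filter.Eventually.of_forall fun z => hC _
  have h1 : ∀ z : ℍ, ∑ r : ZMod M × ZMod M, rowFun M Φ r z =
      ∑ r : {r : ZMod M × ZMod M // ∃ γ : SL(2, ℤ), row M γ = r}, Φ (del M r.1 • z) := by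
    intro z
    rw [← Finset.sum_subtype (Finset.univ.filter fun r => ∃ γ : SL(2, ℤ), row M γ = r) (by simp)
      (fun r => Φ (del M r • z)), Finset.sum_filter]
    refine Finset.sum_congr rfl fun r _ => ?_
    by_cases h : ∃ γ : SL(2, ℤ), row M γ = r
    · rw [if_pos h, rowFun_del h]
    · rw [if_neg h]
      unfold rowFun
      rw [dif_neg h]
  rw [integral_congr_ae (Filter.Eventually.of_forall h1), integral_finsetSum]
  · unfold mu
    rw [Measure.sum_fintype, integral_finsetSum_measure]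
    · refine Finset.sum_congr rfl fun r _ => ?_
      rw [integral_map (meas_sl _).aemeasurable hc.measurable.aestronglyMeasurable]
    · intro r _
      rw [integrable_map_measure hc.measurable.aestronglyMeasurable (meas_sl _).aemeasurable]
      exact hint _
  · intro r _
    exact hint _

end MeanEqAux

open MeanEqAux in
theorem mean_eq {M : ℕ} [NeZero M] {Φ₁ Φ₂ : ℍ → ℂ} (h1c : Continuous Φ₁) (h2c : Continuous Φ₂)
    (h1 : ∀ γ ∈ Gamma1 M, ∀ z, Φ₁ (γ • z) = Φ₁ z) (h2 : ∀ γ ∈ Gamma1 M, ∀ z, Φ₂ (γ • z) = Φ₂ z)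
    (hb1 : ∃ C : ℝ, ∀ z, ‖Φ₁ z‖ ≤ C) (hb2 : ∃ C : ℝ, ∀ z, ‖Φ₂ z‖ ≤ C)
    (W : GL (Fin 2) ℝ) (e : Gamma1 M ≃ Gamma1 M)
    (he : ∀ (γ : Gamma1 M) (z : ℍ), (γ : SL(2, ℤ)) • (W • z) = W • ((e γ : SL(2, ℤ)) • z))
    (hW : ∀ z : ℍ, Φ₁ (W • z) = Φ₂ z) :
    ∫ z in 𝒟, ∑ r : ZMod M × ZMod M, rowFun M Φ₁ r z =
      ∫ z in 𝒟, ∑ r : ZMod M × ZMod M, rowFun M Φ₂ r z := by
  rw [integral_rowFun h1c hb1, integral_rowFun h2c hb2]
  have hmap : (mu M).map Φ₁ = (mu M).map Φ₂ := by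
    ext B hB
    rw [Measure.map_apply h1c.measurable hB, Measure.map_apply h2c.measurable hB,
      mu_apply M (h1c.measurable hB), mu_apply M (h2c.measurable hB)]
    have hm : Measurable (fun z : ℍ => hh M (W⁻¹ • z)) :=
      (measurable_hh M).comp (mp_gl W⁻¹).measurable
    have e1 : ∫⁻ z in Φ₂ ⁻¹' B, hh M z = ∫⁻ z in Φ₁ ⁻¹' B, hh M (W⁻¹ • z) := by
      rw [← lintegral_indicator (h1c.measurable hB), ← lintegral_indicator (h2c.measurable hB),
        ← (mp_gl W).lintegral_comp (hm.indicator (h1c.measurable hB))]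
      refine lintegral_congr fun z => ?_
      by_cases hz : Φ₂ z ∈ B
      · rw [Set.indicator_of_mem (show z ∈ Φ₂ ⁻¹' B from hz),
          Set.indicator_of_mem (show W • z ∈ Φ₁ ⁻¹' B from by
            rw [Set.mem_preimage, hW]; exact hz), inv_smul_smul]
      · rw [Set.indicator_of_notMem (show z ∉ Φ₂ ⁻¹' B from hz),
          Set.indicator_of_notMem (show W • z ∉ Φ₁ ⁻¹' B from by
            rw [Set.mem_preimage, hW]; exact hz)]
    rw [e1]
    refine soft (Γ := Gamma1 M) (h1c.measurable hB) ?_ (measurable_hh M) hm (tile M) ?_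
    · intro γ hγ z
      rw [Set.mem_preimage, Set.mem_preimage, h1 γ hγ]
    · have ht := (mp_gl W⁻¹).quasiMeasurePreserving.ae (tile M)
      filter_upwards [ht] with z hz
      rw [← hz, ← e.tsum_eq (fun γ : Gamma1 M => hh M ((γ : SL(2, ℤ)) • W⁻¹ • z))]
      refine tsum_congr fun γ => ?_
      congr 1
      have := he γ (W⁻¹ • z)
      rw [smul_inv_smul] at this
      rw [this, inv_smul_smul]
  calc ∫ z, Φ₁ z ∂(mu M) = ∫ w, w ∂((mu M).map Φ₁) := by
        rw [integral_map h1c.measurable.aemeasurable]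
        exact measurable_id.aestronglyMeasurable
    _ = ∫ w, w ∂((mu M).map Φ₂) := by rw [hmap]
    _ = ∫ z, Φ₂ z ∂(mu M) := by
        rw [integral_map h2c.measurable.aemeasurable]
        exact measurable_id.aestronglyMeasurable

end Pool.Agent.H18.RS
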