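import Mathlib
import Pool.Agent.H18.RS.Arith

/-!
# Job RS-05: from the exponential sums to the Dirichlet series

`y = 1 / X` gives `∑_{n ≤ X} u n ≤ exp (4π) B X ^ 2` for `X ≥ 1`. Then either dyadic blocks
(`2^j ≤ n < 2^(j+1)`: `∑ u n n^(-s) ≤ 2^(-j s) exp(4π) B 4^(j+1)`, geometric series of ratio
`2^(-(s-2))`, and `1 - 2^(-(s-2)) ≥ (s-2)/2` for `s ≤ 3`), or Mathlib's partial summation
(`LSeriesSummable_of_sum_norm_bigO`, `LSeries_eq_mul_integral` in `NumberTheory/LSeries/SumCoeff`, or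
`Nat.sum_mul_eq...`): `∑ u n n^(-s) = s ∫_1^∞ (∑_{n ≤ t} u n) t^(-s-1) dt ≤ s exp(4π) B / (s-2)`.
(`B ≥ 0` follows from `y = 1`.)
-/

open UpperHalfPlane MeasureTheory CongruenceSubgroup
open scoped MatrixGroups Modular ComplexConjugate

namespace Pool.Agent.H18.RS

theorem abel_nonneg {d w : ℕ → ℝ} (hw : ∀ n, w (n + 1) ≤ w n) (hw0 : ∀ n, 0 ≤ w n)
    (hD : ∀ n, 0 ≤ ∑ k ∈ Finset.range (n + 1), d k) (n : ℕ) :
    0 ≤ ∑ k ∈ Finset.range (n + 1), d k * w k := by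
  have key : ∀ n : ℕ, (∑ k ∈ Finset.range (n + 1), d k) * w n ≤
      ∑ k ∈ Finset.range (n + 1), d k * w k := by
    intro n
    induction n with
    | zero => simp
    | succ n ih =>
      rw [Finset.sum_range_succ, Finset.sum_range_succ (fun k => d k * w k), add_mul]
      have := mul_le_mul_of_nonneg_left (hw n) (hD n)
      linarith
  exact (mul_nonneg (hD n) (hw0 n)).trans (key n)

theorem dirichlet_le {u : ℕ → ℝ} (hu : ∀ n, 0 ≤ u n) (hu0 : u 0 = 0) {B : ℝ}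
    (h : ∀ y : ℝ, 0 < y → Summable (fun n : ℕ => u n * Real.exp (-(4 * Real.pi * n * y))) ∧
      ∑' n : ℕ, u n * Real.exp (-(4 * Real.pi * n * y)) ≤ B / y ^ 2) :
    ∃ C : ℝ, ∀ s : ℝ, 2 < s → Summable (fun n : ℕ => u n * (n : ℝ) ^ (-s)) ∧
      (s ≤ 3 → ∑' n : ℕ, u n * (n : ℝ) ^ (-s) ≤ C / (s - 2)) := by
  have hB : 0 ≤ B := by
    obtain ⟨-, h1⟩ := h 1 one_pos
    have h2 : 0 ≤ ∑' n : ℕ, u n * Real.exp (-(4 * Real.pi * n * 1)) :=
      tsum_nonneg fun n => mul_nonneg (hu n) (Real.exp_pos _).le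
    have h3 := h2.trans h1
    simpa using h3
  set K : ℝ := Real.exp (4 * Real.pi) * B with hK
  have hK0 : 0 ≤ K := by positivity
  have hU : ∀ n : ℕ, ∑ k ∈ Finset.range (n + 1), u (k + 1) ≤ K * ((n : ℝ) + 1) ^ 2 := by
    intro n
    have hn : (0 : ℝ) < (n : ℝ) + 1 := by positivity
    obtain ⟨h1, h2⟩ := h (1 / ((n : ℝ) + 1)) (by positivity)
    have h3 : ∑ k ∈ Finset.range (n + 1), u (k + 1) * Real.exp (-(4 * Real.pi)) ≤
        ∑' m : ℕ, u m * Real.exp (-(4 * Real.pi * m * (1 / ((n : ℝ) + 1)))) := by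
      refine le_trans ?_ (h1.sum_le_tsum (Finset.range (n + 2))
        (fun m _ => mul_nonneg (hu m) (Real.exp_pos _).le))
      rw [Finset.sum_range_succ' _ (n + 1), hu0, zero_mul, add_zero]
      refine Finset.sum_le_sum fun k hk => ?_
      refine mul_le_mul_of_nonneg_left ?_ (hu _)
      rw [Real.exp_le_exp]
      have hk' : (k : ℝ) + 1 ≤ (n : ℝ) + 1 := by
        have := Finset.mem_range.mp hk
        exact_mod_cast this
      have h4 : ((k + 1 : ℕ) : ℝ) * (1 / ((n : ℝ) + 1)) ≤ 1 := by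
        rw [mul_one_div, div_le_one hn]
        push_cast
        exact hk'
      have h5 : 4 * Real.pi * (((k + 1 : ℕ) : ℝ) * (1 / ((n : ℝ) + 1))) ≤ 4 * Real.pi * 1 :=
        mul_le_mul_of_nonneg_left h4 (by positivity)
      linarith [mul_assoc (4 * Real.pi) ((k + 1 : ℕ) : ℝ) (1 / ((n : ℝ) + 1))]
    rw [← Finset.sum_mul] at h3
    have h6 : (∑ k ∈ Finset.range (n + 1), u (k + 1)) * Real.exp (-(4 * Real.pi)) ≤
        B * ((n : ℝ) + 1) ^ 2 := by
      refine h3.trans (h2.trans (le_of_eq ?_))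
      field_simp
    have h7 := mul_le_mul_of_nonneg_left h6 (Real.exp_pos (4 * Real.pi)).le
    have h8 : Real.exp (4 * Real.pi) * ((∑ k ∈ Finset.range (n + 1), u (k + 1)) *
        Real.exp (-(4 * Real.pi))) = ∑ k ∈ Finset.range (n + 1), u (k + 1) := by
      rw [mul_comm (∑ k ∈ Finset.range (n + 1), u (k + 1)), ← mul_assoc, ← Real.exp_add]
      simp
    rw [h8] at h7
    rw [hK]
    linarith
  have hVn : ∀ n : ℕ, ∑ k ∈ Finset.range (n + 1), K * (2 * (k : ℝ) + 1) = K * ((n : ℝ) + 1) ^ 2 := by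
    intro n
    rw [← Finset.mul_sum]
    congr 1
    induction n with
    | zero => simp
    | succ n ih => rw [Finset.sum_range_succ, ih]; push_cast; ring
  have hpart : ∀ s : ℝ, 2 < s → ∀ n : ℕ,
      ∑ k ∈ Finset.range (n + 1), u (k + 1) * ((k : ℝ) + 1) ^ (-s) ≤
        2 * K * (s / (s - 2)) := by
    intro s hs n
    have hab := abel_nonneg (d := fun k => K * (2 * (k : ℝ) + 1) - u (k + 1))
      (w := fun k : ℕ => ((k : ℝ) + 1) ^ (-s)) ?_ ?_ ?_ n
    · simp only [sub_mul, Finset.sum_sub_distrib] at hab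
      have h1 : ∑ k ∈ Finset.range (n + 1), K * (2 * (k : ℝ) + 1) * ((k : ℝ) + 1) ^ (-s) ≤
          ∑ k ∈ Finset.range (n + 1), 2 * K * (((k : ℝ) + 1) * ((1 : ℕ) : ℝ)) ^ (1 - 2 * (s / 2)) := by
        refine Finset.sum_le_sum fun k _ => ?_
        have hk : (0 : ℝ) < (k : ℝ) + 1 := by positivity
        have e : (((k : ℝ) + 1) * ((1 : ℕ) : ℝ)) ^ (1 - 2 * (s / 2)) =
            ((k : ℝ) + 1) * ((k : ℝ) + 1) ^ (-s) := by
          rw [Nat.cast_one, mul_one, show 1 - 2 * (s / 2) = 1 + -s by ring, Real.rpow_add hk,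
            Real.rpow_one]
        rw [e]
        have h0 : 0 < ((k : ℝ) + 1) ^ (-s) := by positivity
        have : K * (2 * (k : ℝ) + 1) ≤ 2 * K * ((k : ℝ) + 1) := by nlinarith
        calc _ ≤ 2 * K * ((k : ℝ) + 1) * ((k : ℝ) + 1) ^ (-s) :=
              mul_le_mul_of_nonneg_right this h0.le
          _ = _ := by ring
      have hs1 : 1 < s / 2 := by linarith
      have h2 : ∑ k ∈ Finset.range (n + 1), (((k : ℝ) + 1) * ((1 : ℕ) : ℝ)) ^ (1 - 2 * (s / 2)) ≤
          ∑' j : ℕ, (((j : ℝ) + 1) * ((1 : ℕ) : ℝ)) ^ (1 - 2 * (s / 2)) :=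
        (m_summable (M := 1) hs1).sum_le_tsum _ (fun m _ => by positivity)
      obtain ⟨-, h3⟩ := arith_bound (M := 1) one_pos hs1
      have h4 : ∑' j : ℕ, (((j : ℝ) + 1) * ((1 : ℕ) : ℝ)) ^ (1 - 2 * (s / 2)) ≤ s / (s - 2) := by
        rw [le_div_iff₀ (by linarith)]
        linarith
      rw [← Finset.mul_sum] at h1
      have h5 := mul_le_mul_of_nonneg_left (h2.trans h4) (by positivity : (0 : ℝ) ≤ 2 * K)
      linarith
    · intro k
      refine Real.rpow_le_rpow_of_nonpos (by positivity) ?_ (by linarith)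
      push_cast; linarith
    · intro k
      positivity
    · intro m
      rw [Finset.sum_sub_distrib, hVn]
      linarith [hU m]
  have hpart' : ∀ s : ℝ, 2 < s → ∀ n : ℕ,
      ∑ k ∈ Finset.range n, u (k + 1) * (((k + 1 : ℕ) : ℝ)) ^ (-s) ≤ 2 * K * (s / (s - 2)) := by
    intro s hs n
    refine le_trans ?_ (hpart s hs n)
    rw [Finset.sum_range_succ]
    push_cast
    have : 0 ≤ u (n + 1) * ((n : ℝ) + 1) ^ (-s) := mul_nonneg (hu _) (by positivity)
    linarith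
  have hsum : ∀ s : ℝ, 2 < s → Summable (fun k : ℕ => u (k + 1) * (((k + 1 : ℕ) : ℝ)) ^ (-s)) :=
    fun s hs => summable_of_sum_range_le (fun k => mul_nonneg (hu _) (by positivity))
      (hpart' s hs)
  have hsum' : ∀ s : ℝ, 2 < s → Summable (fun n : ℕ => u n * (n : ℝ) ^ (-s)) :=
    fun s hs => (summable_nat_add_iff 1).mp (hsum s hs)
  refine ⟨6 * K, fun s hs => ⟨hsum' s hs, fun hs3 => ?_⟩⟩
  rw [(hsum' s hs).tsum_eq_zero_add, hu0, zero_mul, zero_add]
  refine ((hsum s hs).tsum_le_of_sum_range_le (hpart' s hs)).trans ?_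
  have h1 : 0 < s - 2 := by linarith
  rw [← mul_div_assoc]
  refine (div_le_div_iff_of_pos_right h1).mpr ?_
  nlinarith

end Pool.Agent.H18.RS
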