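import Mathlib

/-!
# Job RS-03: Parseval for absolutely convergent Fourier series

Expand the product of the two series as a sum over `ℕ × ℕ` (`Summable.tsum_mul_tsum_of_summable_norm` or
`tsum_prod`), integrate term by term (`intervalIntegral.hasSum_integral_of_summable_norm` or
`MeasureTheory.hasSum_integral_of_summable_integral_norm`, all terms have norm `‖u n‖ ‖v m‖`), and
`∫ x in 0..1, exp (2πi(n-m)x) = if n = m then 1 else 0` (`integral_exp_mul_complex`, or `fourier` orthogonality).
Then sum over the diagonal.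
-/

open UpperHalfPlane MeasureTheory CongruenceSubgroup
open scoped MatrixGroups Modular ComplexConjugate

namespace Pool.Agent.H18.RS

theorem parseval_int (n m : ℕ) :
    ∫ x in (0 : ℝ)..1, Complex.exp (2 * Real.pi * Complex.I * ((n : ℂ) - m) * x) =
      if n = m then 1 else 0 := by
  by_cases h : n = m
  · rw [if_pos h, h]
    simp
  · have hc : (2 * Real.pi * Complex.I * ((n : ℂ) - m)) ≠ 0 := by
      apply mul_ne_zero Complex.two_pi_I_ne_zero
      rw [sub_ne_zero]
      exact_mod_cast h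
    have h1 : Complex.exp (2 * Real.pi * Complex.I * ((n : ℂ) - m)) = 1 := by
      rw [Complex.exp_eq_one_iff]
      refine ⟨(n : ℤ) - m, ?_⟩
      push_cast
      ring
    rw [if_neg h, integral_exp_mul_complex hc]
    simp [h1]

theorem parseval_norm (r x : ℝ) : ‖Complex.exp (2 * Real.pi * Complex.I * r * x)‖ = 1 := by
  have h : 2 * Real.pi * Complex.I * r * x = ((2 * Real.pi * r * x : ℝ) : ℂ) * Complex.I := by
    push_cast
    ring
  rw [h, Complex.norm_exp_ofReal_mul_I]

theorem parseval_conj (m : ℕ) (x : ℝ) : conj (Complex.exp (2 * Real.pi * Complex.I * m * x)) =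
    Complex.exp (-(2 * Real.pi * Complex.I * m * x)) := by
  rw [← Complex.exp_conj]
  congr 1
  have h : conj (2 : ℂ) = 2 := map_ofNat (starRingEnd ℂ) 2
  simp [h]

theorem parseval {u v : ℕ → ℂ} (hu : Summable fun n => ‖u n‖) (hv : Summable fun n => ‖v n‖) :
    ∫ x in (0 : ℝ)..1, (∑' n : ℕ, u n * Complex.exp (2 * Real.pi * Complex.I * n * x)) *
      conj (∑' n : ℕ, v n * Complex.exp (2 * Real.pi * Complex.I * n * x)) =
      ∑' n : ℕ, u n * conj (v n) := by
  have hn : ∀ (n : ℕ) (x : ℝ), ‖Complex.exp (2 * Real.pi * Complex.I * n * x)‖ = 1 := by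
    intro n x
    exact parseval_norm n x
  have hF : ∀ (p : ℕ × ℕ) (x : ℝ), ‖u p.1 * conj (v p.2) *
      Complex.exp (2 * Real.pi * Complex.I * ((p.1 : ℂ) - p.2) * x)‖ = ‖u p.1‖ * ‖v p.2‖ := by
    intro p x
    have h1 := parseval_norm ((p.1 : ℝ) - p.2) x
    push_cast at h1
    rw [norm_mul, norm_mul, h1, mul_one, Complex.norm_conj]
  have h1 : ∀ x : ℝ, (∑' n : ℕ, u n * Complex.exp (2 * Real.pi * Complex.I * n * x)) *
      conj (∑' n : ℕ, v n * Complex.exp (2 * Real.pi * Complex.I * n * x)) =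
      ∑' p : ℕ × ℕ, u p.1 * conj (v p.2) *
        Complex.exp (2 * Real.pi * Complex.I * ((p.1 : ℂ) - p.2) * x) := by
    intro x
    have h2 : Summable fun n : ℕ => ‖u n * Complex.exp (2 * Real.pi * Complex.I * n * x)‖ := by
      simpa only [norm_mul, hn, mul_one] using hu
    have h3 : Summable fun n : ℕ =>
        ‖conj (v n * Complex.exp (2 * Real.pi * Complex.I * n * x))‖ := by
      simpa only [Complex.norm_conj, norm_mul, hn, mul_one] using hv
    rw [Complex.conj_tsum, tsum_mul_tsum_of_summable_norm h2 h3]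
    refine tsum_congr fun p => ?_
    rw [map_mul, parseval_conj, mul_mul_mul_comm, ← Complex.exp_add]
    congr 2
    ring
  have h2 : ∀ p : ℕ × ℕ, ∫ x in Set.Ioc (0 : ℝ) 1, u p.1 * conj (v p.2) *
      Complex.exp (2 * Real.pi * Complex.I * ((p.1 : ℂ) - p.2) * x) =
      if p.1 = p.2 then u p.1 * conj (v p.2) else 0 := by
    intro p
    rw [integral_const_mul, ← intervalIntegral.integral_of_le zero_le_one, parseval_int]
    split_ifs <;> simp
  have h3 : HasSum (fun p : ℕ × ℕ => ∫ x in Set.Ioc (0 : ℝ) 1, u p.1 * conj (v p.2) *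
      Complex.exp (2 * Real.pi * Complex.I * ((p.1 : ℂ) - p.2) * x))
      (∫ x in Set.Ioc (0 : ℝ) 1, ∑' p : ℕ × ℕ, u p.1 * conj (v p.2) *
      Complex.exp (2 * Real.pi * Complex.I * ((p.1 : ℂ) - p.2) * x)) := by
    apply hasSum_integral_of_summable_integral_norm
    · intro p
      apply Continuous.integrableOn_Ioc
      fun_prop
    · simp only [hF]
      have h4 : ∀ p : ℕ × ℕ, ∫ _x in Set.Ioc (0 : ℝ) 1, ‖u p.1‖ * ‖v p.2‖ =
          ‖u p.1‖ * ‖v p.2‖ := by
        intro p
        simp
      simp only [h4]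
      exact hu.mul_of_nonneg hv (fun _ => norm_nonneg _) (fun _ => norm_nonneg _)
  rw [intervalIntegral.integral_of_le zero_le_one]
  simp only [h1]
  rw [← h3.tsum_eq]
  simp only [h2]
  have h5 : Function.Injective (fun n : ℕ => ((n, n) : ℕ × ℕ)) := fun a b h => (Prod.mk.inj h).1
  rw [← h5.tsum_eq]
  · simp
  · intro p hp
    by_cases h : p.1 = p.2
    · exact ⟨p.1, Prod.ext rfl h⟩
    · exact absurd (if_neg h) hp

end Pool.Agent.H18.RS
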