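import Mathlib
import Pool.Agent.H18.RS.Basic

/-!
# Job RS-24: the functions `Phi₁`, `Phi₂`

`Phi₁ z = y² f(z) conj (g (q z))`, `Phi₂ z = y² f(q z) conj (g z)`.
* continuity: `mulPt q` is continuous (`UpperHalfPlane` has the subspace topology).
* invariance: `γ = [[a, b], [c, d]] ∈ Γ₀(N q)`, `c = N q c'`: `f (γ z) = (c z + d)² f z`, and `q (γ z) = γ' (q z)` with
  `γ' = [[a, q b], [N c', d]] ∈ Γ₀(N)`, so `g (q γ z) = (N c' q z + d)² g (q z) = (c z + d)² g (q z)`; `Im (γ z) = y / |c z + d|²`.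
* bounded: `‖Phi₁ z‖ = (y ‖f z‖) (Im (q z) ‖g (q z)‖) / q`.
* decay: the same with `hf.decay` (for `Phi₁`) and `hg.decay` (for `Phi₂`) for one factor and `bound` for the other.
-/

open UpperHalfPlane MeasureTheory CongruenceSubgroup
open scoped MatrixGroups Modular ComplexConjugate

namespace Pool.Agent.H18.RS

/-- the two functions whose integrals are compared -/
noncomputable def Phi₁ (q : ℕ) (hq : 0 < q) (f g : ℍ → ℂ) (z : ℍ) : ℂ :=
  (z.im : ℂ) ^ 2 * f z * conj (g (mulPt q hq z))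

@[inherit_doc Phi₁]
noncomputable def Phi₂ (q : ℕ) (hq : 0 < q) (f g : ℍ → ℂ) (z : ℍ) : ℂ :=
  (z.im : ℂ) ^ 2 * f (mulPt q hq z) * conj (g z)

theorem mulPt_continuous (q : ℕ) (hq : 0 < q) : Continuous (mulPt q hq) := by
  rw [UpperHalfPlane.isOpenEmbedding_coe.toIsInducing.continuous_iff]
  exact continuous_const.mul UpperHalfPlane.isOpenEmbedding_coe.continuous

theorem Phi_cont {N q : ℕ} (hq : 0 < q) {f g : ℍ → ℂ} {a b : ℕ → ℝ} (hf : Datum N f a)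
    (hg : Datum N g b) : Continuous (Phi₁ q hq f g) ∧ Continuous (Phi₂ q hq f g) := by
  have him : Continuous fun z : ℍ => (z.im : ℂ) ^ 2 :=
    (Complex.continuous_ofReal.comp UpperHalfPlane.continuous_im).pow 2
  have hm := mulPt_continuous q hq
  refine ⟨?_, ?_⟩
  · exact (him.mul hf.cont).mul (Complex.continuous_conj.comp (hg.cont.comp hm))
  · exact (him.mul (hf.cont.comp hm)).mul (Complex.continuous_conj.comp hg.cont)

theorem Phi_inv {N q : ℕ} (hq : 0 < q) {f g : ℍ → ℂ} {a b : ℕ → ℝ} (hf : Datum N f a)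
    (hg : Datum N g b) (γ : SL(2, ℤ)) (hγ : γ ∈ Gamma0 (N * q)) (z : ℍ) :
    Phi₁ q hq f g (γ • z) = Phi₁ q hq f g z ∧ Phi₂ q hq f g (γ • z) = Phi₂ q hq f g z := by
  have hdet : γ 0 0 * γ 1 1 - γ 0 1 * γ 1 0 = 1 := by
    rw [← Matrix.det_fin_two]
    exact γ.det_coe
  obtain ⟨k, hk⟩ : ((N * q : ℕ) : ℤ) ∣ γ 1 0 := by
    rw [← ZMod.intCast_zmod_eq_zero_iff_dvd]
    exact Gamma0_mem.1 hγ
  push_cast at hk
  -- `γ ∈ Γ₀(N)`
  have hγN : γ ∈ Gamma0 N := by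
    rw [Gamma0_mem, ZMod.intCast_zmod_eq_zero_iff_dvd, hk]
    exact ⟨q * k, by ring⟩
  -- the conjugate
  obtain ⟨G, hG, g00, g01, g10, g11⟩ : ∃ G : SL(2, ℤ), G ∈ Gamma0 N ∧ G 0 0 = γ 0 0 ∧
      G 0 1 = q * γ 0 1 ∧ G 1 0 = N * k ∧ G 1 1 = γ 1 1 := by
    let G : SL(2, ℤ) := ⟨!![γ 0 0, q * γ 0 1; (N : ℤ) * k, γ 1 1], by
      rw [Matrix.det_fin_two_of]
      rw [hk] at hdet
      linear_combination hdet⟩
    refine ⟨G, Gamma0_mem.2 ?_, rfl, rfl, rfl, rfl⟩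
    change (((N : ℤ) * k : ℤ) : ZMod N) = 0
    simp
  set D : ℂ := (γ 1 0 : ℂ) * z + (γ 1 1 : ℂ) with hDdef
  have hD : D ≠ 0 := by
    have := denom_ne_zero (γ : GL (Fin 2) ℝ) z
    rwa [ModularGroup.denom_apply] at this
  have hq' : (q : ℂ) ≠ 0 := by exact_mod_cast hq.ne'
  have e1 : mulPt q hq (γ • z) = G • mulPt q hq z := by
    apply UpperHalfPlane.ext
    have h1 : ((mulPt q hq (γ • z) : ℍ) : ℂ) = q * ((γ • z : ℍ) : ℂ) := rfl
    have h2 : ((mulPt q hq z : ℍ) : ℂ) = q * (z : ℂ) := rfl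
    rw [h1, coe_specialLinearGroup_apply, coe_specialLinearGroup_apply, h2, g00, g01, g10, g11, hk]
    simp only [algebraMap_int_eq, eq_intCast]
    push_cast
    rw [mul_div_assoc']
    congr 1 <;> ring
  have e2 : ∀ {h : ℍ → ℂ} {c : ℕ → ℝ}, Datum N h c →
      h (mulPt q hq (γ • z)) = D ^ 2 * h (mulPt q hq z) := by
    intro h c hh
    have h2 : ((mulPt q hq z : ℍ) : ℂ) = q * (z : ℂ) := rfl
    rw [e1, hh.modular G hG, g10, g11, h2, hDdef, hk]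
    push_cast
    ring
  have e3 : ∀ {h : ℍ → ℂ} {c : ℕ → ℝ}, Datum N h c → h (γ • z) = D ^ 2 * h z := by
    intro h c hh
    exact hh.modular γ hγN z
  have him : (((γ • z : ℍ).im : ℝ) : ℂ) = z.im / (D * conj D) := by
    rw [ModularGroup.im_smul_eq_div_normSq, ModularGroup.denom_apply, Complex.mul_conj]
    push_cast
    rfl
  have hcD : conj D ≠ 0 := by
    rw [Ne, map_eq_zero]
    exact hD
  unfold Phi₁ Phi₂
  refine ⟨?_, ?_⟩
  · rw [e3 hf, e2 hg, him, map_mul, map_pow]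
    field_simp
  · rw [e2 hf, e3 hg, him, map_mul, map_pow]
    field_simp

theorem Phi₁_norm {q : ℕ} (hq : 0 < q) (f g : ℍ → ℂ) (z : ℍ) :
    ‖Phi₁ q hq f g z‖ = (z.im * ‖f z‖) * ((mulPt q hq z).im * ‖g (mulPt q hq z)‖) / q := by
  have hq' : (q : ℝ) ≠ 0 := by exact_mod_cast hq.ne'
  have h1 : (mulPt q hq z).im = q * z.im := by
    change ((q : ℂ) * z).im = q * z.im
    simp
  unfold Phi₁
  rw [norm_mul, norm_mul, norm_pow, Complex.norm_real, Real.norm_of_nonneg z.im_pos.le, h1,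
    RCLike.norm_conj]
  field_simp

theorem Phi₂_norm {q : ℕ} (hq : 0 < q) (f g : ℍ → ℂ) (z : ℍ) :
    ‖Phi₂ q hq f g z‖ = (z.im * ‖g z‖) * ((mulPt q hq z).im * ‖f (mulPt q hq z)‖) / q := by
  have hq' : (q : ℝ) ≠ 0 := by exact_mod_cast hq.ne'
  have h1 : (mulPt q hq z).im = q * z.im := by
    change ((q : ℂ) * z).im = q * z.im
    simp
  unfold Phi₂
  rw [norm_mul, norm_mul, norm_pow, Complex.norm_real, Real.norm_of_nonneg z.im_pos.le, h1,
    RCLike.norm_conj]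
  field_simp

theorem Phi_bdd {N q : ℕ} (hq : 0 < q) {f g : ℍ → ℂ} {a b : ℕ → ℝ} (hf : Datum N f a)
    (hg : Datum N g b) :
    ∃ C : ℝ, ∀ z, ‖Phi₁ q hq f g z‖ ≤ C ∧ ‖Phi₂ q hq f g z‖ ≤ C := by
  obtain ⟨A, hA⟩ := hf.bound
  obtain ⟨B, hB⟩ := hg.bound
  have hA0 : 0 ≤ A := le_trans (mul_nonneg UpperHalfPlane.I.im_pos.le (norm_nonneg _)) (hA I)
  have hB0 : 0 ≤ B := le_trans (mul_nonneg UpperHalfPlane.I.im_pos.le (norm_nonneg _)) (hB I)
  have hq1 : (1 : ℝ) ≤ q := by exact_mod_cast hq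
  refine ⟨A * B, fun z => ⟨?_, ?_⟩⟩
  · rw [Phi₁_norm]
    refine (div_le_self (by positivity) hq1).trans ?_
    exact mul_le_mul (hA z) (hB _) (by positivity) hA0
  · rw [Phi₂_norm]
    refine (div_le_self (by positivity) hq1).trans ?_
    rw [mul_comm A B]
    exact mul_le_mul (hB z) (hA _) (by positivity) hB0

theorem Phi_decay {N q : ℕ} (hq : 0 < q) {f g : ℍ → ℂ} {a b : ℕ → ℝ} (hf : Datum N f a)
    (hg : Datum N g b) :
    ∃ C : ℝ, ∀ γ : SL(2, ℤ), ∀ z ∈ 𝒟, ‖Phi₁ q hq f g (γ • z)‖ * z.im ^ 4 ≤ C ∧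
      ‖Phi₂ q hq f g (γ • z)‖ * z.im ^ 4 ≤ C := by
  obtain ⟨A, hA⟩ := hf.bound
  obtain ⟨B, hB⟩ := hg.bound
  obtain ⟨A', hA'⟩ := hf.decay
  obtain ⟨B', hB'⟩ := hg.decay
  have hA0 : 0 ≤ A := le_trans (mul_nonneg UpperHalfPlane.I.im_pos.le (norm_nonneg _)) (hA I)
  have hB0 : 0 ≤ B := le_trans (mul_nonneg UpperHalfPlane.I.im_pos.le (norm_nonneg _)) (hB I)
  have hq1 : (1 : ℝ) ≤ q := by exact_mod_cast hq
  refine ⟨max (A' * B) (B' * A), fun γ z hz => ⟨?_, ?_⟩⟩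
  · refine le_trans ?_ (le_max_left _ _)
    rw [Phi₁_norm]
    have h1 := hA' γ z hz
    have h0 : 0 ≤ (γ • z).im * ‖f (γ • z)‖ * z.im ^ 4 := by positivity
    calc ((γ • z).im * ‖f (γ • z)‖ * ((mulPt q hq (γ • z)).im * ‖g (mulPt q hq (γ • z))‖) / q) *
          z.im ^ 4 = ((γ • z).im * ‖f (γ • z)‖ * z.im ^ 4) *
            ((mulPt q hq (γ • z)).im * ‖g (mulPt q hq (γ • z))‖) / q := by ring
      _ ≤ ((γ • z).im * ‖f (γ • z)‖ * z.im ^ 4) *
            ((mulPt q hq (γ • z)).im * ‖g (mulPt q hq (γ • z))‖) :=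
          div_le_self (by positivity) hq1
      _ ≤ A' * B := mul_le_mul h1 (hB _) (by positivity) (h0.trans h1)
  · refine le_trans ?_ (le_max_right _ _)
    rw [Phi₂_norm]
    have h1 := hB' γ z hz
    have h0 : 0 ≤ (γ • z).im * ‖g (γ • z)‖ * z.im ^ 4 := by positivity
    calc ((γ • z).im * ‖g (γ • z)‖ * ((mulPt q hq (γ • z)).im * ‖f (mulPt q hq (γ • z))‖) / q) *
          z.im ^ 4 = ((γ • z).im * ‖g (γ • z)‖ * z.im ^ 4) *
            ((mulPt q hq (γ • z)).im * ‖f (mulPt q hq (γ • z))‖) / q := by ring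
      _ ≤ ((γ • z).im * ‖g (γ • z)‖ * z.im ^ 4) *
            ((mulPt q hq (γ • z)).im * ‖f (mulPt q hq (γ • z))‖) :=
          div_le_self (by positivity) hq1
      _ ≤ B' * A := mul_le_mul h1 (hA _) (by positivity) (h0.trans h1)

end Pool.Agent.H18.RS
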