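import Mathlib
import Pool.Agent.H18.RS.Basic
import Pool.Agent.H18.RS.Parseval

/-!
# Job RS-04: `∑ a n ^ 2 exp (-4π n y) ≤ B / y ^ 2`

Let `C` be the bound of the datum, `z = x + i y`: `f z = ∑ u n exp (2πi n x)` with
`u n = a n exp (-2π n y)`; the series converges absolutely (`HasSum` in `ℂ` gives `Summable` of the norms,
`Summable.norm`, and `‖a n * ee n z‖ = |a n| exp (-2π n y)`). By `parseval` (with `v = u`)
`∑ a n ^ 2 exp (-4π n y) = ∫ x in 0..1, ‖f (x + i y)‖ ^ 2 ≤ (C / y) ^ 2`. Summability: `|u n| ^ 2 ≤ |u n| * sup`,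
or from `Summable.norm` of `u` and boundedness. Put `B = C ^ 2`. The points: `(⟨x + y i, _⟩ : ℍ)`.
-/

open UpperHalfPlane MeasureTheory CongruenceSubgroup
open scoped MatrixGroups Modular ComplexConjugate

namespace Pool.Agent.H18.RS

theorem sqSum_ee (n : ℕ) (x y : ℝ) (hy : 0 < y) :
    ee n (⟨(x : ℂ) + y * Complex.I, by simpa using hy⟩ : ℍ) =
      (Real.exp (-(2 * Real.pi * n * y)) : ℂ) *
        Complex.exp (2 * Real.pi * Complex.I * n * x) := by
  rw [ee, Complex.ofReal_exp, ← Complex.exp_add]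
  congr 1
  change 2 * (Real.pi : ℂ) * Complex.I * n * ((x : ℂ) + y * Complex.I) = _
  push_cast
  linear_combination (2 * (Real.pi : ℂ) * n * y) * Complex.I_mul_I

theorem sq_sum_le {N : ℕ} {f : ℍ → ℂ} {a : ℕ → ℝ} (h : Datum N f a) :
    ∃ B : ℝ, ∀ y : ℝ, 0 < y → Summable (fun n : ℕ => a n ^ 2 * Real.exp (-(4 * Real.pi * n * y))) ∧
      ∑' n : ℕ, a n ^ 2 * Real.exp (-(4 * Real.pi * n * y)) ≤ B / y ^ 2 := by
  obtain ⟨C, hC⟩ := h.bound
  refine ⟨C ^ 2, fun y hy => ?_⟩
  let z : ℝ → ℍ := fun x => ⟨(x : ℂ) + y * Complex.I, by simpa using hy⟩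
  let u : ℕ → ℂ := fun n => (a n : ℂ) * (Real.exp (-(2 * Real.pi * n * y)) : ℂ)
  have hs : ∀ x : ℝ, HasSum (fun n : ℕ => u n * Complex.exp (2 * Real.pi * Complex.I * n * x))
      (f (z x)) := by
    intro x
    have h1 := h.expansion (z x)
    have h2 : (fun n : ℕ => (a n : ℂ) * ee n (z x)) =
        fun n : ℕ => u n * Complex.exp (2 * Real.pi * Complex.I * n * x) := by
      funext n
      rw [sqSum_ee n x y hy, ← mul_assoc]
    rw [h2] at h1
    exact h1
  have hu : Summable fun n => ‖u n‖ := by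
    have h1 := (hs 0).summable.norm
    simpa using h1
  have hsq : ∀ n, u n * conj (u n) =
      ((a n ^ 2 * Real.exp (-(4 * Real.pi * n * y)) : ℝ) : ℂ) := by
    intro n
    have h1 : u n = ((a n * Real.exp (-(2 * Real.pi * n * y)) : ℝ) : ℂ) := by
      rw [Complex.ofReal_mul]
    rw [h1, Complex.conj_ofReal, ← Complex.ofReal_mul]
    congr 1
    have h2 : -(4 * Real.pi * n * y) = -(2 * Real.pi * n * y) + -(2 * Real.pi * n * y) := by ring
    rw [h2, Real.exp_add]
    ring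
  have hsq' : ∀ n, a n ^ 2 * Real.exp (-(4 * Real.pi * n * y)) = ‖u n‖ ^ 2 := by
    intro n
    have h1 := hsq n
    rw [Complex.mul_conj, Complex.normSq_eq_norm_sq] at h1
    exact_mod_cast h1.symm
  have hsum : Summable (fun n : ℕ => a n ^ 2 * Real.exp (-(4 * Real.pi * n * y))) := by
    simp only [hsq']
    refine Summable.of_nonneg_of_le (fun n => sq_nonneg _) (fun n => ?_)
      (hu.mul_left (∑' n, ‖u n‖))
    rw [sq]
    exact mul_le_mul_of_nonneg_right (hu.le_tsum n (fun _ _ => norm_nonneg _)) (norm_nonneg _)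
  refine ⟨hsum, ?_⟩
  have hp := parseval hu hu
  have h1 : ∀ x : ℝ, ‖(∑' n : ℕ, u n * Complex.exp (2 * Real.pi * Complex.I * n * x)) *
      conj (∑' n : ℕ, u n * Complex.exp (2 * Real.pi * Complex.I * n * x))‖ ≤ C ^ 2 / y ^ 2 := by
    intro x
    rw [(hs x).tsum_eq, norm_mul, Complex.norm_conj, ← div_pow, ← sq]
    have h2 : y * ‖f (z x)‖ ≤ C := by
      have h3 := hC (z x)
      have h4 : (z x).im = y := by
        change ((x : ℂ) + y * Complex.I).im = y
        simp
      rwa [h4] at h3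
    have h5 : ‖f (z x)‖ ≤ C / y := by
      rw [le_div_iff₀ hy, mul_comm]
      exact h2
    exact pow_le_pow_left₀ (norm_nonneg _) h5 2
  have h2 : ‖∑' n : ℕ, u n * conj (u n)‖ ≤ C ^ 2 / y ^ 2 := by
    rw [← hp]
    have h3 := intervalIntegral.norm_integral_le_of_norm_le_const
      (a := 0) (b := 1) (C := C ^ 2 / y ^ 2) (f := fun x : ℝ =>
      (∑' n : ℕ, u n * Complex.exp (2 * Real.pi * Complex.I * n * x)) *
      conj (∑' n : ℕ, u n * Complex.exp (2 * Real.pi * Complex.I * n * x))) (fun x _ => h1 x)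
    simpa using h3
  simp only [hsq] at h2
  rw [← Complex.ofReal_tsum, Complex.norm_real, Real.norm_eq_abs] at h2
  exact (le_abs_self _).trans h2

end Pool.Agent.H18.RS
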