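import Mathlib
import Pool.Agent.H18.RS.Phi
import Pool.Agent.H18.RS.Parseval
import Pool.Agent.H18.RS.Strip
import Pool.Agent.H18.RS.SqSum
import Pool.Agent.H18.RS.Dirichlet

/-!
# Job RS-26: the integrals over the strip are Dirichlet series

Integrability on the strip: `‖Phi₁ z y^σ‖ ≤ G(y)`, from `Phi_bdd` for `y ≤ 1` and `Phi_decay` for `y ≥ 1` (some `T^n • z ∈ 𝒟`),
`integrable_strip`. By `integral_strip` (with `F w = Phi₁ (ofComplex w) * (im w)^σ`)
`∫_strip = ∫_0^∞ y^(σ+2-2) (∫_0^1 f(x+iy) conj g(q(x+iy)) dx) dy`. For fixed `y`: `f(x+iy) = ∑ u n e(n x)`, `u n = a n exp (-2π n y)`, and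
`g(q(x+iy)) = ∑_n b n exp(-2π q n y) e(q n x) = ∑ v n e(n x)` with `v (q n) = b n exp (-2π q n y)`, `v = 0` off multiples of `q`.
`parseval`: the inner integral is `∑_n a (q n) b n exp (-4π q n y)`. Integrate term by term
(`∫_0^∞ y^σ exp (-c y) dy = Gamma (σ+1) c^(-(σ+1))`: `Real.integral_rpow_mul_exp_neg_mul_Ioi`), justified by
`∑ |a (q n) b n| n^(-(σ+1)) < ∞` (`sq_sum_le` + `dirichlet_le` with `u n = a n ^ 2` and `b n ^ 2`; `|x y| ≤ (x² + y²)/2`).
`mellin₂` is the complex conjugate of `mellin₁` with `f, g` exchanged (both sides are real).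
-/

open UpperHalfPlane MeasureTheory CongruenceSubgroup
open scoped MatrixGroups Modular ComplexConjugate

namespace Pool.Agent.H18.RS

lemma norm_ee (n : ℕ) (z : ℍ) : ‖ee n z‖ = Real.exp (-(2 * Real.pi * n * z.im)) := by
  unfold ee
  rw [Complex.norm_exp]
  congr 1
  simp [Complex.mul_re, Complex.mul_im]

lemma datum_summable {N : ℕ} {f : ℍ → ℂ} {a : ℕ → ℝ} (hf : Datum N f a) {y : ℝ} (hy : 0 < y) :
    Summable fun n : ℕ => |a n| * Real.exp (-(2 * Real.pi * n * y)) := by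
  have h := (hf.expansion ⟨(y : ℂ) * Complex.I, by simpa using hy⟩).summable.norm
  refine h.congr fun n => ?_
  rw [norm_mul, norm_ee]
  congr 1
  · simp
  · congr 3
    simp [UpperHalfPlane.im]

lemma datum_decay {N : ℕ} {f : ℍ → ℂ} {a : ℕ → ℝ} (hf : Datum N f a) :
    ∃ K : ℝ, 0 ≤ K ∧ ∀ z : ℍ, 1 ≤ z.im → ‖f z‖ ≤ K * Real.exp (-(2 * Real.pi * z.im)) := by
  have hs := datum_summable hf one_pos
  refine ⟨Real.exp (2 * Real.pi) * ∑' n : ℕ, |a n| * Real.exp (-(2 * Real.pi * n * 1)), ?_, ?_⟩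
  · have : 0 ≤ ∑' n : ℕ, |a n| * Real.exp (-(2 * Real.pi * n * 1)) :=
      tsum_nonneg fun n => by positivity
    positivity
  intro z hz
  have h1 := hf.expansion z
  have hz0 : 0 < z.im := z.im_pos
  have h2 : ‖f z‖ ≤ ∑' n : ℕ, |a n| * Real.exp (-(2 * Real.pi * n * z.im)) := by
    rw [← h1.tsum_eq]
    refine (norm_tsum_le_tsum_norm h1.summable.norm).trans (le_of_eq ?_)
    refine tsum_congr fun n => ?_
    rw [norm_mul, norm_ee]
    simp
  refine h2.trans ?_
  rw [mul_right_comm, ← tsum_mul_left]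
  refine Summable.tsum_le_tsum ?_ (datum_summable hf hz0) (hs.mul_left _)
  intro n
  rcases Nat.eq_zero_or_pos n with rfl | hn
  · rw [hf.zero]; simp
  have hn1 : (1 : ℝ) ≤ n := by exact_mod_cast hn
  rw [← Real.exp_add, mul_left_comm, ← Real.exp_add]
  refine mul_le_mul_of_nonneg_left ?_ (abs_nonneg _)
  apply Real.exp_le_exp.2
  have hpi := Real.pi_pos
  have : 0 ≤ 2 * Real.pi * ((n - 1) * (z.im - 1)) := by
    apply mul_nonneg (by positivity)
    exact mul_nonneg (by linarith) (by linarith)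
  nlinarith

lemma mulPt_im (q : ℕ) (hq : 0 < q) (z : ℍ) : (mulPt q hq z).im = q * z.im := by
  change ((q : ℂ) * (z : ℂ)).im = _
  rw [Complex.mul_im, Complex.natCast_re, Complex.natCast_im, zero_mul, add_zero]
  rfl

lemma Phi₁_exp {N q : ℕ} (hq : 0 < q) {f g : ℍ → ℂ} {a b : ℕ → ℝ} (hf : Datum N f a)
    (hg : Datum N g b) : ∃ K : ℝ, ∀ z : ℍ, ‖Phi₁ q hq f g z‖ ≤ K * Real.exp (-z.im) := by
  obtain ⟨C, hC⟩ := Phi_bdd hq hf hg
  obtain ⟨K, hK0, hK⟩ := datum_decay hf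
  obtain ⟨D, hD⟩ := hg.bound
  have hC0 : 0 ≤ C := (norm_nonneg _).trans (hC UpperHalfPlane.I).1
  have hD0 : 0 ≤ D := (mul_nonneg (UpperHalfPlane.I.im_pos.le) (norm_nonneg _)).trans
    (hD UpperHalfPlane.I)
  refine ⟨C * Real.exp 1 + K * D, ?_⟩
  intro z
  have hz0 : 0 < z.im := z.im_pos
  rcases le_total z.im 1 with h | h
  · have h1 : 1 ≤ Real.exp 1 * Real.exp (-z.im) := by
      rw [← Real.exp_add]; exact Real.one_le_exp (by linarith)
    have h2 : ‖Phi₁ q hq f g z‖ ≤ C := (hC z).1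
    have h3 : 0 ≤ K * D * Real.exp (-z.im) := by positivity
    nlinarith
  · have hq1 : (1 : ℝ) ≤ q := by exact_mod_cast hq
    have h1 := hK z h
    have h2 := hD (mulPt q hq z)
    rw [mulPt_im] at h2
    have h3 : ‖Phi₁ q hq f g z‖ = z.im ^ 2 * ‖f z‖ * ‖g (mulPt q hq z)‖ := by
      unfold Phi₁
      rw [norm_mul, norm_mul, norm_pow, RCLike.norm_conj]
      simp [abs_of_pos hz0]
    have h4 : z.im * ‖g (mulPt q hq z)‖ ≤ D := by
      refine le_trans ?_ h2
      have : 0 ≤ z.im * ‖g (mulPt q hq z)‖ := by positivity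
      nlinarith
    have h5 : z.im * Real.exp (-(2 * Real.pi * z.im)) ≤ Real.exp (-z.im) := by
      have h6 : z.im ≤ Real.exp (z.im) := (Real.add_one_le_exp z.im).trans' (by linarith)
      have h7 : Real.exp (-(2 * Real.pi * z.im)) ≤ Real.exp (-(2 * z.im)) := by
        apply Real.exp_le_exp.2
        have := Real.pi_gt_three
        nlinarith
      calc z.im * Real.exp (-(2 * Real.pi * z.im)) ≤ Real.exp z.im * Real.exp (-(2 * z.im)) :=
            mul_le_mul h6 h7 (Real.exp_pos _).le (Real.exp_pos _).le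
        _ = Real.exp (-z.im) := by rw [← Real.exp_add]; congr 1; ring
    rw [h3]
    calc z.im ^ 2 * ‖f z‖ * ‖g (mulPt q hq z)‖ = ‖f z‖ * z.im * (z.im * ‖g (mulPt q hq z)‖) := by
          ring
      _ ≤ (K * Real.exp (-(2 * Real.pi * z.im))) * z.im * D := by gcongr
      _ = K * D * (z.im * Real.exp (-(2 * Real.pi * z.im))) := by ring
      _ ≤ K * D * Real.exp (-z.im) := by gcongr
      _ ≤ (C * Real.exp 1 + K * D) * Real.exp (-z.im) := by
          have : 0 ≤ C * Real.exp 1 := by positivity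
          have := Real.exp_pos (-z.im)
          nlinarith

lemma integrable_Phi₁ {N q : ℕ} (hq : 0 < q) {f g : ℍ → ℂ} {a b : ℕ → ℝ} (hf : Datum N f a)
    (hg : Datum N g b) {σ : ℝ} (hσ : 1 < σ) :
    IntegrableOn (fun z : ℍ => Phi₁ q hq f g z * ((z.im ^ σ : ℝ) : ℂ)) strip := by
  obtain ⟨K, hK⟩ := Phi₁_exp hq hf hg
  refine integrable_strip (G := fun y => K * (Real.exp (-y) * y ^ σ)) ?_ ?_ ?_
  · have h := (Real.GammaIntegral_convergent (s := σ - 1) (by linarith)).const_mul K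
    refine IntegrableOn.congr_fun h ?_ measurableSet_Ioi
    intro y hy
    have hy0 : 0 < y := hy
    simp only
    have : y ^ (σ - 1 - 1) = y ^ σ / y ^ 2 := by
      rw [show σ - 1 - 1 = σ - (2 : ℕ) by push_cast; ring, Real.rpow_sub hy0, Real.rpow_natCast]
    rw [this]
    ring
  · refine Continuous.aestronglyMeasurable ?_
    refine (Phi_cont hq hf hg).1.mul (Complex.continuous_ofReal.comp ?_)
    exact UpperHalfPlane.continuous_im.rpow_const fun z => Or.inl z.im_pos.ne'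
  · intro z _
    rw [norm_mul]
    have : ‖((z.im ^ σ : ℝ) : ℂ)‖ = z.im ^ σ := by
      rw [Complex.norm_real, Real.norm_of_nonneg (Real.rpow_nonneg z.im_pos.le _)]
    rw [this]
    have h1 := hK z
    have h2 : 0 ≤ z.im ^ σ := Real.rpow_nonneg z.im_pos.le _
    nlinarith [mul_le_mul_of_nonneg_right h1 h2]

lemma ee_split (n : ℕ) {x y : ℝ} {z : ℍ} (hz : (z : ℂ) = x + y * Complex.I) :
    ee n z = ((Real.exp (-(2 * Real.pi * n * y)) : ℝ) : ℂ) *
      Complex.exp (2 * Real.pi * Complex.I * n * x) := by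
  unfold ee
  rw [Complex.ofReal_exp, ← Complex.exp_add, hz]
  congr 1
  push_cast
  linear_combination (2 * Real.pi * n * y : ℂ) * Complex.I_mul_I

lemma datum_fourier {N : ℕ} {f : ℍ → ℂ} {a : ℕ → ℝ} (hf : Datum N f a) {x y : ℝ} {z : ℍ}
    (hz : (z : ℂ) = x + y * Complex.I) :
    HasSum (fun n : ℕ => ((a n * Real.exp (-(2 * Real.pi * n * y)) : ℝ) : ℂ) *
      Complex.exp (2 * Real.pi * Complex.I * n * x)) (f z) := by
  have h := hf.expansion z
  convert h using 2 with n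
  rw [ee_split n hz]
  push_cast
  ring

lemma mul_injective {q : ℕ} (hq : 0 < q) : Function.Injective fun n : ℕ => q * n :=
  fun _ _ h => Nat.eq_of_mul_eq_mul_left hq h

lemma datum_fourier_mul {N q : ℕ} (hq : 0 < q) {g : ℍ → ℂ} {b : ℕ → ℝ} (hg : Datum N g b)
    {x y : ℝ} {z : ℍ} (hz : (z : ℂ) = x + y * Complex.I) :
    HasSum (fun m : ℕ => ((if q ∣ m then b (m / q) * Real.exp (-(2 * Real.pi * m * y)) else 0 : ℝ) : ℂ) *
      Complex.exp (2 * Real.pi * Complex.I * m * x)) (g (mulPt q hq z)) := by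
  rw [← (mul_injective hq).hasSum_iff]
  · have hz' : (mulPt q hq z : ℂ) = ((q * x : ℝ) : ℂ) + ((q * y : ℝ) : ℂ) * Complex.I := by
      change (q : ℂ) * (z : ℂ) = _
      rw [hz]; push_cast; ring
    have h := datum_fourier hg hz'
    convert h using 2 with n
    simp only [Function.comp_apply, dvd_mul_right, if_true, Nat.mul_div_cancel_left n hq]
    congr 2
    · congr 3
      push_cast
      ring
    · push_cast
      ring
  · intro m hm
    have : ¬ q ∣ m := by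
      rintro ⟨k, rfl⟩
      exact hm ⟨k, rfl⟩
    simp [this]

lemma inner_integral {N q : ℕ} (hq : 0 < q) {f g : ℍ → ℂ} {a b : ℕ → ℝ} (hf : Datum N f a)
    (hg : Datum N g b) {y : ℝ} (hy : 0 < y) (z : ℝ → ℍ)
    (hz : ∀ x : ℝ, (z x : ℂ) = x + y * Complex.I) :
    ∫ x in (0 : ℝ)..1, f (z x) * conj (g (mulPt q hq (z x))) =
      ((∑' n : ℕ, a (q * n) * b n * Real.exp (-(4 * Real.pi * q * n * y)) : ℝ) : ℂ) := by
  set u : ℕ → ℂ := fun n => ((a n * Real.exp (-(2 * Real.pi * n * y)) : ℝ) : ℂ) with hu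
  set v : ℕ → ℂ := fun m =>
    ((if q ∣ m then b (m / q) * Real.exp (-(2 * Real.pi * m * y)) else 0 : ℝ) : ℂ) with hv
  have hus : Summable fun n => ‖u n‖ := by
    refine (datum_summable hf hy).congr fun n => ?_
    rw [hu]
    simp only [Complex.norm_real, norm_mul, Real.norm_eq_abs, Real.abs_exp]
  have hvs : Summable fun n => ‖v n‖ := by
    rw [← (mul_injective hq).summable_iff]
    · refine (datum_summable hg (y := q * y) (by positivity)).congr fun n => ?_
      simp only [hv, Function.comp_apply, dvd_mul_right, if_true, Nat.mul_div_cancel_left n hq,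
        Complex.norm_real, Real.norm_eq_abs]
      rw [abs_mul, Real.abs_exp]
      congr 3
      push_cast
      ring
    · intro m hm
      have : ¬ q ∣ m := by
        rintro ⟨k, rfl⟩
        exact hm ⟨k, rfl⟩
      simp [hv, this]
  have key := parseval hus hvs
  have h1 : ∀ x : ℝ, f (z x) * conj (g (mulPt q hq (z x))) =
      (∑' n : ℕ, u n * Complex.exp (2 * Real.pi * Complex.I * n * x)) *
      conj (∑' n : ℕ, v n * Complex.exp (2 * Real.pi * Complex.I * n * x)) := by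
    intro x
    rw [(datum_fourier hf (hz x)).tsum_eq, (datum_fourier_mul hq hg (hz x)).tsum_eq]
  simp_rw [h1]
  rw [key, Complex.ofReal_tsum, ← (mul_injective hq).tsum_eq]
  · refine tsum_congr fun n => ?_
    simp only [hu, hv, dvd_mul_right, if_true, Nat.mul_div_cancel_left n hq, Complex.conj_ofReal]
    rw [← Complex.ofReal_mul]
    congr 1
    have : Real.exp (-(4 * Real.pi * q * n * y)) =
        Real.exp (-(2 * Real.pi * (q * n : ℕ) * y)) * Real.exp (-(2 * Real.pi * (q * n : ℕ) * y)) := by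
      rw [← Real.exp_add]
      congr 1
      push_cast
      ring
    rw [this]
    ring
  · intro m hm
    by_contra hcon
    have : ¬ q ∣ m := by
      rintro ⟨k, rfl⟩
      exact hcon ⟨k, rfl⟩
    apply hm
    simp [hv, this]

/-- summability of the Dirichlet series -/
lemma dir_summable {N q : ℕ} (hq : 0 < q) {f g : ℍ → ℂ} {a b : ℕ → ℝ} (hf : Datum N f a)
    (hg : Datum N g b) {σ : ℝ} (hσ : 1 < σ) :
    Summable fun n : ℕ => |a (q * n) * b n| * (n : ℝ) ^ (-(σ + 1)) := by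
  obtain ⟨B, hB⟩ := sq_sum_le hf
  obtain ⟨C, hC⟩ := dirichlet_le (fun n => sq_nonneg (a n)) (by simp [hf.zero]) hB
  obtain ⟨B', hB'⟩ := sq_sum_le hg
  obtain ⟨C', hC'⟩ := dirichlet_le (fun n => sq_nonneg (b n)) (by simp [hg.zero]) hB'
  have h1 := (hC (σ + 1) (by linarith)).1
  have h2 := (hC' (σ + 1) (by linarith)).1
  have h3 := h1.comp_injective (mul_injective hq)
  have h4 : Summable fun n : ℕ => (q : ℝ) ^ (σ + 1) * (a (q * n) ^ 2 * ((q * n : ℕ) : ℝ) ^ (-(σ + 1))) :=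
    h3.mul_left _
  refine Summable.of_nonneg_of_le (fun n => by positivity) ?_ (h4.add h2)
  intro n
  have hq0 : (0 : ℝ) < q := by exact_mod_cast hq
  have h5 : (q : ℝ) ^ (σ + 1) * (a (q * n) ^ 2 * ((q * n : ℕ) : ℝ) ^ (-(σ + 1))) =
      a (q * n) ^ 2 * (n : ℝ) ^ (-(σ + 1)) := by
    push_cast
    rw [Real.mul_rpow hq0.le (Nat.cast_nonneg n), Real.rpow_neg hq0.le]
    have : (q : ℝ) ^ (σ + 1) ≠ 0 := (Real.rpow_pos_of_pos hq0 _).ne'
    field_simp
  rw [h5, ← add_mul]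
  refine mul_le_mul_of_nonneg_right ?_ (Real.rpow_nonneg (Nat.cast_nonneg n) _)
  rw [abs_mul]
  have := sq_nonneg (|a (q * n)| - |b n|)
  have h6 := sq_abs (a (q * n))
  have h7 := sq_abs (b n)
  nlinarith [sq_nonneg (a (q * n)), sq_nonneg (b n)]

lemma gamma_int {σ c : ℝ} (hσ : 1 < σ) (hc : 0 < c) :
    IntegrableOn (fun y : ℝ => y ^ σ * Real.exp (-(c * y))) (Set.Ioi 0) ∧
    ∫ y in Set.Ioi (0 : ℝ), y ^ σ * Real.exp (-(c * y)) = Real.Gamma (σ + 1) * c ^ (-(σ + 1)) := by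
  constructor
  · have h := integrableOn_rpow_mul_exp_neg_mul_rpow (p := 1) (s := σ) (b := c) (by linarith)
      one_pos hc
    refine IntegrableOn.congr_fun h ?_ measurableSet_Ioi
    intro y _
    simp
  · have h := Real.integral_rpow_mul_exp_neg_mul_Ioi (a := σ + 1) (r := c) (by linarith) hc
    rw [add_sub_cancel_right] at h
    rw [h, Real.rpow_neg hc.le, one_div, Real.inv_rpow hc.le]
    ring

theorem mellin₁ {N q : ℕ} (hq : 0 < q) {f g : ℍ → ℂ} {a b : ℕ → ℝ} (hf : Datum N f a)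
    (hg : Datum N g b) {σ : ℝ} (hσ : 1 < σ) :
    IntegrableOn (fun z : ℍ => Phi₁ q hq f g z * ((z.im ^ σ : ℝ) : ℂ)) strip ∧
    ∫ z in strip, Phi₁ q hq f g z * ((z.im ^ σ : ℝ) : ℂ) =
      ((Real.Gamma (σ + 1) * (4 * Real.pi * q) ^ (-(σ + 1)) *
        ∑' n : ℕ, a (q * n) * b n * (n : ℝ) ^ (-(σ + 1)) : ℝ) : ℂ) := by
  have hint := integrable_Phi₁ hq hf hg hσ
  refine ⟨hint, ?_⟩
  have hq0 : (0 : ℝ) < q := by exact_mod_cast hq
  have hpi := Real.pi_pos
  set F : ℂ → ℂ := fun w => Phi₁ q hq f g (ofComplex w) * ((w.im ^ σ : ℝ) : ℂ) with hF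
  have hFz : ∀ z : ℍ, F z = Phi₁ q hq f g z * ((z.im ^ σ : ℝ) : ℂ) := by
    intro z
    rw [hF]
    simp only [ofComplex_apply]
    rfl
  have h1 : ∫ z in strip, Phi₁ q hq f g z * ((z.im ^ σ : ℝ) : ℂ) = ∫ z in strip, F (z : ℂ) := by
    simp_rw [hFz]
  rw [h1, integral_strip (by simpa only [hFz] using hint)]
  -- inner integral
  have h2 : ∀ y ∈ Set.Ioi (0 : ℝ), (∫ x in (0 : ℝ)..1, F (x + y * Complex.I)) / ((y ^ 2 : ℝ) : ℂ) =
      ((∑' n : ℕ, a (q * n) * b n * (y ^ σ * Real.exp (-(4 * Real.pi * q * n * y))) : ℝ) : ℂ) := by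
    intro y hy
    have hy0 : (0 : ℝ) < y := hy
    have him : ∀ x : ℝ, 0 < ((x : ℂ) + y * Complex.I).im := by
      intro x
      simpa using hy0
    set z : ℝ → ℍ := fun x => ⟨(x : ℂ) + y * Complex.I, him x⟩ with hzdef
    have hz : ∀ x : ℝ, (z x : ℂ) = x + y * Complex.I := fun x => rfl
    have hzim : ∀ x : ℝ, (z x).im = y := by
      intro x
      change ((x : ℂ) + y * Complex.I).im = y
      simp
    have h3 : ∀ x : ℝ, F (x + y * Complex.I) =
        (((y ^ 2 * y ^ σ : ℝ)) : ℂ) * (f (z x) * conj (g (mulPt q hq (z x)))) := by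
      intro x
      rw [← hz x, hFz, hzim x]
      unfold Phi₁
      rw [hzim x]
      push_cast
      ring
    simp_rw [h3]
    rw [intervalIntegral.integral_const_mul, inner_integral hq hf hg hy0 z hz,
      ← Complex.ofReal_mul, ← Complex.ofReal_div]
    congr 1
    have h4 : y ^ 2 * y ^ σ * (∑' n : ℕ, a (q * n) * b n * Real.exp (-(4 * Real.pi * q * n * y))) / y ^ 2
        = y ^ σ * ∑' n : ℕ, a (q * n) * b n * Real.exp (-(4 * Real.pi * q * n * y)) := by
      field_simp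
    rw [h4, ← tsum_mul_left]
    refine tsum_congr fun n => ?_
    ring
  rw [setIntegral_congr_fun measurableSet_Ioi h2, integral_complex_ofReal]
  congr 1
  -- term by term
  have hterm : ∀ n : ℕ, IntegrableOn (fun y : ℝ =>
      a (q * n) * b n * (y ^ σ * Real.exp (-(4 * Real.pi * q * n * y)))) (Set.Ioi 0) ∧
      (∫ y in Set.Ioi (0 : ℝ), a (q * n) * b n * (y ^ σ * Real.exp (-(4 * Real.pi * q * n * y)))) =
        Real.Gamma (σ + 1) * (4 * Real.pi * q) ^ (-(σ + 1)) *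
          (a (q * n) * b n * (n : ℝ) ^ (-(σ + 1))) ∧
      (∫ y in Set.Ioi (0 : ℝ), ‖a (q * n) * b n * (y ^ σ * Real.exp (-(4 * Real.pi * q * n * y)))‖) =
        Real.Gamma (σ + 1) * (4 * Real.pi * q) ^ (-(σ + 1)) *
          (|a (q * n) * b n| * (n : ℝ) ^ (-(σ + 1))) := by
    intro n
    rcases Nat.eq_zero_or_pos n with rfl | hn
    · simp [hf.zero]
    have hn0 : (0 : ℝ) < n := by exact_mod_cast hn
    have hc : 0 < 4 * Real.pi * q * n := by positivity
    obtain ⟨g1, g2⟩ := gamma_int hσ hc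
    have h5 : (4 * Real.pi * q * n) ^ (-(σ + 1)) = (4 * Real.pi * q) ^ (-(σ + 1)) *
        (n : ℝ) ^ (-(σ + 1)) := Real.mul_rpow (by positivity) hn0.le
    refine ⟨g1.const_mul _, ?_, ?_⟩
    · rw [integral_const_mul, g2, h5]
      ring
    · have h6 : ∀ y ∈ Set.Ioi (0 : ℝ), ‖a (q * n) * b n * (y ^ σ * Real.exp (-(4 * Real.pi * q * n * y)))‖
          = |a (q * n) * b n| * (y ^ σ * Real.exp (-(4 * Real.pi * q * n * y))) := by
        intro y hy
        have hy0 : (0 : ℝ) < y := hy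
        rw [norm_mul, Real.norm_eq_abs, Real.norm_of_nonneg (by positivity)]
      rw [setIntegral_congr_fun measurableSet_Ioi h6, integral_const_mul, g2, h5]
      ring
  have hsum : Summable fun n : ℕ => ∫ y in Set.Ioi (0 : ℝ),
      ‖a (q * n) * b n * (y ^ σ * Real.exp (-(4 * Real.pi * q * n * y)))‖ := by
    refine ((dir_summable hq hf hg hσ).mul_left
      (Real.Gamma (σ + 1) * (4 * Real.pi * q) ^ (-(σ + 1)))).congr fun n => ?_
    rw [(hterm n).2.2]
  have hHS := hasSum_integral_of_summable_integral_norm (fun n => (hterm n).1) hsum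
  rw [← hHS.tsum_eq, ← tsum_mul_left]
  exact tsum_congr fun n => (hterm n).2.1

theorem mellin₂ {N q : ℕ} (hq : 0 < q) {f g : ℍ → ℂ} {a b : ℕ → ℝ} (hf : Datum N f a)
    (hg : Datum N g b) {σ : ℝ} (hσ : 1 < σ) :
    IntegrableOn (fun z : ℍ => Phi₂ q hq f g z * ((z.im ^ σ : ℝ) : ℂ)) strip ∧
    ∫ z in strip, Phi₂ q hq f g z * ((z.im ^ σ : ℝ) : ℂ) =
      ((Real.Gamma (σ + 1) * (4 * Real.pi * q) ^ (-(σ + 1)) *
        ∑' n : ℕ, a n * b (q * n) * (n : ℝ) ^ (-(σ + 1)) : ℝ) : ℂ) := by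
  obtain ⟨h1, h2⟩ := mellin₁ hq hg hf hσ
  have h3 : ∀ z : ℍ, Phi₂ q hq f g z * ((z.im ^ σ : ℝ) : ℂ) =
      conj (Phi₁ q hq g f z * ((z.im ^ σ : ℝ) : ℂ)) := by
    intro z
    unfold Phi₁ Phi₂
    simp only [map_mul, map_pow, Complex.conj_ofReal, Complex.conj_conj]
    ring
  constructor
  · simp_rw [h3]
    have h4 := (Complex.conjCLE : ℂ →L[ℝ] ℂ).integrable_comp (μ := volume.restrict strip) h1
    exact h4
  · simp_rw [h3]
    have h5 : ∑' n : ℕ, b (q * n) * a n * (n : ℝ) ^ (-(σ + 1)) =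
        ∑' n : ℕ, a n * b (q * n) * (n : ℝ) ^ (-(σ + 1)) := tsum_congr fun n => by ring
    rw [integral_conj, h2, Complex.conj_ofReal, h5]

end Pool.Agent.H18.RS
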