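import Mathlib
import Pool.Agent.H18.RS.Phi

/-!
# Job RS-23: the involution

Choose integers `w y₀` with `q w - N y₀ = 1` (Bezout; `q` prime, `q ∤ N`). `W = [[q, y₀], [q N, q w]]`, `det W = q`
(as an element of `GL (Fin 2) ℝ`: `Matrix.GeneralLinearGroup.mkOfDetNeZero`). `M = N q`.
* `W • z = L • (q z + y₀)` with `L = [[1, 0], [N, 1]] ∈ Γ₀(N)`; `N (q z + y₀) + 1 = q (N z + w)`, so
  `f (W • z) = q² (N z + w)² f (q z + y₀) = q² (N z + w)² f (q z)` (`T^{y₀} ∈ Γ₀(N)`).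
* `q (W • z) = γ' • z` with `γ' = [[q, y₀], [N, w]] ∈ Γ₀(N)` (determinant `1`), so `g (q (W • z)) = (N z + w)² g z`.
* `Im (W • z) = y / (q |N z + w|²)`. Hence `Phi₁ (W • z) = Phi₂ z`.
  (Prove the identities of points of `ℍ` with `UpperHalfPlane.ext`, `UpperHalfPlane.coe_smul...`, `field_simp`.)
* `e γ = W⁻¹ γ W`, inverse `W γ W⁻¹`. For `γ = [[a, b], [M c, d]]`:
  `W⁻¹ γ W = [[w(aq+bqN) - y₀(Mc+dN), w a y₀ + b q w² - y₀(N c y₀ + d w)], [-N(aq+bqN)+(Mcq+dqN), -N(a y₀+b q w)+(M c y₀+d q w)]]`,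
  `W γ W⁻¹ = [[(qa+y₀Mc)w - (qb+y₀d)N, -a y₀ - y₀² N c + q b + y₀ d], [(qNa+qwMc)w - (qNb+qwd)N, -(qNa+qwMc)y₀/1... ]]`
  with lower right entry `-N a y₀ - w M c y₀ + q N b + q w d`; all integral; mod `M = N q` (check mod `N` and mod `q`, coprime, using
  `q w = 1` mod `N` and `-N y₀ = 1` mod `q`) the diagonal entries are `1` and the lower left entry is `0`: `Gamma1_mem`.
  Equality of the actions: it is enough that the products of the real matrices agree (`mul_smul`).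
-/

open UpperHalfPlane MeasureTheory CongruenceSubgroup
open scoped MatrixGroups Modular ComplexConjugate

namespace Pool.Agent.H18.RS

/-- the matrix `W` -/
noncomputable def wmat (N q : ℕ) (w y : ℤ) (h : (q : ℤ) * w - N * y = 1) (hq : 0 < q) :
    GL (Fin 2) ℝ :=
  Matrix.GeneralLinearGroup.mkOfDetNeZero !![(q : ℝ), (y : ℝ); (q : ℝ) * N, (q : ℝ) * w] (by
    have h' : (q : ℝ) * w - N * y = 1 := by exact_mod_cast h
    have hq' : (0 : ℝ) < q := by exact_mod_cast hq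
    have : Matrix.det !![(q : ℝ), (y : ℝ); (q : ℝ) * N, (q : ℝ) * w] = q := by
      rw [Matrix.det_fin_two_of]
      linear_combination (q : ℝ) * h'
    rw [this]
    exact hq'.ne')

/-- an element of `Γ₁(M)` by its entries -/
theorem exists_gamma1 {M : ℕ} {a b c d : ℤ} (hdet : a * d - b * c = 1)
    (ha : ∃ k : ℤ, a = 1 + M * k) (hd : ∃ k : ℤ, d = 1 + M * k) (hc : ∃ k : ℤ, c = M * k) :
    ∃ γ : SL(2, ℤ), γ ∈ Gamma1 M ∧ γ 0 0 = a ∧ γ 0 1 = b ∧ γ 1 0 = c ∧ γ 1 1 = d := by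
  obtain ⟨k1, rfl⟩ := ha
  obtain ⟨k2, rfl⟩ := hd
  obtain ⟨k3, rfl⟩ := hc
  let g : SL(2, ℤ) := ⟨!![1 + (M : ℤ) * k1, b; (M : ℤ) * k3, 1 + (M : ℤ) * k2], by
    rw [Matrix.det_fin_two_of]; exact hdet⟩
  refine ⟨g, (Gamma1_mem M g).2 ⟨?_, ?_, ?_⟩, rfl, rfl, rfl, rfl⟩
  · change ((1 + (M : ℤ) * k1 : ℤ) : ZMod M) = 1
    simp
  · change ((1 + (M : ℤ) * k2 : ℤ) : ZMod M) = 1
    simp
  · change (((M : ℤ) * k3 : ℤ) : ZMod M) = 0
    simp

theorem gamma1_entries {M : ℕ} {γ : SL(2, ℤ)} (hγ : γ ∈ Gamma1 M) :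
    ∃ k1 k2 k3 : ℤ, γ 0 0 = 1 + M * k1 ∧ γ 1 1 = 1 + M * k2 ∧ γ 1 0 = M * k3 := by
  rw [Gamma1_mem] at hγ
  obtain ⟨h1, h2, h3⟩ := hγ
  have e1 : (M : ℤ) ∣ γ 0 0 - 1 := by
    rw [← ZMod.intCast_zmod_eq_zero_iff_dvd]
    push_cast
    rw [h1, sub_self]
  have e2 : (M : ℤ) ∣ γ 1 1 - 1 := by
    rw [← ZMod.intCast_zmod_eq_zero_iff_dvd]
    push_cast
    rw [h2, sub_self]
  have e3 : (M : ℤ) ∣ γ 1 0 := by
    rw [← ZMod.intCast_zmod_eq_zero_iff_dvd]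
    exact h3
  obtain ⟨k1, h1⟩ := e1
  obtain ⟨k2, h2⟩ := e2
  obtain ⟨k3, h3⟩ := e3
  exact ⟨k1, k2, k3, by linarith, by linarith, h3⟩

/-- two matrices of `GL (Fin 2) ℝ` with the same entries agree -/
theorem gl_ext {A B : GL (Fin 2) ℝ} (h00 : A 0 0 = B 0 0) (h01 : A 0 1 = B 0 1)
    (h10 : A 1 0 = B 1 0) (h11 : A 1 1 = B 1 1) : A = B := by
  apply Units.ext
  ext i j
  fin_cases i <;> fin_cases j
  · exact h00
  · exact h01
  · exact h10
  · exact h11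

/-- the relation `γ W = W δ` in terms of entries -/
theorem intertwine {N q : ℕ} {w y : ℤ} (h : (q : ℤ) * w - N * y = 1) (hq : 0 < q)
    {γ δ : SL(2, ℤ)}
    (h00 : γ 0 0 * q + γ 0 1 * (q * N) = q * δ 0 0 + y * δ 1 0)
    (h01 : γ 0 0 * y + γ 0 1 * (q * w) = q * δ 0 1 + y * δ 1 1)
    (h10 : γ 1 0 * q + γ 1 1 * (q * N) = q * N * δ 0 0 + q * w * δ 1 0)
    (h11 : γ 1 0 * y + γ 1 1 * (q * w) = q * N * δ 0 1 + q * w * δ 1 1) :
    Matrix.SpecialLinearGroup.mapGL ℝ γ * wmat N q w y h hq =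
      wmat N q w y h hq * Matrix.SpecialLinearGroup.mapGL ℝ δ := by
  apply gl_ext
  · simp [wmat, Matrix.mul_apply, Fin.sum_univ_two]
    exact_mod_cast h00
  · simp [wmat, Matrix.mul_apply, Fin.sum_univ_two]
    exact_mod_cast h01
  · simp [wmat, Matrix.mul_apply, Fin.sum_univ_two]
    exact_mod_cast h10
  · simp [wmat, Matrix.mul_apply, Fin.sum_univ_two]
    exact_mod_cast h11

theorem exists_fwd {N q : ℕ} {w y : ℤ} (h : (q : ℤ) * w - N * y = 1) (hq : 0 < q)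
    (γ : SL(2, ℤ)) (hγ : γ ∈ Gamma1 (N * q)) :
    ∃ δ : SL(2, ℤ), δ ∈ Gamma1 (N * q) ∧
      Matrix.SpecialLinearGroup.mapGL ℝ γ * wmat N q w y h hq =
        wmat N q w y h hq * Matrix.SpecialLinearGroup.mapGL ℝ δ := by
  obtain ⟨k1, k2, k3, e1, e2, e3⟩ := gamma1_entries hγ
  have hdet : γ 0 0 * γ 1 1 - γ 0 1 * γ 1 0 = 1 := by
    rw [← Matrix.det_fin_two]
    exact γ.det_coe
  obtain ⟨δ, hδ, d00, d01, d10, d11⟩ := exists_gamma1 (M := N * q)
    (a := w * q * (γ 0 0 + γ 0 1 * N) - y * (γ 1 0 + γ 1 1 * N))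
    (b := w * γ 0 0 * y + γ 0 1 * q * w ^ 2 - y * (N * k3 * y + γ 1 1 * w))
    (c := q * N * (- γ 0 0 - γ 0 1 * N + q * k3 + γ 1 1))
    (d := - N * γ 0 0 * y - N * γ 0 1 * q * w + γ 1 0 * y + γ 1 1 * q * w)
    (by
      rw [e3] at hdet ⊢
      push_cast at hdet ⊢
      linear_combination ((q : ℤ) * w - N * y) ^ 2 * hdet + ((q : ℤ) * w - N * y + 1) * h)
    ⟨w * q * k1 + w * γ 0 1 - y * k3 - y * N * k2, by
      rw [e1, e2, e3]
      push_cast
      linear_combination h⟩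
    ⟨- N * k1 * y - γ 0 1 * w + k3 * y + k2 * q * w, by
      rw [e1, e2, e3]
      push_cast
      linear_combination h⟩
    ⟨- γ 0 0 - γ 0 1 * N + q * k3 + γ 1 1, by
      push_cast
      ring⟩
  refine ⟨δ, hδ, intertwine h hq ?_ ?_ ?_ ?_⟩
  · rw [d00, d10, e3]
    push_cast
    linear_combination (-(γ 0 0 * q + γ 0 1 * (q * N))) * h
  · rw [d01, d11, e3]
    push_cast
    linear_combination (-(γ 0 0 * y + γ 0 1 * (q * w))) * h
  · rw [d00, d10, e3]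
    push_cast
    linear_combination (-((N * q * k3) * q + γ 1 1 * (q * N))) * h
  · rw [d01, d11, e3]
    push_cast
    linear_combination (-((N * q * k3) * y + γ 1 1 * (q * w))) * h

theorem exists_bwd {N q : ℕ} {w y : ℤ} (h : (q : ℤ) * w - N * y = 1) (hq : 0 < q)
    (δ : SL(2, ℤ)) (hδ : δ ∈ Gamma1 (N * q)) :
    ∃ γ : SL(2, ℤ), γ ∈ Gamma1 (N * q) ∧
      Matrix.SpecialLinearGroup.mapGL ℝ γ * wmat N q w y h hq =
        wmat N q w y h hq * Matrix.SpecialLinearGroup.mapGL ℝ δ := by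
  obtain ⟨k1, k2, k3, e1, e2, e3⟩ := gamma1_entries hδ
  have hdet : δ 0 0 * δ 1 1 - δ 0 1 * δ 1 0 = 1 := by
    rw [← Matrix.det_fin_two]
    exact δ.det_coe
  obtain ⟨γ, hγ, d00, d01, d10, d11⟩ := exists_gamma1 (M := N * q)
    (a := w * (q * δ 0 0 + y * δ 1 0) - N * (q * δ 0 1 + y * δ 1 1))
    (b := - y * δ 0 0 - y ^ 2 * N * k3 + q * δ 0 1 + y * δ 1 1)
    (c := N * q * (w * δ 0 0 + q * w ^ 2 * k3 - N * δ 0 1 - w * δ 1 1))
    (d := - y * N * δ 0 0 - y * w * δ 1 0 + q * N * δ 0 1 + q * w * δ 1 1)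
    (by
      rw [e3] at hdet ⊢
      push_cast at hdet ⊢
      linear_combination ((q : ℤ) * w - N * y) ^ 2 * hdet + ((q : ℤ) * w - N * y + 1) * h)
    ⟨w * q * k1 + w * y * k3 - δ 0 1 - N * y * k2, by
      rw [e1, e2, e3]
      push_cast
      linear_combination h⟩
    ⟨- y * N * k1 - y * w * k3 + δ 0 1 + k2 * q * w, by
      rw [e1, e2, e3]
      push_cast
      linear_combination h⟩
    ⟨w * δ 0 0 + q * w ^ 2 * k3 - N * δ 0 1 - w * δ 1 1, by
      push_cast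
      ring⟩
  refine ⟨γ, hγ, intertwine h hq ?_ ?_ ?_ ?_⟩
  · rw [d00, d01, e3]
    push_cast
    linear_combination (q * δ 0 0 + y * (N * q * k3)) * h
  · rw [d00, d01, e3]
    push_cast
    linear_combination (q * δ 0 1 + y * δ 1 1) * h
  · rw [d10, d11, e3]
    push_cast
    linear_combination (q * N * δ 0 0 + q * w * (N * q * k3)) * h
  · rw [d10, d11, e3]
    push_cast
    linear_combination (q * N * δ 0 1 + q * w * δ 1 1) * h

theorem wmat_det {N q : ℕ} {w y : ℤ} (h : (q : ℤ) * w - N * y = 1) (hq : 0 < q) :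
    (wmat N q w y h hq).det.val = q := by
  have h' : (q : ℝ) * w - N * y = 1 := by exact_mod_cast h
  have e : (wmat N q w y h hq).det.val =
      Matrix.det !![(q : ℝ), (y : ℝ); (q : ℝ) * N, (q : ℝ) * w] := rfl
  rw [e, Matrix.det_fin_two_of]
  linear_combination (q : ℝ) * h'

theorem wmat_num {N q : ℕ} {w y : ℤ} (h : (q : ℤ) * w - N * y = 1) (hq : 0 < q) (z : ℂ) :
    num (wmat N q w y h hq) z = q * z + y := by
  simp [num, wmat]

theorem wmat_denom {N q : ℕ} {w y : ℤ} (h : (q : ℤ) * w - N * y = 1) (hq : 0 < q) (z : ℂ) :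
    denom (wmat N q w y h hq) z = q * (N * z + w) := by
  simp [denom, wmat]
  ring

theorem exists_gamma0 {N : ℕ} {a b c d : ℤ} (hdet : a * d - b * c = 1)
    (hc : ∃ k : ℤ, c = N * k) :
    ∃ γ : SL(2, ℤ), γ ∈ Gamma0 N ∧ γ 0 0 = a ∧ γ 0 1 = b ∧ γ 1 0 = c ∧ γ 1 1 = d := by
  obtain ⟨k3, rfl⟩ := hc
  let g : SL(2, ℤ) := ⟨!![a, b; (N : ℤ) * k3, d], by
    rw [Matrix.det_fin_two_of]; exact hdet⟩
  refine ⟨g, (Gamma0_mem).2 ?_, rfl, rfl, rfl, rfl⟩
  change (((N : ℤ) * k3 : ℤ) : ZMod N) = 0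
  simp

theorem wmat_smul {N q : ℕ} {w y : ℤ} (h : (q : ℤ) * w - N * y = 1) (hq : 0 < q) {f g : ℍ → ℂ}
    {a b : ℕ → ℝ} (hf : Datum N f a) (hg : Datum N g b) (z : ℍ) :
    Phi₁ q hq f g (wmat N q w y h hq • z) = Phi₂ q hq f g z := by
  have hq' : (q : ℂ) ≠ 0 := by exact_mod_cast hq.ne'
  have hz : (z : ℂ).im ≠ 0 := z.im_ne_zero
  have hdpos : 0 < (wmat N q w y h hq).det.val := by
    rw [wmat_det]
    exact_mod_cast hq
  have hD : ((N : ℂ) * z + w) ≠ 0 := by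
    have h1 := denom_ne_zero (wmat N q w y h hq) z
    rw [wmat_denom] at h1
    exact right_ne_zero_of_mul h1
  have hcoe : ((wmat N q w y h hq • z : ℍ) : ℂ) = (q * z + y) / (q * (N * z + w)) := by
    rw [coe_smul_of_det_pos hdpos, wmat_num, wmat_denom]
  -- the two elements of `Γ₀(N)`
  obtain ⟨L, hL, l00, l01, l10, l11⟩ := exists_gamma0 (N := N) (a := 1) (b := y) (c := N)
    (d := q * w) (by linear_combination h) ⟨1, by ring⟩
  obtain ⟨G, hG, g00, g01, g10, g11⟩ := exists_gamma0 (N := N) (a := q) (b := y) (c := N)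
    (d := w) (by linear_combination h) ⟨1, by ring⟩
  have e1 : wmat N q w y h hq • z = L • mulPt q hq z := by
    apply UpperHalfPlane.ext
    rw [hcoe, coe_specialLinearGroup_apply, l00, l01, l10, l11]
    simp only [mulPt, algebraMap_int_eq, eq_intCast]
    push_cast
    congr 1 <;> ring
  have e2 : mulPt q hq (wmat N q w y h hq • z) = G • z := by
    apply UpperHalfPlane.ext
    rw [coe_specialLinearGroup_apply, g00, g01, g10, g11]
    simp only [mulPt, algebraMap_int_eq, eq_intCast]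
    rw [hcoe]
    push_cast
    field_simp
  have hf1 : f (wmat N q w y h hq • z) = (q * (N * z + w)) ^ 2 * f (mulPt q hq z) := by
    rw [e1, hf.modular L hL, l10, l11]
    simp only [mulPt]
    push_cast
    ring
  have hg1 : g (mulPt q hq (wmat N q w y h hq • z)) = (N * z + w) ^ 2 * g z := by
    rw [e2, hg.modular G hG, g10, g11]
    push_cast
    ring
  have him : (((wmat N q w y h hq • z : ℍ).im : ℝ) : ℂ) =
      z.im / (q * (((N : ℂ) * z + w) * conj ((N : ℂ) * z + w))) := by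
    rw [UpperHalfPlane.im_smul_eq_div_normSq, wmat_det, wmat_denom, Complex.mul_conj,
      Complex.normSq_mul, Complex.normSq_natCast]
    have : |(q : ℝ)| = q := abs_of_nonneg (Nat.cast_nonneg _)
    rw [this]
    have hn : (Complex.normSq ((N : ℂ) * z + w) : ℂ) ≠ 0 := by
      exact_mod_cast (Complex.normSq_pos.2 hD).ne'
    push_cast
    field_simp
  have hcD : conj ((N : ℂ) * z + w) ≠ 0 := by
    rw [Ne, map_eq_zero]
    exact hD
  unfold Phi₁ Phi₂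
  rw [hf1, hg1, him, map_mul, map_pow]
  field_simp

theorem exists_W {N q : ℕ} (hN : 0 < N) (hq : q.Prime) (hqN : ¬ q ∣ N) {f g : ℍ → ℂ}
    {a b : ℕ → ℝ} (hf : Datum N f a) (hg : Datum N g b) :
    ∃ (W : GL (Fin 2) ℝ) (e : Gamma1 (N * q) ≃ Gamma1 (N * q)),
      (∀ (γ : Gamma1 (N * q)) (z : ℍ), (γ : SL(2, ℤ)) • (W • z) = W • ((e γ : SL(2, ℤ)) • z)) ∧
      ∀ z : ℍ, Phi₁ q hq.pos f g (W • z) = Phi₂ q hq.pos f g z := by
  obtain ⟨w, y, h⟩ : ∃ w y : ℤ, (q : ℤ) * w - N * y = 1 := by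
    have h1 : Nat.Coprime q N := (Nat.Prime.coprime_iff_not_dvd hq).2 hqN
    obtain ⟨s, t, hst⟩ := Nat.isCoprime_iff_coprime.2 h1
    exact ⟨s, -t, by linear_combination hst⟩
  have key : ∀ γ : Gamma1 (N * q), ∃ δ : Gamma1 (N * q),
      Matrix.SpecialLinearGroup.mapGL ℝ (γ : SL(2, ℤ)) * wmat N q w y h hq.pos =
        wmat N q w y h hq.pos * Matrix.SpecialLinearGroup.mapGL ℝ (δ : SL(2, ℤ)) := by
    intro γ
    obtain ⟨δ, hδ, e⟩ := exists_fwd h hq.pos γ.1 γ.2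
    exact ⟨⟨δ, hδ⟩, e⟩
  choose φ hφ using key
  have hinj : Function.Injective φ := by
    intro γ₁ γ₂ h12
    have h1 := hφ γ₁
    rw [h12, ← hφ γ₂] at h1
    have h2 := mul_right_cancel h1
    exact Subtype.ext (Matrix.SpecialLinearGroup.mapGL_injective h2)
  have hsurj : Function.Surjective φ := by
    intro δ
    obtain ⟨γ, hγ, e⟩ := exists_bwd h hq.pos δ.1 δ.2
    refine ⟨⟨γ, hγ⟩, ?_⟩
    have h1 := hφ ⟨γ, hγ⟩
    rw [e] at h1
    have h2 := mul_left_cancel h1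
    exact Subtype.ext (Matrix.SpecialLinearGroup.mapGL_injective h2).symm
  refine ⟨wmat N q w y h hq.pos, Equiv.ofBijective φ ⟨hinj, hsurj⟩, ?_, ?_⟩
  · intro γ z
    have h1 := hφ γ
    change Matrix.SpecialLinearGroup.mapGL ℝ (γ : SL(2, ℤ)) • (wmat N q w y h hq.pos • z) =
      wmat N q w y h hq.pos • (Matrix.SpecialLinearGroup.mapGL ℝ (φ γ : SL(2, ℤ)) • z)
    rw [← mul_smul, ← mul_smul, h1]
  · intro z
    exact wmat_smul h hq.pos hf hg z

end Pool.Agent.H18.RS
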