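import Mathlib
import Pool.Agent.H18.RS.Bounded
import Pool.Agent.H18.RS.WMap
import Pool.Agent.H18.RS.MeanEq
import Pool.Agent.H18.RS.Mellin

/-!
# `B(s) - D(s) = O(1)` (job RS-27)
-/

open UpperHalfPlane MeasureTheory CongruenceSubgroup
open scoped MatrixGroups Modular ComplexConjugate

namespace Pool.Agent.H18.RS

lemma rowFun_sub (M : ℕ) (Φ Ψ : ℍ → ℂ) (r : ZMod M × ZMod M) (z : ℍ) :
    rowFun M (fun w => Φ w - Ψ w) r z = rowFun M Φ r z - rowFun M Ψ r z := by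
  unfold rowFun
  split_ifs <;> simp

lemma continuous_smul_SL (γ : SL(2, ℤ)) : Continuous fun z : ℍ => γ • z := by
  simp only [ModularGroup.sl_moeb]
  exact continuous_const_smul _

lemma rowFun_cont {M : ℕ} {Φ : ℍ → ℂ} (hΦ : Continuous Φ) (r : ZMod M × ZMod M) :
    Continuous (rowFun M Φ r) := by
  unfold rowFun
  split_ifs
  · exact hΦ.comp (continuous_smul_SL _)
  · exact continuous_const

lemma rowFun_le {M : ℕ} {Φ : ℍ → ℂ} {C : ℝ} (hC : ∀ z, ‖Φ z‖ ≤ C) (r : ZMod M × ZMod M) (z : ℍ) :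
    ‖rowFun M Φ r z‖ ≤ C := by
  unfold rowFun
  split_ifs
  · exact hC _
  · rw [norm_zero]
    exact (norm_nonneg _).trans (hC z)

lemma rowFun_integrable {M : ℕ} [NeZero M] {Φ : ℍ → ℂ} (hΦ : Continuous Φ) {C : ℝ}
    (hC : ∀ z, ‖Φ z‖ ≤ C) :
    IntegrableOn (fun z => ∑ r : ZMod M × ZMod M, rowFun M Φ r z) 𝒟 := by
  refine integrable_finsetSum _ fun r _ => ?_
  refine Measure.integrableOn_of_bounded volume_fd.ne
    (rowFun_cont hΦ r).aestronglyMeasurable (M := C) ?_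
  exact Filter.Eventually.of_forall fun z => rowFun_le hC r z

theorem orth {N q : ℕ} (hN : 0 < N) (hq : q.Prime) (hqN : ¬ q ∣ N) {f g : ℍ → ℂ} {a b : ℕ → ℝ}
    (hf : Datum N f a) (hg : Datum N g b) :
    ∃ C : ℝ, ∀ s : ℝ, 2 < s → s ≤ 3 → |(∑' n : ℕ, a (q * n) * b n * (n : ℝ) ^ (-s)) -
      ∑' n : ℕ, a n * b (q * n) * (n : ℝ) ^ (-s)| ≤ C := by
  have hM : 1 < N * q := lt_of_lt_of_le hq.one_lt (Nat.le_mul_of_pos_left q hN)
  have : NeZero (N * q) := ⟨by omega⟩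
  obtain ⟨hc1, hc2⟩ := Phi_cont hq.pos hf hg
  obtain ⟨B, hB⟩ := Phi_bdd hq.pos hf hg
  obtain ⟨B', hB'⟩ := Phi_decay hq.pos hf hg
  have hinv := Phi_inv hq.pos hf hg
  obtain ⟨W, e, he, hW⟩ := exists_W hN hq hqN hf hg
  have hG1 : ∀ γ ∈ Gamma1 (N * q), γ ∈ Gamma0 (N * q) := fun γ h => Gamma1_in_Gamma0 _ h
  have hmean := mean_eq (M := N * q) hc1 hc2 (fun γ h z => (hinv γ (hG1 γ h) z).1)
    (fun γ h z => (hinv γ (hG1 γ h) z).2) ⟨B, fun z => (hB z).1⟩ ⟨B, fun z => (hB z).2⟩ W e he hW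
  obtain ⟨C, hC⟩ := rs_bounded (M := N * q) hM
    (Φ := fun z => Phi₁ q hq.pos f g z - Phi₂ q hq.pos f g z) (hc1.sub hc2)
    (fun γ h z => by rw [(hinv γ h z).1, (hinv γ h z).2])
    ⟨B' + B', fun γ z hz => by
      have h1 := norm_sub_le (Phi₁ q hq.pos f g (γ • z)) (Phi₂ q hq.pos f g (γ • z))
      have h2 : 0 ≤ z.im ^ 4 := pow_nonneg z.im_pos.le _
      have h3 := mul_le_mul_of_nonneg_right h1 h2
      have h4 := hB' γ z hz
      linarith [h4.1, h4.2]⟩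
    (by
      have h1 : ∀ z, ∑ r : ZMod (N * q) × ZMod (N * q),
          rowFun (N * q) (fun z => Phi₁ q hq.pos f g z - Phi₂ q hq.pos f g z) r z =
          ∑ r : ZMod (N * q) × ZMod (N * q), rowFun (N * q) (Phi₁ q hq.pos f g) r z -
          ∑ r : ZMod (N * q) × ZMod (N * q), rowFun (N * q) (Phi₂ q hq.pos f g) r z := by
        intro z
        rw [← Finset.sum_sub_distrib]
        exact Finset.sum_congr rfl fun r _ => rowFun_sub _ _ _ _ _
      simp_rw [h1]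
      rw [integral_sub (rowFun_integrable hc1 fun z => (hB z).1)
        (rowFun_integrable hc2 fun z => (hB z).2), hmean, sub_self])
  have hq0 : (0 : ℝ) < 4 * Real.pi * q := by
    have : (0 : ℝ) < q := Nat.cast_pos.mpr hq.pos
    positivity
  have hq1 : (1 : ℝ) ≤ 4 * Real.pi * q := by
    have h1 : (1 : ℝ) ≤ q := by exact_mod_cast hq.one_lt.le
    nlinarith [Real.pi_gt_three]
  refine ⟨C * (4 * Real.pi * q) ^ (3 : ℝ), fun s hs1 hs2 => ?_⟩
  have h1 := hC (s - 1) (by linarith) (by linarith)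
  obtain ⟨i1, m1⟩ := mellin₁ hq.pos hf hg (show 1 < s - 1 by linarith)
  obtain ⟨i2, m2⟩ := mellin₂ hq.pos hf hg (show 1 < s - 1 by linarith)
  have h2 : ∫ z in strip, (Phi₁ q hq.pos f g z - Phi₂ q hq.pos f g z) * ((z.im ^ (s - 1) : ℝ) : ℂ) =
      ((Real.Gamma s * (4 * Real.pi * q) ^ (-s) *
        ((∑' n : ℕ, a (q * n) * b n * (n : ℝ) ^ (-s)) -
          ∑' n : ℕ, a n * b (q * n) * (n : ℝ) ^ (-s)) : ℝ) : ℂ) := by
    simp_rw [sub_mul]
    rw [integral_sub i1 i2, m1, m2]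
    simp only [sub_add_cancel]
    rw [← Complex.ofReal_sub, mul_sub]
  rw [h2, Complex.norm_real, Real.norm_eq_abs, abs_mul] at h1
  set Δ := (∑' n : ℕ, a (q * n) * b n * (n : ℝ) ^ (-s)) -
    ∑' n : ℕ, a n * b (q * n) * (n : ℝ) ^ (-s) with hΔ
  have hG : 1 ≤ Real.Gamma s := by
    have h3 : Real.Gamma 2 ≤ Real.Gamma s :=
      Real.Gamma_strictMonoOn_Ici.monotoneOn (Set.mem_Ici.mpr (by norm_num))
        (Set.mem_Ici.mpr (by linarith)) hs1.le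
    rw [Real.Gamma_two] at h3
    exact h3
  have h5 : (4 * Real.pi * q) ^ (-(3 : ℝ)) ≤ Real.Gamma s * (4 * Real.pi * q) ^ (-s) := by
    have h6 : (4 * Real.pi * q) ^ (-(3 : ℝ)) ≤ (4 * Real.pi * q) ^ (-s) :=
      Real.rpow_le_rpow_of_exponent_le hq1 (by linarith)
    have h7 : 0 < (4 * Real.pi * q) ^ (-s) := Real.rpow_pos_of_pos hq0 _
    nlinarith
  have h8 : 0 < (4 * Real.pi * q) ^ (-(3 : ℝ)) := Real.rpow_pos_of_pos hq0 _
  rw [abs_of_pos (h8.trans_le h5)] at h1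
  have h9 : (4 * Real.pi * q) ^ (-(3 : ℝ)) * |Δ| ≤ C :=
    (mul_le_mul_of_nonneg_right h5 (abs_nonneg _)).trans h1
  rw [Real.rpow_neg hq0.le, inv_mul_le_iff₀ (Real.rpow_pos_of_pos hq0 _)] at h9
  linarith

end Pool.Agent.H18.RS
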