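import Mathlib
import Pool.Agent.H18.RS.Mult

/-!
# Job RS-10: the twisted series

`A = ∑ a n b n n^(-s)`, `B = ∑ a (q n) b n n^(-s)`, `D = ∑ a n b (q n) n^(-s)`. The relation at `q` (`q ∤ N₁`):
`a (q n) = a q a n - (if q ∣ n then q a (n / q) else 0)`. The sum of the second part over the multiples `n = q m` is
`q ∑ a m b (q m) (q m)^(-s) = q^(1-s) D`. So `B = a q A - q^(1-s) D`, and in the same way `D = b q A - q^(1-s) B`;
subtract. Summability: everything by `|x y| ≤ (x² + y²)/2` from `hsa`, `hsb` (e.g. `∑ b (q n)² n^(-s) =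
q^s ∑ b (q n)² (q n)^(-s)` is a sub-series); the term `n = 0` vanishes (`a 0 = 0`).
-/

open UpperHalfPlane MeasureTheory CongruenceSubgroup
open scoped MatrixGroups Modular ComplexConjugate

namespace Pool.Agent.H18.RS

lemma summable_mul_of_sq {u v : ℕ → ℝ} {s : ℝ}
    (hu : Summable fun n : ℕ => u n ^ 2 * (n : ℝ) ^ (-s))
    (hv : Summable fun n : ℕ => v n ^ 2 * (n : ℝ) ^ (-s)) :
    Summable fun n : ℕ => u n * v n * (n : ℝ) ^ (-s) := by
  refine Summable.of_norm_bounded (hu.add hv) ?_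
  intro n
  have h0 : 0 ≤ (n : ℝ) ^ (-s) := Real.rpow_nonneg (Nat.cast_nonneg n) _
  rw [norm_mul, Real.norm_of_nonneg h0, ← add_mul]
  refine mul_le_mul_of_nonneg_right ?_ h0
  rw [Real.norm_eq_abs, abs_le]
  constructor <;> nlinarith [sq_nonneg (u n + v n), sq_nonneg (u n - v n), sq_nonneg (u n),
    sq_nonneg (v n)]

lemma summable_sq_comp {v : ℕ → ℝ} {s : ℝ} {q : ℕ} (hq : 0 < q)
    (hv : Summable fun n : ℕ => v n ^ 2 * (n : ℝ) ^ (-s)) :
    Summable fun n : ℕ => v (q * n) ^ 2 * (n : ℝ) ^ (-s) := by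
  have hinj : Function.Injective fun n : ℕ => q * n :=
    fun _ _ h => Nat.eq_of_mul_eq_mul_left hq h
  have hq0 : (0 : ℝ) < q := by exact_mod_cast hq
  refine ((hv.comp_injective hinj).mul_left ((q : ℝ) ^ s)).congr fun n => ?_
  simp only [Function.comp_apply]
  push_cast
  rw [Real.mul_rpow hq0.le (Nat.cast_nonneg n), Real.rpow_neg hq0.le]
  have : (q : ℝ) ^ s ≠ 0 := (Real.rpow_pos_of_pos hq0 _).ne'
  field_simp

lemma twist_half {N₁ : ℕ} {a b : ℕ → ℝ} (ha : Hecke N₁ a) {q : ℕ}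
    (hq : q.Prime) (h1 : ¬ q ∣ N₁) {s : ℝ}
    (hsa : Summable fun n : ℕ => a n ^ 2 * (n : ℝ) ^ (-s))
    (hsb : Summable fun n : ℕ => b n ^ 2 * (n : ℝ) ^ (-s)) :
    ∑' n : ℕ, a (q * n) * b n * (n : ℝ) ^ (-s) = a q * (∑' n : ℕ, a n * b n * (n : ℝ) ^ (-s)) -
      (q : ℝ) ^ (1 - s) * ∑' n : ℕ, a n * b (q * n) * (n : ℝ) ^ (-s) := by
  have hq0 : (0 : ℝ) < q := by exact_mod_cast hq.pos
  have hinj : Function.Injective fun n : ℕ => q * n :=
    fun _ _ h => Nat.eq_of_mul_eq_mul_left hq.pos h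
  have hA := summable_mul_of_sq hsa hsb
  have hD := summable_mul_of_sq (u := a) (v := fun n => b (q * n)) hsa (summable_sq_comp hq.pos hsb)
  set w : ℕ → ℝ := fun n => (if q ∣ n then (q : ℝ) * a (n / q) else 0) * b n * (n : ℝ) ^ (-s) with hw
  have hwq : ∀ n, w (q * n) = (q : ℝ) ^ (1 - s) * (a n * b (q * n) * (n : ℝ) ^ (-s)) := by
    intro n
    simp only [hw, dvd_mul_right, if_true, Nat.mul_div_cancel_left n hq.pos]
    push_cast
    rw [Real.mul_rpow hq0.le (Nat.cast_nonneg n), Real.rpow_sub hq0, Real.rpow_one,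
      Real.rpow_neg hq0.le]
    ring
  have hw0 : ∀ n ∉ Set.range (fun n : ℕ => q * n), w n = 0 := by
    intro n hn
    have : ¬ q ∣ n := by
      rintro ⟨k, rfl⟩
      exact hn ⟨k, rfl⟩
    simp [hw, this]
  have hws : HasSum w ((q : ℝ) ^ (1 - s) * ∑' n : ℕ, a n * b (q * n) * (n : ℝ) ^ (-s)) := by
    rw [← hinj.hasSum_iff hw0]
    have h3 := hD.hasSum.mul_left ((q : ℝ) ^ (1 - s))
    have h7 : (w ∘ fun n : ℕ => q * n) =
        fun n => (q : ℝ) ^ (1 - s) * (a n * b (q * n) * (n : ℝ) ^ (-s)) := funext hwq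
    rw [h7]
    exact h3
  have h4 := (hA.hasSum.mul_left (a q)).sub hws
  rw [← h4.tsum_eq]
  refine tsum_congr fun n => ?_
  have h5 := ha.rel q hq n
  rw [if_neg h1] at h5
  simp only [hw]
  have h6 : a (q * n) = a q * a n - (if q ∣ n then (q : ℝ) * a (n / q) else 0) := by
    rw [h5]; ring
  rw [h6]
  ring

theorem twist_relation {N₁ N₂ : ℕ} {a b : ℕ → ℝ} (ha : Hecke N₁ a) (hb : Hecke N₂ b) {q : ℕ}
    (hq : q.Prime) (h1 : ¬ q ∣ N₁) (h2 : ¬ q ∣ N₂) {s : ℝ}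
    (hsa : Summable fun n : ℕ => a n ^ 2 * (n : ℝ) ^ (-s))
    (hsb : Summable fun n : ℕ => b n ^ 2 * (n : ℝ) ^ (-s)) :
    ((∑' n : ℕ, a (q * n) * b n * (n : ℝ) ^ (-s)) - ∑' n : ℕ, a n * b (q * n) * (n : ℝ) ^ (-s)) *
      (1 - (q : ℝ) ^ (1 - s)) = (a q - b q) * ∑' n : ℕ, a n * b n * (n : ℝ) ^ (-s) := by
  have e1 := twist_half ha hq h1 hsa hsb
  have e2 := twist_half hb hq h2 hsb hsa
  have e3 : ∑' n : ℕ, b (q * n) * a n * (n : ℝ) ^ (-s) =
      ∑' n : ℕ, a n * b (q * n) * (n : ℝ) ^ (-s) := tsum_congr fun n => by ring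
  have e4 : ∑' n : ℕ, b n * a n * (n : ℝ) ^ (-s) =
      ∑' n : ℕ, a n * b n * (n : ℝ) ^ (-s) := tsum_congr fun n => by ring
  have e5 : ∑' n : ℕ, b n * a (q * n) * (n : ℝ) ^ (-s) =
      ∑' n : ℕ, a (q * n) * b n * (n : ℝ) ^ (-s) := tsum_congr fun n => by ring
  rw [e3, e4, e5] at e2
  linear_combination e1 - e2

end Pool.Agent.H18.RS
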