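import Mathlib

/-!
# Job RS-31: a Bessel inequality from upper bounds of the Gram matrix

Write `⟨u, w⟩ = ∑' p, u p w p p^(-t)` (absolutely convergent for square-summable `u, w`). `T_i = ⟨c, e_i⟩`,
`P = {i ∈ S | T_i ≥ 0}`, `u = ∑_{i ∈ P} T_i e_i`. `⟨u, u⟩ = ∑_{i, j ∈ P} T_i T_j ⟨e_i, e_j⟩ ≤ L ∑_P T_i² + K (∑_P T_i)² ≤
(L + |S| K) ∑_P T_i²` (all `T_i T_j ≥ 0`). Cauchy-Schwarz: `(∑_P T_i²)² = ⟨c, u⟩² ≤ ⟨c, c⟩ ⟨u, u⟩`, so
`∑_P T_i² ≤ (L + |S| K) ⟨c, c⟩` (divide if `∑_P T_i² > 0`). The same for `{i | T_i < 0}` (again `T_i T_j ≥ 0`). Add.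
-/

open UpperHalfPlane MeasureTheory CongruenceSubgroup
open scoped MatrixGroups Modular ComplexConjugate

namespace Pool.Agent.H18.RS

private theorem signs_summable {α : Type*} {g u w : α → ℝ} (hg : ∀ a, 0 ≤ g a)
    (hu : Summable fun a => u a ^ 2 * g a) (hw : Summable fun a => w a ^ 2 * g a) :
    Summable fun a => u a * w a * g a := by
  refine Summable.of_norm_bounded (g := fun a => (u a ^ 2 * g a + w a ^ 2 * g a) / 2)
    ((hu.add hw).div_const 2) fun a => ?_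
  rw [Real.norm_eq_abs, abs_mul, abs_of_nonneg (hg a)]
  have h1 : |u a * w a| ≤ (u a ^ 2 + w a ^ 2) / 2 := by
    rw [abs_mul]
    nlinarith [sq_nonneg (|u a| - |w a|), sq_abs (u a), sq_abs (w a)]
  calc |u a * w a| * g a ≤ (u a ^ 2 + w a ^ 2) / 2 * g a :=
        mul_le_mul_of_nonneg_right h1 (hg a)
    _ = _ := by ring

private theorem signs_expand {α ι : Type*} (P : Finset ι) {g c : α → ℝ} {e : ι → α → ℝ}
    (T : ι → ℝ) (lam : ℝ) (hg : ∀ a, 0 ≤ g a) (hc : Summable fun a => c a ^ 2 * g a)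
    (he : ∀ i ∈ P, Summable fun a => e i a ^ 2 * g a) :
    0 ≤ ∑' a, c a ^ 2 * g a - 2 * lam * ∑ i ∈ P, T i * ∑' a, c a * e i a * g a
      + lam ^ 2 * ∑ i ∈ P, ∑ j ∈ P, T i * T j * ∑' a, e i a * e j a * g a := by
  have h2 : ∀ a, (c a - lam * ∑ i ∈ P, T i * e i a) ^ 2 * g a =
      c a ^ 2 * g a - 2 * lam * ∑ i ∈ P, T i * (c a * e i a * g a) +
        lam ^ 2 * ∑ i ∈ P, ∑ j ∈ P, T i * T j * (e i a * e j a * g a) := by
    intro a
    have e1 : ∑ i ∈ P, T i * (c a * e i a * g a) = c a * (∑ i ∈ P, T i * e i a) * g a := by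
      rw [Finset.mul_sum, Finset.sum_mul]
      exact Finset.sum_congr rfl fun i _ => by ring
    have e2 : ∑ i ∈ P, ∑ j ∈ P, T i * T j * (e i a * e j a * g a) =
        (∑ i ∈ P, T i * e i a) * (∑ i ∈ P, T i * e i a) * g a := by
      rw [Finset.sum_mul_sum, Finset.sum_mul]
      refine Finset.sum_congr rfl fun i _ => ?_
      rw [Finset.sum_mul]
      exact Finset.sum_congr rfl fun j _ => by ring
    rw [e1, e2]
    ring
  have hB : HasSum (fun a => ∑ i ∈ P, T i * (c a * e i a * g a))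
      (∑ i ∈ P, T i * ∑' a, c a * e i a * g a) :=
    hasSum_sum fun i hi => (signs_summable hg hc (he i hi)).hasSum.mul_left _
  have hC : HasSum (fun a => ∑ i ∈ P, ∑ j ∈ P, T i * T j * (e i a * e j a * g a))
      (∑ i ∈ P, ∑ j ∈ P, T i * T j * ∑' a, e i a * e j a * g a) :=
    hasSum_sum fun i hi => hasSum_sum fun j hj =>
      (signs_summable hg (he i hi) (he j hj)).hasSum.mul_left _
  have hD := (hc.hasSum.sub (hB.mul_left (2 * lam))).add (hC.mul_left (lam ^ 2))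
  refine HasSum.nonneg (fun a => ?_) hD
  rw [← h2]
  exact mul_nonneg (sq_nonneg _) (hg a)

private theorem signs_half {α ι : Type*} (S P : Finset ι) (hPS : P ⊆ S) {g c : α → ℝ}
    {e : ι → α → ℝ} (hg : ∀ a, 0 ≤ g a) (hc : Summable fun a => c a ^ 2 * g a)
    (he : ∀ i ∈ S, Summable fun a => e i a ^ 2 * g a) {L K : ℝ} (hL : 0 ≤ L) (hK : 0 ≤ K)
    (hdiag : ∀ i ∈ S, ∑' a, e i a * e i a * g a ≤ L + K)
    (hoff : ∀ i ∈ S, ∀ j ∈ S, i ≠ j → ∑' a, e i a * e j a * g a ≤ K)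
    (T : ι → ℝ) (hT : ∀ i ∈ S, T i = ∑' a, c a * e i a * g a)
    (hsign : ∀ i ∈ P, ∀ j ∈ P, 0 ≤ T i * T j) :
    ∑ i ∈ P, T i ^ 2 ≤ (L + S.card * K) * ∑' a, c a ^ 2 * g a := by
  classical
  have hC0 : 0 ≤ ∑' a, c a ^ 2 * g a := tsum_nonneg fun a => mul_nonneg (sq_nonneg _) (hg a)
  have hQ0 : 0 ≤ ∑ i ∈ P, T i ^ 2 := Finset.sum_nonneg fun i _ => sq_nonneg _
  have hB0 : 0 ≤ L + S.card * K := by positivity
  have hcu : ∑ i ∈ P, T i * ∑' a, c a * e i a * g a = ∑ i ∈ P, T i ^ 2 :=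
    Finset.sum_congr rfl fun i hi => by rw [← hT i (hPS hi), sq]
  have huu : ∑ i ∈ P, ∑ j ∈ P, T i * T j * ∑' a, e i a * e j a * g a ≤
      (L + S.card * K) * ∑ i ∈ P, T i ^ 2 := by
    have h1 : ∑ i ∈ P, ∑ j ∈ P, T i * T j * ∑' a, e i a * e j a * g a ≤
        ∑ i ∈ P, ∑ j ∈ P, (T i * T j * K + if i = j then T i * T j * L else 0) := by
      refine Finset.sum_le_sum fun i hi => Finset.sum_le_sum fun j hj => ?_
      by_cases hij : i = j
      · subst hij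
        rw [if_pos rfl]
        have := mul_le_mul_of_nonneg_left (hdiag i (hPS hi)) (hsign i hi i hi)
        linarith
      · rw [if_neg hij, add_zero]
        exact mul_le_mul_of_nonneg_left (hoff i (hPS hi) j (hPS hj) hij) (hsign i hi j hj)
    have h2 : ∑ i ∈ P, ∑ j ∈ P, (T i * T j * K + if i = j then T i * T j * L else 0) =
        K * (∑ i ∈ P, T i) ^ 2 + L * ∑ i ∈ P, T i ^ 2 := by
      rw [sq, Finset.sum_mul_sum, Finset.mul_sum, Finset.mul_sum, ← Finset.sum_add_distrib]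
      refine Finset.sum_congr rfl fun i hi => ?_
      rw [Finset.sum_add_distrib, Finset.sum_ite_eq, if_pos hi, Finset.mul_sum]
      have h3 : ∑ j ∈ P, T i * T j * K = ∑ j ∈ P, K * (T i * T j) :=
        Finset.sum_congr rfl fun j _ => by ring
      rw [h3]
      ring
    have h3 : (∑ i ∈ P, T i) ^ 2 ≤ P.card * ∑ i ∈ P, T i ^ 2 := sq_sum_le_card_mul_sum_sq
    have h4 : (P.card : ℝ) ≤ S.card := by exact_mod_cast Finset.card_le_card hPS
    have h5 : K * (∑ i ∈ P, T i) ^ 2 ≤ K * (S.card * ∑ i ∈ P, T i ^ 2) :=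
      mul_le_mul_of_nonneg_left (h3.trans (mul_le_mul_of_nonneg_right h4 hQ0)) hK
    calc _ ≤ K * (∑ i ∈ P, T i) ^ 2 + L * ∑ i ∈ P, T i ^ 2 := h1.trans h2.le
      _ ≤ K * (S.card * ∑ i ∈ P, T i ^ 2) + L * ∑ i ∈ P, T i ^ 2 := by linarith
      _ = _ := by ring
  have key : ∀ lam : ℝ, 0 ≤ ∑' a, c a ^ 2 * g a - 2 * lam * ∑ i ∈ P, T i ^ 2 +
      lam ^ 2 * ((L + S.card * K) * ∑ i ∈ P, T i ^ 2) := by
    intro lam
    have h1 := signs_expand P T lam hg hc (fun i hi => he i (hPS hi))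
    rw [hcu] at h1
    have h2 := mul_le_mul_of_nonneg_left huu (sq_nonneg lam)
    linarith
  set Q := ∑ i ∈ P, T i ^ 2 with hQ
  set B := L + S.card * K with hB
  set C := ∑' a, c a ^ 2 * g a with hCdef
  rcases hB0.eq_or_lt with hB1 | hB1
  · rw [← hB1, zero_mul]
    by_contra hneg
    rw [not_le] at hneg
    have h1 := key ((C + 1) / Q)
    rw [← hB1, zero_mul, mul_zero, add_zero, mul_assoc, div_mul_cancel₀ _ hneg.ne'] at h1
    linarith
  · have h1 := key (1 / B)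
    have h2 : C - 2 * (1 / B) * Q + (1 / B) ^ 2 * (B * Q) = C - Q / B := by
      field_simp
      ring
    rw [h2, sub_nonneg, div_le_iff₀ hB1] at h1
    rw [mul_comm]
    exact h1

theorem bessel_signs {ι : Type*} (S : Finset ι) (c : ℕ → ℝ) (e : ι → ℕ → ℝ) {t L K : ℝ}
    (hc : Summable (fun p : Nat.Primes => c p ^ 2 * (p : ℝ) ^ (-t)))
    (he : ∀ i ∈ S, Summable (fun p : Nat.Primes => e i p ^ 2 * (p : ℝ) ^ (-t)))
    (hL : 0 ≤ L) (hK : 0 ≤ K)
    (hdiag : ∀ i ∈ S, ∑' p : Nat.Primes, e i p * e i p * (p : ℝ) ^ (-t) ≤ L + K)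
    (hoff : ∀ i ∈ S, ∀ j ∈ S, i ≠ j → ∑' p : Nat.Primes, e i p * e j p * (p : ℝ) ^ (-t) ≤ K) :
    ∑ i ∈ S, (∑' p : Nat.Primes, c p * e i p * (p : ℝ) ^ (-t)) ^ 2 ≤
      2 * (L + S.card * K) * ∑' p : Nat.Primes, c p ^ 2 * (p : ℝ) ^ (-t) := by
  classical
  have hg : ∀ p : Nat.Primes, 0 ≤ (p : ℝ) ^ (-t) := fun p =>
    Real.rpow_nonneg (Nat.cast_nonneg _) _
  set T : ι → ℝ := fun i => ∑' p : Nat.Primes, c p * e i p * (p : ℝ) ^ (-t) with hT
  have h1 := signs_half S (S.filter (fun i => 0 ≤ T i)) (Finset.filter_subset _ _)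
    (g := fun p : Nat.Primes => (p : ℝ) ^ (-t)) (c := fun p : Nat.Primes => c p)
    (e := fun i (p : Nat.Primes) => e i p) hg hc he hL hK hdiag hoff T (fun i _ => rfl)
    (fun i hi j hj => mul_nonneg (Finset.mem_filter.1 hi).2 (Finset.mem_filter.1 hj).2)
  have h2 := signs_half S (S.filter (fun i => ¬ 0 ≤ T i)) (Finset.filter_subset _ _)
    (g := fun p : Nat.Primes => (p : ℝ) ^ (-t)) (c := fun p : Nat.Primes => c p)
    (e := fun i (p : Nat.Primes) => e i p) hg hc he hL hK hdiag hoff T (fun i _ => rfl)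
    (fun i hi j hj => mul_nonneg_of_nonpos_of_nonpos
      (not_le.1 (Finset.mem_filter.1 hi).2).le (not_le.1 (Finset.mem_filter.1 hj).2).le)
  have h3 : ∑ i ∈ S, T i ^ 2 = ∑ i ∈ S.filter (fun i => 0 ≤ T i), T i ^ 2 +
      ∑ i ∈ S.filter (fun i => ¬ 0 ≤ T i), T i ^ 2 :=
    (Finset.sum_filter_add_sum_filter_not S (fun i => 0 ≤ T i) (fun i => T i ^ 2)).symm
  change ∑ i ∈ S, T i ^ 2 ≤ _
  rw [h3]
  linarith

end Pool.Agent.H18.RS
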