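import Mathlib
import Pool.Agent.H18.RS.Fib
import Pool.Agent.H18.RS.Signs
import Pool.Agent.H1.Tate.Bessel

/-!
# The Bessel inequality for a family of forms over `ℚ` and a bounded function on the primes of `k`
-/

open NumberField IsDedekindDomain Filter Topology Polynomial

namespace Pool.Agent.H18.RS

open Pool.Agent.H1.Tate Pool.Agent.H3.TatePole

variable {k : Type*} [Field k] [NumberField k]

/-- products of a bounded and a vanishing function -/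
lemma prod_zero {f g : ℝ → ℝ} (hf : ∃ K : ℝ, ∀ᶠ t in 𝓝[>] 1, |f t| ≤ K)
    (hg : Tendsto g (𝓝[>] 1) (𝓝 0)) : Tendsto (fun t => f t * g t) (𝓝[>] 1) (𝓝 0) := by
  obtain ⟨K, hK⟩ := hf
  have h1 : Tendsto (fun t => K * |g t|) (𝓝[>] 1) (𝓝 0) := by
    simpa using (hg.abs).const_mul K
  refine squeeze_zero_norm' ?_ h1
  filter_upwards [hK] with t ht
  rw [Real.norm_eq_abs, abs_mul]
  exact mul_le_mul_of_nonneg_right ht (abs_nonneg _)

/-- the sum over the rational primes converges -/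
lemma summable_primes_sq {w : ℕ → ℝ} {D : ℝ} (hw : ∀ p : ℕ, p.Prime → |w p| ≤ D) {t : ℝ}
    (ht : 1 < t) : Summable (fun p : Nat.Primes => w p ^ 2 * (p : ℝ) ^ (-t)) := by
  have h1 : Summable (fun p : Nat.Primes => (p : ℝ) ^ (-t)) :=
    Nat.Primes.summable_rpow.mpr (by linarith)
  refine Summable.of_nonneg_of_le (fun p => by positivity) (fun p => ?_) (h1.mul_left (D ^ 2))
  refine mul_le_mul_of_nonneg_right ?_ (by positivity)
  have h2 := hw p p.2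
  exact sq_le_sq' (by linarith [(abs_le.mp h2).1]) (abs_le.mp h2).2

/-- The Bessel inequality: `x i` and `y` are the normalised growths. -/
theorem family_core {ι : Type*} (S : Finset ι) {U : HeightOneSpectrum (𝓞 k) → ℝ} (hU : Bdd U)
    {w : ι → ℕ → ℝ} (hwb : ∀ i ∈ S, ∃ D : ℝ, ∀ p : ℕ, p.Prime → |w i p| ≤ D)
    (hdiag : ∀ i ∈ S, ∃ C : ℝ, ∀ t : ℝ, 1 < t → t ≤ 2 →
      ∑' p : Nat.Primes, w i p * w i p * (p : ℝ) ^ (-t) ≤ Lam t + C)
    (hoff : ∀ i ∈ S, ∀ j ∈ S, i ≠ j → ∃ C : ℝ, ∀ t : ℝ, 1 < t → t ≤ 2 →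
      ∑' p : Nat.Primes, w i p * w j p * (p : ℝ) ^ (-t) ≤ C)
    {x : ι → ℝ → ℝ} {y : ℝ → ℝ}
    (hx : ∀ i ∈ S, Tendsto (fun t => x i t -
      (∑' p : Nat.Primes, fib U p * w i p * (p : ℝ) ^ (-t)) / Lam t) (𝓝[>] 1) (𝓝 0))
    (hxb : ∀ i ∈ S, ∃ K : ℝ, ∀ᶠ t in 𝓝[>] 1, |x i t| ≤ K)
    (hy : Tendsto (fun t => y t - wsum (fun v => U v ^ 2) t / Lam t) (𝓝[>] 1) (𝓝 0))
    {ε : ℝ} (hε : 0 < ε) :
    ∀ᶠ t in 𝓝[>] 1, ∑ i ∈ S, (x i t) ^ 2 ≤ 2 * Module.finrank ℚ k * y t + ε := by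
  classical
  -- uniform constants
  choose! D hD using hwb
  choose! C₁ hC₁ using hdiag
  choose! C₂ hC₂ using hoff
  set K : ℝ := ∑ i ∈ S, |C₁ i| + ∑ i ∈ S, ∑ j ∈ S, |C₂ i j| with hK
  have hK0 : 0 ≤ K := by positivity
  have hK1 : ∀ i ∈ S, C₁ i ≤ K := by
    intro i hi
    have h1 : |C₁ i| ≤ ∑ i ∈ S, |C₁ i| :=
      Finset.single_le_sum (f := fun i => |C₁ i|) (fun _ _ => abs_nonneg _) hi
    have h2 : 0 ≤ ∑ i ∈ S, ∑ j ∈ S, |C₂ i j| := by positivity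
    linarith [le_abs_self (C₁ i)]
  have hK2 : ∀ i ∈ S, ∀ j ∈ S, C₂ i j ≤ K := by
    intro i hi j hj
    have h1 : |C₂ i j| ≤ ∑ j ∈ S, |C₂ i j| :=
      Finset.single_le_sum (f := fun j => |C₂ i j|) (fun _ _ => abs_nonneg _) hj
    have h2 : ∑ j ∈ S, |C₂ i j| ≤ ∑ i ∈ S, ∑ j ∈ S, |C₂ i j| :=
      Finset.single_le_sum (f := fun i => ∑ j ∈ S, |C₂ i j|)
        (fun _ _ => Finset.sum_nonneg fun _ _ => abs_nonneg _) hi
    have h3 : 0 ≤ ∑ i ∈ S, |C₁ i| := by positivity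
    linarith [le_abs_self (C₂ i j)]
  set n : ℝ := (Module.finrank ℚ k : ℝ) with hn
  have hn0 : 0 ≤ n := Nat.cast_nonneg _
  set T : ι → ℝ → ℝ := fun i t => ∑' p : Nat.Primes, fib U p * w i p * (p : ℝ) ^ (-t) with hT
  set m : ι → ℝ → ℝ := fun i t => T i t / Lam t with hm
  set Q : ℝ → ℝ := fun t => wsum (fun v => U v ^ 2) t / Lam t with hQ
  have hQb : ∃ K : ℝ, ∀ᶠ t in 𝓝[>] 1, |Q t| ≤ K := by
    have hU2 : Bdd (fun v => U v ^ 2) := by
      have := hU.mul hU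
      simpa only [sq] using this
    obtain ⟨C, hC⟩ := hU2
    exact ⟨2 * C, eventually_abs_mean_le hC⟩
  have hinv : Tendsto (fun t => 1 / Lam t) (𝓝[>] 1) (𝓝 0) := by
    simpa using Lam_tendsto.const_div_atTop (1 : ℝ)
  -- the error term
  set E : ℝ → ℝ := fun t => ∑ i ∈ S, (x i t + m i t) * (x i t - m i t) -
    2 * n * (y t - Q t) + 2 * n * (S.card * K) * (Q t * (1 / Lam t)) with hE
  have hmb : ∀ i ∈ S, ∃ K : ℝ, ∀ᶠ t in 𝓝[>] 1, |x i t + m i t| ≤ K := by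
    intro i hi
    obtain ⟨B, hB⟩ := hxb i hi
    have h1 := (hx i hi).eventually (Metric.ball_mem_nhds (0 : ℝ) one_pos)
    refine ⟨2 * B + 1, ?_⟩
    filter_upwards [hB, h1] with t h2 h3
    rw [Real.dist_eq, sub_zero] at h3
    have h4 : |x i t - m i t| ≤ 1 := h3.le
    have h6 := abs_le.mp h2
    have h7 := abs_le.mp h4
    rw [abs_le]
    constructor <;> linarith [h6.1, h6.2, h7.1, h7.2]
  have hEt : Tendsto E (𝓝[>] 1) (𝓝 0) := by
    have e1 : Tendsto (fun t => ∑ i ∈ S, (x i t + m i t) * (x i t - m i t)) (𝓝[>] 1) (𝓝 0) := by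
      have := tendsto_finsetSum S fun i hi => prod_zero (hmb i hi) (hx i hi)
      simpa using this
    have e2 : Tendsto (fun t => 2 * n * (y t - Q t)) (𝓝[>] 1) (𝓝 0) := by
      simpa using hy.const_mul (2 * n)
    have e3 : Tendsto (fun t => 2 * n * (S.card * K) * (Q t * (1 / Lam t))) (𝓝[>] 1) (𝓝 0) := by
      simpa using (prod_zero hQb hinv).const_mul (2 * n * (S.card * K))
    have := (e1.sub e2).add e3
    rw [sub_zero, add_zero] at this
    exact this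
  have hev := hEt.eventually_le_const hε
  have hle2 : ∀ᶠ t : ℝ in 𝓝[>] 1, t ≤ 2 := by
    filter_upwards [Ioc_mem_nhdsGT (show (1 : ℝ) < 2 by norm_num)] with t ht
    exact ht.2
  filter_upwards [hev, self_mem_nhdsWithin, Lam_tendsto.eventually_gt_atTop 0, hle2]
    with t h1 h2 h3 h4
  have h2' : 1 < t := h2
  obtain ⟨hs1, hs2⟩ := fib_sq_sum (k := k) hU h2'
  have hB := bessel_signs S (fib U) w (t := t) (L := Lam t) (K := K) hs1
    (fun i hi => summable_primes_sq (hD i hi) h2') h3.le hK0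
    (fun i hi => (hC₁ i hi t h2' h4).trans (by linarith [hK1 i hi]))
    (fun i hi j hj hij => (hC₂ i hi j hj hij t h2' h4).trans (hK2 i hi j hj))
  have hB2 : ∑ i ∈ S, T i t ^ 2 ≤ 2 * (Lam t + S.card * K) * (n * wsum (fun v => U v ^ 2) t) :=
    hB.trans (mul_le_mul_of_nonneg_left hs2 (by positivity))
  have hB3 : ∑ i ∈ S, m i t ^ 2 ≤ 2 * n * Q t + 2 * n * (S.card * K) * (Q t * (1 / Lam t)) := by
    have e1 : ∑ i ∈ S, m i t ^ 2 = (∑ i ∈ S, T i t ^ 2) / Lam t ^ 2 := by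
      rw [Finset.sum_div]
      exact Finset.sum_congr rfl fun i _ => by simp only [hm]; rw [div_pow]
    have e2 : 2 * n * Q t + 2 * n * (S.card * K) * (Q t * (1 / Lam t)) =
        2 * (Lam t + S.card * K) * (n * wsum (fun v => U v ^ 2) t) / Lam t ^ 2 := by
      simp only [hQ]
      field_simp
    rw [e1, e2]
    exact div_le_div_of_nonneg_right hB2 (by positivity)
  have e4 : ∑ i ∈ S, (x i t) ^ 2 = ∑ i ∈ S, m i t ^ 2 +
      ∑ i ∈ S, (x i t + m i t) * (x i t - m i t) := by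
    rw [← Finset.sum_add_distrib]
    exact Finset.sum_congr rfl fun i _ => by ring
  simp only [hE] at h1
  rw [e4]
  linarith

end Pool.Agent.H18.RS
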