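import Mathlib
import Pool.Agent.H18.RS.Defs
import Pool.Agent.H1.Tate.LFun

/-!
# Job RS-29: traces of elliptic curves over `ℚ` at primes of degree one

* `aV_up`: `R = 𝓞 k ⧸ v.asIdeal` is a field with `p = absNorm v.asIdeal` elements, `p` prime, so `ZMod p ≃+* R`
  (`ZMod.ringEquivOfPrime` or `ZMod.ringEquiv`, `Nat.card R = p`, `nrm_eq_card`); `(up k h).map (mk v) = h.map (Int.castRingHom R)` is
  the image of `h.map (Int.castRingHom (ZMod p))`. `traceH1 R _ 1 = q + 1 - numPoints`, and `numPoints R _ 1 - 1` counts the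
  pairs in the algebraic closure fixed by `x ↦ x ^ q`, i.e. the pairs in `R × R` with `y ^ 2 = h x`
  (`FiniteField`: the roots of `X ^ q - X` are the elements of `R`; there may be a lemma in
  `Pool/Agent/H1/Weil/Points.lean` or `H8/TW/Conj.lean` (`numPoints_congr`, `traceH1_congr`)), so it is `ap h p`.
* `ap_sq_le`: for all `p` odd, not dividing the leading coefficient, with `h mod p` separable: `|traceH1 (ZMod p) (h mod p) 1| ≤
  2 √p` (`abs_traceH1_le`, `g = 1`); the other `p` are finite in number (as `finite_bad` for `k = ℚ`, or directly: a Bezout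
  relation of `h`, `h'` over `ℚ` with cleared denominators).
* `up_separable`: separable over `ℚ`, map along `ℚ → k` (`Polynomial.Separable.map`).
* `up_natDegree`: `ℤ → 𝓞 k` is injective.
-/

open NumberField IsDedekindDomain Filter Topology Polynomial

namespace Pool.Agent.H18.RS

open Pool.Agent.H1.Tate Pool.Agent.H3.TatePole

lemma pow_card_iff_range {F : Type*} [Field F] [Fintype F] [DecidableEq F]
    (x : AlgebraicClosure F) :
    x ^ (Nat.card F ^ 1) = x ↔ x ∈ Set.range (algebraMap F (AlgebraicClosure F)) := by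
  rw [← Pool.Agent.H1.Weil.mem_FF F one_pos, Pool.Agent.H1.Weil.mem_FF_iff_dvd F one_pos,
    Nat.dvd_one, minpoly.natDegree_eq_one_iff, RingHom.mem_range, Set.mem_range]

lemma card_pairs_eq {F : Type*} [Field F] [Fintype F] [DecidableEq F] (g : F[X]) :
    Nat.card {z : AlgebraicClosure F × AlgebraicClosure F //
      z.1 ^ (Nat.card F ^ 1) = z.1 ∧ z.2 ^ (Nat.card F ^ 1) = z.2 ∧ z.2 ^ 2 = aeval z.1 g} =
    Nat.card {z : F × F // z.2 ^ 2 = g.eval z.1} := by
  have hinj : Function.Injective (algebraMap F (AlgebraicClosure F)) :=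
    (algebraMap F (AlgebraicClosure F)).injective
  symm
  refine Nat.card_congr (Equiv.ofBijective (fun z => ⟨(algebraMap F _ z.1.1, algebraMap F _ z.1.2),
    (pow_card_iff_range _).mpr ⟨_, rfl⟩, (pow_card_iff_range _).mpr ⟨_, rfl⟩, ?_⟩) ⟨?_, ?_⟩)
  · change (algebraMap F (AlgebraicClosure F) z.1.2) ^ 2 = aeval (algebraMap F _ z.1.1) g
    rw [← map_pow, z.2, aeval_algebraMap_apply]
    simp
  · rintro ⟨⟨a, b⟩, h1⟩ ⟨⟨c, d⟩, h2⟩ h
    have h' := congrArg Subtype.val h
    simp only [Prod.mk.injEq] at h'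
    have h3 := hinj h'.1
    have h4 := hinj h'.2
    subst h3; subst h4; rfl
  · rintro ⟨⟨x, y⟩, h1, h2, h3⟩
    obtain ⟨a, ha⟩ := (pow_card_iff_range _).mp h1
    obtain ⟨b, hb⟩ := (pow_card_iff_range _).mp h2
    simp only at ha hb h3
    subst ha; subst hb
    refine ⟨⟨(a, b), ?_⟩, rfl⟩
    apply hinj
    rw [map_pow, h3, aeval_algebraMap_apply]
    simp

lemma card_pairs_ringEquiv {R S : Type*} [CommRing R] [CommRing S] (e : R ≃+* S) (h : ℤ[X]) :
    Nat.card {z : R × R // z.2 ^ 2 = (h.map (Int.castRingHom R)).eval z.1} =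
    Nat.card {z : S × S // z.2 ^ 2 = (h.map (Int.castRingHom S)).eval z.1} := by
  have key : ∀ x : R, (h.map (Int.castRingHom S)).eval (e x) =
      e ((h.map (Int.castRingHom R)).eval x) := by
    intro x
    have h1 : Int.castRingHom S = (e : R →+* S).comp (Int.castRingHom R) := RingHom.ext_int _ _
    have h2 := hom_eval₂ h (Int.castRingHom R) (e : R →+* S) x
    rw [← h1] at h2
    rw [eval_map, eval_map]
    exact h2.symm
  refine Nat.card_congr ((Equiv.prodCongr e.toEquiv e.toEquiv).subtypeEquiv ?_)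
  rintro ⟨x, y⟩
  simp only [Equiv.prodCongr_apply, Prod.map_apply]
  change _ ↔ (e y) ^ 2 = (h.map (Int.castRingHom S)).eval (e x)
  rw [key, ← map_pow]
  exact e.injective.eq_iff.symm

/-- The trace over a field with `p` elements. -/
lemma traceH1_eq_ap {F : Type*} [Field F] [Finite F] {p : ℕ} (hp : p.Prime)
    (hc : Nat.card F = p) (h : ℤ[X]) :
    traceH1 F (h.map (Int.castRingHom F)) 1 = ap h p := by
  classical
  cases nonempty_fintype F
  unfold traceH1 numPoints ap
  rw [card_pairs_eq, card_pairs_ringEquiv (ZMod.ringEquivOfPrime F hp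
    (by rw [← Nat.card_eq_fintype_card]; exact hc)) h, hc]
  push_cast
  ring

variable {k : Type*} [Field k] [NumberField k]

/-- `h` over the integers of `k` -/
noncomputable abbrev up (k : Type*) [Field k] [NumberField k] (h : ℤ[X]) : (𝓞 k)[X] :=
  h.map (Int.castRingHom (𝓞 k))

theorem aV_up {h : ℤ[X]} {v : HeightOneSpectrum (𝓞 k)} (hp : (Ideal.absNorm v.asIdeal).Prime)
    (hv : GoodAt (up k h) v) :
    aV (up k h) v = ap h (Ideal.absNorm v.asIdeal) / Real.sqrt (Ideal.absNorm v.asIdeal) := by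
  let _ := Ideal.Quotient.field v.asIdeal
  have hcard : Nat.card (𝓞 k ⧸ v.asIdeal) = Ideal.absNorm v.asIdeal := by
    have := nrm_eq_card v
    unfold nrm at this
    exact_mod_cast this.symm
  have hfin : Finite (𝓞 k ⧸ v.asIdeal) :=
    Nat.finite_of_card_ne_zero (by rw [hcard]; exact hp.ne_zero)
  have h1 : (up k h).map (Ideal.Quotient.mk v.asIdeal) =
      h.map (Int.castRingHom (𝓞 k ⧸ v.asIdeal)) := by
    rw [up, Polynomial.map_map]
    congr 1
  unfold aV
  rw [if_pos hv]
  have h2 : traceH1 (𝓞 k ⧸ v.asIdeal) ((up k h).map (Ideal.Quotient.mk v.asIdeal)) 1 =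
      ap h (Ideal.absNorm v.asIdeal) := by
    rw [h1]
    exact traceH1_eq_ap hp hcard h
  rw [h2]
  rfl

theorem ap_sq_le {h : ℤ[X]} (hdeg : h.natDegree = 3)
    (hsep : (h.map (Int.castRingHom ℚ)).Separable) :
    {p : ℕ | p.Prime ∧ ¬ (ap h p : ℝ) ^ 2 ≤ 4 * p}.Finite := by
  have hh0 : h ≠ 0 := by
    rintro rfl
    simp at hdeg
  have hlc : h.leadingCoeff ≠ 0 := leadingCoeff_ne_zero.mpr hh0
  refine (Set.finite_le_nat (max 2 h.leadingCoeff.natAbs)).subset ?_
  rintro p ⟨hp, hnot⟩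
  by_contra hcon
  simp only [Set.mem_setOf_eq, not_le, max_lt_iff] at hcon
  apply hnot
  haveI : Fact p.Prime := ⟨hp⟩
  have hne : Int.castRingHom (ZMod p) h.leadingCoeff ≠ 0 := by
    intro h0
    rw [eq_intCast, ZMod.intCast_zmod_eq_zero_iff_dvd] at h0
    have := Int.natAbs_dvd_natAbs.mpr h0
    rw [Int.natAbs_natCast] at this
    exact absurd (Nat.le_of_dvd (Int.natAbs_pos.mpr hlc) this) (not_le.mpr hcon.2)
  have hd : (h.map (Int.castRingHom (ZMod p))).natDegree = 2 * 1 + 1 := by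
    rw [natDegree_map_of_leadingCoeff_ne_zero _ hne, hdeg]
  have hF : ringChar (ZMod p) ≠ 2 := by
    rw [ZMod.ringChar_zmod_n]
    omega
  have h1 := abs_traceH1_le hF hd (n := 1) one_pos
  rw [traceH1_eq_ap hp (Nat.card_zmod p) h, Nat.card_zmod, pow_one] at h1
  have h2 : (ap h p : ℝ) ^ 2 = |(ap h p : ℝ)| ^ 2 := (sq_abs _).symm
  rw [h2]
  have h3 : |(ap h p : ℝ)| ^ 2 ≤ (2 * (1 : ℕ) * Real.sqrt p) ^ 2 :=
    pow_le_pow_left₀ (abs_nonneg _) h1 2
  refine h3.trans (le_of_eq ?_)
  rw [mul_pow, Real.sq_sqrt (Nat.cast_nonneg p)]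
  norm_num

theorem up_separable {h : ℤ[X]} (hsep : (h.map (Int.castRingHom ℚ)).Separable) :
    ((up k h).map (algebraMap (𝓞 k) k)).Separable := by
  have h1 : (up k h).map (algebraMap (𝓞 k) k) =
      (h.map (Int.castRingHom ℚ)).map (algebraMap ℚ k) := by
    rw [up, Polynomial.map_map, Polynomial.map_map]
    congr 1
    exact RingHom.ext_int _ _
  rw [h1]
  exact hsep.map

theorem up_natDegree (h : ℤ[X]) : (up k h).natDegree = h.natDegree := by
  apply natDegree_map_eq_of_injective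
  exact RingHom.injective_int _

end Pool.Agent.H18.RS
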