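import Mathlib
import Pool.Agent.H18.RS.RSFinal
import Pool.Agent.H18.RS.Traces
import Pool.Agent.H18.RS.Core
import Pool.Agent.H8.TW.Main

/-!
# The growth of `L₂` in the family (captain)
-/

open NumberField IsDedekindDomain Filter Topology Polynomial

namespace Pool.Agent.H18.RS

open Pool.Agent.H1.Tate Pool.Agent.H3.TatePole

variable {k : Type*} [Field k] [NumberField k]

/-- the normalised coefficients -/
noncomputable def nrmCoeff (a : ℕ → ℝ) (p : ℕ) : ℝ := a p / Real.sqrt p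

lemma nrmCoeff_mul (a b : ℕ → ℝ) {p : ℕ} (hp : 0 < p) (t : ℝ) :
    nrmCoeff a p * nrmCoeff b p * (p : ℝ) ^ (-t) = a p * b p * (p : ℝ) ^ (-(t + 1)) := by
  have hp' : (0 : ℝ) < p := Nat.cast_pos.mpr hp
  unfold nrmCoeff
  rw [div_mul_div_comm, Real.mul_self_sqrt hp'.le, neg_add, Real.rpow_add hp', Real.rpow_neg_one]
  field_simp

lemma nrmCoeff_bdd {a : ℕ → ℝ} (hW : {p : ℕ | p.Prime ∧ ¬ a p ^ 2 ≤ 4 * p}.Finite) :
    ∃ D : ℝ, ∀ p : ℕ, p.Prime → |nrmCoeff a p| ≤ D := by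
  refine ⟨2 + ∑ p ∈ hW.toFinset, |nrmCoeff a p|, fun p hp => ?_⟩
  have h0 : 0 ≤ ∑ p ∈ hW.toFinset, |nrmCoeff a p| := Finset.sum_nonneg fun _ _ => abs_nonneg _
  by_cases h : a p ^ 2 ≤ 4 * p
  · have hp' : (0 : ℝ) < p := Nat.cast_pos.mpr hp.pos
    have h1 : nrmCoeff a p ^ 2 ≤ 2 ^ 2 := by
      unfold nrmCoeff
      rw [div_pow, Real.sq_sqrt hp'.le, div_le_iff₀ hp']
      linarith
    have h2 : |nrmCoeff a p| ≤ 2 := abs_le_of_sq_le_sq h1 (by norm_num)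
    linarith
  · have hmem : p ∈ hW.toFinset := by
      rw [Set.Finite.mem_toFinset]
      exact ⟨hp, h⟩
    have := Finset.single_le_sum (f := fun p => |nrmCoeff a p|) (fun _ _ => abs_nonneg _) hmem
    linarith

/-- finitely many places over finitely many primes -/
lemma finite_places {A : Set ℕ} (hA : A.Finite) (hAp : ∀ p ∈ A, p.Prime) :
    {v : HeightOneSpectrum (𝓞 k) | Ideal.absNorm v.asIdeal ∈ A}.Finite := by
  have h1 : {v : HeightOneSpectrum (𝓞 k) | Ideal.absNorm v.asIdeal ∈ A} =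
      ⋃ p ∈ A, {v : HeightOneSpectrum (𝓞 k) | Ideal.absNorm v.asIdeal = p} := by
    ext v; simp
  rw [h1]
  refine hA.biUnion fun p hp => ?_
  exact Set.finite_coe_iff.mp (fib_finite (k := k) p (hAp p hp)).1

section

variable {F : (𝓞 k)[X]} {g : ℕ} {S : Finset ℤ[X]}

/-- the growth of `L₂(s, C × C')` to first order -/
lemma log_growth {F₁ F₂ : (𝓞 k)[X]} {g₁ g₂ : ℕ} (h1 : F₁.natDegree = 2 * g₁ + 1)
    (h2 : F₂.natDegree = 2 * g₂ + 1) (hs1 : (F₁.map (algebraMap (𝓞 k) k)).Separable)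
    (hs2 : (F₂.map (algebraMap (𝓞 k) k)).Separable)
    {bad : HeightOneSpectrum (𝓞 k) → Multiset ℂ}
    (hbad : ∀ v, ∀ α ∈ bad v, ‖α‖ ≤ Ideal.absNorm v.asIdeal) :
    Tendsto (fun t : ℝ => (Real.log ‖L2 F₁ F₂ bad ((t + 1 : ℝ) : ℂ)‖ / Lam t - 2) -
      wsum (fun v => aV F₁ v * aV F₂ v) t / Lam t) (𝓝[>] 1) (𝓝 0) := by
  obtain ⟨C₁, hC₁⟩ := log_L2 h1 h2 hs1 hs2 hbad
  have hb2 : Bdd (fun v => aV F₁ v * aV F₂ v) := (aV_bdd h1).mul (aV_bdd h2)
  have h3 : Tendsto (fun t => wsum (fun _ : HeightOneSpectrum (𝓞 k) => (1 : ℝ)) t / Lam t)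
    (𝓝[>] 1) (𝓝 1) := hasMean_one
  have h4 := (tendsto_zero_of_bounded hC₁).add ((h3.sub_const 1).const_mul 2)
  simp only [sub_self, mul_zero, add_zero] at h4
  refine h4.congr' ?_
  filter_upwards [self_mem_nhdsWithin] with t ht
  have ht' : 1 < t := ht
  have h5 : wsum (fun v => 2 + aV F₁ v * aV F₂ v) t =
      2 * wsum (fun _ : HeightOneSpectrum (𝓞 k) => (1 : ℝ)) t +
        wsum (fun v => aV F₁ v * aV F₂ v) t := by
    rw [wsum_add (Bdd.const 2) hb2 ht', ← wsum_const_mul]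
    simp
  rw [h5]
  ring

lemma log_bdd {F₁ F₂ : (𝓞 k)[X]} {g₁ g₂ : ℕ} (h1 : F₁.natDegree = 2 * g₁ + 1)
    (h2 : F₂.natDegree = 2 * g₂ + 1) (hs1 : (F₁.map (algebraMap (𝓞 k) k)).Separable)
    (hs2 : (F₂.map (algebraMap (𝓞 k) k)).Separable)
    {bad : HeightOneSpectrum (𝓞 k) → Multiset ℂ}
    (hbad : ∀ v, ∀ α ∈ bad v, ‖α‖ ≤ Ideal.absNorm v.asIdeal) :
    ∃ K : ℝ, ∀ᶠ t : ℝ in 𝓝[>] 1, |Real.log ‖L2 F₁ F₂ bad ((t + 1 : ℝ) : ℂ)‖ / Lam t - 2| ≤ K := by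
  have hb2 : Bdd (fun v => aV F₁ v * aV F₂ v) := (aV_bdd h1).mul (aV_bdd h2)
  obtain ⟨C, hC⟩ := hb2
  have h3 := (log_growth h1 h2 hs1 hs2 hbad).eventually (Metric.ball_mem_nhds (0 : ℝ) one_pos)
  refine ⟨2 * C + 1, ?_⟩
  filter_upwards [eventually_abs_mean_le hC, h3] with t h4 h5
  rw [Real.dist_eq, sub_zero] at h5
  have := abs_sub_abs_le_abs_sub (Real.log ‖L2 F₁ F₂ bad ((t + 1 : ℝ) : ℂ)‖ / Lam t - 2)
    (wsum (fun v => aV F₁ v * aV F₂ v) t / Lam t)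
  linarith

/-- data of a modular `h` -/
lemma modular_data {h : ℤ[X]} (hdeg : h.natDegree = 3)
    (hsep : (h.map (Int.castRingHom ℚ)).Separable) (hmod : IsModular h) :
    ∃ (N : ℕ) (_ : 0 < N) (f : CuspForm (CongruenceSubgroup.Gamma0 N : Subgroup (GL (Fin 2) ℝ)) 2)
      (a : ℕ → ℝ), IsEigenform N f a ∧ {p : ℕ | p.Prime ∧ a p ≠ ap h p}.Finite ∧
        {p : ℕ | p.Prime ∧ ¬ a p ^ 2 ≤ 4 * p}.Finite := by
  obtain ⟨N, hN, f, a, hE, hfin⟩ := hmod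
  refine ⟨N, hN, f, a, hE, hfin, (hfin.union (ap_sq_le hdeg hsep)).subset ?_⟩
  rintro p ⟨hp, hp2⟩
  by_cases h1 : a p = ap h p
  · right
    rw [h1] at hp2
    exact ⟨hp, hp2⟩
  · left
    exact ⟨hp, h1⟩

/-- the family theorem in the variable `t = s - 1` -/
theorem family_growth' (hF : F.natDegree = 2 * g + 1)
    (hsF : (F.map (algebraMap (𝓞 k) k)).Separable)
    (hdeg : ∀ h ∈ S, h.natDegree = 3) (hsep : ∀ h ∈ S, (h.map (Int.castRingHom ℚ)).Separable)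
    (hmod : ∀ h ∈ S, IsModular h)
    (hne : ∀ h ∈ S, ∀ h' ∈ S, h ≠ h' → {p : ℕ | p.Prime ∧ ap h p ≠ ap h' p}.Infinite)
    {bad : ℤ[X] → HeightOneSpectrum (𝓞 k) → Multiset ℂ}
    (hbad : ∀ h ∈ S, ∀ v, ∀ α ∈ bad h v, ‖α‖ ≤ Ideal.absNorm v.asIdeal)
    {badF : HeightOneSpectrum (𝓞 k) → Multiset ℂ}
    (hbadF : ∀ v, ∀ α ∈ badF v, ‖α‖ ≤ Ideal.absNorm v.asIdeal) {ε : ℝ} (hε : 0 < ε) :
    ∀ᶠ t : ℝ in 𝓝[>] 1,
      ∑ h ∈ S, (Real.log ‖L2 F (up k h) (bad h) ((t + 1 : ℝ) : ℂ)‖ / Lam t - 2) ^ 2 ≤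
        2 * Module.finrank ℚ k *
          (Real.log ‖L2 F F badF ((t + 1 : ℝ) : ℂ)‖ / Lam t - 2) + ε := by
  classical
  have hdata := fun h : S => modular_data (hdeg h h.2) (hsep h h.2) (hmod h h.2)
  choose N hN f a hE hfin hW using hdata
  have hUb : Bdd (aV F) := aV_bdd hF
  have hdegU : ∀ h : S, (up k (h : ℤ[X])).natDegree = 2 * 1 + 1 := fun h => by
    rw [up_natDegree, hdeg h h.2]
  have key := family_core (k := k) (Finset.univ : Finset S) (U := aV F) hUb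
    (w := fun h => nrmCoeff (a h)) (fun h _ => nrmCoeff_bdd (hW h))
    (by
      intro h _
      obtain ⟨C, hC⟩ := rs_diag (hN h) (hE h) (hW h)
      refine ⟨C, fun t h1 h2 => ?_⟩
      have h3 := hC (t + 1) (by linarith) (by linarith)
      have h4 : Real.log (1 / (t + 1 - 2)) = Lam t := by
        unfold Lam
        rw [show t + 1 - 2 = t - 1 by ring]
      rw [h4] at h3
      refine le_of_eq_of_le (tsum_congr fun p => ?_) h3
      exact nrmCoeff_mul _ _ p.2.pos t)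
    (by
      intro h _ h' _ hhh
      have hinf : {p : ℕ | p.Prime ∧ a h p ≠ a h' p}.Infinite := by
        intro hcon
        apply hne h h.2 h' h'.2 (fun he => hhh (Subtype.ext he))
        refine ((hcon.union (hfin h)).union (hfin h')).subset ?_
        rintro p ⟨hp, hp2⟩
        by_cases h1 : a h p = ap h p
        · by_cases h2 : a h' p = ap h' p
          · left; left
            refine ⟨hp, ?_⟩
            rw [h1, h2]
            exact_mod_cast hp2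
          · right; exact ⟨hp, h2⟩
        · left; right; exact ⟨hp, h1⟩
      obtain ⟨C, hC⟩ := rs_offdiag (hN h) (hN h') (hE h) (hE h') (hW h) (hW h') hinf
      refine ⟨C, fun t h1 h2 => ?_⟩
      have h3 := hC (t + 1) (by linarith) (by linarith)
      refine le_of_eq_of_le (tsum_congr fun p => ?_) h3
      exact nrmCoeff_mul _ _ p.2.pos t)
    (x := fun h t => Real.log ‖L2 F (up k (h : ℤ[X])) (bad h) ((t + 1 : ℝ) : ℂ)‖ / Lam t - 2)
    (y := fun t => Real.log ‖L2 F F badF ((t + 1 : ℝ) : ℂ)‖ / Lam t - 2)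
    (by
      intro h _
      have h1 := log_growth hF (hdegU h) hsF (up_separable (hsep h h.2)) (hbad h h.2)
      obtain ⟨D, hD⟩ := nrmCoeff_bdd (hW h)
      have hf : {v : HeightOneSpectrum (𝓞 k) | (Ideal.absNorm v.asIdeal).Prime ∧
          aV (up k (h : ℤ[X])) v ≠ nrmCoeff (a h) (Ideal.absNorm v.asIdeal)}.Finite := by
        refine ((finite_bad (up_separable (k := k) (hsep h h.2))).union
          (finite_places (hfin h) (fun p hp => hp.1))).subset ?_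
        rintro v ⟨hp, hv⟩
        by_cases hg : GoodAt (up k (h : ℤ[X])) v
        · right
          refine ⟨hp, fun he => hv ?_⟩
          rw [aV_up hp hg]
          unfold nrmCoeff
          rw [he]
        · left; exact hg
      obtain ⟨C, hC⟩ := fib_sum (U := aV F) (X := aV (up k (h : ℤ[X]))) (w := nrmCoeff (a h))
        hUb (aV_bdd (hdegU h)) hD hf
      have h2 := tendsto_zero_of_bounded hC
      have h3 := h1.add h2
      rw [add_zero] at h3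
      refine h3.congr fun t => ?_
      ring)
    (fun h _ => log_bdd hF (hdegU h) hsF (up_separable (hsep h h.2)) (hbad h h.2))
    (by
      have h1 := log_growth hF hF hsF hsF hbadF
      refine h1.congr fun t => ?_
      simp only [sq])
    hε
  filter_upwards [key] with t ht
  refine le_of_eq_of_le ?_ ht
  rw [Finset.univ_eq_attach, ← Finset.sum_attach]

theorem family_growth (hF : F.natDegree = 2 * g + 1)
    (hsF : (F.map (algebraMap (𝓞 k) k)).Separable)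
    (hdeg : ∀ h ∈ S, h.natDegree = 3) (hsep : ∀ h ∈ S, (h.map (Int.castRingHom ℚ)).Separable)
    (hmod : ∀ h ∈ S, IsModular h)
    (hne : ∀ h ∈ S, ∀ h' ∈ S, h ≠ h' → {p : ℕ | p.Prime ∧ ap h p ≠ ap h' p}.Infinite)
    {bad : ℤ[X] → HeightOneSpectrum (𝓞 k) → Multiset ℂ}
    (hbad : ∀ h ∈ S, ∀ v, ∀ α ∈ bad h v, ‖α‖ ≤ Ideal.absNorm v.asIdeal)
    {badF : HeightOneSpectrum (𝓞 k) → Multiset ℂ}
    (hbadF : ∀ v, ∀ α ∈ badF v, ‖α‖ ≤ Ideal.absNorm v.asIdeal) {ε : ℝ} (hε : 0 < ε) :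
    ∀ᶠ s : ℝ in 𝓝[>] 2,
      ∑ h ∈ S, (Real.log ‖L2 F (up k h) (bad h) (s : ℂ)‖ / Real.log (1 / (s - 2)) - 2) ^ 2 ≤
        2 * Module.finrank ℚ k *
          (Real.log ‖L2 F F badF (s : ℂ)‖ / Real.log (1 / (s - 2)) - 2) + ε := by
  have h1 := family_growth' hF hsF hdeg hsep hmod hne hbad hbadF hε
  filter_upwards [Pool.Agent.H8.TW.tendsto_sub_one.eventually h1] with s hs
  have e1 : (s - 1 : ℝ) + 1 = s := by ring
  have e2 : Lam (s - 1) = Real.log (1 / (s - 2)) := by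
    unfold Lam
    rw [show s - 1 - 1 = s - 2 by ring]
  rw [e1, e2] at hs
  exact hs

theorem self_growth (hF : F.natDegree = 2 * g + 1)
    (hsF : (F.map (algebraMap (𝓞 k) k)).Separable)
    {badF : HeightOneSpectrum (𝓞 k) → Multiset ℂ}
    (hbadF : ∀ v, ∀ α ∈ badF v, ‖α‖ ≤ Ideal.absNorm v.asIdeal) {ε : ℝ} (hε : 0 < ε) :
    ∀ᶠ s : ℝ in 𝓝[>] 2,
      Real.log ‖L2 F F badF (s : ℂ)‖ / Real.log (1 / (s - 2)) - 2 ≤ 4 * g ^ 2 + ε := by
  have h1 := log_growth hF hF hsF hsF hbadF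
  have h2 : Tendsto (fun t => wsum (fun _ : HeightOneSpectrum (𝓞 k) => (1 : ℝ)) t / Lam t)
    (𝓝[>] 1) (𝓝 1) := hasMean_one
  have h3 := h1.add (h2.const_mul (4 * (g : ℝ) ^ 2))
  rw [zero_add, mul_one] at h3
  have h4 := h3.eventually_le_const (show 4 * (g : ℝ) ^ 2 < 4 * (g : ℝ) ^ 2 + ε by linarith)
  have h5 : ∀ᶠ t : ℝ in 𝓝[>] 1,
      Real.log ‖L2 F F badF ((t + 1 : ℝ) : ℂ)‖ / Lam t - 2 ≤ 4 * (g : ℝ) ^ 2 + ε := by
    filter_upwards [h4, self_mem_nhdsWithin, Lam_tendsto.eventually_gt_atTop 0] with t ht h6 h7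
    have h6' : 1 < t := h6
    have hb : Bdd (fun v : HeightOneSpectrum (𝓞 k) => aV F v * aV F v) :=
      (aV_bdd hF).mul (aV_bdd hF)
    have h8 : wsum (fun v => aV F v * aV F v) t ≤
        4 * (g : ℝ) ^ 2 * wsum (fun _ : HeightOneSpectrum (𝓞 k) => (1 : ℝ)) t := by
      rw [← wsum_const_mul]
      refine wsum_mono hb ((Bdd.const _).mul (Bdd.const 1)) (fun v => ?_) h6'
      have h9 := abs_aV_le hF v
      have h10 := abs_le.mp h9
      have : aV F v ^ 2 ≤ (2 * (g : ℝ)) ^ 2 := sq_le_sq' h10.1 h10.2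
      nlinarith
    have h11 : wsum (fun v => aV F v * aV F v) t / Lam t ≤
        4 * (g : ℝ) ^ 2 * (wsum (fun _ : HeightOneSpectrum (𝓞 k) => (1 : ℝ)) t / Lam t) := by
      rw [← mul_div_assoc]
      exact div_le_div_of_nonneg_right h8 h7.le
    linarith
  filter_upwards [Pool.Agent.H8.TW.tendsto_sub_one.eventually h5] with s hs
  have e1 : (s - 1 : ℝ) + 1 = s := by ring
  have e2 : Lam (s - 1) = Real.log (1 / (s - 2)) := by
    unfold Lam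
    rw [show s - 1 - 1 = s - 2 by ring]
  rw [e1, e2] at hs
  exact hs

/-- the absolute bound for the growth -/
theorem family_growth_abs (hF : F.natDegree = 2 * g + 1)
    (hsF : (F.map (algebraMap (𝓞 k) k)).Separable)
    (hdeg : ∀ h ∈ S, h.natDegree = 3) (hsep : ∀ h ∈ S, (h.map (Int.castRingHom ℚ)).Separable)
    (hmod : ∀ h ∈ S, IsModular h)
    (hne : ∀ h ∈ S, ∀ h' ∈ S, h ≠ h' → {p : ℕ | p.Prime ∧ ap h p ≠ ap h' p}.Infinite)
    {bad : ℤ[X] → HeightOneSpectrum (𝓞 k) → Multiset ℂ}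
    (hbad : ∀ h ∈ S, ∀ v, ∀ α ∈ bad h v, ‖α‖ ≤ Ideal.absNorm v.asIdeal) {ε : ℝ} (hε : 0 < ε) :
    ∀ᶠ s : ℝ in 𝓝[>] 2,
      ∑ h ∈ S, (Real.log ‖L2 F (up k h) (bad h) (s : ℂ)‖ / Real.log (1 / (s - 2)) - 2) ^ 2 ≤
        8 * (g : ℝ) ^ 2 * Module.finrank ℚ k + ε := by
  set n : ℝ := (Module.finrank ℚ k : ℝ) with hn
  have hn0 : 0 ≤ n := Nat.cast_nonneg _
  have hb0 : ∀ v : HeightOneSpectrum (𝓞 k), ∀ α ∈ (fun _ => (0 : Multiset ℂ)) v,
      ‖α‖ ≤ Ideal.absNorm v.asIdeal := by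
    intro v α hα
    simp at hα
  have e1 := family_growth hF hsF hdeg hsep hmod hne hbad hb0 (half_pos hε)
  have hδ : 0 < ε / (4 * n + 1) := by positivity
  have e2 := self_growth hF hsF hb0 hδ
  filter_upwards [e1, e2] with s h4 h5
  refine h4.trans ?_
  have h6 : 2 * n * (Real.log ‖L2 F F (fun _ => (0 : Multiset ℂ)) (s : ℂ)‖ /
      Real.log (1 / (s - 2)) - 2) ≤ 2 * n * (4 * (g : ℝ) ^ 2 + ε / (4 * n + 1)) :=
    mul_le_mul_of_nonneg_left h5 (by positivity)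
  have h7 : 2 * n * (ε / (4 * n + 1)) ≤ ε / 2 := by
    rw [← mul_div_assoc, div_le_iff₀ (by positivity)]
    nlinarith
  linarith

/-- the bound for the orders of the poles -/
theorem family_pole (hF : F.natDegree = 2 * g + 1)
    (hsF : (F.map (algebraMap (𝓞 k) k)).Separable)
    (hdeg : ∀ h ∈ S, h.natDegree = 3) (hsep : ∀ h ∈ S, (h.map (Int.castRingHom ℚ)).Separable)
    (hmod : ∀ h ∈ S, IsModular h)
    (hne : ∀ h ∈ S, ∀ h' ∈ S, h ≠ h' → {p : ℕ | p.Prime ∧ ap h p ≠ ap h' p}.Infinite)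
    {bad : ℤ[X] → HeightOneSpectrum (𝓞 k) → Multiset ℂ}
    (hbad : ∀ h ∈ S, ∀ v, ∀ α ∈ bad h v, ‖α‖ ≤ Ideal.absNorm v.asIdeal)
    {r : ℤ[X] → ℤ} (hr : ∀ h ∈ S, HasPole (L2 F (up k h) (bad h)) 2 (r h)) :
    ∑ h ∈ S, (r h - 2) ^ 2 ≤ 8 * (g : ℤ) ^ 2 * Module.finrank ℚ k ∧
    ∀ (badF : HeightOneSpectrum (𝓞 k) → Multiset ℂ),
      (∀ v, ∀ α ∈ badF v, ‖α‖ ≤ Ideal.absNorm v.asIdeal) → ∀ rF : ℤ, HasPole (L2 F F badF) 2 rF →
        ∑ h ∈ S, (r h - 2) ^ 2 ≤ 2 * Module.finrank ℚ k * (rF - 2) := by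
  have h1 : Tendsto (fun s : ℝ => ∑ h ∈ S, (Real.log ‖L2 F (up k h) (bad h) (s : ℂ)‖ /
      Real.log (1 / (s - 2)) - 2) ^ 2) (𝓝[>] 2) (𝓝 (∑ h ∈ S, ((r h : ℝ) - 2) ^ 2)) :=
    tendsto_finsetSum S fun h hh =>
      ((Pool.Agent.H8.TW.tendsto_of_hasPole (hr h hh)).sub_const 2).pow 2
  constructor
  · have h3 : ∀ ε : ℝ, 0 < ε → ∑ h ∈ S, ((r h : ℝ) - 2) ^ 2 ≤
        8 * (g : ℝ) ^ 2 * Module.finrank ℚ k + ε := fun ε hε =>
      le_of_tendsto h1 (family_growth_abs hF hsF hdeg hsep hmod hne hbad hε)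
    have h4 := le_of_forall_pos_le_add h3
    exact_mod_cast h4
  · intro badF hbadF rF hrF
    have h2 : Tendsto (fun s : ℝ => 2 * (Module.finrank ℚ k : ℝ) *
        (Real.log ‖L2 F F badF (s : ℂ)‖ / Real.log (1 / (s - 2)) - 2)) (𝓝[>] 2)
        (𝓝 (2 * (Module.finrank ℚ k : ℝ) * ((rF : ℝ) - 2))) :=
      ((Pool.Agent.H8.TW.tendsto_of_hasPole hrF).sub_const 2).const_mul _
    have h3 : ∀ ε : ℝ, 0 < ε → ∑ h ∈ S, ((r h : ℝ) - 2) ^ 2 ≤
        2 * (Module.finrank ℚ k : ℝ) * ((rF : ℝ) - 2) + ε := by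
      intro ε hε
      exact le_of_tendsto_of_tendsto h1 (h2.add_const ε)
        (family_growth hF hsF hdeg hsep hmod hne hbad hbadF hε)
    have h4 := le_of_forall_pos_le_add h3
    exact_mod_cast h4

end

end Pool.Agent.H18.RS
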